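import Pool.Agent.V5helper42.RS.P5

set_option autoImplicit false

/-!
# Upper and lower limits: one-sided comparison (helper42)
-/

namespace Pool.Agent.V5helper42.RS

open Filter Topology

theorem limsup_ge' (R sp : ℝ → ℝ)
    (h2 : ∀ ε : ℝ, 0 < ε → ∀ᶠ X : ℝ in atTop, ∃ x : ℝ, X / 3 ≤ x ∧ x ≤ 3 * X ∧ sp (Real.log X) - ε ≤ R x) :
    limsup (fun t : ℝ => ((sp t : ℝ) : EReal)) atTop ≤ limsup (fun x : ℝ => ((R x : ℝ) : EReal)) atTop := by
  rw [← EReal.le_of_forall_lt_iff_le]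
  intro z hz
  obtain ⟨z', hz1, hz2⟩ := EReal.lt_iff_exists_real_btwn.1 hz
  have hz2' : z' < z := by exact_mod_cast hz2
  have e1 := eventually_lt_of_limsup_lt hz1
  obtain ⟨x0, hx0⟩ := eventually_atTop.1 e1
  apply limsup_le_of_le (by isBoundedDefault)
  filter_upwards [Real.tendsto_exp_atTop.eventually (h2 (z - z') (by linarith)),
    Real.tendsto_exp_atTop.eventually_ge_atTop (3 * x0)] with t g1 g2
  obtain ⟨x, q1, q2, q3⟩ := g1
  rw [Real.log_exp] at q3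
  have q4 : R x < z' := by exact_mod_cast hx0 x (by linarith)
  exact_mod_cast (by linarith : sp t ≤ z)

theorem liminf_le' (R sm : ℝ → ℝ)
    (h2 : ∀ ε : ℝ, 0 < ε → ∀ᶠ X : ℝ in atTop, ∃ x : ℝ, X / 3 ≤ x ∧ x ≤ 3 * X ∧ R x ≤ sm (Real.log X) + ε) :
    liminf (fun x : ℝ => ((R x : ℝ) : EReal)) atTop ≤ liminf (fun t : ℝ => ((sm t : ℝ) : EReal)) atTop := by
  rw [← EReal.ge_of_forall_gt_iff_ge]
  intro z hz
  obtain ⟨z', hz1, hz2⟩ := EReal.lt_iff_exists_real_btwn.1 hz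
  have hz1' : z < z' := by exact_mod_cast hz1
  have e1 := eventually_lt_of_lt_liminf hz2
  obtain ⟨x0, hx0⟩ := eventually_atTop.1 e1
  apply le_liminf_of_le (by isBoundedDefault)
  filter_upwards [Real.tendsto_exp_atTop.eventually (h2 (z' - z) (by linarith)),
    Real.tendsto_exp_atTop.eventually_ge_atTop (3 * x0)] with t g1 g2
  obtain ⟨x, q1, q2, q3⟩ := g1
  rw [Real.log_exp] at q3
  have q4 : z' < R x := by exact_mod_cast hx0 x (by linarith)
  exact_mod_cast (by linarith : z ≤ sm t)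

end Pool.Agent.V5helper42.RS
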