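import Pool.Agent.V5helper42.RS.S8

set_option autoImplicit false

/-!
# Random sieve model: upper and lower limits (helper42)
-/

namespace Pool.Agent.V5helper42.RS

open Finset Filter Topology

theorem limsup_eq' (R sp : ℝ → ℝ) (h1 : ∀ ε : ℝ, 0 < ε → ∀ᶠ x : ℝ in atTop, R x ≤ sp (Real.log x) + ε)
    (h2 : ∀ ε : ℝ, 0 < ε → ∀ᶠ X : ℝ in atTop, ∃ x : ℝ, X / 3 ≤ x ∧ x ≤ 3 * X ∧ sp (Real.log X) - ε ≤ R x) :
    limsup (fun x : ℝ => ((R x : ℝ) : EReal)) atTop = limsup (fun t : ℝ => ((sp t : ℝ) : EReal)) atTop := by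
  apply le_antisymm
  · rw [← EReal.le_of_forall_lt_iff_le]
    intro z hz
    obtain ⟨z', hz1, hz2⟩ := EReal.lt_iff_exists_real_btwn.1 hz
    have hz2' : z' < z := by exact_mod_cast hz2
    have e1 := eventually_lt_of_limsup_lt hz1
    apply limsup_le_of_le (by isBoundedDefault)
    filter_upwards [Real.tendsto_log_atTop.eventually e1, h1 (z - z') (by linarith)] with x g1 g2
    have g1' : sp (Real.log x) < z' := by exact_mod_cast g1
    exact_mod_cast (by linarith : R x ≤ z)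
  · rw [← EReal.le_of_forall_lt_iff_le]
    intro z hz
    obtain ⟨z', hz1, hz2⟩ := EReal.lt_iff_exists_real_btwn.1 hz
    have hz2' : z' < z := by exact_mod_cast hz2
    have e1 := eventually_lt_of_limsup_lt hz1
    obtain ⟨x0, hx0⟩ := eventually_atTop.1 e1
    apply limsup_le_of_le (by isBoundedDefault)
    filter_upwards [Real.tendsto_exp_atTop.eventually (h2 (z - z') (by linarith)),
      Real.tendsto_exp_atTop.eventually_ge_atTop (3 * x0)] with t g1 g2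
    obtain ⟨x, q1, q2, q3⟩ := g1
    rw [Real.log_exp] at q3
    have q4 : R x < z' := by exact_mod_cast hx0 x (by linarith)
    exact_mod_cast (by linarith : sp t ≤ z)

theorem liminf_eq' (R sm : ℝ → ℝ) (h1 : ∀ ε : ℝ, 0 < ε → ∀ᶠ x : ℝ in atTop, sm (Real.log x) - ε ≤ R x)
    (h2 : ∀ ε : ℝ, 0 < ε → ∀ᶠ X : ℝ in atTop, ∃ x : ℝ, X / 3 ≤ x ∧ x ≤ 3 * X ∧ R x ≤ sm (Real.log X) + ε) :
    liminf (fun x : ℝ => ((R x : ℝ) : EReal)) atTop = liminf (fun t : ℝ => ((sm t : ℝ) : EReal)) atTop := by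
  apply le_antisymm
  · rw [← EReal.ge_of_forall_gt_iff_ge]
    intro z hz
    obtain ⟨z', hz1, hz2⟩ := EReal.lt_iff_exists_real_btwn.1 hz
    have hz1' : z < z' := by exact_mod_cast hz1
    have e1 := eventually_lt_of_lt_liminf hz2
    obtain ⟨x0, hx0⟩ := eventually_atTop.1 e1
    apply le_liminf_of_le (by isBoundedDefault)
    filter_upwards [Real.tendsto_exp_atTop.eventually (h2 (z' - z) (by linarith)),
      Real.tendsto_exp_atTop.eventually_ge_atTop (3 * x0)] with t g1 g2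
    obtain ⟨x, q1, q2, q3⟩ := g1
    rw [Real.log_exp] at q3
    have q4 : z' < R x := by exact_mod_cast hx0 x (by linarith)
    exact_mod_cast (by linarith : z ≤ sm t)
  · rw [← EReal.ge_of_forall_gt_iff_ge]
    intro z hz
    obtain ⟨z', hz1, hz2⟩ := EReal.lt_iff_exists_real_btwn.1 hz
    have hz1' : z < z' := by exact_mod_cast hz1
    have e1 := eventually_lt_of_lt_liminf hz2
    apply le_liminf_of_le (by isBoundedDefault)
    filter_upwards [Real.tendsto_log_atTop.eventually e1, h1 (z' - z) (by linarith)] with x g1 g2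
    have g1' : z' < sm (Real.log x) := by exact_mod_cast g1
    exact_mod_cast (by linarith : z ≤ R x)

/-- the sets of the numbers of survivors, with a real variable -/
lemma counts_eq (t L : ℝ) (ht : 0 ≤ t) (hL : 0 ≤ L) :
    {N | ∃ c : ℕ → ℕ, N = {n : ℕ | 1 ≤ n ∧ (n : ℝ) ≤ L ∧
      ∀ p : ℕ, p.Prime → (p : ℝ) ≤ t → ¬ n ≡ c p [MOD p]}.ncard} = Cts ⌊t⌋₊ ⌊L⌋₊ := by
  unfold Cts
  ext N
  simp only [Set.mem_setOf_eq]
  apply exists_congr
  intro c
  rw [← Set.ncard_coe_finset]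
  have e : {n : ℕ | 1 ≤ n ∧ (n : ℝ) ≤ L ∧ ∀ p : ℕ, p.Prime → (p : ℝ) ≤ t → ¬ n ≡ c p [MOD p]} =
      (((Icc 1 ⌊L⌋₊).filter (fun n => ∀ p ∈ Pr ⌊t⌋₊, ¬ n ≡ c p [MOD p]) : Finset ℕ) : Set ℕ) := by
    ext n
    simp only [Set.mem_setOf_eq, coe_filter, mem_Icc, mem_Pr, Nat.le_floor_iff ht, Nat.le_floor_iff hL]
    constructor
    · rintro ⟨h1, h2, h3⟩
      exact ⟨⟨h1, h2⟩, fun p hp => h3 p hp.1 hp.2⟩
    · rintro ⟨⟨h1, h2⟩, h3⟩
      exact ⟨h1, h2, fun p hp1 hp2 => h3 p ⟨hp1, hp2⟩⟩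
  rw [e]

end Pool.Agent.V5helper42.RS
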