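import Pool.Agent.H305R2.MertensE
import Pool.Agent.W41.Sieve

set_option autoImplicit false

/-!
# Random sieve model: the product of Mertens (helper42)
-/

namespace Pool.Agent.V5helper42.RS

open Finset Filter Topology
open Pool.Agent.W41 (V V_ge V_pos fac_pos fac_le_one V_le_one)

/-- `∏_{q ≤ n} (1 - 1 / q)⁻¹` -/
noncomputable def W (n : ℕ) : ℝ := ∏ q ∈ (Icc 1 n).filter Nat.Prime, (1 - (q : ℝ)⁻¹)⁻¹

/-- the model: the natural numbers `n` outside the class of `a p` modulo `p` for every prime `p` with `W p ≤ log n` -/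
def model (a : ℕ → ℕ) : Set ℕ := {n | ∀ p : ℕ, p.Prime → W p ≤ Real.log n → ¬ n ≡ a p [MOD p]}

lemma W_eq (n : ℕ) : W n = 1 / V ((Icc 1 n).filter Nat.Prime) := by
  unfold W V
  rw [prod_inv_distrib, one_div]
  simp only [one_div]

lemma W_succ (n : ℕ) : W (n + 1) = if (n + 1).Prime then (1 - (((n + 1 : ℕ) : ℝ))⁻¹)⁻¹ * W n else W n := by
  unfold W
  have e : Icc 1 (n + 1) = insert (n + 1) (Icc 1 n) := by
    ext x; simp only [mem_Icc, mem_insert]; omega
  rw [e, filter_insert]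
  split_ifs with h
  · rw [prod_insert (by simp)]
  · rfl

lemma W_pos (n : ℕ) : 0 < W n := by
  rw [W_eq]
  exact one_div_pos.2 (V_pos fun p hp => (mem_filter.1 hp).2)

lemma W_mono : Monotone W := by
  apply monotone_nat_of_le_succ
  intro n
  rw [W_succ]
  split_ifs with h
  · have h1 := fac_pos h
    have h2 : (1 : ℝ) ≤ (1 - (((n + 1 : ℕ) : ℝ))⁻¹)⁻¹ := by
      rw [one_div] at h1
      apply (one_le_inv₀ h1).2
      have : (0 : ℝ) ≤ (((n + 1 : ℕ) : ℝ))⁻¹ := by positivity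
      linarith
    nlinarith [W_pos n]
  · exact le_rfl

lemma W_one_le (n : ℕ) : 1 ≤ W n := by
  have := W_mono (Nat.zero_le n)
  have h0 : W 0 = 1 := by simp [W]
  linarith

lemma W_upper : ∃ C : ℝ, 0 < C ∧ ∀ᶠ n : ℕ in atTop, W n ≤ C * Real.log n := by
  refine ⟨Real.exp Real.eulerMascheroniConstant + 1, by positivity, ?_⟩
  have h := Pool.Agent.H305R2.mertens_three.eventually (gt_mem_nhds (lt_add_one _))
  filter_upwards [h, eventually_gt_atTop 1] with n hn hn1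
  have hl : 0 < Real.log n := Real.log_pos (by exact_mod_cast hn1)
  rw [div_lt_iff₀ hl] at hn
  exact hn.le

lemma W_tendsto : Tendsto W atTop atTop := by
  have h := Pool.Agent.H305R2.mertens_three
  have hlog : Tendsto (fun n : ℕ => Real.log n) atTop atTop :=
    Real.tendsto_log_atTop.comp tendsto_natCast_atTop_atTop
  have h2 := Filter.Tendsto.pos_mul_atTop (Real.exp_pos _) h hlog
  refine h2.congr' ?_
  filter_upwards [eventually_gt_atTop 1] with n hn1
  have hl : 0 < Real.log n := Real.log_pos (by exact_mod_cast hn1)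
  unfold W
  field_simp

/-- the first `n` with `t < W n` -/
noncomputable def NN (t : ℝ) : ℕ := sInf {n : ℕ | t < W n}

lemma NN_spec (t : ℝ) : t < W (NN t) := by
  have h : {n : ℕ | t < W n}.Nonempty := (W_tendsto.eventually_gt_atTop t).exists
  exact Nat.sInf_mem h

lemma lt_NN_iff (t : ℝ) (n : ℕ) : n < NN t ↔ W n ≤ t := by
  constructor
  · intro h
    by_contra h1
    exact absurd (Nat.sInf_le (not_le.1 h1) : NN t ≤ n) (not_le.2 h)
  · intro h
    by_contra h1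
    exact absurd (NN_spec t) (not_lt.2 ((W_mono (not_lt.1 h1)).trans h))

/-- the primes `p` with `W p ≤ t` -/
noncomputable def TT (t : ℝ) : Finset ℕ := (range (NN t)).filter Nat.Prime

lemma mem_TT (t : ℝ) (p : ℕ) : p ∈ TT t ↔ p.Prime ∧ W p ≤ t := by
  unfold TT
  rw [mem_filter, mem_range, lt_NN_iff, and_comm]

lemma TT_prime (t : ℝ) : ∀ p ∈ TT t, p.Prime := fun p hp => ((mem_TT t p).1 hp).1

lemma V_TT (t : ℝ) (ht : 1 ≤ t) : V (TT t) = 1 / W (NN t - 1) ∧ 1 ≤ NN t := by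
  have h0 : W 0 = 1 := by simp [W]
  have h1 : 1 ≤ NN t := (lt_NN_iff t 0).2 (by rw [h0]; exact ht)
  refine ⟨?_, h1⟩
  rw [W_eq, one_div_one_div]
  congr 1
  ext p
  unfold TT
  simp only [mem_filter, mem_range, mem_Icc]
  constructor
  · rintro ⟨h2, h3⟩
    exact ⟨⟨h3.one_lt.le, by omega⟩, h3⟩
  · rintro ⟨⟨h2, h3⟩, h4⟩
    exact ⟨by omega, h4⟩

lemma V_TT_ge (t : ℝ) (ht : 1 ≤ t) : 1 / t ≤ V (TT t) := by
  obtain ⟨h1, h2⟩ := V_TT t ht
  rw [h1]
  exact one_div_le_one_div_of_le (W_pos _) ((lt_NN_iff t _).1 (by omega))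

lemma V_TT_le (t : ℝ) (ht : 1 ≤ t) (w : ℕ) (hw : 1 ≤ w) (hWw : W w ≤ t) :
    V (TT t) ≤ (1 + 1 / (w : ℝ)) / t := by
  obtain ⟨h1, h2⟩ := V_TT t ht
  have hNw : w < NN t := (lt_NN_iff t w).2 hWw
  obtain ⟨N, hN⟩ : ∃ N, NN t = N + 1 := ⟨NN t - 1, by omega⟩
  rw [h1, hN, Nat.add_sub_cancel]
  have h3 := NN_spec t
  have h4 : W N ≤ t := (lt_NN_iff t N).1 (by omega)
  rw [hN, W_succ] at h3
  split_ifs at h3 with hp
  · have hwN : (w : ℝ) ≤ N := by exact_mod_cast (by omega : w ≤ N)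
    have hw0 : (0 : ℝ) < w := by exact_mod_cast hw
    have hN0 : (0 : ℝ) < N := hw0.trans_le hwN
    have e : (1 - (((N + 1 : ℕ) : ℝ))⁻¹)⁻¹ = 1 + 1 / (N : ℝ) := by
      push_cast
      have : (N : ℝ) + 1 ≠ 0 := by positivity
      have h5 : 1 - ((N : ℝ) + 1)⁻¹ = N / (N + 1) := by field_simp; ring
      rw [h5, inv_div]
      field_simp
    rw [e] at h3
    have h6 : 1 / (N : ℝ) ≤ 1 / w := one_div_le_one_div_of_le hw0 hwN
    rw [div_le_div_iff₀ (W_pos _) (by linarith), one_mul]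
    have h7 : (1 + 1 / (N : ℝ)) * W N ≤ (1 + 1 / (w : ℝ)) * W N :=
      mul_le_mul_of_nonneg_right (by linarith) (W_pos _).le
    linarith
  · exact absurd h3 (not_lt.2 h4)

lemma TT_mono {s t : ℝ} (h : s ≤ t) : TT s ⊆ TT t := by
  intro p hp
  rw [mem_TT] at hp ⊢
  exact ⟨hp.1, hp.2.trans h⟩

end Pool.Agent.V5helper42.RS
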