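import Pool.Agent.V5helper42.RS.D
import Pool.Agent.V5helper42.RS.W

set_option autoImplicit false

/-!
# Random sieve model: all intervals (helper42)
-/

namespace Pool.Agent.V5helper42.RS

open Finset MeasureTheory ProbabilityTheory Filter Topology
open scoped ENNReal
open Pool.Agent.W41 (V V_ge V_pos fac_pos fac_le_one V_le_one)

lemma modEq_iff {n r p : ℕ} (hr : r < p) : n ≡ r [MOD p] ↔ n % p = r := by
  unfold Nat.ModEq
  rw [Nat.mod_eq_of_lt hr]

open Classical in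
lemma sandwich (ρ : ℕ → ℕ) (hρ : ∀ p : ℕ, p.Prime → ρ p < p) (m y : ℕ) (hm : 1 ≤ m) :
    ((Ioc m (m + y)).filter (fun n => ∀ p ∈ TT (Real.log ((m + y : ℕ) : ℝ)), n % p ≠ ρ p)).card ≤
      ((Ioc m (m + y)).filter (fun n => n ∈ model ρ)).card ∧
    ((Ioc m (m + y)).filter (fun n => n ∈ model ρ)).card ≤
      ((Ioc m (m + y)).filter (fun n => ∀ p ∈ TT (Real.log (m : ℝ)), n % p ≠ ρ p)).card := by
  have hm0 : (0 : ℝ) < m := by exact_mod_cast hm
  constructor
  · apply card_le_card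
    intro n hn
    rw [mem_filter, mem_Ioc] at hn ⊢
    refine ⟨hn.1, fun p hp hW h => hn.2 p ?_ ((modEq_iff (hρ p hp)).1 h)⟩
    rw [mem_TT]
    refine ⟨hp, hW.trans (Real.log_le_log (by exact_mod_cast (by omega : 0 < n)) (by exact_mod_cast hn.1.2))⟩
  · apply card_le_card
    intro n hn
    rw [mem_filter, mem_Ioc] at hn ⊢
    refine ⟨hn.1, fun p hp h => ?_⟩
    rw [mem_TT] at hp
    exact hn.2 p hp.1 (hp.2.trans (Real.log_le_log hm0 (by exact_mod_cast hn.1.1.le)))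
      ((modEq_iff (hρ p hp.1)).2 h)

section

variable {Ω : Type*} [MeasurableSpace Ω]

lemma ae_lt (μ : Measure Ω) [IsProbabilityMeasure μ] (a : ℕ → Ω → ℕ) (hm : ∀ p, Measurable (a p))
    (hu : ∀ p : ℕ, p.Prime → ∀ r < p, μ {ω | a p ω = r} = (p : ℝ≥0∞)⁻¹) :
    ∀ᵐ ω ∂μ, ∀ p : ℕ, p.Prime → a p ω < p := by
  rw [ae_all_iff]
  intro p
  by_cases hp : p.Prime
  · have h1 : μ (⋃ r ∈ range p, {ω | a p ω = r}) = 1 := by
      rw [measure_biUnion_finset]
      · rw [sum_congr rfl (fun r hr => hu p hp r (mem_range.1 hr)), sum_const, card_range, nsmul_eq_mul]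
        exact ENNReal.mul_inv_cancel (by exact_mod_cast hp.ne_zero) (ENNReal.natCast_ne_top p)
      · intro r _ r' _ hrr
        rw [Function.onFun, Set.disjoint_left]
        intro ω h1 h2
        exact hrr (h1.symm.trans h2)
      · intro r _
        exact hm p (measurableSet_singleton r)
    have h2 : MeasurableSet (⋃ r ∈ range p, {ω | a p ω = r}) :=
      Finset.measurableSet_biUnion _ fun r _ => hm p (measurableSet_singleton r)
    have h3 := (prob_compl_eq_zero_iff h2).2 h1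
    rw [ae_iff]
    refine measure_mono_null ?_ h3
    intro ω hω
    simp only [Set.mem_setOf_eq, not_forall, not_lt] at hω
    obtain ⟨_, hω⟩ := hω
    simp only [Set.mem_compl_iff, Set.mem_iUnion, Set.mem_setOf_eq, mem_range, not_exists]
    intro r hr h4
    omega
  · exact Eventually.of_forall fun ω h => absurd h hp

lemma ev_log (k : ℕ) (C : ℝ) : ∀ᶠ m : ℕ in atTop, C ≤ (Real.log m) ^ (k + 1) := by
  have h1 : Tendsto (fun m : ℕ => (Real.log m) ^ (k + 1)) atTop atTop :=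
    (tendsto_pow_atTop (by omega)).comp (Real.tendsto_log_atTop.comp tendsto_natCast_atTop_atTop)
  exact h1.eventually_ge_atTop C

/-- the level -/
noncomputable def ww (m : ℕ) : ℕ := ⌈(Real.log m) ^ 4⌉₊

lemma ww_ge (m : ℕ) : (Real.log m) ^ 4 ≤ ww m := Nat.le_ceil _

lemma ww_le : ∀ᶠ m : ℕ in atTop, (ww m : ℝ) ≤ (Real.log m) ^ 5 := by
  filter_upwards [ev_log 0 2, eventually_ge_atTop 1] with m hm hm1
  have h1 : (2 : ℝ) ≤ Real.log m := by simpa using hm
  have h2 := Nat.ceil_lt_add_one (show 0 ≤ (Real.log m) ^ 4 by positivity)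
  unfold ww
  have h3 : (1 : ℝ) ≤ (Real.log m) ^ 4 := one_le_pow₀ (by linarith)
  have e : (Real.log m) ^ 5 = Real.log m * (Real.log m) ^ 4 := by ring
  rw [e]
  nlinarith

lemma ww_tendsto : Tendsto ww atTop atTop := by
  unfold ww
  refine tendsto_nat_ceil_atTop.comp ?_
  exact (tendsto_pow_atTop (by norm_num)).comp (Real.tendsto_log_atTop.comp tendsto_natCast_atTop_atTop)

lemma W_ww : ∀ᶠ m : ℕ in atTop, W (ww m) ≤ Real.log m := by
  obtain ⟨C, hC, hW⟩ := W_upper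
  have h1 := ww_tendsto.eventually hW
  have hlog : Tendsto (fun m : ℕ => Real.log m) atTop atTop :=
    Real.tendsto_log_atTop.comp tendsto_natCast_atTop_atTop
  have h2 : ∀ᶠ m : ℕ in atTop, Real.log (Real.log m) ≤ (1 / (5 * C)) * Real.log m := by
    have h3 := (Real.isLittleO_log_id_atTop.comp_tendsto hlog).bound (show 0 < 1 / (5 * C) by positivity)
    filter_upwards [h3, ev_log 0 1] with m hm hm1
    simp only [Function.comp, id] at hm
    have h4 : (1 : ℝ) ≤ Real.log m := by simpa using hm1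
    rw [Real.norm_eq_abs, Real.norm_eq_abs, abs_of_nonneg (by linarith : 0 ≤ Real.log (m : ℝ))] at hm
    exact (le_abs_self _).trans hm
  filter_upwards [h1, h2, ww_le, ev_log 0 2] with m hm1 hm2 hm3 hm4
  have h4 : (2 : ℝ) ≤ Real.log m := by simpa using hm4
  refine hm1.trans ?_
  have h5 : (0 : ℝ) < ww m := lt_of_lt_of_le (by positivity) (ww_ge m)
  have h6 : Real.log (ww m) ≤ 5 * Real.log (Real.log m) := by
    have := Real.log_le_log h5 hm3
    rwa [Real.log_pow] at this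
  calc C * Real.log (ww m) ≤ C * (5 * Real.log (Real.log m)) := mul_le_mul_of_nonneg_left h6 hC.le
    _ ≤ C * (5 * (1 / (5 * C) * Real.log m)) := by
        apply mul_le_mul_of_nonneg_left _ hC.le
        linarith
    _ = Real.log m := by field_simp

/-- the bad event at `m` -/
def Bad (a : ℕ → Ω → ℕ) (ε : ℝ) (B m : ℕ) : Set Ω :=
  ⋃ y ∈ (range (m + 1)).filter (fun y : ℕ => (Real.log m) ^ B ≤ (y : ℝ)), ⋃ k ∈ ({m, m + y} : Finset ℕ),
    {ω | ¬ |(((Ioc m (m + y)).filter (fun n => ∀ p ∈ TT (Real.log (k : ℝ)), n % p ≠ a p ω)).card : ℝ) -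
      y * V (TT (Real.log (k : ℝ)))| ≤ 3 * ε * (y * V (TT (Real.log (k : ℝ))))}

theorem prob_Bad (μ : Measure Ω) [IsProbabilityMeasure μ] (a : ℕ → Ω → ℕ) (hm : ∀ p, Measurable (a p))
    (hi : iIndepFun a μ) (hu : ∀ p : ℕ, p.Prime → ∀ r < p, μ {ω | a p ω = r} = (p : ℝ≥0∞)⁻¹)
    (ε : ℝ) (hε : 0 < ε) (hε1 : ε ≤ 1) (K : ℕ) (hFL : FL ε K) : ∀ᶠ m : ℕ in atTop,
    μ (Bad a ε (5 * K + 7) m) ≤ ENNReal.ofReal (1 / (m : ℝ) ^ 2) := by
  obtain ⟨w0, hw0⟩ := prob_T μ a hm hi hu ε hε hε1 K hFL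
  filter_upwards [ww_tendsto.eventually_ge_atTop w0, ww_le, ev_log 0 2, ev_log 0 (512 / ε ^ 2),
    eventually_ge_atTop 1] with m h1 h2 h3 h4 h5
  have hm0 : (0 : ℝ) < m := by exact_mod_cast h5
  have hL : (2 : ℝ) ≤ Real.log m := by simpa using h3
  have hL2 : 512 / ε ^ 2 ≤ Real.log m := by simpa using h4
  have hL0 : (0 : ℝ) < Real.log m := by linarith
  -- one event
  have one : ∀ y ∈ (range (m + 1)).filter (fun y : ℕ => (Real.log m) ^ (5 * K + 7) ≤ (y : ℝ)),
      ∀ k ∈ ({m, m + y} : Finset ℕ),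
      μ {ω | ¬ |(((Ioc m (m + y)).filter (fun n => ∀ p ∈ TT (Real.log (k : ℝ)), n % p ≠ a p ω)).card : ℝ) -
      y * V (TT (Real.log (k : ℝ)))| ≤ 3 * ε * (y * V (TT (Real.log (k : ℝ))))} ≤
      ENNReal.ofReal (2 * Real.exp (-(ε ^ 2 * (Real.log m) ^ 2 / 64))) := by
    intro y hy k hk
    rw [mem_filter, mem_range] at hy
    obtain ⟨hym, hyL⟩ := hy
    have hkm : m ≤ k ∧ k ≤ 2 * m := by
      rw [mem_insert, mem_singleton] at hk
      omega
    have hk0 : (0 : ℝ) < k := by exact_mod_cast (by omega : 0 < k)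
    have hlk1 : Real.log m ≤ Real.log k := Real.log_le_log hm0 (by exact_mod_cast hkm.1)
    have hlk2 : Real.log k ≤ 2 * Real.log m := by
      have h6 : Real.log k ≤ Real.log (2 * m) := Real.log_le_log hk0 (by exact_mod_cast hkm.2)
      rw [Real.log_mul (by norm_num) hm0.ne'] at h6
      have h7 : Real.log 2 ≤ 1 := by
        have := Real.log_two_lt_d9; linarith
      linarith
    have hVk : 1 / (2 * Real.log m) ≤ V (TT (Real.log k)) :=
      (one_div_le_one_div_of_le (by linarith) hlk2).trans (V_TT_ge _ (by linarith))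
    have hp1 : (ww m : ℝ) ^ K ≤ y := by
      calc (ww m : ℝ) ^ K ≤ ((Real.log m) ^ 5) ^ K := pow_le_pow_left₀ (Nat.cast_nonneg _) h2 K
        _ = (Real.log m) ^ (5 * K) := by rw [← pow_mul]
        _ ≤ (Real.log m) ^ (5 * K + 7) := pow_le_pow_right₀ (by linarith) (by omega)
        _ ≤ y := hyL
    have hp2 : (ww m : ℝ) ≤ y := by
      calc (ww m : ℝ) ≤ (Real.log m) ^ 5 := h2
        _ ≤ (Real.log m) ^ (5 * K + 7) := pow_le_pow_right₀ (by linarith) (by omega)
        _ ≤ y := hyL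
    have hp3 : (ww m : ℝ) ≤ y * V (TT (Real.log k)) := by
      have h6 : (Real.log m) ^ 7 * (1 / (2 * Real.log m)) ≤ y * V (TT (Real.log k)) := by
        apply mul_le_mul _ hVk (by positivity) (Nat.cast_nonneg _)
        exact (pow_le_pow_right₀ (by linarith) (by omega)).trans hyL
      have h7 : (Real.log m) ^ 7 * (1 / (2 * Real.log m)) = (Real.log m) ^ 5 * (Real.log m / 2) := by
        field_simp
      have h8 : (Real.log m) ^ 5 * 1 ≤ (Real.log m) ^ 5 * (Real.log m / 2) :=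
        mul_le_mul_of_nonneg_left (by linarith) (by positivity)
      linarith
    refine (hw0 (ww m) h1 y (by exact_mod_cast hp1) (by exact_mod_cast hp2) (TT (Real.log k))
      (TT_prime _) hp3 m).trans ?_
    apply ENNReal.ofReal_le_ofReal
    apply mul_le_mul_of_nonneg_left _ (by norm_num)
    apply Real.exp_le_exp.2
    rw [neg_le_neg_iff]
    have h6 : (1 / (2 * Real.log m)) ^ 2 ≤ V (TT (Real.log k)) ^ 2 := pow_le_pow_left₀ (by positivity) hVk 2
    have h7 : (Real.log m) ^ 4 * (1 / (2 * Real.log m)) ^ 2 ≤ ww m * V (TT (Real.log k)) ^ 2 :=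
      mul_le_mul (ww_ge m) h6 (by positivity) (Nat.cast_nonneg _)
    have h8 : (Real.log m) ^ 4 * (1 / (2 * Real.log m)) ^ 2 = (Real.log m) ^ 2 / 4 := by field_simp; norm_num
    rw [h8] at h7
    have h9 := mul_le_mul_of_nonneg_left h7 (show 0 ≤ ε ^ 2 / 16 by positivity)
    calc ε ^ 2 * (Real.log m) ^ 2 / 64 = ε ^ 2 / 16 * ((Real.log m) ^ 2 / 4) := by ring
      _ ≤ ε ^ 2 / 16 * (ww m * V (TT (Real.log k)) ^ 2) := h9
      _ = _ := by ring
  -- the union
  unfold Bad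
  refine (measure_biUnion_finset_le _ _).trans ?_
  have h6 : ∀ y ∈ (range (m + 1)).filter (fun y : ℕ => (Real.log m) ^ (5 * K + 7) ≤ (y : ℝ)),
      μ (⋃ k ∈ ({m, m + y} : Finset ℕ),
    {ω | ¬ |(((Ioc m (m + y)).filter (fun n => ∀ p ∈ TT (Real.log (k : ℝ)), n % p ≠ a p ω)).card : ℝ) -
      y * V (TT (Real.log (k : ℝ)))| ≤ 3 * ε * (y * V (TT (Real.log (k : ℝ))))}) ≤
      2 * ENNReal.ofReal (2 * Real.exp (-(ε ^ 2 * (Real.log m) ^ 2 / 64))) := by
    intro y hy
    refine (measure_biUnion_finset_le _ _).trans ((sum_le_sum (one y hy)).trans ?_)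
    rw [sum_const, nsmul_eq_mul]
    gcongr
    exact_mod_cast card_le_two
  refine (sum_le_sum h6).trans ?_
  rw [sum_const, nsmul_eq_mul]
  have h7 : (((range (m + 1)).filter (fun y : ℕ => (Real.log m) ^ (5 * K + 7) ≤ (y : ℝ))).card : ℝ≥0∞) ≤ ((m + 1 : ℕ) : ℝ≥0∞) := by
    have := card_filter_le (range (m + 1)) (fun y : ℕ => (Real.log m) ^ (5 * K + 7) ≤ (y : ℝ))
    rw [card_range] at this
    exact_mod_cast this
  refine (mul_le_mul_left h7 _).trans ?_
  have e2 : (2 : ℝ≥0∞) = ENNReal.ofReal 2 := by simp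
  rw [e2, ← ENNReal.ofReal_natCast, ← ENNReal.ofReal_mul (by norm_num), ← ENNReal.ofReal_mul (by positivity)]
  apply ENNReal.ofReal_le_ofReal
  -- (m + 1) * 4 * exp(-ε² L² / 64) ≤ 1 / m²
  have hm1 : (1 : ℝ) ≤ m := by exact_mod_cast h5
  have h8 : (((m + 1 : ℕ) : ℝ)) ≤ 2 * m := by push_cast; linarith
  have h9 : 5 * Real.log m + 3 ≤ ε ^ 2 * (Real.log m) ^ 2 / 64 := by
    have h10 : 8 ≤ ε ^ 2 * Real.log m / 64 := by
      rw [div_le_iff₀ (by positivity)] at hL2
      linarith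
    have h11 : ε ^ 2 * (Real.log m) ^ 2 / 64 = (ε ^ 2 * Real.log m / 64) * Real.log m := by ring
    rw [h11]
    nlinarith
  have h10 : Real.exp (-(ε ^ 2 * (Real.log m) ^ 2 / 64)) ≤ Real.exp (-(5 * Real.log m + 3)) :=
    Real.exp_le_exp.2 (by linarith)
  have h11 : Real.exp (-(5 * Real.log m + 3)) = Real.exp (-3) * (1 / (m : ℝ) ^ 5) := by
    have : -(5 * Real.log m + 3) = -3 + (-(((5 : ℕ) : ℝ) * Real.log m)) := by push_cast; ring
    rw [this, Real.exp_add, Real.exp_neg (((5 : ℕ) : ℝ) * Real.log m), ← Real.log_pow, Real.exp_log (by positivity), one_div]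
  have h12 : Real.exp (-3) ≤ 1 / 8 := by
    have h13 : (8 : ℝ) ≤ Real.exp 3 := by
      have h14 := Real.quadratic_le_exp_of_nonneg (show (0 : ℝ) ≤ 3 by norm_num)
      linarith
    rw [Real.exp_neg, ← one_div]
    exact one_div_le_one_div_of_le (by norm_num) h13
  rw [h11] at h10
  have h13 : (0 : ℝ) ≤ 1 / (m : ℝ) ^ 5 := by positivity
  have h14 : Real.exp (-3) * (1 / (m : ℝ) ^ 5) ≤ 1 / 8 * (1 / (m : ℝ) ^ 5) := mul_le_mul_of_nonneg_right h12 h13
  have h15 : 1 / (m : ℝ) ^ 4 ≤ 1 / (m : ℝ) ^ 2 :=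
    one_div_le_one_div_of_le (by positivity) (pow_le_pow_right₀ hm1 (by norm_num))
  calc (((m + 1 : ℕ) : ℝ)) * (2 * (2 * Real.exp (-(ε ^ 2 * (Real.log m) ^ 2 / 64))))
      ≤ (2 * m) * (2 * (2 * (1 / 8 * (1 / (m : ℝ) ^ 5)))) := by
        apply mul_le_mul h8 _ (by positivity) (by positivity)
        linarith
    _ = 1 / (m : ℝ) ^ 4 := by field_simp; norm_num
    _ ≤ 1 / (m : ℝ) ^ 2 := h15

open Classical in
/-- almost surely all intervals are regular -/
theorem ae_regular (μ : Measure Ω) [IsProbabilityMeasure μ] (a : ℕ → Ω → ℕ) (hm : ∀ p, Measurable (a p))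
    (hi : iIndepFun a μ) (hu : ∀ p : ℕ, p.Prime → ∀ r < p, μ {ω | a p ω = r} = (p : ℝ≥0∞)⁻¹)
    (ε : ℝ) (hε : 0 < ε) (hε1 : ε ≤ 1 / 4) (K : ℕ) (hFL : FL ε K) : ∀ᵐ ω ∂μ, ∀ᶠ m : ℕ in atTop, ∀ y : ℕ,
    (Real.log m) ^ (5 * K + 7) ≤ (y : ℝ) → y ≤ m →
    |(((Ioc m (m + y)).filter (fun n => n ∈ model (fun q => a q ω))).card : ℝ) - y / Real.log m| ≤
      4 * ε * (y / Real.log m) := by
  have hbad := prob_Bad μ a hm hi hu ε hε (by linarith) K hFL
  obtain ⟨m0, hm0⟩ := eventually_atTop.1 hbad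
  have hBC : ∀ᵐ ω ∂μ, ∀ᶠ m : ℕ in atTop, ω ∉ (if m0 ≤ m then Bad a ε (5 * K + 7) m else ∅) := by
    apply ae_eventually_notMem
    have hs : Summable (fun m : ℕ => 1 / (m : ℝ) ^ 2) := Real.summable_one_div_nat_pow.2 (by norm_num)
    refine ne_top_of_le_ne_top hs.tsum_ofReal_ne_top ?_
    apply ENNReal.tsum_le_tsum
    intro m
    split_ifs with h
    · exact hm0 m h
    · simp
  filter_upwards [hBC, ae_lt μ a hm hu] with ω h1 h2
  filter_upwards [h1, eventually_ge_atTop m0, W_ww, ev_log 0 2, ev_log 0 (4 / ε), eventually_ge_atTop 1]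
    with m g1 g2 g3 g4 g5 g6
  intro y hyL hym
  rw [if_pos g2] at g1
  have hm0' : (0 : ℝ) < m := by exact_mod_cast g6
  have hL : (2 : ℝ) ≤ Real.log m := by simpa using g4
  have hL2 : 4 / ε ≤ Real.log m := by simpa using g5
  have hL0 : (0 : ℝ) < Real.log m := by linarith
  have key : ∀ k ∈ ({m, m + y} : Finset ℕ),
      |(((Ioc m (m + y)).filter (fun n => ∀ p ∈ TT (Real.log (k : ℝ)), n % p ≠ a p ω)).card : ℝ) -
      y * V (TT (Real.log (k : ℝ)))| ≤ 3 * ε * (y * V (TT (Real.log (k : ℝ)))) := by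
    intro k hk
    by_contra hcon
    apply g1
    unfold Bad
    simp only [Set.mem_iUnion]
    refine ⟨y, ?_, k, hk, hcon⟩
    rw [mem_filter, mem_range]
    exact ⟨by omega, hyL⟩
  obtain ⟨s1, s2⟩ := sandwich (fun q => a q ω) h2 m y g6
  have hN0 : (0 : ℝ) ≤ (((Ioc m (m + y)).filter (fun n => n ∈ model (fun q => a q ω))).card : ℝ) := Nat.cast_nonneg _
  have s1' : (((Ioc m (m + y)).filter (fun n => ∀ p ∈ TT (Real.log ((m + y : ℕ) : ℝ)), n % p ≠ a p ω)).card : ℝ) ≤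
      (((Ioc m (m + y)).filter (fun n => n ∈ model (fun q => a q ω))).card : ℝ) := by exact_mod_cast s1
  have s2' : (((Ioc m (m + y)).filter (fun n => n ∈ model (fun q => a q ω))).card : ℝ) ≤
      (((Ioc m (m + y)).filter (fun n => ∀ p ∈ TT (Real.log (m : ℝ)), n % p ≠ a p ω)).card : ℝ) := by exact_mod_cast s2
  have ku := (abs_le.1 (key m (by simp))).2
  have kl := (abs_le.1 (key (m + y) (by simp))).1
  obtain ⟨N, hN⟩ : ∃ N : ℝ, N = (((Ioc m (m + y)).filter (fun n => n ∈ model (fun q => a q ω))).card : ℝ) := ⟨_, rfl⟩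
  rw [← hN] at s1' s2' hN0 ⊢
  have hy0 : (0 : ℝ) ≤ y := Nat.cast_nonneg _
  have hyL0 : 0 ≤ (y : ℝ) / Real.log m := by positivity
  have hww1 : (1 : ℝ) ≤ ww m := by
    have h3 : (1 : ℝ) ≤ (Real.log m) ^ 4 := one_le_pow₀ (by linarith)
    exact h3.trans (ww_ge m)
  have hwwL : Real.log m ≤ ww m := by
    have h3 : Real.log m ≤ (Real.log m) ^ 4 := le_self_pow₀ (by linarith) (by norm_num)
    exact h3.trans (ww_ge m)
  rw [abs_le]
  constructor
  · -- lower bound
    have hk0 : (0 : ℝ) < ((m + y : ℕ) : ℝ) := by exact_mod_cast (by omega : 0 < m + y)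
    have hlk1 : Real.log m ≤ Real.log ((m + y : ℕ) : ℝ) := Real.log_le_log hm0' (by exact_mod_cast (by omega : m ≤ m + y))
    have hlk2 : Real.log ((m + y : ℕ) : ℝ) ≤ Real.log m + 1 := by
      have h6 : Real.log ((m + y : ℕ) : ℝ) ≤ Real.log (2 * m) := Real.log_le_log hk0 (by exact_mod_cast (by omega : m + y ≤ 2 * m))
      rw [Real.log_mul (by norm_num) hm0'.ne'] at h6
      have := Real.log_two_lt_d9; linarith
    have hVk : 1 / (Real.log m + 1) ≤ V (TT (Real.log ((m + y : ℕ) : ℝ))) :=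
      (one_div_le_one_div_of_le (by linarith) hlk2).trans (V_TT_ge _ (by linarith))
    have h3 : (1 - 3 * ε) * (y * (1 / (Real.log m + 1))) ≤ N := by
      have h4 : (1 - 3 * ε) * (y * (1 / (Real.log m + 1))) ≤ (1 - 3 * ε) * (y * V (TT (Real.log ((m + y : ℕ) : ℝ)))) := by
        apply mul_le_mul_of_nonneg_left _ (by linarith)
        exact mul_le_mul_of_nonneg_left hVk hy0
      linarith
    have h4 : (1 - 4 * ε) * (y / Real.log m) ≤ (1 - 3 * ε) * (y * (1 / (Real.log m + 1))) := by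
      have h5 : (1 - 4 * ε) * (Real.log m + 1) ≤ (1 - 3 * ε) * Real.log m := by
        have h6 : 4 ≤ ε * Real.log m := by
          rw [div_le_iff₀ hε] at hL2
          linarith
        nlinarith
      have e1 : (1 - 4 * ε) * (y / Real.log m) = y * ((1 - 4 * ε) * (Real.log m + 1)) / (Real.log m * (Real.log m + 1)) := by
        field_simp
      have e2 : (1 - 3 * ε) * (y * (1 / (Real.log m + 1))) = y * ((1 - 3 * ε) * Real.log m) / (Real.log m * (Real.log m + 1)) := by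
        field_simp
      rw [e1, e2]
      apply div_le_div_of_nonneg_right _ (by positivity)
      exact mul_le_mul_of_nonneg_left h5 hy0
    linarith
  · have hV1 := V_TT_le (Real.log m) (by linarith) (ww m) (by exact_mod_cast hww1) g3
    have h3 : N ≤ (1 + 3 * ε) * (y * ((1 + 1 / (ww m : ℝ)) / Real.log m)) := by
      have h4 : (1 + 3 * ε) * (y * V (TT (Real.log m))) ≤ (1 + 3 * ε) * (y * ((1 + 1 / (ww m : ℝ)) / Real.log m)) := by
        apply mul_le_mul_of_nonneg_left _ (by linarith)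
        exact mul_le_mul_of_nonneg_left hV1 hy0
      linarith
    have h4 : (1 + 3 * ε) * (1 + 1 / (ww m : ℝ)) ≤ 1 + 4 * ε := by
      have h5 : 1 / (ww m : ℝ) ≤ ε / 4 := by
        rw [div_le_div_iff₀ (by linarith) (by norm_num)]
        rw [div_le_iff₀ hε] at hL2
        nlinarith
      have h6 : 0 ≤ 1 / (ww m : ℝ) := by positivity
      nlinarith
    have e1 : (1 + 3 * ε) * (y * ((1 + 1 / (ww m : ℝ)) / Real.log m)) =
        ((1 + 3 * ε) * (1 + 1 / (ww m : ℝ))) * (y / Real.log m) := by ring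
    rw [e1] at h3
    have h5 := mul_le_mul_of_nonneg_right h4 hyL0
    linarith

end

end Pool.Agent.V5helper42.RS
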