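import Mathlib

set_option autoImplicit false

/-!
# Random sieve model: the averaging operator and exponential moments (helper42)
-/

namespace Pool.Agent.V5helper42.RS

open Finset

/-- the elements of `A` outside the classes `ρ p` modulo `p`, `p ∈ l` -/
def S (ρ : ℕ → ℕ) (l : List ℕ) (A : Finset ℕ) : Finset ℕ := A.filter (fun n => ∀ p ∈ l, n % p ≠ ρ p)

/-- the average of `F` over the classes of the `p ∈ l`; the other classes are those of `ρ` -/
noncomputable def EE : List ℕ → ((ℕ → ℕ) → ℝ) → (ℕ → ℕ) → ℝ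
  | [], F, ρ => F ρ
  | p :: l, F, ρ => (1 / (p : ℝ)) * ∑ r ∈ range p, EE l F (Function.update ρ p r)

lemma S_nil (ρ : ℕ → ℕ) (A : Finset ℕ) : S ρ [] A = A := by simp [S]

lemma S_cons (ρ : ℕ → ℕ) (p : ℕ) (l : List ℕ) (A : Finset ℕ) :
    S ρ (p :: l) A = S ρ l (A.filter (fun n => n % p ≠ ρ p)) := by
  unfold S
  rw [filter_filter]
  apply filter_congr
  intro n _
  simp

lemma S_append (ρ : ℕ → ℕ) (l l' : List ℕ) (A : Finset ℕ) :
    S ρ (l ++ l') A = S ρ l' (S ρ l A) := by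
  unfold S
  rw [filter_filter]
  apply filter_congr
  intro n _
  simp only [List.mem_append]
  constructor
  · intro h
    exact ⟨fun p hp => h p (Or.inl hp), fun p hp => h p (Or.inr hp)⟩
  · rintro ⟨h1, h2⟩ p (hp | hp)
    · exact h1 p hp
    · exact h2 p hp

lemma S_congr {ρ ρ' : ℕ → ℕ} {l : List ℕ} (A : Finset ℕ) (h : ∀ p ∈ l, ρ p = ρ' p) :
    S ρ l A = S ρ' l A := by
  unfold S
  apply filter_congr
  intro n _
  constructor
  · intro h1 p hp
    rw [← h p hp]; exact h1 p hp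
  · intro h1 p hp
    rw [h p hp]; exact h1 p hp

lemma S_subset (ρ : ℕ → ℕ) (l : List ℕ) (A : Finset ℕ) : S ρ l A ⊆ A := filter_subset _ _

lemma EE_mono (l : List ℕ) (F G : (ℕ → ℕ) → ℝ) (ρ : ℕ → ℕ)
    (h : ∀ ρ', (∀ q, q ∉ l → ρ' q = ρ q) → (∀ q ∈ l, ρ' q < q) → F ρ' ≤ G ρ') : EE l F ρ ≤ EE l G ρ := by
  induction l generalizing ρ with
  | nil => exact h ρ (fun _ _ => rfl) (by simp)
  | cons p l ih =>
    simp only [EE]
    apply mul_le_mul_of_nonneg_left _ (by positivity)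
    apply sum_le_sum
    intro r hr
    apply ih
    intro ρ' h1 h2
    by_cases hp : p ∈ l
    · apply h
      · intro q hq
        rw [List.mem_cons, not_or] at hq
        rw [h1 q hq.2, Function.update_of_ne hq.1]
      · intro q hq
        rcases List.mem_cons.1 hq with rfl | hq
        · exact h2 _ hp
        · exact h2 q hq
    · apply h
      · intro q hq
        rw [List.mem_cons, not_or] at hq
        rw [h1 q hq.2, Function.update_of_ne hq.1]
      · intro q hq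
        rcases List.mem_cons.1 hq with rfl | hq
        · rw [h1 _ hp, Function.update_self]
          exact mem_range.1 hr
        · exact h2 q hq

lemma EE_congr (l : List ℕ) (F G : (ℕ → ℕ) → ℝ) (ρ : ℕ → ℕ)
    (h : ∀ ρ', (∀ q, q ∉ l → ρ' q = ρ q) → (∀ q ∈ l, ρ' q < q) → F ρ' = G ρ') : EE l F ρ = EE l G ρ :=
  le_antisymm (EE_mono l F G ρ fun ρ' h1 h2 => (h ρ' h1 h2).le)
    (EE_mono l G F ρ fun ρ' h1 h2 => (h ρ' h1 h2).ge)

lemma EE_const (l : List ℕ) (hl : ∀ p ∈ l, 0 < p) (c : ℝ) (ρ : ℕ → ℕ) : EE l (fun _ => c) ρ = c := by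
  induction l generalizing ρ with
  | nil => rfl
  | cons p l ih =>
    simp only [EE]
    have hp : (0 : ℝ) < p := by exact_mod_cast hl p (by simp)
    rw [sum_congr rfl (fun r _ => ih (fun q hq => hl q (List.mem_cons_of_mem _ hq)) _), sum_const,
      card_range, nsmul_eq_mul]
    field_simp

lemma EE_le_const (l : List ℕ) (hl : ∀ p ∈ l, 0 < p) (F : (ℕ → ℕ) → ℝ) (c : ℝ) (ρ : ℕ → ℕ)
    (h : ∀ ρ', (∀ q, q ∉ l → ρ' q = ρ q) → (∀ q ∈ l, ρ' q < q) → F ρ' ≤ c) : EE l F ρ ≤ c :=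
  (EE_mono l F (fun _ => c) ρ h).trans (EE_const l hl c ρ).le

lemma EE_append (l l' : List ℕ) (F : (ℕ → ℕ) → ℝ) (ρ : ℕ → ℕ) :
    EE (l ++ l') F ρ = EE l (fun ρ' => EE l' F ρ') ρ := by
  induction l generalizing ρ with
  | nil => rfl
  | cons p l ih =>
    simp only [List.cons_append, EE]
    congr 1
    apply sum_congr rfl
    intro r _
    exact ih _

lemma EE_mul_const (l : List ℕ) (F : (ℕ → ℕ) → ℝ) (c : ℝ) (ρ : ℕ → ℕ) :
    EE l (fun ρ' => c * F ρ') ρ = c * EE l F ρ := by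
  induction l generalizing ρ with
  | nil => rfl
  | cons p l ih =>
    simp only [EE]
    rw [sum_congr rfl (fun r _ => ih _), ← mul_sum]
    ring

lemma EE_nonneg (l : List ℕ) (F : (ℕ → ℕ) → ℝ) (ρ : ℕ → ℕ) (h : ∀ ρ', 0 ≤ F ρ') : 0 ≤ EE l F ρ := by
  induction l generalizing ρ with
  | nil => exact h ρ
  | cons p l ih =>
    simp only [EE]
    exact mul_nonneg (by positivity) (sum_nonneg fun r _ => ih _)

/-- `∏ (1 - 1 / p)` -/
noncomputable def PP (l : List ℕ) : ℝ := (l.map (fun p : ℕ => 1 - 1 / (p : ℝ))).prod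

/-- `∑ (y / p + 1) / p` -/
noncomputable def SS (y : ℕ) (l : List ℕ) : ℝ := (l.map (fun p : ℕ => ((y : ℝ) / p + 1) / p)).sum

lemma PP_nonneg (l : List ℕ) (hl : ∀ p ∈ l, 0 < p) : 0 ≤ PP l ∧ PP l ≤ 1 := by
  induction l with
  | nil => simp [PP]
  | cons p l ih =>
    obtain ⟨h1, h2⟩ := ih (fun q hq => hl q (List.mem_cons_of_mem _ hq))
    have hp : (1 : ℝ) ≤ p := by exact_mod_cast hl p (by simp)
    have hp0 : (0 : ℝ) < p := by linarith
    have e : PP (p :: l) = (1 - 1 / (p : ℝ)) * PP l := by simp [PP]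
    rw [e]
    have h3 : 0 ≤ 1 - 1 / (p : ℝ) := by
      rw [sub_nonneg, div_le_one hp0]; exact hp
    have h4 : 1 - 1 / (p : ℝ) ≤ 1 := by
      have : 0 ≤ 1 / (p : ℝ) := by positivity
      linarith
    exact ⟨mul_nonneg h3 h1, mul_le_one₀ h4 h1 h2⟩

lemma SS_nonneg (y : ℕ) (l : List ℕ) : 0 ≤ SS y l := by
  unfold SS
  apply List.sum_nonneg
  intro x hx
  obtain ⟨p, _, rfl⟩ := List.mem_map.1 hx
  positivity

lemma card_class (m y p r : ℕ) (hp : 0 < p) (A : Finset ℕ) (hA : A ⊆ Ioc m (m + y)) :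
    ((A.filter (fun n => n % p = r)).card : ℝ) ≤ (y : ℝ) / p + 1 := by
  have hp0 : (0 : ℝ) < p := by exact_mod_cast hp
  have h1 : (A.filter (fun n => n % p = r)) ⊆ (Ioc m (m + y)).filter (fun n => n ≡ r [MOD p]) := by
    intro n hn
    rw [mem_filter] at hn ⊢
    refine ⟨hA hn.1, ?_⟩
    unfold Nat.ModEq
    rw [← hn.2, Nat.mod_mod]
  have h2 := card_le_card h1
  have h3 := Nat.Ioc_filter_modEq_card m (m + y) hp r
  have h4 : ((((Ioc m (m + y)).filter (fun n => n ≡ r [MOD p])).card : ℤ) : ℝ) ≤ (y : ℝ) / p + 1 := by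
    rw [h3]
    push_cast
    rw [max_le_iff]
    constructor
    · have h5 := Int.floor_le (((((m : ℚ) + y) - r) / p : ℚ))
      have h6 := Int.lt_floor_add_one ((((m : ℚ)) - r) / p : ℚ)
      have h7 : ((⌊(((m : ℚ) + y) - r) / p⌋ : ℤ) : ℚ) - (⌊((m : ℚ) - r) / p⌋ : ℤ) ≤ (y : ℚ) / p + 1 := by
        have e : (((m : ℚ) + y) - r) / p = ((m : ℚ) - r) / p + y / p := by ring
        rw [e] at h5 ⊢
        linarith
      have h8 : (((((⌊(((m : ℚ) + y) - r) / p⌋ : ℤ) : ℚ) - (⌊((m : ℚ) - r) / p⌋ : ℤ) : ℚ)) : ℝ) ≤ (((y : ℚ) / p + 1 : ℚ) : ℝ) := by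
        exact_mod_cast h7
      push_cast at h8
      exact h8
    · positivity
  have h5 : ((A.filter (fun n => n % p = r)).card : ℝ) ≤ ((((Ioc m (m + y)).filter (fun n => n ≡ r [MOD p])).card : ℤ) : ℝ) := by
    exact_mod_cast h2
  exact h5.trans h4

/-- one prime -/
lemma step (p : ℕ) (hp : 0 < p) (k : ℕ → ℝ) (K b α : ℝ) (hk : ∀ r ∈ range p, 0 ≤ k r ∧ k r ≤ b)
    (hK : ∑ r ∈ range p, k r = K) (hb : |α| * b ≤ 1) :
    (1 / (p : ℝ)) * ∑ r ∈ range p, Real.exp (α * (K - k r)) ≤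
      Real.exp (α * (1 - 1 / p) * K + α ^ 2 * (b / p) * K) := by
  have hp0 : (0 : ℝ) < p := by exact_mod_cast hp
  have h1 : ∀ r ∈ range p, Real.exp (α * (K - k r)) ≤
      Real.exp (α * K) * (1 - α * k r + α ^ 2 * b * k r) := by
    intro r hr
    obtain ⟨hk0, hk1⟩ := hk r hr
    have e : α * (K - k r) = α * K + (-(α * k r)) := by ring
    rw [e, Real.exp_add]
    apply mul_le_mul_of_nonneg_left _ (Real.exp_pos _).le
    have h2 : |-(α * k r)| ≤ 1 := by
      rw [abs_neg, abs_mul, abs_of_nonneg hk0]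
      exact (mul_le_mul_of_nonneg_left hk1 (abs_nonneg _)).trans hb
    have h3 := (abs_le.1 (Real.abs_exp_sub_one_sub_id_le h2)).2
    have h4 : (α * k r) ^ 2 ≤ α ^ 2 * b * k r := by
      have : k r * k r ≤ b * k r := mul_le_mul_of_nonneg_right hk1 hk0
      nlinarith [sq_nonneg α]
    nlinarith
  have h2 := sum_le_sum h1
  rw [← mul_sum] at h2
  have e2 : ∑ r ∈ range p, (1 - α * k r + α ^ 2 * b * k r) = p - α * K + α ^ 2 * b * K := by
    rw [sum_add_distrib, sum_sub_distrib, ← mul_sum, ← mul_sum, hK]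
    simp
  rw [e2] at h2
  calc (1 / (p : ℝ)) * ∑ r ∈ range p, Real.exp (α * (K - k r))
      ≤ (1 / (p : ℝ)) * (Real.exp (α * K) * (p - α * K + α ^ 2 * b * K)) :=
        mul_le_mul_of_nonneg_left h2 (by positivity)
    _ = Real.exp (α * K) * ((-(α * K / p) + α ^ 2 * (b / p) * K) + 1) := by field_simp; ring
    _ ≤ Real.exp (α * K) * Real.exp (-(α * K / p) + α ^ 2 * (b / p) * K) :=
        mul_le_mul_of_nonneg_left (Real.add_one_le_exp _) (Real.exp_pos _).le
    _ = Real.exp (α * (1 - 1 / p) * K + α ^ 2 * (b / p) * K) := by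
        rw [← Real.exp_add]; congr 1; field_simp; ring

/-- EXPONENTIAL MOMENTS -/
theorem ee_exp (m y : ℕ) (α : ℝ) : ∀ l : List ℕ, l.Nodup → (∀ p ∈ l, 0 < p) →
    (∀ p ∈ l, 2 * |α| * ((y : ℝ) / p + 1) ≤ 1) → 4 * |α| * SS y l ≤ 1 → ∀ A : Finset ℕ, A ⊆ Ioc m (m + y) →
    ∀ ρ : ℕ → ℕ, EE l (fun ρ' => Real.exp (α * ((S ρ' l A).card : ℝ))) ρ ≤
      Real.exp ((α * PP l + 4 * α ^ 2 * SS y l) * (A.card : ℝ)) := by
  intro l
  induction l with
  | nil =>
    intro _ _ _ _ A _ ρ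
    simp [EE, S_nil, PP, SS]
  | cons p l ih =>
    intro hnd hpos hb hs A hA ρ
    have hnd' : l.Nodup := (List.nodup_cons.1 hnd).2
    have hpl : p ∉ l := (List.nodup_cons.1 hnd).1
    have hp : 0 < p := hpos p (by simp)
    have hp0 : (0 : ℝ) < p := by exact_mod_cast hp
    have eS : SS y (p :: l) = ((y : ℝ) / p + 1) / p + SS y l := by simp [SS]
    have eP : PP (p :: l) = (1 - 1 / (p : ℝ)) * PP l := by simp [PP]
    have hSl := SS_nonneg y l
    have hb0 : 0 ≤ ((y : ℝ) / p + 1) := by positivity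
    have hbp : 0 ≤ ((y : ℝ) / p + 1) / p := by positivity
    have ha0 := abs_nonneg α
    have hs' : 4 * |α| * SS y l ≤ 1 := by
      rw [eS] at hs
      have : 0 ≤ 4 * |α| * (((y : ℝ) / p + 1) / p) := by positivity
      linarith
    obtain ⟨hP0, hP1⟩ := PP_nonneg l (fun q hq => hpos q (List.mem_cons_of_mem _ hq))
    obtain ⟨α', hα'⟩ : ∃ α' : ℝ, α' = α * PP l + 4 * α ^ 2 * SS y l := ⟨_, rfl⟩
    have hα2 : |α'| ≤ 2 * |α| := by
      rw [hα']
      have h1 := abs_add_le (α * PP l) (4 * α ^ 2 * SS y l)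
      rw [abs_mul, abs_of_nonneg hP0, abs_of_nonneg (by positivity : 0 ≤ 4 * α ^ 2 * SS y l)] at h1
      have h2 : |α| * PP l ≤ |α| := mul_le_of_le_one_right ha0 hP1
      have h3 : 4 * α ^ 2 * SS y l = |α| * (4 * |α| * SS y l) := by
        rw [← sq_abs]; ring
      have h4 : |α| * (4 * |α| * SS y l) ≤ |α| * 1 := mul_le_mul_of_nonneg_left hs' ha0
      linarith
    have hsq : α' ^ 2 ≤ 4 * α ^ 2 := by
      rw [← sq_abs α', ← sq_abs α]
      nlinarith [abs_nonneg α']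
    have key : ∀ r ∈ range p, EE l (fun ρ' => Real.exp (α * ((S ρ' (p :: l) A).card : ℝ))) (Function.update ρ p r) ≤
        Real.exp (α' * ((A.card : ℝ) - ((A.filter (fun n => n % p = r)).card : ℝ))) := by
      intro r hr
      have h1 := ih hnd' (fun q hq => hpos q (List.mem_cons_of_mem _ hq))
        (fun q hq => hb q (List.mem_cons_of_mem _ hq)) hs' (A.filter (fun n => n % p ≠ r))
        ((filter_subset _ _).trans hA) (Function.update ρ p r)
      rw [← hα'] at h1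
      have h2 : ((A.filter (fun n => n % p ≠ r)).card : ℝ) =
          (A.card : ℝ) - ((A.filter (fun n => n % p = r)).card : ℝ) := by
        have := card_filter_add_card_filter_not (s := A) (fun n => n % p = r)
        have h3 : ((A.filter (fun n => n % p = r)).card : ℝ) + ((A.filter (fun n => ¬ n % p = r)).card : ℝ) = A.card := by
          exact_mod_cast this
        linarith
      rw [h2] at h1
      refine le_trans (le_of_eq ?_) h1
      apply EE_congr
      intro ρ' h3 _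
      rw [S_cons, h3 p hpl, Function.update_self]
    simp only [EE]
    have h3 := step p hp (fun r => ((A.filter (fun n => n % p = r)).card : ℝ)) (A.card : ℝ) ((y : ℝ) / p + 1) α'
      (fun r _ => ⟨Nat.cast_nonneg _, card_class m y p r hp A hA⟩)
      (by
        have : A.card = ∑ r ∈ range p, (A.filter (fun n => n % p = r)).card :=
          card_eq_sum_card_fiberwise (fun n _ => by
            simp only [coe_range, Set.mem_Iio]
            exact Nat.mod_lt _ hp)
        rw [this]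
        push_cast
        rfl)
      ((mul_le_mul_of_nonneg_right hα2 hb0).trans (hb p (by simp)))
    refine (mul_le_mul_of_nonneg_left (sum_le_sum key) (by positivity)).trans (h3.trans ?_)
    apply Real.exp_le_exp.2
    rw [eS, eP, ← add_mul]
    apply mul_le_mul_of_nonneg_right _ (Nat.cast_nonneg _)
    have h4 : α' ^ 2 * (((y : ℝ) / p + 1) / p) ≤ 4 * α ^ 2 * (((y : ℝ) / p + 1) / p) :=
      mul_le_mul_of_nonneg_right hsq hbp
    have h5 : α' * (1 - 1 / (p : ℝ)) ≤ α * ((1 - 1 / (p : ℝ)) * PP l) + 4 * α ^ 2 * SS y l := by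
      have h6 : 0 ≤ 1 / (p : ℝ) := by positivity
      have h7 : 0 ≤ 4 * α ^ 2 * SS y l := by positivity
      have h8 : 0 ≤ 4 * α ^ 2 * SS y l * (1 / (p : ℝ)) := mul_nonneg h7 h6
      rw [hα']
      nlinarith
    nlinarith

end Pool.Agent.V5helper42.RS
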