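import Pool.Agent.V5helper42.RS.A

set_option autoImplicit false

/-!
# Random sieve model: from independent uniform classes to the averaging operator (helper42)
-/

namespace Pool.Agent.V5helper42.RS

open Finset MeasureTheory ProbabilityTheory
open scoped ENNReal

/-- `ρ` on `l`, `ρ0` elsewhere -/
def mix (l : List ℕ) (ρ ρ0 : ℕ → ℕ) : ℕ → ℕ := fun q => if q ∈ l then ρ q else ρ0 q

lemma mix_cons (p : ℕ) (l : List ℕ) (hp : p ∉ l) (ρ ρ0 : ℕ → ℕ) :
    mix (p :: l) ρ ρ0 = mix l ρ (Function.update ρ0 p (ρ p)) := by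
  funext q
  unfold mix
  by_cases hq : q ∈ l
  · have : q ∈ p :: l := List.mem_cons_of_mem _ hq
    rw [if_pos this, if_pos hq]
  · by_cases hqp : q = p
    · subst hqp
      simp [hq]
    · have : q ∉ p :: l := by simp [hq, hqp]
      rw [if_neg this, if_neg hq, Function.update_of_ne hqp]

/-- the extension of a finite tuple -/
def ext (l : List ℕ) (ρ0 : ℕ → ℕ) (u : (i : l.toFinset) → ℕ) : ℕ → ℕ :=
  fun q => if h : q ∈ l.toFinset then u ⟨q, h⟩ else ρ0 q

lemma mix_eq_ext (l : List ℕ) (ρ ρ0 : ℕ → ℕ) : mix l ρ ρ0 = ext l ρ0 (fun i => ρ i) := by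
  funext q
  unfold mix ext
  by_cases h : q ∈ l
  · rw [if_pos h, dif_pos (List.mem_toFinset.2 h)]
  · rw [if_neg h, dif_neg (fun h' => h (List.mem_toFinset.1 h'))]

section

variable {Ω : Type*} [MeasurableSpace Ω]

lemma meas_mix (a : ℕ → Ω → ℕ) (hm : ∀ p, Measurable (a p)) (l : List ℕ) (G : (ℕ → ℕ) → ℝ≥0∞)
    (ρ0 : ℕ → ℕ) : Measurable (fun ω => G (mix l (fun q => a q ω) ρ0)) := by
  have e : (fun ω => G (mix l (fun q => a q ω) ρ0)) =
      (fun u : (i : l.toFinset) → ℕ => G (ext l ρ0 u)) ∘ (fun ω (i : l.toFinset) => a i ω) := by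
    funext ω
    simp only [Function.comp, mix_eq_ext]
  rw [e]
  apply Measurable.comp
  · exact Measurable.of_discrete
  · exact measurable_pi_iff.2 fun i => hm i

theorem transfer (μ : Measure Ω) [IsProbabilityMeasure μ] (a : ℕ → Ω → ℕ) (hm : ∀ p, Measurable (a p))
    (hi : iIndepFun a μ) (hu : ∀ p : ℕ, p.Prime → ∀ r < p, μ {ω | a p ω = r} = (p : ℝ≥0∞)⁻¹)
    (F : (ℕ → ℕ) → ℝ) (hF : ∀ ρ, 0 ≤ F ρ) : ∀ l : List ℕ, l.Nodup → (∀ p ∈ l, p.Prime) → ∀ ρ0 : ℕ → ℕ,
    ∫⁻ ω, ENNReal.ofReal (F (mix l (fun q => a q ω) ρ0)) ∂μ = ENNReal.ofReal (EE l F ρ0) := by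
  intro l
  induction l with
  | nil =>
    intro _ _ ρ0
    have e : ∀ ω : Ω, mix [] (fun q => a q ω) ρ0 = ρ0 := by
      intro ω; funext q; simp [mix]
    simp only [e, EE, lintegral_const, measure_univ, mul_one]
  | cons p l ih =>
    intro hnd hpr ρ0
    have hnd' : l.Nodup := (List.nodup_cons.1 hnd).2
    have hpl : p ∉ l := (List.nodup_cons.1 hnd).1
    have hp : p.Prime := hpr p (by simp)
    have hp0 : (0 : ℝ) < p := by exact_mod_cast hp.pos
    -- almost surely the class is less than p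
    have hae : ∀ᵐ ω ∂μ, a p ω < p := by
      have h1 : μ (⋃ r ∈ range p, {ω | a p ω = r}) = 1 := by
        rw [measure_biUnion_finset]
        · rw [sum_congr rfl (fun r hr => hu p hp r (mem_range.1 hr)), sum_const, card_range, nsmul_eq_mul]
          exact ENNReal.mul_inv_cancel (by exact_mod_cast hp.ne_zero) (ENNReal.natCast_ne_top p)
        · intro r _ r' _ hrr
          rw [Function.onFun, Set.disjoint_left]
          intro ω h1 h2
          exact hrr (h1.symm.trans h2)
        · intro r _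
          exact hm p (measurableSet_singleton r)
      have h2 : MeasurableSet (⋃ r ∈ range p, {ω | a p ω = r}) :=
        Finset.measurableSet_biUnion _ fun r _ => hm p (measurableSet_singleton r)
      have h3 := (prob_compl_eq_zero_iff h2).2 h1
      rw [ae_iff]
      refine measure_mono_null ?_ h3
      intro ω hω
      simp only [Set.mem_setOf_eq, not_lt] at hω
      simp only [Set.mem_compl_iff, Set.mem_iUnion, Set.mem_setOf_eq, mem_range, not_exists]
      intro r hr h4
      omega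
    have e1 : ∫⁻ ω, ENNReal.ofReal (F (mix (p :: l) (fun q => a q ω) ρ0)) ∂μ =
        ∫⁻ ω, ∑ r ∈ range p, (if a p ω = r then (1 : ℝ≥0∞) else 0) *
          ENNReal.ofReal (F (mix l (fun q => a q ω) (Function.update ρ0 p r))) ∂μ := by
      apply lintegral_congr_ae
      filter_upwards [hae] with ω hω
      rw [mix_cons p l hpl, sum_eq_single (a p ω)]
      · rw [if_pos rfl, one_mul]
      · intro r _ hr
        rw [if_neg (fun h => hr h.symm), zero_mul]
      · intro h
        exact absurd (mem_range.2 hω) h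
    have hmI : ∀ r : ℕ, Measurable (fun ω => if a p ω = r then (1 : ℝ≥0∞) else 0) := by
      intro r
      exact (Measurable.of_discrete (f := fun n : ℕ => if n = r then (1 : ℝ≥0∞) else 0)).comp (hm p)
    have hmm : ∀ r ∈ range p, Measurable (fun ω => (if a p ω = r then (1 : ℝ≥0∞) else 0) *
          ENNReal.ofReal (F (mix l (fun q => a q ω) (Function.update ρ0 p r)))) := fun r _ =>
      (hmI r).mul (meas_mix a hm l (fun ρ => ENNReal.ofReal (F ρ)) (Function.update ρ0 p r))
    rw [e1, lintegral_finset_sum _ hmm]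
    simp only [EE]
    rw [ENNReal.ofReal_mul (by positivity), ENNReal.ofReal_sum_of_nonneg (fun r _ => EE_nonneg l F _ hF), mul_sum]
    apply sum_congr rfl
    intro r hr
    rw [← ih hnd' (fun q hq => hpr q (List.mem_cons_of_mem _ hq))]
    have hind : IndepFun (fun ω => if a p ω = r then (1 : ℝ≥0∞) else 0)
        (fun ω => ENNReal.ofReal (F (mix l (fun q => a q ω) (Function.update ρ0 p r)))) μ := by
      have h1 := hi.indepFun_finset {p} l.toFinset (by
        rw [disjoint_singleton_left]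
        exact fun h => hpl (List.mem_toFinset.1 h)) hm
      have h2 := h1.comp (φ := fun u : (i : ({p} : Finset ℕ)) → ℕ => if u ⟨p, mem_singleton_self p⟩ = r then (1 : ℝ≥0∞) else 0)
        (ψ := fun u : (i : l.toFinset) → ℕ => ENNReal.ofReal (F (ext l (Function.update ρ0 p r) u)))
        Measurable.of_discrete Measurable.of_discrete
      have e2 : (fun ω => ENNReal.ofReal (F (mix l (fun q => a q ω) (Function.update ρ0 p r)))) =
          (fun u : (i : l.toFinset) → ℕ => ENNReal.ofReal (F (ext l (Function.update ρ0 p r) u))) ∘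
          (fun ω (i : l.toFinset) => a i ω) := by
        funext ω
        simp only [Function.comp, mix_eq_ext]
      rw [e2]
      exact h2
    have h3 := lintegral_mul_eq_lintegral_mul_lintegral_of_indepFun (hmI r)
      (meas_mix a hm l (fun ρ => ENNReal.ofReal (F ρ)) (Function.update ρ0 p r)) hind
    simp only [Pi.mul_apply] at h3
    rw [h3]
    congr 1
    have h4 : (fun ω => if a p ω = r then (1 : ℝ≥0∞) else 0) = Set.indicator {ω | a p ω = r} (fun _ => (1 : ℝ≥0∞)) := by
      funext ω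
      simp [Set.indicator]
    have hms : MeasurableSet {ω | a p ω = r} := hm p (measurableSet_singleton r)
    rw [h4, lintegral_indicator hms, setLIntegral_const, one_mul,
      hu p hp r (mem_range.1 hr), one_div, ENNReal.ofReal_inv_of_pos hp0, ENNReal.ofReal_natCast]

/-- probability of an event depending on finitely many classes -/
theorem prob_le (μ : Measure Ω) [IsProbabilityMeasure μ] (a : ℕ → Ω → ℕ) (hm : ∀ p, Measurable (a p))
    (hi : iIndepFun a μ) (hu : ∀ p : ℕ, p.Prime → ∀ r < p, μ {ω | a p ω = r} = (p : ℝ≥0∞)⁻¹)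
    (l : List ℕ) (hl : l.Nodup) (hlp : ∀ p ∈ l, p.Prime) (Q : (ℕ → ℕ) → Prop)
    (hQ : ∀ ρ ρ' : ℕ → ℕ, (∀ p ∈ l, ρ p = ρ' p) → (Q ρ → Q ρ')) (F : (ℕ → ℕ) → ℝ) (hF : ∀ ρ, 0 ≤ F ρ)
    (hQF : ∀ ρ, Q ρ → 1 ≤ F ρ) (c : ℝ) (hc : EE l F (fun _ => 0) ≤ c) :
    μ {ω | Q (fun q => a q ω)} ≤ ENNReal.ofReal c := by
  have h1 := transfer μ a hm hi hu F hF l hl hlp (fun _ => 0)
  have h2 : μ {ω | Q (fun q => a q ω)} ≤ ∫⁻ ω, ENNReal.ofReal (F (mix l (fun q => a q ω) (fun _ => 0))) ∂μ := by
    have h3 := meas_ge_le_lintegral_div (μ := μ) (f := fun ω => ENNReal.ofReal (F (mix l (fun q => a q ω) (fun _ => 0))))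
      (meas_mix a hm l (fun ρ => ENNReal.ofReal (F ρ)) (fun _ => 0)).aemeasurable (ε := 1) one_ne_zero ENNReal.one_ne_top
    rw [div_one] at h3
    refine le_trans (measure_mono ?_) h3
    intro ω hω
    simp only [Set.mem_setOf_eq] at hω ⊢
    have h4 : Q (mix l (fun q => a q ω) (fun _ => 0)) := by
      refine hQ _ _ ?_ hω
      intro p hp
      simp [mix, hp]
    exact ENNReal.one_le_ofReal.2 (hQF _ h4)
  exact h2.trans (h1.le.trans (ENNReal.ofReal_le_ofReal hc))

end

end Pool.Agent.V5helper42.RS
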