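import Pool.Agent.V5helper42.RS.B

set_option autoImplicit false

/-!
# Random sieve model: tail bounds (helper42)
-/

namespace Pool.Agent.V5helper42.RS

open Finset

lemma EE_add (l : List ℕ) (F G : (ℕ → ℕ) → ℝ) (ρ : ℕ → ℕ) :
    EE l (fun ρ' => F ρ' + G ρ') ρ = EE l F ρ + EE l G ρ := by
  induction l generalizing ρ with
  | nil => rfl
  | cons p l ih =>
    simp only [EE]
    rw [sum_congr rfl (fun r _ => ih _), sum_add_distrib]
    ring

/-- one phase with a prescribed first part: both tails -/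
theorem tails (m y w : ℕ) (hw : 1 ≤ w) (hwy : w ≤ y) (l1 l2 : List ℕ) (h1p : ∀ p ∈ l1, 0 < p) (h1w : ∀ p ∈ l1, p ≤ w)
    (h2n : l2.Nodup) (h2p : ∀ p ∈ l2, w < p) (hSS : SS y l2 ≤ 2 * y / w)
    (ε V : ℝ) (hε : 0 < ε) (hε1 : ε ≤ 1) (hV : V = PP l1 * PP l2) (hV0 : 0 < V)
    (hA : ∀ ρ : ℕ → ℕ, (∀ p ∈ l1, ρ p < p) →
      |((S ρ l1 (Ioc m (m + y))).card : ℝ) - y * PP l1| ≤ ε * (y * PP l1)) :
    EE (l1 ++ l2) (fun ρ => Real.exp (ε * V / 16 * w / y * (((S ρ (l1 ++ l2) (Ioc m (m + y))).card : ℝ) - (1 + 3 * ε) * (y * V))) +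
      Real.exp (ε * V / 16 * w / y * ((1 - 3 * ε) * (y * V) - ((S ρ (l1 ++ l2) (Ioc m (m + y))).card : ℝ)))) (fun _ => 0) ≤
      2 * Real.exp (-(ε ^ 2 * w * V ^ 2 / 16)) := by
  have hw0 : (0 : ℝ) < w := by exact_mod_cast hw
  have hwy' : (w : ℝ) ≤ y := by exact_mod_cast hwy
  have hy0 : (0 : ℝ) < y := hw0.trans_le hwy'
  have h2pos : ∀ p ∈ l2, 0 < p := fun p hp => (Nat.zero_le w).trans_lt (h2p p hp)
  obtain ⟨hP10, hP11⟩ := PP_nonneg l1 h1p
  obtain ⟨hP20, hP21⟩ := PP_nonneg l2 h2pos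
  have hV1 : V ≤ 1 := by rw [hV]; exact mul_le_one₀ hP11 hP20 hP21
  obtain ⟨α, hα⟩ : ∃ α : ℝ, α = ε * V / 16 * w / y := ⟨_, rfl⟩
  have hα0 : 0 < α := by rw [hα]; positivity
  have hεV : ε * V ≤ 1 := by
    calc ε * V ≤ 1 * 1 := mul_le_mul hε1 hV1 hV0.le zero_le_one
      _ = 1 := one_mul 1
  have hαw : α * (y / w) = ε * V / 16 := by
    rw [hα]; field_simp
  have hb : ∀ p ∈ l2, 2 * α * ((y : ℝ) / p + 1) ≤ 1 := by
    intro p hp
    have hp1 : (w : ℝ) ≤ p := by exact_mod_cast (h2p p hp).le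
    have h3 : (y : ℝ) / p ≤ y / w := div_le_div_of_nonneg_left hy0.le hw0 hp1
    have h4 : (1 : ℝ) ≤ y / w := by rw [le_div_iff₀ hw0]; linarith
    have h5 : α * ((y : ℝ) / p + 1) ≤ α * (2 * (y / w)) := mul_le_mul_of_nonneg_left (by linarith) hα0.le
    have h6 : α * (2 * ((y : ℝ) / w)) = 2 * (α * (y / w)) := by ring
    rw [h6, hαw] at h5
    linarith
  have hs : 4 * α * SS y l2 ≤ 1 := by
    have h5 : α * SS y l2 ≤ α * (2 * y / w) := mul_le_mul_of_nonneg_left hSS hα0.le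
    have h6 : α * (2 * (y : ℝ) / w) = 2 * (α * (y / w)) := by ring
    rw [h6, hαw] at h5
    linarith
  have hSS0 := SS_nonneg y l2
  -- the quadratic term
  have hquad : 4 * α ^ 2 * SS y l2 * ((1 + ε) * (y * PP l1)) ≤ ε ^ 2 * w * V ^ 2 / 16 := by
    have h5 : α * SS y l2 ≤ α * (2 * y / w) := mul_le_mul_of_nonneg_left hSS hα0.le
    have h6 : α * (2 * (y : ℝ) / w) = 2 * (α * (y / w)) := by ring
    rw [h6, hαw] at h5
    have h7 : (1 + ε) * (y * PP l1) ≤ 2 * y := by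
      have : (y : ℝ) * PP l1 ≤ y := mul_le_of_le_one_right hy0.le hP11
      have h8 : 0 ≤ (y : ℝ) * PP l1 := mul_nonneg hy0.le hP10
      nlinarith
    have h8 : 0 ≤ (1 + ε) * (y * PP l1) := by positivity
    calc 4 * α ^ 2 * SS y l2 * ((1 + ε) * (y * PP l1)) = 4 * α * (α * SS y l2) * ((1 + ε) * (y * PP l1)) := by ring
      _ ≤ 4 * α * (2 * (ε * V / 16)) * (2 * y) := by
          apply mul_le_mul _ h7 h8 (by positivity)
          exact mul_le_mul_of_nonneg_left h5 (by positivity)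
      _ = ε * V * (α * y) := by ring
      _ = ε ^ 2 * w * V ^ 2 / 16 := by
          rw [hα]; field_simp
  have hlin : 2 * α * ε * (y * V) = 2 * (ε ^ 2 * w * V ^ 2 / 16) := by
    rw [hα]; field_simp
  rw [← hα, EE_append]
  apply EE_le_const l1 h1p
  intro ρ _ hρ
  obtain ⟨hA1, hA2⟩ := abs_le.1 (hA ρ hρ)
  have hsub := S_subset ρ l1 (Ioc m (m + y))
  obtain ⟨K, hK⟩ : ∃ K : ℝ, K = ((S ρ l1 (Ioc m (m + y))).card : ℝ) := ⟨_, rfl⟩
  rw [← hK] at hA1 hA2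
  have hd : ∀ p ∈ l1, p ∉ l2 := fun p hp h => absurd (h2p p h) (not_lt.2 (h1w p hp))
  have hsplit : ∀ ρ' : ℕ → ℕ, (∀ q, q ∉ l2 → ρ' q = ρ q) →
      S ρ' (l1 ++ l2) (Ioc m (m + y)) = S ρ' l2 (S ρ l1 (Ioc m (m + y))) := by
    intro ρ' h
    rw [S_append, S_congr (ρ := ρ') (ρ' := ρ) _ (fun p hp => h p (hd p hp))]
  rw [EE_add]
  have habs : |α| = α := abs_of_pos hα0
  have hneg : |(-α)| = α := by rw [abs_neg, habs]
  have hy1 : 0 ≤ y * V := by positivity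
  have hKV : ∀ x : ℝ, x * (y * PP l1) * PP l2 = x * (y * V) := by
    intro x; rw [hV]; ring
  have hKu : K ≤ (1 + ε) * (y * PP l1) := by linarith
  have hKl : (1 - ε) * (y * PP l1) ≤ K := by linarith
  have hq : 4 * α ^ 2 * SS y l2 * K ≤ ε ^ 2 * w * V ^ 2 / 16 :=
    (mul_le_mul_of_nonneg_left hKu (by positivity)).trans hquad
  have hKu2 : K * PP l2 ≤ (1 + ε) * (y * V) := by
    rw [← hKV]; exact mul_le_mul_of_nonneg_right hKu hP20
  have hKl2 : (1 - ε) * (y * V) ≤ K * PP l2 := by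
    rw [← hKV]; exact mul_le_mul_of_nonneg_right hKl hP20
  have up : EE l2 (fun ρ' => Real.exp (α * (((S ρ' (l1 ++ l2) (Ioc m (m + y))).card : ℝ) - (1 + 3 * ε) * (y * V)))) ρ ≤
      Real.exp (-(ε ^ 2 * w * V ^ 2 / 16)) := by
    have h1 : EE l2 (fun ρ' => Real.exp (α * (((S ρ' (l1 ++ l2) (Ioc m (m + y))).card : ℝ) - (1 + 3 * ε) * (y * V)))) ρ =
        Real.exp (-(α * ((1 + 3 * ε) * (y * V)))) *
          EE l2 (fun ρ' => Real.exp (α * ((S ρ' l2 (S ρ l1 (Ioc m (m + y)))).card : ℝ))) ρ := by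
      rw [← EE_mul_const]
      apply EE_congr
      intro ρ' h _
      rw [hsplit ρ' h, ← Real.exp_add]
      congr 1
      ring
    have h2 := ee_exp m y α l2 h2n h2pos (by rw [habs]; exact hb) (by rw [habs]; exact hs)
      (S ρ l1 (Ioc m (m + y))) hsub ρ
    rw [← hK] at h2
    rw [h1]
    refine (mul_le_mul_of_nonneg_left h2 (Real.exp_pos _).le).trans ?_
    rw [← Real.exp_add]
    apply Real.exp_le_exp.2
    have h3 : α * (K * PP l2) ≤ α * ((1 + ε) * (y * V)) := mul_le_mul_of_nonneg_left hKu2 hα0.le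
    nlinarith
  have lo : EE l2 (fun ρ' => Real.exp (α * ((1 - 3 * ε) * (y * V) - ((S ρ' (l1 ++ l2) (Ioc m (m + y))).card : ℝ)))) ρ ≤
      Real.exp (-(ε ^ 2 * w * V ^ 2 / 16)) := by
    have h1 : EE l2 (fun ρ' => Real.exp (α * ((1 - 3 * ε) * (y * V) - ((S ρ' (l1 ++ l2) (Ioc m (m + y))).card : ℝ)))) ρ =
        Real.exp (α * ((1 - 3 * ε) * (y * V))) *
          EE l2 (fun ρ' => Real.exp ((-α) * ((S ρ' l2 (S ρ l1 (Ioc m (m + y)))).card : ℝ))) ρ := by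
      rw [← EE_mul_const]
      apply EE_congr
      intro ρ' h _
      rw [hsplit ρ' h, ← Real.exp_add]
      congr 1
      ring
    have h2 := ee_exp m y (-α) l2 h2n h2pos (by rw [hneg]; exact hb) (by rw [hneg]; exact hs)
      (S ρ l1 (Ioc m (m + y))) hsub ρ
    rw [← hK, neg_sq] at h2
    rw [h1]
    refine (mul_le_mul_of_nonneg_left h2 (Real.exp_pos _).le).trans ?_
    rw [← Real.exp_add]
    apply Real.exp_le_exp.2
    have h3 : α * ((1 - ε) * (y * V)) ≤ α * (K * PP l2) := mul_le_mul_of_nonneg_left hKl2 hα0.le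
    nlinarith
  linarith

end Pool.Agent.V5helper42.RS
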