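import Pool.Agent.V5helper42.RS.C
import Pool.Agent.V5helper42.RS.FL

set_option autoImplicit false

/-!
# Random sieve model: the probability that an interval is irregular (helper42)
-/

namespace Pool.Agent.V5helper42.RS

open Finset MeasureTheory ProbabilityTheory
open scoped ENNReal
open Pool.Agent.W41 (V V_ge V_pos fac_pos fac_le_one V_le_one)

/-- fundamental lemma with relative error `ε` and exponent `K` -/
def FL (ε : ℝ) (K : ℕ) : Prop := ∃ y0 : ℕ, 2 ≤ y0 ∧ ∀ y : ℕ, y0 ≤ y → ∀ X : ℕ, y ^ K ≤ X →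
    ∀ P : Finset ℕ, (∀ p ∈ P, p.Prime ∧ p ≤ y) → ∀ ρ : ℕ → ℕ, (∀ p ∈ P, ρ p < p) →
    |((((Icc 1 X).filter (fun n : ℕ => ∀ p ∈ P, n % p ≠ ρ p)).card : ℕ) : ℝ) - X * V P| ≤ ε * (X * V P)

lemma PP_toList (T : Finset ℕ) : PP T.toList = V T := by
  unfold PP V
  exact prod_map_toList T (fun p : ℕ => 1 - 1 / (p : ℝ))

lemma SS_toList (y : ℕ) (T : Finset ℕ) : SS y T.toList = ∑ p ∈ T, ((y : ℝ) / p + 1) / p := by
  unfold SS
  exact sum_map_toList T (fun p : ℕ => ((y : ℝ) / p + 1) / p)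

lemma card_shift (m y : ℕ) (P : Finset ℕ) (hP : ∀ p ∈ P, p.Prime) (ρ : ℕ → ℕ) (hρ : ∀ p ∈ P, ρ p < p) :
    ∃ ρ' : ℕ → ℕ, (∀ p ∈ P, ρ' p < p) ∧
      ((Ioc m (m + y)).filter (fun n : ℕ => ∀ p ∈ P, n % p ≠ ρ p)).card =
      ((Icc 1 y).filter (fun n : ℕ => ∀ p ∈ P, n % p ≠ ρ' p)).card := by
  refine ⟨fun p => (ρ p + (p - m % p)) % p, fun p hp => Nat.mod_lt _ (hP p hp).pos, ?_⟩
  symm
  apply card_bij (fun j _ => m + j)
  · intro j hj
    rw [mem_filter, mem_Icc] at hj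
    rw [mem_filter, mem_Ioc]
    refine ⟨⟨by omega, by omega⟩, fun p hp h => hj.2 p hp ?_⟩
    have hp0 := (hP p hp).pos
    have hm := Nat.mod_lt m hp0
    have h1 : (ρ p + (p - m % p)) % p = ((m + j) + (p - m % p)) % p := by
      rw [← h, Nat.mod_add_mod]
    simp only
    rw [h1]
    have h2 : (m + j) + (p - m % p) = j + p * (m / p + 1) := by
      have := Nat.div_add_mod m p
      rw [mul_add]
      omega
    rw [h2, Nat.add_mul_mod_self_left]
  · intro j _ j' _ h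
    omega
  · intro n hn
    rw [mem_filter, mem_Ioc] at hn
    refine ⟨n - m, ?_, by omega⟩
    rw [mem_filter, mem_Icc]
    refine ⟨⟨by omega, by omega⟩, fun p hp h => hn.2 p hp ?_⟩
    have hp0 := (hP p hp).pos
    have hm := Nat.mod_lt m hp0
    obtain ⟨j, rfl⟩ : ∃ j, n = m + j := ⟨n - m, by omega⟩
    have e : m + j - m = j := by omega
    rw [e] at h
    have h1 : (m + j) % p = (m + (ρ p + (p - m % p))) % p := by
      rw [Nat.add_mod, h]
      simp only [Nat.mod_mod, Nat.add_mod_mod, Nat.mod_add_mod]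
    rw [h1]
    have h2 : m + (ρ p + (p - m % p)) = ρ p + p * (m / p + 1) := by
      have := Nat.div_add_mod m p
      rw [mul_add]
      omega
    rw [h2, Nat.add_mul_mod_self_left, Nat.mod_eq_of_lt (hρ p hp)]

lemma sum_inv_sq (w : ℕ) (hw : 1 ≤ w) (T : Finset ℕ) (hT : ∀ p ∈ T, w < p) :
    ∑ p ∈ T, 1 / ((p : ℝ) * p) ≤ 1 / w := by
  have key : ∀ N : ℕ, ∑ p ∈ Ioc w (w + N), 1 / ((p : ℝ) * p) ≤ 1 / w - 1 / ((w : ℝ) + N) := by
    intro N
    induction N with
    | zero => simp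
    | succ N ih =>
      have e : Ioc w (w + (N + 1)) = insert (w + N + 1) (Ioc w (w + N)) := by
        ext x; simp only [mem_Ioc, mem_insert]; omega
      rw [e, sum_insert (by simp)]
      have hw0 : (0 : ℝ) < w := by exact_mod_cast hw
      have h1 : 1 / ((((w + N + 1 : ℕ) : ℝ)) * ((w + N + 1 : ℕ) : ℝ)) ≤ 1 / ((w : ℝ) + N) - 1 / ((w : ℝ) + (N + 1 : ℕ)) := by
        push_cast
        have h2 : 0 < (w : ℝ) + N := by positivity
        have h3 : 0 < (w : ℝ) + (N + 1) := by positivity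
        rw [div_sub_div _ _ h2.ne' h3.ne', div_le_div_iff₀ (by positivity) (by positivity)]
        nlinarith
      linarith
  have hsub : T ⊆ Ioc w (w + T.sup id) := by
    intro p hp
    have : p ≤ T.sup id := le_sup (f := id) hp
    exact mem_Ioc.2 ⟨hT p hp, by omega⟩
  refine (sum_le_sum_of_subset_of_nonneg hsub fun p _ _ => by positivity).trans ((key _).trans ?_)
  have : 0 ≤ 1 / ((w : ℝ) + (T.sup id : ℕ)) := by positivity
  linarith

lemma sum_inv_le (T : Finset ℕ) (hT : ∀ p ∈ T, p.Prime) : ∑ p ∈ T, 1 / (p : ℝ) ≤ 1 / V T := by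
  have h1 : ∀ S : Finset ℕ, (∀ p ∈ S, p.Prime) → 1 + ∑ p ∈ S, 1 / (p : ℝ) ≤ 1 / V S := by
    intro S
    induction S using Finset.induction_on with
    | empty => intro _; simp [V]
    | insert a s ha ih =>
      intro h
      have ih' := ih (fun p hp => h p (mem_insert_of_mem hp))
      have hap := fac_pos (h a (mem_insert_self _ _))
      have hVs := V_pos (fun p hp => h p (mem_insert_of_mem hp) : ∀ p ∈ s, p.Prime)
      have e : V (insert a s) = (1 - 1 / (a : ℝ)) * V s := by unfold V; rw [prod_insert ha]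
      rw [sum_insert ha, e]
      have h2 : 1 + 1 / (a : ℝ) ≤ 1 / (1 - 1 / (a : ℝ)) := by
        rw [le_div_iff₀ hap]
        have : 0 ≤ 1 / (a : ℝ) * (1 / a) := by positivity
        nlinarith
      have h3 : 0 ≤ ∑ p ∈ s, 1 / (p : ℝ) := sum_nonneg fun _ _ => by positivity
      have h4 : 0 ≤ 1 / (a : ℝ) := by positivity
      calc 1 + (1 / (a : ℝ) + ∑ p ∈ s, 1 / (p : ℝ)) ≤ (1 + 1 / (a : ℝ)) * (1 + ∑ p ∈ s, 1 / (p : ℝ)) := by
            nlinarith [mul_nonneg h4 h3]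
        _ ≤ (1 / (1 - 1 / (a : ℝ))) * (1 / V s) :=
            mul_le_mul h2 ih' (by positivity) (by positivity)
        _ = 1 / ((1 - 1 / (a : ℝ)) * V s) := by rw [one_div_mul_one_div]
  have := h1 T hT
  linarith

section

variable {Ω : Type*} [MeasurableSpace Ω]

theorem prob_T (μ : Measure Ω) [IsProbabilityMeasure μ] (a : ℕ → Ω → ℕ) (hm : ∀ p, Measurable (a p))
    (hi : iIndepFun a μ) (hu : ∀ p : ℕ, p.Prime → ∀ r < p, μ {ω | a p ω = r} = (p : ℝ≥0∞)⁻¹)
    (ε : ℝ) (hε : 0 < ε) (hε1 : ε ≤ 1) (K : ℕ) (hFL : FL ε K) : ∃ w0 : ℕ, ∀ w : ℕ, w0 ≤ w →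
    ∀ y : ℕ, w ^ K ≤ y → w ≤ y → ∀ T : Finset ℕ, (∀ p ∈ T, p.Prime) → w ≤ y * V T → ∀ m : ℕ,
    μ {ω | ¬ |(((Ioc m (m + y)).filter (fun n => ∀ p ∈ T, n % p ≠ a p ω)).card : ℝ) - y * V T| ≤
      3 * ε * (y * V T)} ≤ ENNReal.ofReal (2 * Real.exp (-(ε ^ 2 * w * V T ^ 2 / 16))) := by
  obtain ⟨w0, hw2, hw0⟩ := hFL
  refine ⟨w0, fun w hw y hwK hwy T hT hwV m => ?_⟩
  have hw1 : 1 ≤ w := by omega
  have hw0' : (0 : ℝ) < w := by exact_mod_cast hw1
  have hy0 : (0 : ℝ) < y := by exact_mod_cast (by omega : 0 < y)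
  obtain ⟨T1, hT1⟩ : ∃ T1 : Finset ℕ, T1 = T.filter (fun p => p ≤ w) := ⟨_, rfl⟩
  obtain ⟨T2, hT2⟩ : ∃ T2 : Finset ℕ, T2 = T.filter (fun p => ¬ p ≤ w) := ⟨_, rfl⟩
  have hd : Disjoint T1 T2 := by rw [hT1, hT2]; exact disjoint_filter_filter_not _ _ _
  have hun : T = T1 ∪ T2 := by rw [hT1, hT2]; exact (filter_union_filter_not_eq _ _).symm
  have h1 : ∀ p ∈ T1, p.Prime ∧ p ≤ w := by
    intro p hp
    rw [hT1, mem_filter] at hp
    exact ⟨hT p hp.1, hp.2⟩
  have h2 : ∀ p ∈ T2, p.Prime ∧ w < p := by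
    intro p hp
    rw [hT2, mem_filter] at hp
    exact ⟨hT p hp.1, by omega⟩
  have hVV : V T = V T1 * V T2 := by
    conv_lhs => rw [hun]
    unfold V
    rw [prod_union hd]
  have hV0 : 0 < V T := V_pos hT
  have hV2 : 0 < V T2 := V_pos fun p hp => (h2 p hp).1
  have hV1 : 0 < V T1 := V_pos fun p hp => (h1 p hp).1
  have hV11 : V T1 ≤ 1 := V_le_one fun p hp => (h1 p hp).1
  have hSS : SS y T2.toList ≤ 2 * y / w := by
    rw [SS_toList]
    have e : ∑ p ∈ T2, ((y : ℝ) / p + 1) / p = y * ∑ p ∈ T2, 1 / ((p : ℝ) * p) + ∑ p ∈ T2, 1 / (p : ℝ) := by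
      rw [mul_sum, ← sum_add_distrib]
      apply sum_congr rfl
      intro p hp
      have hp0 : (p : ℝ) ≠ 0 := by exact_mod_cast (h2 p hp).1.ne_zero
      field_simp
    rw [e]
    have h3 := mul_le_mul_of_nonneg_left (sum_inv_sq w hw1 T2 fun p hp => (h2 p hp).2) hy0.le
    have h4 := sum_inv_le T2 fun p hp => (h2 p hp).1
    have h5 : 1 / V T2 ≤ y / w := by
      rw [div_le_div_iff₀ hV2 hw0', one_mul]
      refine hwV.trans ?_
      apply mul_le_mul_of_nonneg_left _ hy0.le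
      rw [hVV]
      exact mul_le_of_le_one_left hV2.le hV11
    have h6 : (y : ℝ) * (1 / w) = y / w := by ring
    have h7 : 2 * (y : ℝ) / w = y / w + y / w := by ring
    linarith
  have hlist : ∀ ρ : ℕ → ℕ, S ρ (T1.toList ++ T2.toList) (Ioc m (m + y)) =
      (Ioc m (m + y)).filter (fun n => ∀ p ∈ T, n % p ≠ ρ p) := by
    intro ρ
    unfold S
    apply filter_congr
    intro n _
    rw [hun]
    simp only [List.mem_append, mem_toList, mem_union]
  have ht := tails m y w hw1 hwy T1.toList T2.toList (fun p hp => (h1 p (mem_toList.1 hp)).1.pos)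
    (fun p hp => (h1 p (mem_toList.1 hp)).2) (nodup_toList _) (fun p hp => (h2 p (mem_toList.1 hp)).2) hSS
    ε (V T) hε hε1 (by rw [PP_toList, PP_toList]; exact hVV) hV0 (by
      intro ρ hρ
      obtain ⟨ρ', hρ', he⟩ := card_shift m y T1 (fun p hp => (h1 p hp).1) ρ (fun p hp => hρ p (mem_toList.2 hp))
      have h3 := hw0 w hw y hwK T1 h1 ρ' hρ'
      rw [← he] at h3
      rw [PP_toList]
      have h4 : S ρ T1.toList (Ioc m (m + y)) = (Ioc m (m + y)).filter (fun n => ∀ p ∈ T1, n % p ≠ ρ p) := by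
        unfold S
        simp only [mem_toList]
      rw [h4]
      exact h3)
  have hα0 : 0 ≤ ε * V T / 16 * w / y := by positivity
  have hp := prob_le μ a hm hi hu (T1.toList ++ T2.toList)
    (List.nodup_append.2 ⟨nodup_toList _, nodup_toList _, by
      intro p hp q hq hpq
      subst hpq
      exact (disjoint_left.1 hd (mem_toList.1 hp)) (mem_toList.1 hq)⟩)
    (by
      intro p hp
      rcases List.mem_append.1 hp with h | h
      · exact (h1 p (mem_toList.1 h)).1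
      · exact (h2 p (mem_toList.1 h)).1)
    (fun ρ => ¬ |((S ρ (T1.toList ++ T2.toList) (Ioc m (m + y))).card : ℝ) - y * V T| ≤ 3 * ε * (y * V T))
    (by
      intro ρ ρ' h
      rw [S_congr _ h]
      exact id)
    (fun ρ => Real.exp (ε * V T / 16 * w / y * (((S ρ (T1.toList ++ T2.toList) (Ioc m (m + y))).card : ℝ) - (1 + 3 * ε) * (y * V T))) +
      Real.exp (ε * V T / 16 * w / y * ((1 - 3 * ε) * (y * V T) - ((S ρ (T1.toList ++ T2.toList) (Ioc m (m + y))).card : ℝ))))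
    (fun ρ => by positivity)
    (by
      intro ρ hρ
      rw [abs_le, not_and_or, not_le, not_le] at hρ
      rcases hρ with h | h
      · have h3 : 1 ≤ Real.exp (ε * V T / 16 * w / y * ((1 - 3 * ε) * (y * V T) - ((S ρ (T1.toList ++ T2.toList) (Ioc m (m + y))).card : ℝ))) :=
          Real.one_le_exp (mul_nonneg hα0 (by linarith))
        have h4 := Real.exp_pos (ε * V T / 16 * w / y * (((S ρ (T1.toList ++ T2.toList) (Ioc m (m + y))).card : ℝ) - (1 + 3 * ε) * (y * V T)))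
        linarith
      · have h3 : 1 ≤ Real.exp (ε * V T / 16 * w / y * (((S ρ (T1.toList ++ T2.toList) (Ioc m (m + y))).card : ℝ) - (1 + 3 * ε) * (y * V T))) :=
          Real.one_le_exp (mul_nonneg hα0 (by linarith))
        have h4 := Real.exp_pos (ε * V T / 16 * w / y * ((1 - 3 * ε) * (y * V T) - ((S ρ (T1.toList ++ T2.toList) (Ioc m (m + y))).card : ℝ)))
        linarith)
    _ ht
  simp only [hlist] at hp
  exact hp

end

end Pool.Agent.V5helper42.RS
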