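import Pool.Agent.V5helper42.RS.Cnt
import Pool.Agent.V5helper42.RS.E
import Pool.Agent.N610.MS.BON
import Pool.Agent.N610.MS.LEG

set_option autoImplicit false

/-!
# Random sieve model: exceptional patterns (helper42)
-/

namespace Pool.Agent.V5helper42.RS

open Finset Filter Topology
open Pool.Agent.W41 (V V_ge V_pos fac_pos fac_le_one V_le_one)

/-- choice of classes at least as good as the average -/
lemma greedy (σ : ℝ) : ∀ l : List ℕ, l.Nodup → (∀ p ∈ l, 0 < p) → ∀ (A : Finset ℕ) (ρ : ℕ → ℕ),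
    ∃ ρ' : ℕ → ℕ, (∀ q, q ∉ l → ρ' q = ρ q) ∧ (∀ q ∈ l, ρ' q < q) ∧
      σ * (PP l * (A.card : ℝ)) ≤ σ * ((S ρ' l A).card : ℝ) := by
  intro l
  induction l with
  | nil =>
    intro _ _ A ρ
    exact ⟨ρ, fun _ _ => rfl, by simp, by simp [S_nil, PP]⟩
  | cons p l ih =>
    intro hnd hpos A ρ
    have hnd' : l.Nodup := (List.nodup_cons.1 hnd).2
    have hpl : p ∉ l := (List.nodup_cons.1 hnd).1
    have hp : 0 < p := hpos p (by simp)
    have hp0 : (0 : ℝ) < p := by exact_mod_cast hp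
    have hsum : A.card = ∑ r ∈ range p, (A.filter (fun n => n % p = r)).card :=
      card_eq_sum_card_fiberwise (fun n _ => by
        simp only [coe_range, Set.mem_Iio]
        exact Nat.mod_lt _ hp)
    have hsumR : ∑ r ∈ range p, σ * ((A.filter (fun n => n % p = r)).card : ℝ) ≤
        ∑ r ∈ range p, σ * (A.card : ℝ) / p := by
      rw [← mul_sum, sum_const, card_range, nsmul_eq_mul]
      have : (A.card : ℝ) = ∑ r ∈ range p, ((A.filter (fun n => n % p = r)).card : ℝ) := by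
        exact_mod_cast hsum
      rw [← this]
      apply le_of_eq
      field_simp
    obtain ⟨r, hr, hle⟩ := exists_le_of_sum_le ⟨0, mem_range.2 hp⟩ hsumR
    have hcard : ((A.filter (fun n => n % p ≠ r)).card : ℝ) =
        (A.card : ℝ) - ((A.filter (fun n => n % p = r)).card : ℝ) := by
      have := card_filter_add_card_filter_not (s := A) (fun n => n % p = r)
      have h3 : ((A.filter (fun n => n % p = r)).card : ℝ) + ((A.filter (fun n => ¬ n % p = r)).card : ℝ) = A.card := by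
        exact_mod_cast this
      linarith
    obtain ⟨ρ', h1, h2, h3⟩ := ih hnd' (fun q hq => hpos q (List.mem_cons_of_mem _ hq))
      (A.filter (fun n => n % p ≠ r)) (Function.update ρ p r)
    refine ⟨ρ', ?_, ?_, ?_⟩
    · intro q hq
      rw [List.mem_cons, not_or] at hq
      rw [h1 q hq.2, Function.update_of_ne hq.1]
    · intro q hq
      rcases List.mem_cons.1 hq with rfl | hq
      · rw [h1 _ hpl, Function.update_self]
        exact mem_range.1 hr
      · exact h2 q hq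
    · rw [S_cons, h1 p hpl, Function.update_self]
      refine le_trans ?_ h3
      have eP : PP (p :: l) = (1 - 1 / (p : ℝ)) * PP l := by simp [PP]
      obtain ⟨hP0, _⟩ := PP_nonneg l (fun q hq => hpos q (List.mem_cons_of_mem _ hq))
      rw [eP, hcard]
      have h4 : σ * (A.card : ℝ) * (1 - 1 / p) ≤ σ * ((A.card : ℝ) - ((A.filter (fun n => n % p = r)).card : ℝ)) := by
        have : σ * (A.card : ℝ) * (1 - 1 / p) = σ * A.card - σ * A.card / p := by ring
        rw [this]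
        linarith
      have h5 := mul_le_mul_of_nonneg_left h4 hP0
      calc σ * ((1 - 1 / (p : ℝ)) * PP l * (A.card : ℝ)) = PP l * (σ * (A.card : ℝ) * (1 - 1 / p)) := by ring
        _ ≤ _ := h5
        _ = _ := by ring

/-- the small primes -/
def Zp (j : ℕ) : Finset ℕ := (Icc 1 (j / 3)).filter Nat.Prime

lemma Zp_prime (j : ℕ) : ∀ p ∈ Zp j, p.Prime := fun p hp => (mem_filter.1 hp).2

theorem pattern (b : ℕ) (hb : 1 ≤ b) (σ : ℝ) (hσ : σ = 1 ∨ σ = -1) : ∃ δ : ℝ, dd b ≤ δ ∧ 0 < δ ∧ δ ≤ 1 ∧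
    ∀ᶠ j : ℕ in atTop, ∃ c : ℕ → ℕ, (∀ p ∈ Zp j, c p < p) ∧
      2 * δ * (((j ^ b : ℕ) : ℝ) * V (Zp j)) ≤
        σ * (((S c (Zp j).toList (Icc 1 (j ^ b))).card : ℝ) - ((j ^ b : ℕ) : ℝ) * V (Zp j)) := by
  obtain ⟨δ, hd1, hd2, hd3, hev⟩ := cntR Pool.Agent.N610.MS.t_BON
    (Pool.Agent.N610.MS.t_LEG Pool.Agent.N610.MS.t_BON) b hb σ hσ
  refine ⟨δ, hd1, hd2, hd3, ?_⟩
  have hexp : Tendsto (fun j : ℕ => Real.exp (j : ℝ)) atTop atTop :=
    Real.tendsto_exp_atTop.comp tendsto_natCast_atTop_atTop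
  filter_upwards [hexp.eventually hev, eventually_ge_atTop 1] with j hj hj1
  obtain ⟨P, hP, hrel⟩ := hj ∅ 1 ⟨by simp, by simp; positivity⟩
  rw [Real.log_exp, Real.rpow_natCast] at hrel
  have hPp : ∀ p ∈ P, p.Prime ∧ p ≤ j / 3 := by
    intro p hp
    have h1 := hP hp
    rw [Pool.Agent.H378R2.PW, mem_filter, mem_Icc] at h1
    refine ⟨h1.2.1, h1.1.2.trans ?_⟩
    unfold Pool.Agent.H378R2.yy
    rw [Real.log_exp]
    apply Nat.floor_le_of_le
    have h2 : (j : ℝ) < 3 * (((j / 3 : ℕ) : ℝ) + 1) := by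
      have := Nat.lt_div_mul_add (a := j) (b := 3) (by norm_num)
      have h3 : j < 3 * (j / 3 + 1) := by omega
      exact_mod_cast h3
    have h4 : (0 : ℝ) ≤ ((j / 3 : ℕ) : ℝ) := Nat.cast_nonneg _
    rcases Nat.lt_or_ge j 3 with h | h
    · -- then `P` is empty
      exfalso
      have h5 : p ≤ ⌊Real.log (Real.exp (j : ℝ)) / 1000⌋₊ := h1.1.2
      rw [Real.log_exp] at h5
      have h6 : ⌊(j : ℝ) / 1000⌋₊ = 0 := by
        rw [Nat.floor_eq_zero]
        have : (j : ℝ) < 3 := by exact_mod_cast h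
        linarith
      rw [h6] at h5
      have := h1.2.1.pos
      omega
    · have h5 : (1 : ℝ) ≤ ((j / 3 : ℕ) : ℝ) := by exact_mod_cast (by omega : 1 ≤ j / 3)
      linarith
  have hPZ : P ⊆ Zp j := by
    intro p hp
    rw [Zp, mem_filter, mem_Icc]
    exact ⟨⟨(hPp p hp).1.one_lt.le, (hPp p hp).2⟩, (hPp p hp).1⟩
  obtain ⟨A0, hA0⟩ : ∃ A0 : Finset ℕ, A0 = (Icc 1 (j ^ b)).filter (fun h => ∀ p ∈ P, ¬ p ∣ h) := ⟨_, rfl⟩
  obtain ⟨Q, hQ⟩ : ∃ Q : Finset ℕ, Q = Zp j \ P := ⟨_, rfl⟩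
  have hQp : ∀ p ∈ Q, p.Prime := by
    intro p hp
    rw [hQ, Finset.mem_sdiff] at hp
    exact Zp_prime j p hp.1
  obtain ⟨c, hc1, hc2, hc3⟩ := greedy σ Q.toList (nodup_toList _) (fun p hp => (hQp p (mem_toList.1 hp)).pos) A0 (fun _ => 0)
  refine ⟨c, ?_, ?_⟩
  · intro p hp
    by_cases hpP : p ∈ P
    · have : p ∉ Q.toList := by
        rw [mem_toList, hQ, Finset.mem_sdiff]
        exact fun h => h.2 hpP
      rw [hc1 p this]
      exact (Zp_prime j p hp).pos
    · exact hc2 p (by rw [mem_toList, hQ, Finset.mem_sdiff]; exact ⟨hp, hpP⟩)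
  · have hSe : S c (Zp j).toList (Icc 1 (j ^ b)) = S c Q.toList A0 := by
      unfold S
      rw [hA0, filter_filter]
      apply filter_congr
      intro n _
      simp only [mem_toList]
      constructor
      · intro h
        refine ⟨fun p hp hd => ?_, fun p hp => h p ?_⟩
        · have h1 := h p (hPZ hp)
          have : p ∉ Q.toList := by
            rw [mem_toList, hQ, Finset.mem_sdiff]
            exact fun h => h.2 hp
          rw [hc1 p this] at h1
          exact h1 (Nat.mod_eq_zero_of_dvd hd)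
        · rw [hQ, Finset.mem_sdiff] at hp
          exact hp.1
      · rintro ⟨h1, h2⟩ p hp
        by_cases hpP : p ∈ P
        · have : p ∉ Q.toList := by
            rw [mem_toList, hQ, Finset.mem_sdiff]
            exact fun h => h.2 hpP
          rw [hc1 p this]
          exact fun h => h1 p hpP (Nat.dvd_of_mod_eq_zero h)
        · exact h2 p (by rw [hQ, Finset.mem_sdiff]; exact ⟨hp, hpP⟩)
    rw [hSe]
    rw [PP_toList] at hc3
    have hVZ : V (Zp j) = V Q * V P := by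
      unfold V
      rw [hQ, prod_sdiff hPZ]
    have hVP : 0 < V P := V_pos fun p hp => (hPp p hp).1
    have hVQ : 0 < V Q := V_pos hQp
    have hjb : (0 : ℝ) < (j : ℝ) ^ b := by
      have : (0 : ℝ) < j := by exact_mod_cast hj1
      positivity
    have hrel2 : Pool.Agent.N610.MS.rel P ((j : ℝ) ^ b) = (A0.card : ℝ) / ((j : ℝ) ^ b * V P) := by
      unfold Pool.Agent.N610.MS.rel Pool.Agent.N610.MS.V V
      have : ⌊(j : ℝ) ^ b⌋₊ = j ^ b := by
        have h1 : (j : ℝ) ^ b = ((j ^ b : ℕ) : ℝ) := by push_cast; rfl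
        rw [h1, Nat.floor_natCast]
      rw [this, hA0]
    rw [hrel2] at hrel
    have h3 : 2 * δ * ((j : ℝ) ^ b * V P) ≤ σ * ((A0.card : ℝ) - (j : ℝ) ^ b * V P) := by
      have h4 : 0 < (j : ℝ) ^ b * V P := mul_pos hjb hVP
      have h5 := mul_le_mul_of_nonneg_right hrel h4.le
      have h6 : σ * ((A0.card : ℝ) / ((j : ℝ) ^ b * V P) - 1) * ((j : ℝ) ^ b * V P) =
          σ * ((A0.card : ℝ) - (j : ℝ) ^ b * V P) := by
        field_simp
      rw [h6] at h5
      exact h5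
    push_cast
    rw [hVZ]
    have h7 := mul_le_mul_of_nonneg_left h3 hVQ.le
    calc 2 * δ * ((j : ℝ) ^ b * (V Q * V P)) = V Q * (2 * δ * ((j : ℝ) ^ b * V P)) := by ring
      _ ≤ V Q * (σ * ((A0.card : ℝ) - (j : ℝ) ^ b * V P)) := h7
      _ = σ * (V Q * (A0.card : ℝ)) - σ * ((j : ℝ) ^ b * (V Q * V P)) := by ring
      _ ≤ σ * ((S c Q.toList A0).card : ℝ) - σ * ((j : ℝ) ^ b * (V Q * V P)) := by linarith
      _ = _ := by ring

/-- Chinese remainder theorem: a translation with prescribed classes -/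
theorem crt (j : ℕ) (hj : 3 ≤ j) (c ρ : ℕ → ℕ) (hc : ∀ p ∈ Zp j, c p < p) (hρ : ∀ p ∈ Zp j, ρ p < p) :
    ∃ m : ℕ, Real.exp j ≤ m ∧ (m : ℝ) ≤ 2 * Real.exp j ∧ ∀ y : ℕ,
      (S ρ (Zp j).toList (Ioc m (m + y))).card = (S c (Zp j).toList (Icc 1 y)).card := by
  obtain ⟨N0, hN0⟩ : ∃ N0 : ℕ, N0 = ⌈Real.exp (j : ℝ)⌉₊ := ⟨_, rfl⟩
  have hco : Set.Pairwise (↑(Zp j) : Set ℕ) (Function.onFun Nat.Coprime (fun p => p)) := by
    intro p hp q hq hpq
    exact (Nat.coprime_primes (Zp_prime j p hp) (Zp_prime j q hq)).2 hpq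
  have hne : ∀ p ∈ Zp j, (fun p : ℕ => p) p ≠ 0 := fun p hp => (Zp_prime j p hp).ne_zero
  obtain ⟨k, hk⟩ : ∃ k, k = Nat.chineseRemainderOfFinset (fun p => ρ p + (p - c p) + (p * N0 - N0)) (fun p => p) (Zp j) hne hco := ⟨_, rfl⟩
  have hkm : ∀ p ∈ Zp j, (k : ℕ) ≡ ρ p + (p - c p) + (p * N0 - N0) [MOD p] := k.2
  have hklt : (k : ℕ) < ∏ p ∈ Zp j, p := by
    rw [hk]; exact Nat.chineseRemainderOfFinset_lt_prod _ _ hne hco
  have hprod : ∏ p ∈ Zp j, p ≤ 4 ^ (j / 3) := by
    have h1 := primorial_le_four_pow (j / 3)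
    refine le_trans (le_of_eq ?_) h1
    unfold primorial Zp
    apply prod_congr _ (fun _ _ => rfl)
    ext p
    simp only [mem_filter, mem_Icc, mem_range]
    constructor
    · rintro ⟨⟨h2, h3⟩, h4⟩
      exact ⟨by omega, h4⟩
    · rintro ⟨h2, h4⟩
      exact ⟨⟨h4.one_lt.le, by omega⟩, h4⟩
  refine ⟨N0 + k, ?_, ?_, ?_⟩
  · push_cast
    have h1 : Real.exp j ≤ N0 := by rw [hN0]; exact Nat.le_ceil _
    have h2 : (0 : ℝ) ≤ ((k : ℕ) : ℝ) := Nat.cast_nonneg _
    linarith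
  · push_cast
    have h1 : (N0 : ℝ) ≤ Real.exp j + 1 := by rw [hN0]; exact (Nat.ceil_lt_add_one (Real.exp_pos _).le).le
    have h2 : ((k : ℕ) : ℝ) ≤ (4 : ℝ) ^ (j / 3) := by exact_mod_cast (hklt.le.trans hprod)
    have he2 : (2 : ℝ) ≤ Real.exp 1 := by
      have := Real.add_one_le_exp (1 : ℝ); linarith
    have h3 : (4 : ℝ) ^ (j / 3) ≤ Real.exp (j - 1) := by
      have h4 : (4 : ℝ) ≤ Real.exp 2 := by
        have : Real.exp 2 = Real.exp 1 * Real.exp 1 := by rw [← Real.exp_add]; norm_num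
        rw [this]; nlinarith
      calc (4 : ℝ) ^ (j / 3) ≤ (Real.exp 2) ^ (j / 3) := pow_le_pow_left₀ (by norm_num) h4 _
        _ = Real.exp (((j / 3 : ℕ) : ℝ) * 2) := by rw [← Real.exp_nat_mul]
        _ ≤ Real.exp (j - 1) := by
            apply Real.exp_le_exp.2
            have h5 : (j / 3) * 2 + 1 ≤ j := by omega
            have h6 : (((j / 3 : ℕ) : ℝ)) * 2 + 1 ≤ j := by exact_mod_cast h5
            linarith
    have h4 : Real.exp (j - 1) * 2 ≤ Real.exp j := by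
      have : Real.exp (j : ℝ) = Real.exp (j - 1) * Real.exp 1 := by rw [← Real.exp_add]; congr 1; ring
      rw [this]
      exact mul_le_mul_of_nonneg_left he2 (Real.exp_pos _).le
    have h5 : 1 ≤ Real.exp ((j : ℝ) - 1) := by
      apply Real.one_le_exp
      have : (3 : ℝ) ≤ j := by exact_mod_cast hj
      linarith
    linarith
  · intro y
    have hmc : ∀ p ∈ Zp j, (N0 + k + c p) % p = ρ p := by
      intro p hp
      have hp0 := (Zp_prime j p hp).pos
      have h1 : N0 + k + c p ≡ N0 + (ρ p + (p - c p) + (p * N0 - N0)) + c p [MOD p] :=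
        ((hkm p hp).add_left N0).add_right (c p)
      have h2 : N0 + (ρ p + (p - c p) + (p * N0 - N0)) + c p = ρ p + p * (N0 + 1) := by
        have h3 : N0 ≤ p * N0 := Nat.le_mul_of_pos_left _ hp0
        have h4 := hc p hp
        have h5 : p * (N0 + 1) = p * N0 + p := by ring
        omega
      rw [h2] at h1
      have h3 : (ρ p + p * (N0 + 1)) % p = ρ p := by
        rw [Nat.add_mul_mod_self_left, Nat.mod_eq_of_lt (hρ p hp)]
      exact Eq.trans h1 h3
    obtain ⟨m, hm⟩ : ∃ m : ℕ, m = N0 + k := ⟨_, rfl⟩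
    rw [← hm] at hmc ⊢
    have hequiv : ∀ i : ℕ, ∀ p ∈ Zp j, ((m + i) % p = ρ p ↔ i % p = c p) := by
      intro i p hp
      rw [← hmc p hp]
      constructor
      · intro h
        have h1 : i ≡ c p [MOD p] := Nat.ModEq.add_left_cancel' m h
        have h2 : i % p = c p % p := h1
        rw [h2, Nat.mod_eq_of_lt (hc p hp)]
      · intro h
        have h1 : i ≡ c p [MOD p] := by
          show i % p = c p % p
          rw [h, Nat.mod_eq_of_lt (hc p hp)]
        exact h1.add_left m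
    symm
    apply card_bij (fun i _ => m + i)
    · intro i hi
      unfold S at hi ⊢
      rw [mem_filter, mem_Icc] at hi
      rw [mem_filter, mem_Ioc]
      refine ⟨⟨by omega, by omega⟩, fun p hp h => hi.2 p hp ((hequiv i p (mem_toList.1 hp)).1 h)⟩
    · intro i _ i' _ h
      omega
    · intro n hn
      unfold S at hn
      rw [mem_filter, mem_Ioc] at hn
      obtain ⟨i, rfl⟩ : ∃ i, n = m + i := ⟨n - m, by omega⟩
      refine ⟨i, ?_, rfl⟩
      unfold S
      rw [mem_filter, mem_Icc]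
      exact ⟨⟨by omega, by omega⟩, fun p hp h => hn.2 p hp ((hequiv i p (mem_toList.1 hp)).2 h)⟩

end Pool.Agent.V5helper42.RS
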