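import Pool.Agent.V5helper42.RS.C

set_option autoImplicit false

/-!
# Random sieve model: two phases (helper42)
-/

namespace Pool.Agent.V5helper42.RS

open Finset

/-- two phases of the random sieve: exponential moments with the sign `σ`.  `ε, η` small, `z < l2`, `L < l3`. -/
theorem two_phase (m y z L : ℕ) (hz : 1 ≤ z) (hL : 1 ≤ L) (hLy : L ≤ y) (hzy : z ≤ y) (l2 l3 : List ℕ)
    (hnd : (l2 ++ l3).Nodup) (h2p : ∀ p ∈ l2, z < p) (h3p : ∀ p ∈ l3, L < p)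
    (hSS2 : SS y l2 ≤ 2 * y / z) (hSS3 : SS y l3 ≤ 2 * y / L)
    (ε η V2 V3 : ℝ) (hε : 0 < ε) (hε1 : ε ≤ 1) (hη : 0 < η) (hη1 : η ≤ 1 / 16)
    (hV2 : V2 = PP l2) (hV3 : V3 = PP l3) (hV30 : 0 < V3)
    (hLb : 8 * η * z ≤ ε * V3 ^ 2 * L)
    (σ : ℝ) (hσ : σ = 1 ∨ σ = -1) (A : Finset ℕ) (hA : A ⊆ Ioc m (m + y)) (ρ : ℕ → ℕ) :
    EE (l2 ++ l3) (fun ρ' => Real.exp (σ * (η * z / (y * V3)) * ((S ρ' (l2 ++ l3) A).card : ℝ))) ρ ≤
      Real.exp ((σ * (η * z / y) * V2 + ε * (η * z / y) * V2 + 32 * (η * z / y) * η) * (A.card : ℝ)) := by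
  obtain ⟨hnd2, hnd3, hdis⟩ := List.nodup_append.1 hnd
  have hz0 : (0 : ℝ) < z := by exact_mod_cast hz
  have hL0 : (0 : ℝ) < L := by exact_mod_cast hL
  have hy1 : (z : ℝ) ≤ y := by exact_mod_cast hzy
  have hy2 : (L : ℝ) ≤ y := by exact_mod_cast hLy
  have hy0 : (0 : ℝ) < y := hz0.trans_le hy1
  have h2pos : ∀ p ∈ l2, 0 < p := fun p hp => (Nat.zero_le z).trans_lt (h2p p hp)
  have h3pos : ∀ p ∈ l3, 0 < p := fun p hp => (Nat.zero_le L).trans_lt (h3p p hp)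
  obtain ⟨hP20, hP21⟩ := PP_nonneg l2 h2pos
  obtain ⟨hP30, hP31⟩ := PP_nonneg l3 h3pos
  rw [← hV2] at hP20 hP21
  rw [← hV3] at hP30 hP31
  have hσ2 : σ ^ 2 = 1 := by rcases hσ with h | h <;> rw [h] <;> norm_num
  have hσa : |σ| = 1 := by rcases hσ with h | h <;> rw [h] <;> simp
  obtain ⟨β, hβ⟩ : ∃ β : ℝ, β = η * z / y := ⟨_, rfl⟩
  have hβ0 : 0 < β := by rw [hβ]; positivity
  obtain ⟨α, hα⟩ : ∃ α : ℝ, α = η * z / (y * V3) := ⟨_, rfl⟩
  have hα0 : 0 < α := by rw [hα]; positivity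
  have hαβ : α * V3 = β := by rw [hα, hβ]; field_simp
  have habs : |σ * α| = α := by rw [abs_mul, hσa, one_mul, abs_of_pos hα0]
  -- the main smallness
  have hαL : α * (y / L) * 8 ≤ ε * V3 := by
    have e : α * (y / L) * 8 = 8 * η * z / (V3 * L) := by rw [hα]; field_simp
    rw [e, div_le_iff₀ (by positivity)]
    calc 8 * η * z ≤ ε * V3 ^ 2 * L := hLb
      _ = ε * V3 * (V3 * L) := by ring
  have hεV3 : ε * V3 ≤ 1 := mul_le_one₀ hε1 hP30 hP31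
  have hb3 : ∀ p ∈ l3, 2 * |σ * α| * ((y : ℝ) / p + 1) ≤ 1 := by
    intro p hp
    rw [habs]
    have hp1 : (L : ℝ) ≤ p := by exact_mod_cast (h3p p hp).le
    have h3 : (y : ℝ) / p ≤ y / L := div_le_div_of_nonneg_left hy0.le hL0 hp1
    have h4 : (1 : ℝ) ≤ y / L := by rw [le_div_iff₀ hL0]; linarith
    have h5 : α * ((y : ℝ) / p + 1) ≤ α * (2 * (y / L)) := mul_le_mul_of_nonneg_left (by linarith) hα0.le
    linarith
  have hSS3' : α * SS y l3 ≤ α * (2 * y / L) := mul_le_mul_of_nonneg_left hSS3 hα0.le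
  have hSS3'' : 4 * (α * SS y l3) ≤ ε * V3 := by
    have : α * (2 * y / L) = 2 * (α * (y / L)) := by ring
    rw [this] at hSS3'
    linarith
  have hs3 : 4 * |σ * α| * SS y l3 ≤ 1 := by
    rw [habs]
    linarith
  -- phase 3
  obtain ⟨γ, hγ⟩ : ∃ γ : ℝ, γ = σ * α * PP l3 + 4 * (σ * α) ^ 2 * SS y l3 := ⟨_, rfl⟩
  have hSS30 := SS_nonneg y l3
  have hγ1 : γ = σ * β + 4 * α ^ 2 * SS y l3 := by
    rw [hγ, ← hV3, mul_pow, hσ2, one_mul, mul_assoc σ α V3, hαβ]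
  have hq0 : 0 ≤ 4 * α ^ 2 * SS y l3 := by positivity
  have hq1 : 4 * α ^ 2 * SS y l3 ≤ ε * β := by
    calc 4 * α ^ 2 * SS y l3 = α * (4 * (α * SS y l3)) := by ring
      _ ≤ α * (ε * V3) := mul_le_mul_of_nonneg_left hSS3'' hα0.le
      _ = ε * β := by rw [← hαβ]; ring
  have hεβ : ε * β ≤ β := mul_le_of_le_one_left hβ0.le hε1
  have hγa : |γ| ≤ 2 * β := by
    rw [hγ1]
    have h1 := abs_add_le (σ * β) (4 * α ^ 2 * SS y l3)
    rw [abs_mul, hσa, one_mul, abs_of_pos hβ0, abs_of_nonneg hq0] at h1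
    linarith
  have hβz : β * (y / z) = η := by rw [hβ]; field_simp
  have hb2 : ∀ p ∈ l2, 2 * |γ| * ((y : ℝ) / p + 1) ≤ 1 := by
    intro p hp
    have hp1 : (z : ℝ) ≤ p := by exact_mod_cast (h2p p hp).le
    have h3 : (y : ℝ) / p ≤ y / z := div_le_div_of_nonneg_left hy0.le hz0 hp1
    have h4 : (1 : ℝ) ≤ y / z := by rw [le_div_iff₀ hz0]; linarith
    have h5 : |γ| * ((y : ℝ) / p + 1) ≤ (2 * β) * (2 * (y / z)) := by
      apply mul_le_mul hγa (by linarith) (by positivity) (by positivity)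
    have h6 : (2 * β) * (2 * ((y : ℝ) / z)) = 4 * η := by rw [← hβz]; ring
    rw [h6] at h5
    linarith
  have hSS20 := SS_nonneg y l2
  have hs2 : 4 * |γ| * SS y l2 ≤ 1 := by
    have h5 : |γ| * SS y l2 ≤ (2 * β) * (2 * y / z) := mul_le_mul hγa hSS2 hSS20 (by positivity)
    have h6 : (2 * β) * (2 * (y : ℝ) / z) = 4 * η := by rw [← hβz]; ring
    rw [h6] at h5
    linarith
  have hγsq : 4 * γ ^ 2 * SS y l2 ≤ 32 * β * η := by
    have h1 : γ ^ 2 ≤ (2 * β) ^ 2 := by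
      rw [← sq_abs γ]
      exact pow_le_pow_left₀ (abs_nonneg _) hγa 2
    calc 4 * γ ^ 2 * SS y l2 ≤ 4 * (2 * β) ^ 2 * (2 * y / z) :=
          mul_le_mul (by linarith) hSS2 hSS20 (by positivity)
      _ = 32 * β * (β * (y / z)) := by ring
      _ = 32 * β * η := by rw [hβz]
  rw [← hα]
  rw [EE_append]
  have step3 : EE l2 (fun ρ' => EE l3 (fun ρ'' => Real.exp (σ * α * ((S ρ'' (l2 ++ l3) A).card : ℝ))) ρ') ρ ≤
      EE l2 (fun ρ' => Real.exp (γ * ((S ρ' l2 A).card : ℝ))) ρ := by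
    apply EE_mono
    intro ρ' _ _
    have h1 := ee_exp m y (σ * α) l3 hnd3 h3pos hb3 hs3 (S ρ' l2 A) ((S_subset _ _ _).trans hA) ρ'
    rw [← hγ] at h1
    refine le_trans (le_of_eq ?_) h1
    apply EE_congr
    intro ρ'' h _
    rw [S_append, S_congr (ρ := ρ'') (ρ' := ρ') (l := l2) A (fun p hp => h p (fun h' => hdis p hp p h' rfl))]
  refine step3.trans ?_
  have h2 := ee_exp m y γ l2 hnd2 h2pos hb2 hs2 A hA ρ
  refine h2.trans ?_
  apply Real.exp_le_exp.2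
  apply mul_le_mul_of_nonneg_right _ (Nat.cast_nonneg _)
  rw [← hV2, ← hβ]
  have h3 : γ * V2 ≤ σ * β * V2 + ε * β * V2 := by
    have : γ ≤ σ * β + ε * β := by linarith
    have := mul_le_mul_of_nonneg_right this hP20
    linarith
  linarith

end Pool.Agent.V5helper42.RS
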