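import Pool.Agent.V5helper42.RS.D

set_option autoImplicit false

/-!
# Random sieve model: primes larger than the length of the interval (helper42)
-/

namespace Pool.Agent.V5helper42.RS

open Finset

/-- classes modulo `p > y` contain at most one element -/
lemma card_class_one (m y p r : ℕ) (hp : y < p) (A : Finset ℕ) (hA : A ⊆ Ioc m (m + y)) :
    (A.filter (fun n => n % p = r)).card ≤ 1 := by
  rw [card_le_one]
  intro n hn n' hn'
  rw [mem_filter] at hn hn'
  have h1 := mem_Ioc.1 (hA hn.1)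
  have h2 := mem_Ioc.1 (hA hn'.1)
  rcases le_total n n' with h | h
  · have h3 : n ≡ n' [MOD p] := hn.2.trans hn'.2.symm
    have h4 := (Nat.modEq_iff_dvd' h).1 h3
    have h5 : n' - n < p := by omega
    have := Nat.eq_zero_of_dvd_of_lt h4 h5
    omega
  · have h3 : n' ≡ n [MOD p] := hn'.2.trans hn.2.symm
    have h4 := (Nat.modEq_iff_dvd' h).1 h3
    have h5 : n - n' < p := by omega
    have := Nat.eq_zero_of_dvd_of_lt h4 h5
    omega

/-- one large prime -/
lemma step_one (m y p : ℕ) (hp : y < p) (A : Finset ℕ) (hA : A ⊆ Ioc m (m + y)) (φ : ℝ) (hφ : 0 < φ) :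
    (1 / (p : ℝ)) * ∑ r ∈ range p, φ ^ (A.filter (fun n => n % p ≠ r)).card ≤
      (φ * Real.exp (-((1 - 1 / φ) / p))) ^ A.card := by
  have hp0 : 0 < p := by omega
  have hpR : (0 : ℝ) < p := by exact_mod_cast hp0
  have h1 : ∀ r ∈ range p, φ ^ (A.filter (fun n => n % p ≠ r)).card =
      φ ^ A.card * (1 - ((A.filter (fun n => n % p = r)).card : ℝ) * (1 - 1 / φ)) := by
    intro r _
    have h2 := card_filter_add_card_filter_not (s := A) (fun n => n % p = r)
    have h3 := card_class_one m y p r hp A hA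
    rcases Nat.lt_or_ge (A.filter (fun n => n % p = r)).card 1 with h | h
    · have h4 : (A.filter (fun n => n % p = r)).card = 0 := by omega
      rw [h4] at h2 ⊢
      have h5 : (A.filter (fun n => n % p ≠ r)).card = A.card := by
        have : (A.filter (fun n => ¬ n % p = r)).card = A.card := by omega
        exact this
      rw [h5]
      simp
    · have h4 : (A.filter (fun n => n % p = r)).card = 1 := by omega
      rw [h4] at h2 ⊢
      have h5 : (A.filter (fun n => n % p ≠ r)).card + 1 = A.card := by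
        have : (A.filter (fun n => ¬ n % p = r)).card + 1 = A.card := by omega
        exact this
      rw [← h5, pow_succ]
      push_cast
      field_simp
      ring
  rw [sum_congr rfl h1, ← mul_sum, sum_sub_distrib, ← sum_mul]
  have hK : ∑ r ∈ range p, ((A.filter (fun n => n % p = r)).card : ℝ) = A.card := by
    have : A.card = ∑ r ∈ range p, (A.filter (fun n => n % p = r)).card :=
      card_eq_sum_card_fiberwise (fun n _ => by
        simp only [coe_range, Set.mem_Iio]
        exact Nat.mod_lt _ hp0)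
    exact_mod_cast this.symm
  rw [hK]
  have e1 : ∑ _r ∈ range p, (1 : ℝ) = p := by simp
  rw [e1, mul_pow]
  have h2 : (1 / (p : ℝ)) * (φ ^ A.card * (p - A.card * (1 - 1 / φ))) =
      φ ^ A.card * (-((A.card : ℝ) * ((1 - 1 / φ) / p)) + 1) := by
    field_simp
    ring
  rw [h2]
  apply mul_le_mul_of_nonneg_left _ (by positivity)
  rw [← Real.exp_nat_mul]
  have h3 := Real.add_one_le_exp (-((A.card : ℝ) * ((1 - 1 / φ) / p)))
  refine h3.trans (le_of_eq ?_)
  congr 1
  ring

/-- `∏ (1 + 1 / p ^ 2)` and `1 - 2 ∑ 1 / p ^ 2` -/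
noncomputable def QQ (l : List ℕ) : ℝ := (l.map (fun p : ℕ => 1 / ((p : ℝ) * p))).sum

lemma QQ_nonneg (l : List ℕ) : 0 ≤ QQ l := by
  unfold QQ
  apply List.sum_nonneg
  intro x hx
  obtain ⟨p, _, rfl⟩ := List.mem_map.1 hx
  positivity

lemma big_plus (m y : ℕ) (θ : ℝ) (hθ : 1 ≤ θ) : ∀ l : List ℕ, l.Nodup → (∀ p ∈ l, y < p) → (∀ p ∈ l, 2 ≤ p) →
    ∃ φ : ℝ, 1 ≤ φ ∧ φ - 1 ≤ (θ - 1) * PP l * Real.exp (QQ l) ∧ ∀ A : Finset ℕ, A ⊆ Ioc m (m + y) →
      ∀ ρ : ℕ → ℕ, EE l (fun ρ' => θ ^ (S ρ' l A).card) ρ ≤ φ ^ A.card := by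
  intro l
  induction l with
  | nil =>
    intro _ _ _
    refine ⟨θ, hθ, ?_, ?_⟩
    · simp [PP, QQ]
    · intro A _ ρ
      simp [EE, S_nil]
  | cons p l ih =>
    intro hnd hpos h2
    have hnd' : l.Nodup := (List.nodup_cons.1 hnd).2
    have hpl : p ∉ l := (List.nodup_cons.1 hnd).1
    have hp : y < p := hpos p (by simp)
    have hp2 : (2 : ℝ) ≤ p := by exact_mod_cast h2 p (by simp)
    have hp0 : (0 : ℝ) < p := by linarith
    obtain ⟨φ, f1, f2, f3⟩ := ih hnd' (fun q hq => hpos q (List.mem_cons_of_mem _ hq))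
      (fun q hq => h2 q (List.mem_cons_of_mem _ hq))
    have hφ0 : 0 < φ := by linarith
    have hu0 : 0 ≤ (1 - 1 / φ) := by
      rw [sub_nonneg, div_le_one hφ0]; exact f1
    have hu1 : 1 - 1 / φ ≤ 1 := by
      have : 0 < 1 / φ := by positivity
      linarith
    obtain ⟨s, hs⟩ : ∃ s : ℝ, s = (1 - 1 / φ) / p := ⟨_, rfl⟩
    have hs0 : 0 ≤ s := by rw [hs]; positivity
    have hs1 : s ≤ 1 := by
      rw [hs, div_le_one hp0]; linarith
    have hφs : φ * s = (φ - 1) / p := by rw [hs]; field_simp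
    refine ⟨φ * Real.exp (-s), ?_, ?_, ?_⟩
    · have h3 : 1 - s ≤ Real.exp (-s) := by linarith [Real.add_one_le_exp (-s)]
      have h4 : φ * (1 - s) ≤ φ * Real.exp (-s) := mul_le_mul_of_nonneg_left h3 hφ0.le
      have h5 : φ * (1 - s) = 1 + (φ - 1) * (1 - 1 / p) := by
        rw [mul_sub, mul_one, hφs]; ring
      have h6 : 0 ≤ (φ - 1) * (1 - 1 / (p : ℝ)) := by
        apply mul_nonneg (by linarith)
        rw [sub_nonneg, div_le_one hp0]; linarith
      linarith
    · have eP : PP (p :: l) = (1 - 1 / (p : ℝ)) * PP l := by simp [PP]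
      have eQ : QQ (p :: l) = 1 / ((p : ℝ) * p) + QQ l := by simp [QQ]
      have h3 : Real.exp (-s) ≤ 1 - s + s ^ 2 / 2 := by
        have h4 := Real.abs_exp_sub_one_sub_id_le (x := -s) (by rw [abs_neg, abs_of_nonneg hs0]; exact hs1)
        have h5 : Real.exp (-s) * (1 + s + s ^ 2 / 2) ≤ 1 := by
          have h6 := Real.quadratic_le_exp_of_nonneg hs0
          have h7 : Real.exp (-s) * Real.exp s = 1 := by rw [← Real.exp_add]; simp
          nlinarith [Real.exp_pos (-s)]
        have h8 : 0 < 1 + s + s ^ 2 / 2 := by positivity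
        have h9 : 1 ≤ (1 - s + s ^ 2 / 2) * (1 + s + s ^ 2 / 2) := by nlinarith [sq_nonneg (s ^ 2)]
        by_contra hcon
        push Not at hcon
        have := mul_lt_mul_of_pos_right hcon h8
        linarith
      have h4 : φ * Real.exp (-s) ≤ φ * (1 - s + s ^ 2 / 2) := mul_le_mul_of_nonneg_left h3 hφ0.le
      have h5 : φ * (1 - s + s ^ 2 / 2) = 1 + (φ - 1) * (1 - 1 / p) + (φ - 1) / p * s / 2 := by
        have : φ * (1 - s + s ^ 2 / 2) = φ - φ * s + (φ * s) * s / 2 := by ring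
        rw [this, hφs]; ring
      have h6 : (φ - 1) / p * s / 2 ≤ (φ - 1) * ((1 - 1 / p) * (1 / ((p : ℝ) * p))) := by
        have h7 : s ≤ 1 / p := by rw [hs]; exact div_le_div_of_nonneg_right hu1 hp0.le
        have h8 : (φ - 1) / p * s / 2 ≤ (φ - 1) / p * (1 / p) / 2 := by
          apply div_le_div_of_nonneg_right _ (by norm_num)
          exact mul_le_mul_of_nonneg_left h7 (div_nonneg (by linarith) hp0.le)
        have h9 : (φ - 1) / p * (1 / p) / 2 = (φ - 1) * ((1 / 2) * (1 / ((p : ℝ) * p))) := by field_simp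
        rw [h9] at h8
        refine h8.trans ?_
        apply mul_le_mul_of_nonneg_left _ (by linarith)
        apply mul_le_mul_of_nonneg_right _ (by positivity)
        have : 1 / (p : ℝ) ≤ 1 / 2 := one_div_le_one_div_of_le (by norm_num) hp2
        linarith
      have h7 : 1 + 1 / ((p : ℝ) * p) ≤ Real.exp (1 / ((p : ℝ) * p)) := by
        linarith [Real.add_one_le_exp (1 / ((p : ℝ) * p))]
      have h8 : 0 ≤ (1 - 1 / (p : ℝ)) := by
        rw [sub_nonneg, div_le_one hp0]; linarith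
      rw [eP, eQ, Real.exp_add]
      calc φ * Real.exp (-s) - 1 ≤ (φ - 1) * ((1 - 1 / p) * (1 + 1 / ((p : ℝ) * p))) := by
            rw [h5] at h4
            have : (φ - 1) * ((1 - 1 / p) * (1 + 1 / ((p : ℝ) * p))) = (φ - 1) * (1 - 1 / p) + (φ - 1) * ((1 - 1 / p) * (1 / ((p : ℝ) * p))) := by ring
            rw [this]; linarith
        _ ≤ (φ - 1) * ((1 - 1 / p) * Real.exp (1 / ((p : ℝ) * p))) := by
            apply mul_le_mul_of_nonneg_left _ (by linarith)
            exact mul_le_mul_of_nonneg_left h7 h8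
        _ ≤ ((θ - 1) * PP l * Real.exp (QQ l)) * ((1 - 1 / p) * Real.exp (1 / ((p : ℝ) * p))) := by
            apply mul_le_mul_of_nonneg_right f2
            exact mul_nonneg h8 (Real.exp_pos _).le
        _ = (θ - 1) * ((1 - 1 / ↑p) * PP l) * (Real.exp (1 / (↑p * ↑p)) * Real.exp (QQ l)) := by ring
    · intro A hA ρ
      simp only [EE]
      have h3 : ∀ r ∈ range p, EE l (fun ρ' => θ ^ (S ρ' (p :: l) A).card) (Function.update ρ p r) ≤
          φ ^ (A.filter (fun n => n % p ≠ r)).card := by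
        intro r _
        refine le_trans (le_of_eq ?_) (f3 (A.filter (fun n => n % p ≠ r)) ((filter_subset _ _).trans hA) (Function.update ρ p r))
        apply EE_congr
        intro ρ' h4 _
        rw [S_cons, h4 p hpl, Function.update_self]
      refine (mul_le_mul_of_nonneg_left (sum_le_sum h3) (by positivity)).trans ?_
      rw [hs]
      exact step_one m y p hp A hA φ hφ0

lemma big_minus (m y : ℕ) (θ : ℝ) (hθ : θ ≤ 1) (hθ2 : 1 / 2 ≤ θ) : ∀ l : List ℕ, l.Nodup → (∀ p ∈ l, y < p) →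
    (∀ p ∈ l, 2 ≤ p) → ∃ φ : ℝ, θ ≤ φ ∧ φ ≤ 1 ∧ (1 - θ) * PP l * (1 - 2 * QQ l) ≤ 1 - φ ∧
      ∀ A : Finset ℕ, A ⊆ Ioc m (m + y) →
      ∀ ρ : ℕ → ℕ, EE l (fun ρ' => θ ^ (S ρ' l A).card) ρ ≤ φ ^ A.card := by
  intro l
  induction l with
  | nil =>
    intro _ _ _
    refine ⟨θ, le_rfl, hθ, ?_, ?_⟩
    · simp [PP, QQ]
    · intro A _ ρ
      simp [EE, S_nil]
  | cons p l ih =>
    intro hnd hpos h2
    have hnd' : l.Nodup := (List.nodup_cons.1 hnd).2
    have hpl : p ∉ l := (List.nodup_cons.1 hnd).1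
    have hp : y < p := hpos p (by simp)
    have hp2 : (2 : ℝ) ≤ p := by exact_mod_cast h2 p (by simp)
    have hp0 : (0 : ℝ) < p := by linarith
    obtain ⟨φ, f0, f1, f2, f3⟩ := ih hnd' (fun q hq => hpos q (List.mem_cons_of_mem _ hq))
      (fun q hq => h2 q (List.mem_cons_of_mem _ hq))
    have hφ2 : 1 / 2 ≤ φ := hθ2.trans f0
    have hφ0 : 0 < φ := by linarith
    obtain ⟨s, hs⟩ : ∃ s : ℝ, s = -((1 - 1 / φ) / p) := ⟨_, rfl⟩
    have hφs : φ * s = (1 - φ) / p := by rw [hs]; field_simp; ring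
    have hs0 : 0 ≤ s := by
      have h3 : 0 ≤ φ * s := by rw [hφs]; exact div_nonneg (by linarith) hp0.le
      exact nonneg_of_mul_nonneg_right h3 hφ0
    have hs1 : s ≤ 1 / p := by
      have h3 : φ * s ≤ φ * (1 / p) := by
        rw [hφs, mul_one_div]
        exact div_le_div_of_nonneg_right (by linarith) hp0.le
      exact le_of_mul_le_mul_left h3 hφ0
    have hp1 : 1 / (p : ℝ) ≤ 1 / 2 := one_div_le_one_div_of_le (by norm_num) hp2
    have h3 : Real.exp s ≤ 1 + s + s ^ 2 := by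
      have h4 := (abs_le.1 (Real.abs_exp_sub_one_sub_id_le (x := s) (by rw [abs_of_nonneg hs0]; linarith))).2
      linarith
    have h4 : φ * Real.exp s ≤ φ * (1 + s + s ^ 2) := mul_le_mul_of_nonneg_left h3 hφ0.le
    have h5 : φ * (1 + s + s ^ 2) = 1 - (1 - φ) * (1 - 1 / p) + (1 - φ) / p * s := by
      have : φ * (1 + s + s ^ 2) = φ + φ * s + (φ * s) * s := by ring
      rw [this, hφs]; ring
    have h6 : (1 - φ) / p * s ≤ (1 - φ) * ((1 - 1 / p) * (2 * (1 / ((p : ℝ) * p)))) := by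
      have h8 : (1 - φ) / p * s ≤ (1 - φ) / p * (1 / p) :=
        mul_le_mul_of_nonneg_left hs1 (div_nonneg (by linarith) hp0.le)
      have h9 : (1 - φ) / p * (1 / p) = (1 - φ) * ((1 / 2) * (2 * (1 / ((p : ℝ) * p)))) := by field_simp
      rw [h9] at h8
      refine h8.trans ?_
      apply mul_le_mul_of_nonneg_left _ (by linarith)
      apply mul_le_mul_of_nonneg_right _ (by positivity)
      linarith
    have h8 : 0 ≤ (1 - 1 / (p : ℝ)) := by linarith
    have hpp4 : 1 / ((p : ℝ) * p) ≤ 1 / 4 := one_div_le_one_div_of_le (by norm_num) (by nlinarith)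
    have hpp0 : 0 ≤ 1 / ((p : ℝ) * p) := by positivity
    have h7 : (1 - φ) * ((1 - 1 / p) * (1 - 2 * (1 / ((p : ℝ) * p)))) ≤ 1 - φ * Real.exp s := by
      rw [h5] at h4
      have : (1 - φ) * ((1 - 1 / p) * (1 - 2 * (1 / ((p : ℝ) * p)))) =
        (1 - φ) * (1 - 1 / p) - (1 - φ) * ((1 - 1 / p) * (2 * (1 / ((p : ℝ) * p)))) := by ring
      rw [this]; linarith
    refine ⟨φ * Real.exp s, ?_, ?_, ?_, ?_⟩
    · have : 1 ≤ Real.exp s := Real.one_le_exp hs0
      nlinarith
    · have h9 : 0 ≤ (1 - φ) * ((1 - 1 / p) * (1 - 2 * (1 / ((p : ℝ) * p)))) := by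
        apply mul_nonneg (by linarith)
        apply mul_nonneg h8
        linarith
      linarith
    · have eP : PP (p :: l) = (1 - 1 / (p : ℝ)) * PP l := by simp [PP]
      have eQ : QQ (p :: l) = 1 / ((p : ℝ) * p) + QQ l := by simp [QQ]
      rw [eP, eQ]
      refine le_trans ?_ h7
      have hQ0 := QQ_nonneg l
      have hP0 := (PP_nonneg l (fun q hq => by have := h2 q (List.mem_cons_of_mem _ hq); omega)).1
      have hθ0 : 0 ≤ 1 - θ := by linarith
      rcases le_or_gt 0 (1 - 2 * QQ l) with hq | hq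
      · calc (1 - θ) * ((1 - 1 / ↑p) * PP l) * (1 - 2 * (1 / (↑p * ↑p) + QQ l))
            ≤ (1 - θ) * ((1 - 1 / ↑p) * PP l) * ((1 - 2 * QQ l) * (1 - 2 * (1 / (↑p * ↑p)))) := by
              apply mul_le_mul_of_nonneg_left _ (mul_nonneg hθ0 (mul_nonneg h8 hP0))
              nlinarith [mul_nonneg hpp0 hQ0]
          _ = ((1 - θ) * PP l * (1 - 2 * QQ l)) * ((1 - 1 / ↑p) * (1 - 2 * (1 / (↑p * ↑p)))) := by ring
          _ ≤ (1 - φ) * ((1 - 1 / ↑p) * (1 - 2 * (1 / (↑p * ↑p)))) := by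
              apply mul_le_mul_of_nonneg_right f2
              apply mul_nonneg h8
              linarith
      · have h9 : (1 - θ) * ((1 - 1 / ↑p) * PP l) * (1 - 2 * (1 / (↑p * ↑p) + QQ l)) ≤ 0 := by
          apply mul_nonpos_of_nonneg_of_nonpos (mul_nonneg hθ0 (mul_nonneg h8 hP0))
          linarith
        have h10 : 0 ≤ (1 - φ) * ((1 - 1 / (p : ℝ)) * (1 - 2 * (1 / ((p : ℝ) * p)))) := by
          apply mul_nonneg (by linarith)
          apply mul_nonneg h8
          linarith
        linarith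
    · intro A hA ρ
      simp only [EE]
      have h3 : ∀ r ∈ range p, EE l (fun ρ' => θ ^ (S ρ' (p :: l) A).card) (Function.update ρ p r) ≤
          φ ^ (A.filter (fun n => n % p ≠ r)).card := by
        intro r _
        refine le_trans (le_of_eq ?_) (f3 (A.filter (fun n => n % p ≠ r)) ((filter_subset _ _).trans hA) (Function.update ρ p r))
        apply EE_congr
        intro ρ' h4 _
        rw [S_cons, h4 p hpl, Function.update_self]
      refine (mul_le_mul_of_nonneg_left (sum_le_sum h3) (by positivity)).trans ?_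
      have h9 := step_one m y p hp A hA φ hφ0
      rw [hs]
      exact h9

end Pool.Agent.V5helper42.RS
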