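import Pool.Agent.V5helper42.RS.G2

set_option autoImplicit false

/-!
# Random sieve model: deviations, for all lengths above the square of the logarithm (helper42)
-/

namespace Pool.Agent.V5helper42.RS

open Finset
open Pool.Agent.W41 (V V_ge V_pos fac_pos fac_le_one V_le_one)

lemma QQ_toList (T : Finset ℕ) : QQ T.toList = ∑ p ∈ T, 1 / ((p : ℝ) * p) := by
  unfold QQ
  exact sum_map_toList T (fun p : ℕ => 1 / ((p : ℝ) * p))

/-- the large primes: exponential moments with the sign `σ` -/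
lemma phase3 (m y : ℕ) (hy : 1 ≤ y) (l3 : List ℕ) (hnd : l3.Nodup) (h3p : ∀ p ∈ l3, y < p)
    (ε α β : ℝ) (hε : 0 < ε) (hε1 : ε ≤ 1) (hα : 0 < α) (hα1 : α ≤ ε / 4) (hβ : β = α * PP l3)
    (hQ : 2 * QQ l3 ≤ ε / 4) (σ : ℝ) (hσ : σ = 1 ∨ σ = -1) (A : Finset ℕ) (hA : A ⊆ Ioc m (m + y)) (ρ : ℕ → ℕ) :
    EE l3 (fun ρ' => Real.exp (σ * α * ((S ρ' l3 A).card : ℝ))) ρ ≤
      Real.exp ((σ * β + ε * β) * (A.card : ℝ)) := by
  have h2 : ∀ p ∈ l3, 2 ≤ p := fun p hp => by have := h3p p hp; omega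
  obtain ⟨hP0, hP1⟩ := PP_nonneg l3 (fun p hp => by have := h2 p hp; omega)
  have hQ0 := QQ_nonneg l3
  have hβ0 : 0 ≤ β := by rw [hβ]; positivity
  have hpow : ∀ (θ : ℝ) (n : ℕ), Real.exp θ ^ n = Real.exp (θ * n) := by
    intro θ n; rw [← Real.exp_nat_mul]; congr 1; ring
  rcases hσ with h | h
  · rw [h]
    obtain ⟨φ, f1, f2, f3⟩ := big_plus m y (Real.exp α) (Real.one_le_exp hα.le) l3 hnd h3p h2
    have h4 := f3 A hA ρ
    have e1 : EE l3 (fun ρ' => Real.exp (1 * α * ((S ρ' l3 A).card : ℝ))) ρ =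
        EE l3 (fun ρ' => Real.exp α ^ (S ρ' l3 A).card) ρ := by
      apply EE_congr
      intro ρ' _ _
      rw [hpow, one_mul]
    rw [e1]
    refine h4.trans ?_
    have h5 : Real.exp α - 1 ≤ α * (1 + ε / 4) := by
      have h6 := (abs_le.1 (Real.abs_exp_sub_one_sub_id_le (x := α) (by rw [abs_of_pos hα]; linarith))).2
      nlinarith
    have h6 : Real.exp (QQ l3) ≤ 1 + ε / 4 := by
      have h7 := (abs_le.1 (Real.abs_exp_sub_one_sub_id_le (x := QQ l3) (by rw [abs_of_nonneg hQ0]; linarith))).2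
      nlinarith
    have h7 : φ - 1 ≤ 1 * β + ε * β := by
      have h8 : (Real.exp α - 1) * PP l3 * Real.exp (QQ l3) ≤ (α * (1 + ε / 4)) * PP l3 * (1 + ε / 4) := by
        apply mul_le_mul _ h6 (Real.exp_pos _).le (by positivity)
        exact mul_le_mul_of_nonneg_right h5 hP0
      have h9 : (α * (1 + ε / 4)) * PP l3 * (1 + ε / 4) = β * ((1 + ε / 4) * (1 + ε / 4)) := by rw [hβ]; ring
      have h10 : (1 + ε / 4) * (1 + ε / 4) ≤ 1 + ε := by nlinarith
      have h11 := mul_le_mul_of_nonneg_left h10 hβ0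
      linarith
    have h8 : φ ≤ Real.exp (φ - 1) := by linarith [Real.add_one_le_exp (φ - 1)]
    calc φ ^ A.card ≤ Real.exp (φ - 1) ^ A.card := pow_le_pow_left₀ (by linarith) h8 _
      _ = Real.exp ((φ - 1) * A.card) := hpow _ _
      _ ≤ Real.exp ((1 * β + ε * β) * (A.card : ℝ)) :=
          Real.exp_le_exp.2 (mul_le_mul_of_nonneg_right h7 (Nat.cast_nonneg _))
  · rw [h]
    have hθ1 : Real.exp (-α) ≤ 1 := Real.exp_le_one_iff.2 (by linarith)
    have hθ2 : 1 / 2 ≤ Real.exp (-α) := by linarith [Real.add_one_le_exp (-α)]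
    obtain ⟨φ, f0, f1, f2, f3⟩ := big_minus m y (Real.exp (-α)) hθ1 hθ2 l3 hnd h3p h2
    have h4 := f3 A hA ρ
    have e1 : EE l3 (fun ρ' => Real.exp (-1 * α * ((S ρ' l3 A).card : ℝ))) ρ =
        EE l3 (fun ρ' => Real.exp (-α) ^ (S ρ' l3 A).card) ρ := by
      apply EE_congr
      intro ρ' _ _
      rw [hpow]
      congr 1; ring
    rw [e1]
    refine h4.trans ?_
    have h5 : α * (1 - ε / 4) ≤ 1 - Real.exp (-α) := by
      have h6 := (abs_le.1 (Real.abs_exp_sub_one_sub_id_le (x := -α) (by rw [abs_neg, abs_of_pos hα]; linarith))).2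
      nlinarith
    have h6 : 1 - ε / 4 ≤ 1 - 2 * QQ l3 := by linarith
    have h7 : φ - 1 ≤ -1 * β + ε * β := by
      have h8 : (α * (1 - ε / 4)) * PP l3 * (1 - ε / 4) ≤ (1 - Real.exp (-α)) * PP l3 * (1 - 2 * QQ l3) := by
        apply mul_le_mul _ h6 (by linarith)
        · exact mul_nonneg (by linarith) hP0
        · exact mul_le_mul_of_nonneg_right h5 hP0
      have h9 : (α * (1 - ε / 4)) * PP l3 * (1 - ε / 4) = β * ((1 - ε / 4) * (1 - ε / 4)) := by rw [hβ]; ring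
      have h10 : 1 - ε ≤ (1 - ε / 4) * (1 - ε / 4) := by nlinarith
      have h11 := mul_le_mul_of_nonneg_left h10 hβ0
      linarith
    have h8 : φ ≤ Real.exp (φ - 1) := by linarith [Real.add_one_le_exp (φ - 1)]
    calc φ ^ A.card ≤ Real.exp (φ - 1) ^ A.card := pow_le_pow_left₀ (by linarith) h8 _
      _ = Real.exp ((φ - 1) * A.card) := hpow _ _
      _ ≤ Real.exp ((-1 * β + ε * β) * (A.card : ℝ)) :=
          Real.exp_le_exp.2 (mul_le_mul_of_nonneg_right h7 (Nat.cast_nonneg _))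

/-- DEVIATIONS from the mean, given the survivors `A` of the small primes -/
theorem dev (m y z : ℕ) (hz : 1 ≤ z) (hzy : z ≤ y) (T2 T3 : Finset ℕ)
    (hnd : (T2.toList ++ T3.toList).Nodup) (h2p : ∀ p ∈ T2, p.Prime ∧ z < p) (h3p : ∀ p ∈ T3, p.Prime ∧ y < p)
    (hzV2 : (z : ℝ) ≤ y * V T2) (hzV3 : (z : ℝ) ≤ 8 * (y * V T3))
    (ε C1 K1 : ℝ) (hε : 0 < ε) (hε1 : ε ≤ 1) (hC1 : 1 ≤ C1) (hK1 : 0 < K1) (hyC : 8 * C1 ≤ ε * y)
    (A : Finset ℕ) (hA : A ⊆ Ioc m (m + y)) (hAK : (A.card : ℝ) ≤ C1 * K1) (ρ : ℕ → ℕ) :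
    EE (T2.toList ++ T3.toList) (fun ρ' =>
      Real.exp (ε / C1 * V T2 / 32 * z / (y * V T3) * (((S ρ' (T2.toList ++ T3.toList) A).card : ℝ) -
        ((A.card : ℝ) * (V T2 * V T3) + 3 * ε * (K1 * (V T2 * V T3))))) +
      Real.exp (ε / C1 * V T2 / 32 * z / (y * V T3) * (((A.card : ℝ) * (V T2 * V T3) -
        3 * ε * (K1 * (V T2 * V T3))) - ((S ρ' (T2.toList ++ T3.toList) A).card : ℝ)))) ρ ≤
      2 * Real.exp (-(ε ^ 2 * V T2 ^ 2 * z * K1 / (32 * C1 * y))) := by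
  obtain ⟨hnd2, hnd3, hdis⟩ := List.nodup_append.1 hnd
  have hz0 : (0 : ℝ) < z := by exact_mod_cast hz
  have hy1 : (z : ℝ) ≤ y := by exact_mod_cast hzy
  have hy0 : (0 : ℝ) < y := hz0.trans_le hy1
  have hyN : 1 ≤ y := hz.trans hzy
  have hV2 : 0 < V T2 := V_pos fun p hp => (h2p p hp).1
  have hV3 : 0 < V T3 := V_pos fun p hp => (h3p p hp).1
  have hV21 : V T2 ≤ 1 := V_le_one fun p hp => (h2p p hp).1
  have hC10 : 0 < C1 := by linarith
  obtain ⟨e, he⟩ : ∃ e : ℝ, e = ε / C1 := ⟨_, rfl⟩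
  have he0 : 0 < e := by rw [he]; positivity
  have he1 : e ≤ 1 := by rw [he, div_le_one hC10]; linarith
  have heC : e * C1 = ε := by rw [he]; field_simp
  obtain ⟨η, hη⟩ : ∃ η : ℝ, η = e * V T2 / 32 := ⟨_, rfl⟩
  have hη0 : 0 < η := by rw [hη]; positivity
  have heV2 : e * V T2 ≤ 1 := mul_le_one₀ he1 hV2.le hV21
  obtain ⟨β, hβ⟩ : ∃ β : ℝ, β = η * z / y := ⟨_, rfl⟩
  have hβ0 : 0 < β := by rw [hβ]; positivity
  obtain ⟨α, hα⟩ : ∃ α : ℝ, α = η * z / (y * V T3) := ⟨_, rfl⟩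
  have hα0 : 0 < α := by rw [hα]; positivity
  have hαβ : α * V T3 = β := by rw [hα, hβ]; field_simp
  have hα4 : α ≤ e / 4 := by
    rw [hα, div_le_div_iff₀ (by positivity) (by norm_num), hη]
    have h1 : V T2 * z ≤ 1 * (8 * (y * V T3)) := mul_le_mul hV21 hzV3 hz0.le (by norm_num)
    nlinarith
  have hQ : 2 * QQ T3.toList ≤ e / 4 := by
    rw [QQ_toList]
    have h1 := sum_inv_sq y hyN T3 fun p hp => (h3p p hp).2
    have h2 : 1 / (y : ℝ) ≤ e / 8 := by
      rw [div_le_div_iff₀ hy0 (by norm_num), one_mul]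
      have h3 : 8 * C1 ≤ (e * y) * C1 := by
        calc 8 * C1 ≤ ε * y := hyC
          _ = (e * y) * C1 := by rw [← heC]; ring
      exact le_of_mul_le_mul_right h3 hC10
    linarith
  have hSS2 : SS y T2.toList ≤ 2 * y / z := by
    rw [SS_toList]
    have e1 : ∑ p ∈ T2, ((y : ℝ) / p + 1) / p = y * ∑ p ∈ T2, 1 / ((p : ℝ) * p) + ∑ p ∈ T2, 1 / (p : ℝ) := by
      rw [mul_sum, ← sum_add_distrib]
      apply sum_congr rfl
      intro p hp
      have hp0 : (p : ℝ) ≠ 0 := by exact_mod_cast (h2p p hp).1.ne_zero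
      field_simp
    rw [e1]
    have h3 := mul_le_mul_of_nonneg_left (sum_inv_sq z hz T2 fun p hp => (h2p p hp).2) hy0.le
    have h4 := sum_inv_le T2 fun p hp => (h2p p hp).1
    have h5 : 1 / V T2 ≤ y / z := by
      rw [div_le_div_iff₀ hV2 hz0, one_mul]
      exact hzV2
    have h6 : (y : ℝ) * (1 / z) = y / z := by ring
    have h7 : 2 * (y : ℝ) / z = y / z + y / z := by ring
    linarith
  have hβz : β * (y / z) = η := by rw [hβ]; field_simp
  -- moments
  have mom : ∀ σ : ℝ, (σ = 1 ∨ σ = -1) →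
      EE (T2.toList ++ T3.toList) (fun ρ' => Real.exp (σ * α * ((S ρ' (T2.toList ++ T3.toList) A).card : ℝ))) ρ ≤
      Real.exp ((σ * β * V T2 + 2 * e * β * V T2) * (A.card : ℝ)) := by
    intro σ hσ
    have hσa : |σ| = 1 := by rcases hσ with h | h <;> rw [h] <;> simp
    obtain ⟨γ, hγ⟩ : ∃ γ : ℝ, γ = σ * β + e * β := ⟨_, rfl⟩
    have heβ : e * β ≤ β := mul_le_of_le_one_left hβ0.le he1
    have hγa : |γ| ≤ 2 * β := by
      rw [hγ]
      have h1 := abs_add_le (σ * β) (e * β)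
      rw [abs_mul, hσa, one_mul, abs_of_pos hβ0, abs_of_pos (mul_pos he0 hβ0)] at h1
      linarith
    have hη1 : η ≤ 1 / 32 := by rw [hη]; linarith
    have hb2 : ∀ p ∈ T2.toList, 2 * |γ| * ((y : ℝ) / p + 1) ≤ 1 := by
      intro p hp
      have hp1 : (z : ℝ) ≤ p := by exact_mod_cast (h2p p (mem_toList.1 hp)).2.le
      have h3 : (y : ℝ) / p ≤ y / z := div_le_div_of_nonneg_left hy0.le hz0 hp1
      have h4 : (1 : ℝ) ≤ y / z := by rw [le_div_iff₀ hz0]; linarith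
      have h5 : |γ| * ((y : ℝ) / p + 1) ≤ (2 * β) * (2 * (y / z)) := by
        apply mul_le_mul hγa (by linarith) (by positivity) (by positivity)
      have h6 : (2 * β) * (2 * ((y : ℝ) / z)) = 4 * η := by rw [← hβz]; ring
      rw [h6] at h5
      linarith
    have hSS20 := SS_nonneg y T2.toList
    have hs2 : 4 * |γ| * SS y T2.toList ≤ 1 := by
      have h5 : |γ| * SS y T2.toList ≤ (2 * β) * (2 * y / z) := mul_le_mul hγa hSS2 hSS20 (by positivity)
      have h6 : (2 * β) * (2 * (y : ℝ) / z) = 4 * η := by rw [← hβz]; ring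
      rw [h6] at h5
      linarith
    have hγsq : 4 * γ ^ 2 * SS y T2.toList ≤ e * β * V T2 := by
      have h1 : γ ^ 2 ≤ (2 * β) ^ 2 := by
        rw [← sq_abs γ]
        exact pow_le_pow_left₀ (abs_nonneg _) hγa 2
      calc 4 * γ ^ 2 * SS y T2.toList ≤ 4 * (2 * β) ^ 2 * (2 * y / z) :=
            mul_le_mul (by linarith) hSS2 hSS20 (by positivity)
        _ = 32 * β * (β * (y / z)) := by ring
        _ = e * β * V T2 := by rw [hβz, hη]; ring
    rw [EE_append]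
    have step3 : EE T2.toList (fun ρ' => EE T3.toList (fun ρ'' => Real.exp (σ * α * ((S ρ'' (T2.toList ++ T3.toList) A).card : ℝ))) ρ') ρ ≤
        EE T2.toList (fun ρ' => Real.exp (γ * ((S ρ' T2.toList A).card : ℝ))) ρ := by
      apply EE_mono
      intro ρ' _ _
      have h1 := phase3 m y hyN T3.toList hnd3 (fun p hp => (h3p p (mem_toList.1 hp)).2) e α β he0 he1 hα0 hα4
        (by rw [PP_toList]; exact hαβ.symm) hQ σ hσ (S ρ' T2.toList A) ((S_subset _ _ _).trans hA) ρ'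
      rw [← hγ] at h1
      refine le_trans (le_of_eq ?_) h1
      apply EE_congr
      intro ρ'' h _
      rw [S_append, S_congr (ρ := ρ'') (ρ' := ρ') (l := T2.toList) A (fun p hp => h p (fun h' => hdis p hp p h' rfl))]
    refine step3.trans ?_
    have h2 := ee_exp m y γ T2.toList hnd2 (fun p hp => (h2p p (mem_toList.1 hp)).1.pos) hb2 hs2 A hA ρ
    refine h2.trans ?_
    apply Real.exp_le_exp.2
    apply mul_le_mul_of_nonneg_right _ (Nat.cast_nonneg _)
    rw [PP_toList, hγ]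
    rw [hγ] at hγsq
    linarith
  rw [EE_add, ← he, ← hη, ← hα]
  obtain ⟨K, hK⟩ : ∃ K : ℝ, K = (A.card : ℝ) := ⟨_, rfl⟩
  rw [← hK] at hAK mom ⊢
  have hβV : 0 ≤ β * V T2 := by positivity
  have hsmall : 2 * e * β * V T2 * K ≤ 2 * ε * (β * V T2 * K1) := by
    have h1 : β * V T2 * K ≤ β * V T2 * (C1 * K1) := mul_le_mul_of_nonneg_left hAK hβV
    have h2 := mul_le_mul_of_nonneg_left h1 (show 0 ≤ 2 * e by positivity)
    calc 2 * e * β * V T2 * K = 2 * e * (β * V T2 * K) := by ring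
      _ ≤ 2 * e * (β * V T2 * (C1 * K1)) := h2
      _ = 2 * (e * C1) * (β * V T2 * K1) := by ring
      _ = _ := by rw [heC]
  have hfin : ε ^ 2 * V T2 ^ 2 * z * K1 / (32 * C1 * y) = ε * (β * V T2 * K1) := by
    rw [hβ, hη, he]; field_simp
  rw [hfin]
  have up : EE (T2.toList ++ T3.toList) (fun ρ' => Real.exp (α * (((S ρ' (T2.toList ++ T3.toList) A).card : ℝ) -
        (K * (V T2 * V T3) + 3 * ε * (K1 * (V T2 * V T3)))))) ρ ≤ Real.exp (-(ε * (β * V T2 * K1))) := by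
    have h1 : EE (T2.toList ++ T3.toList) (fun ρ' => Real.exp (α * (((S ρ' (T2.toList ++ T3.toList) A).card : ℝ) -
        (K * (V T2 * V T3) + 3 * ε * (K1 * (V T2 * V T3)))))) ρ =
        Real.exp (-(β * V T2 * K + 3 * ε * (β * V T2 * K1))) *
          EE (T2.toList ++ T3.toList) (fun ρ' => Real.exp (1 * α * ((S ρ' (T2.toList ++ T3.toList) A).card : ℝ))) ρ := by
      rw [← EE_mul_const]
      apply EE_congr
      intro ρ' _ _
      rw [← Real.exp_add, ← hαβ]
      congr 1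
      ring
    rw [h1]
    refine (mul_le_mul_of_nonneg_left (mom 1 (Or.inl rfl)) (Real.exp_pos _).le).trans ?_
    rw [← Real.exp_add]
    apply Real.exp_le_exp.2
    have e2 : (1 * β * V T2 + 2 * e * β * V T2) * K = β * V T2 * K + 2 * e * β * V T2 * K := by ring
    rw [e2]
    linarith
  have lo : EE (T2.toList ++ T3.toList) (fun ρ' => Real.exp (α * ((K * (V T2 * V T3) -
        3 * ε * (K1 * (V T2 * V T3))) - ((S ρ' (T2.toList ++ T3.toList) A).card : ℝ)))) ρ ≤ Real.exp (-(ε * (β * V T2 * K1))) := by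
    have h1 : EE (T2.toList ++ T3.toList) (fun ρ' => Real.exp (α * ((K * (V T2 * V T3) -
        3 * ε * (K1 * (V T2 * V T3))) - ((S ρ' (T2.toList ++ T3.toList) A).card : ℝ)))) ρ =
        Real.exp (β * V T2 * K - 3 * ε * (β * V T2 * K1)) *
          EE (T2.toList ++ T3.toList) (fun ρ' => Real.exp (-1 * α * ((S ρ' (T2.toList ++ T3.toList) A).card : ℝ))) ρ := by
      rw [← EE_mul_const]
      apply EE_congr
      intro ρ' _ _
      rw [← Real.exp_add, ← hαβ]
      congr 1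
      ring
    rw [h1]
    refine (mul_le_mul_of_nonneg_left (mom (-1) (Or.inr rfl)) (Real.exp_pos _).le).trans ?_
    rw [← Real.exp_add]
    apply Real.exp_le_exp.2
    have e2 : (-1 * β * V T2 + 2 * e * β * V T2) * K = -(β * V T2 * K) + 2 * e * β * V T2 * K := by ring
    rw [e2]
    linarith
  linarith

end Pool.Agent.V5helper42.RS
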