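import Pool.Agent.V5helper42.RS.F
import Pool.Agent.V5helper42.RS.G

set_option autoImplicit false

/-!
# Random sieve model: irregular intervals exist almost surely (helper42)
-/

namespace Pool.Agent.V5helper42.RS

open Finset MeasureTheory ProbabilityTheory Filter Topology
open scoped ENNReal
open Pool.Agent.W41 (V V_ge V_pos fac_pos fac_le_one V_le_one)

lemma dd_pos (b : ℕ) : 0 < dd b := by unfold dd; positivity

lemma dd_le (b : ℕ) : dd b ≤ 1 / 4 := by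
  unfold dd
  have hb : (0 : ℝ) ≤ b := Nat.cast_nonneg b
  have h1 : (1 / (32 * ((b : ℝ) + 3))) ^ (b + 3) ≤ 1 := by
    apply pow_le_one₀ (by positivity)
    rw [div_le_one (by positivity)]
    linarith
  have h2 : (1 : ℝ) ≤ (b + 3).factorial := by exact_mod_cast Nat.succ_le_of_lt (Nat.factorial_pos _)
  apply div_le_div₀ (by norm_num) h1 (by norm_num)
  linarith

lemma SS_bound (y w : ℕ) (hw : 1 ≤ w) (hy : 1 ≤ y) (T : Finset ℕ) (hT : ∀ p ∈ T, p.Prime ∧ w < p)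
    (h : (w : ℝ) ≤ y * V T) : SS y T.toList ≤ 2 * y / w := by
  have hw0 : (0 : ℝ) < w := by exact_mod_cast hw
  have hy0 : (0 : ℝ) < y := by exact_mod_cast hy
  have hV2 : 0 < V T := V_pos fun p hp => (hT p hp).1
  rw [SS_toList]
  have e : ∑ p ∈ T, ((y : ℝ) / p + 1) / p = y * ∑ p ∈ T, 1 / ((p : ℝ) * p) + ∑ p ∈ T, 1 / (p : ℝ) := by
    rw [mul_sum, ← sum_add_distrib]
    apply sum_congr rfl
    intro p hp
    have hp0 : (p : ℝ) ≠ 0 := by exact_mod_cast (hT p hp).1.ne_zero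
    field_simp
  rw [e]
  have h3 := mul_le_mul_of_nonneg_left (sum_inv_sq w hw T fun p hp => (hT p hp).2) hy0.le
  have h4 := sum_inv_le T fun p hp => (hT p hp).1
  have h5 : 1 / V T ≤ y / w := by
    rw [div_le_div_iff₀ hV2 hw0, one_mul]
    exact h
  have h6 : (y : ℝ) * (1 / w) = y / w := by ring
  have h7 : 2 * (y : ℝ) / w = y / w + y / w := by ring
  linarith

/-- the event that no interval with the pattern is irregular -/
def BadJ {Ω : Type*} (a : ℕ → Ω → ℕ) (b : ℕ) (σ ε : ℝ) (T : Finset ℕ) (j : ℕ) : Set Ω :=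
  {ω | ¬ ∃ m : ℕ, Real.exp j ≤ m ∧ (m : ℝ) ≤ 2 * Real.exp j ∧
    0 ≤ σ * ((((Ioc m (m + j ^ b)).filter (fun n => ∀ p ∈ T, n % p ≠ a p ω)).card : ℝ) -
      (1 - 3 * σ * ε) * ((1 + 2 * σ * dd b) * (((j ^ b : ℕ) : ℝ) * V T)))}

theorem prob_j {Ω : Type*} [MeasurableSpace Ω] (μ : Measure Ω) [IsProbabilityMeasure μ] (a : ℕ → Ω → ℕ)
    (hm : ∀ p, Measurable (a p)) (hi : iIndepFun a μ)
    (hu : ∀ p : ℕ, p.Prime → ∀ r < p, μ {ω | a p ω = r} = (p : ℝ≥0∞)⁻¹)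
    (b j : ℕ) (hb : 8 ≤ b) (hj : 4 ≤ j) (σ : ℝ) (hσ : σ = 1 ∨ σ = -1) (ε : ℝ) (hε : 0 < ε) (hε1 : ε ≤ 1 / 2)
    (c : ℕ → ℕ) (hc : ∀ p ∈ Zp j, c p < p)
    (hpat : 2 * dd b * (((j ^ b : ℕ) : ℝ) * V (Zp j)) ≤
        σ * (((S c (Zp j).toList (Icc 1 (j ^ b))).card : ℝ) - ((j ^ b : ℕ) : ℝ) * V (Zp j)))
    (T : Finset ℕ) (hT : ∀ p ∈ T, p.Prime) (hZT : Zp j ⊆ T) (hVT : 1 / (2 * (j : ℝ)) ≤ V T) :
    μ (BadJ a b σ ε T j) ≤
      ENNReal.ofReal (Real.exp (-(ε ^ 2 * (((j / 3 : ℕ) : ℝ)) * V (T.filter (fun p => p ≤ j ^ 5)) ^ 2 / 64))) := by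
  obtain ⟨y, hy⟩ : ∃ y : ℕ, y = j ^ b := ⟨_, rfl⟩
  obtain ⟨z, hz⟩ : ∃ z : ℕ, z = j / 3 := ⟨_, rfl⟩
  obtain ⟨L, hL⟩ : ∃ L : ℕ, L = j ^ 5 := ⟨_, rfl⟩
  obtain ⟨D, hD⟩ : ∃ D : ℝ, D = dd b := ⟨_, rfl⟩
  have hD0 : 0 < D := by rw [hD]; exact dd_pos b
  have hD4 : D ≤ 1 / 4 := by rw [hD]; exact dd_le b
  have hjR : (4 : ℝ) ≤ j := by exact_mod_cast hj
  have hj0 : (0 : ℝ) < j := by linarith
  have hz1 : 1 ≤ z := by omega
  have hzj : z ≤ j := by omega
  have hj1 : 1 ≤ j := by omega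
  have hL1 : 1 ≤ L := by rw [hL]; exact Nat.one_le_pow _ _ hj1
  have hjL : j ≤ L := by
    rw [hL]
    calc j = j ^ 1 := (pow_one j).symm
      _ ≤ j ^ 5 := Nat.pow_le_pow_right hj1 (by norm_num)
  have hLy : L ≤ y := by rw [hL, hy]; exact Nat.pow_le_pow_right hj1 (by omega)
  have hzy : z ≤ y := hzj.trans (hjL.trans hLy)
  have hy1 : 1 ≤ y := hL1.trans hLy
  have hy0 : (0 : ℝ) < y := by exact_mod_cast hy1
  have hz0 : (0 : ℝ) < z := by exact_mod_cast hz1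
  have hL0 : (0 : ℝ) < L := by exact_mod_cast hL1
  rw [← hy, ← hD] at hpat
  -- the parts of `T`
  obtain ⟨T2, hT2⟩ : ∃ T2 : Finset ℕ, T2 = (T.filter (fun p => p ≤ L)) \ Zp j := ⟨_, rfl⟩
  obtain ⟨T3, hT3⟩ : ∃ T3 : Finset ℕ, T3 = T.filter (fun p => ¬ p ≤ L) := ⟨_, rfl⟩
  have hZL : Zp j ⊆ T.filter (fun p => p ≤ L) := by
    intro p hp
    rw [mem_filter]
    refine ⟨hZT hp, ?_⟩
    rw [Zp, mem_filter, mem_Icc] at hp
    omega
  have h2p : ∀ p ∈ T2, p.Prime ∧ z < p := by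
    intro p hp
    rw [hT2, Finset.mem_sdiff, mem_filter] at hp
    refine ⟨hT p hp.1.1, ?_⟩
    by_contra h
    apply hp.2
    rw [Zp, mem_filter, mem_Icc]
    exact ⟨⟨(hT p hp.1.1).one_lt.le, by omega⟩, hT p hp.1.1⟩
  have h3p : ∀ p ∈ T3, p.Prime ∧ L < p := by
    intro p hp
    rw [hT3, mem_filter] at hp
    exact ⟨hT p hp.1, by omega⟩
  have hV12 : V (T.filter (fun p => p ≤ L)) = V (Zp j) * V T2 := by
    unfold V
    rw [hT2, mul_comm, prod_sdiff hZL]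
  have hVT' : V T = V (Zp j) * V T2 * V T3 := by
    rw [← hV12]
    unfold V
    rw [hT3, prod_filter_mul_prod_filter_not]
  have hVZ : 0 < V (Zp j) := V_pos (Zp_prime j)
  have hV2 : 0 < V T2 := V_pos fun p hp => (h2p p hp).1
  have hV3 : 0 < V T3 := V_pos fun p hp => (h3p p hp).1
  have hVZ1 : V (Zp j) ≤ 1 := V_le_one (Zp_prime j)
  have hV21 : V T2 ≤ 1 := V_le_one fun p hp => (h2p p hp).1
  have hV31 : V T3 ≤ 1 := V_le_one fun p hp => (h3p p hp).1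
  have hVT0 : 0 < V T := V_pos hT
  have hVT2 : V T ≤ V T2 := by
    rw [hVT']
    calc V (Zp j) * V T2 * V T3 ≤ 1 * V T2 * 1 := by
          apply mul_le_mul _ hV31 hV3.le (by positivity)
          exact mul_le_mul_of_nonneg_right hVZ1 hV2.le
      _ = V T2 := by ring
  have hVT3 : V T ≤ V T3 := by
    rw [hVT']
    calc V (Zp j) * V T2 * V T3 ≤ 1 * 1 * V T3 := by
          apply mul_le_mul_of_nonneg_right _ hV3.le
          exact mul_le_mul hVZ1 hV21 hV2.le (by norm_num)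
      _ = V T3 := by ring
  have hyL : (j : ℝ) ^ 3 * L ≤ y := by
    rw [hL, hy]; push_cast
    rw [← pow_add]
    exact pow_le_pow_right₀ (by linarith) (by omega)
  have hLyV : (L : ℝ) ≤ y * V T := by
    calc (L : ℝ) ≤ (j : ℝ) ^ 3 * L * (1 / (2 * j)) := by
          have e : (j : ℝ) ^ 3 * L * (1 / (2 * j)) = L * (j ^ 2 / 2) := by field_simp
          rw [e]
          have : (1 : ℝ) ≤ (j : ℝ) ^ 2 / 2 := by nlinarith
          nlinarith
      _ ≤ y * V T := mul_le_mul hyL hVT (by positivity) hy0.le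
  have hzL : (z : ℝ) ≤ L := by exact_mod_cast (hzj.trans hjL)
  have hSS2 : SS y T2.toList ≤ 2 * y / z := SS_bound y z hz1 hy1 T2 h2p
    (hzL.trans (hLyV.trans (mul_le_mul_of_nonneg_left hVT2 hy0.le)))
  have hSS3 : SS y T3.toList ≤ 2 * y / L := SS_bound y L hL1 hy1 T3 h3p
    (hLyV.trans (mul_le_mul_of_nonneg_left hVT3 hy0.le))
  -- lists
  have hd23 : Disjoint T2 T3 := by
    rw [disjoint_left]
    intro p h1 h2
    rw [hT2, Finset.mem_sdiff, mem_filter] at h1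
    rw [hT3, mem_filter] at h2
    exact h2.2 h1.1.2
  have hdZ2 : Disjoint (Zp j) T2 := by
    rw [disjoint_left]
    intro p h1 h2
    rw [hT2, Finset.mem_sdiff] at h2
    exact h2.2 h1
  have hdZ3 : Disjoint (Zp j) T3 := by
    rw [disjoint_left]
    intro p h1 h2
    rw [hT3, mem_filter] at h2
    exact h2.2 (mem_filter.1 (hZL h1)).2
  have hnd : (T2.toList ++ T3.toList).Nodup := List.nodup_append.2 ⟨nodup_toList _, nodup_toList _, by
    intro p hp q hq hpq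
    subst hpq
    exact (disjoint_left.1 hd23 (mem_toList.1 hp)) (mem_toList.1 hq)⟩
  have hZn : ∀ p ∈ (Zp j).toList, p ∉ T2.toList ++ T3.toList := by
    intro p hp h
    rw [List.mem_append, mem_toList, mem_toList] at h
    rcases h with h | h
    · exact (disjoint_left.1 hdZ2 (mem_toList.1 hp)) h
    · exact (disjoint_left.1 hdZ3 (mem_toList.1 hp)) h
  have hndl : ((Zp j).toList ++ (T2.toList ++ T3.toList)).Nodup := List.nodup_append.2 ⟨nodup_toList _, hnd, by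
    intro p hp q hq hpq
    subst hpq
    exact hZn p hp hq⟩
  have hmemT : ∀ p, p ∈ (Zp j).toList ++ (T2.toList ++ T3.toList) ↔ p ∈ T := by
    intro p
    simp only [List.mem_append, mem_toList]
    constructor
    · rintro (h | h | h)
      · exact hZT h
      · rw [hT2, Finset.mem_sdiff, mem_filter] at h
        exact h.1.1
      · rw [hT3, mem_filter] at h
        exact h.1
    · intro h
      by_cases hpL : p ≤ L
      · by_cases hpZ : p ∈ Zp j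
        · exact Or.inl hpZ
        · exact Or.inr (Or.inl (by rw [hT2, Finset.mem_sdiff, mem_filter]; exact ⟨⟨h, hpL⟩, hpZ⟩))
      · exact Or.inr (Or.inr (by rw [hT3, mem_filter]; exact ⟨h, hpL⟩))
  have hST : ∀ (ρ : ℕ → ℕ) (I : Finset ℕ), S ρ ((Zp j).toList ++ (T2.toList ++ T3.toList)) I =
      I.filter (fun n => ∀ p ∈ T, n % p ≠ ρ p) := by
    intro ρ I
    unfold S
    apply filter_congr
    intro n _
    simp only [hmemT]
  -- the translation
  have hcrt := crt j (by omega) c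
  have hcrt2 : ∀ u : ℕ → ℕ, (∀ p ∈ Zp j, u p < p) → ∃ m : ℕ, Real.exp j ≤ m ∧ (m : ℝ) ≤ 2 * Real.exp j ∧ ∀ y : ℕ,
      (S u (Zp j).toList (Ioc m (m + y))).card = (S c (Zp j).toList (Icc 1 y)).card :=
    fun u hu' => hcrt u hc hu'
  choose! mm hm1 hm2 hm3 using hcrt2
  obtain ⟨nrm, hnrm⟩ : ∃ nrm : (ℕ → ℕ) → (ℕ → ℕ), nrm = fun ρ p => if p ∈ Zp j then ρ p % p else 0 := ⟨_, rfl⟩
  have hnv : ∀ ρ : ℕ → ℕ, ∀ p ∈ Zp j, nrm ρ p < p := by
    intro ρ p hp
    rw [hnrm]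
    simp only [if_pos hp]
    exact Nat.mod_lt _ (Zp_prime j p hp).pos
  have hnc : ∀ ρ ρ' : ℕ → ℕ, (∀ p ∈ Zp j, ρ p = ρ' p) → nrm ρ = nrm ρ' := by
    intro ρ ρ' h
    rw [hnrm]
    funext p
    by_cases hp : p ∈ Zp j
    · simp only [if_pos hp, h p hp]
    · simp only [if_neg hp]
  have hne : ∀ ρ : ℕ → ℕ, (∀ p ∈ Zp j, ρ p < p) → ∀ p ∈ Zp j, nrm ρ p = ρ p := by
    intro ρ h p hp
    rw [hnrm]
    simp only [if_pos hp, Nat.mod_eq_of_lt (h p hp)]
  -- parameters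
  obtain ⟨η, hη⟩ : ∃ η : ℝ, η = ε * V T2 / 32 := ⟨_, rfl⟩
  have hη0 : 0 < η := by rw [hη]; positivity
  have hεV2 : ε * V T2 ≤ 1 := mul_le_one₀ (by linarith) hV2.le hV21
  have hη1 : η ≤ 1 / 16 := by rw [hη]; linarith
  obtain ⟨β, hβ⟩ : ∃ β : ℝ, β = η * z / y := ⟨_, rfl⟩
  have hβ0 : 0 < β := by rw [hβ]; positivity
  obtain ⟨α, hα⟩ : ∃ α : ℝ, α = η * z / (y * V T3) := ⟨_, rfl⟩
  have hα0 : 0 < α := by rw [hα]; positivity
  have hαβ : α * V T3 = β := by rw [hα, hβ]; field_simp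
  have hLb : 8 * η * z ≤ ε * V T3 ^ 2 * L := by
    have h1 : 1 / (2 * (j : ℝ)) ≤ V T3 := hVT.trans hVT3
    have h2 : (1 / (2 * (j : ℝ))) ^ 2 ≤ V T3 ^ 2 := pow_le_pow_left₀ (by positivity) h1 2
    have h3 : ε * ((1 / (2 * (j : ℝ))) ^ 2) * L ≤ ε * V T3 ^ 2 * L :=
      mul_le_mul_of_nonneg_right (mul_le_mul_of_nonneg_left h2 hε.le) hL0.le
    have h4 : ε * ((1 / (2 * (j : ℝ))) ^ 2) * L = ε * (j ^ 3 / 4) := by
      rw [hL]; push_cast; field_simp; norm_num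
    have h5 : 8 * η * z ≤ ε * (j ^ 3 / 4) := by
      have h6 : (z : ℝ) ≤ j := by exact_mod_cast hzj
      have h7 : 8 * η ≤ ε / 4 := by
        rw [hη]
        nlinarith
      have h8 : 8 * η * z ≤ ε / 4 * j := mul_le_mul h7 h6 hz0.le (by positivity)
      have h9 : (j : ℝ) ≤ j ^ 3 := le_self_pow₀ (by linarith) (by norm_num)
      have h10 : ε / 4 * j ≤ ε / 4 * j ^ 3 := mul_le_mul_of_nonneg_left h9 (by positivity)
      linarith
    linarith
  obtain ⟨K0, hK0⟩ : ∃ K0 : ℝ, K0 = (1 + 2 * σ * D) * (y * V (Zp j)) := ⟨_, rfl⟩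
  obtain ⟨Θ, hΘ⟩ : ∃ Θ : ℝ, Θ = (1 - 3 * σ * ε) * ((1 + 2 * σ * D) * (y * V T)) := ⟨_, rfl⟩
  have hσ2 : σ * σ = 1 := by rcases hσ with h | h <;> rw [h] <;> norm_num
  have hK0l : y * V (Zp j) / 2 ≤ K0 := by
    have h1 : 0 < (y : ℝ) * V (Zp j) := by positivity
    rw [hK0]
    rcases hσ with h | h <;> rw [h] <;> nlinarith
  have hK00 : 0 < K0 := by
    have h1 : 0 < (y : ℝ) * V (Zp j) := by positivity
    linarith
  obtain ⟨K, hK⟩ : ∃ K : ℝ, K = ((S c (Zp j).toList (Icc 1 y)).card : ℝ) := ⟨_, rfl⟩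
  have hKK : 0 ≤ σ * (K - K0) := by
    have h1 : σ * K0 = σ * (y * V (Zp j)) + 2 * D * (y * V (Zp j)) := by
      rw [hK0]
      calc σ * ((1 + 2 * σ * D) * (y * V (Zp j))) = σ * (y * V (Zp j)) + 2 * (σ * σ) * D * (y * V (Zp j)) := by ring
        _ = _ := by rw [hσ2]; ring
    have h2 : σ * (K - K0) = σ * (K - y * V (Zp j)) - 2 * D * (y * V (Zp j)) := by
      rw [mul_sub, h1]; ring
    rw [h2, hK]
    linarith
  have hαΘ : σ * α * Θ = β * V T2 * (σ * K0 - 3 * ε * K0) := by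
    calc σ * α * Θ = (α * V T3) * V T2 * (σ * K0 - 3 * (σ * σ) * ε * K0) := by
          rw [hΘ, hK0, hVT']; ring
      _ = _ := by rw [hαβ, hσ2]; ring
  have hbr : σ * K0 - 3 * ε * K0 - σ * K + 2 * ε * K ≤ -(ε * K0) := by
    rcases hσ with h | h
    · rw [h] at hKK ⊢
      nlinarith
    · rw [h] at hKK ⊢
      nlinarith
  have hfin : ε ^ 2 * z * V (T.filter (fun p => p ≤ L)) ^ 2 / 64 ≤ β * V T2 * (ε * K0) := by
    rw [hV12]
    have h1 : β * V T2 * (ε * (y * V (Zp j) / 2)) ≤ β * V T2 * (ε * K0) := by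
      apply mul_le_mul_of_nonneg_left _ (by positivity)
      exact mul_le_mul_of_nonneg_left hK0l hε.le
    refine le_trans ?_ h1
    have h2 : β * V T2 * (ε * (y * V (Zp j) / 2)) = ε ^ 2 * z * (V (Zp j) * V T2 ^ 2) / 64 := by
      rw [hβ, hη]; field_simp; ring
    rw [h2]
    apply div_le_div_of_nonneg_right _ (by norm_num)
    apply mul_le_mul_of_nonneg_left _ (by positivity)
    rw [mul_pow]
    apply mul_le_mul_of_nonneg_right _ (by positivity)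
    nlinarith
  -- the event
  have hprob := prob_le μ a hm hi hu ((Zp j).toList ++ (T2.toList ++ T3.toList)) hndl
    (fun p hp => hT p ((hmemT p).1 hp))
    (fun ρ => σ * (((S ρ ((Zp j).toList ++ (T2.toList ++ T3.toList)) (Ioc (mm (nrm ρ)) (mm (nrm ρ) + y))).card : ℝ) - Θ) < 0)
    (by
      intro ρ ρ' h
      have h1 : nrm ρ = nrm ρ' := hnc ρ ρ' fun p hp => h p (List.mem_append_left _ (mem_toList.2 hp))
      rw [h1, S_congr _ h]
      exact id)
    (fun ρ => Real.exp (-σ * α * (((S ρ ((Zp j).toList ++ (T2.toList ++ T3.toList)) (Ioc (mm (nrm ρ)) (mm (nrm ρ) + y))).card : ℝ) - Θ)))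
    (fun ρ => (Real.exp_pos _).le)
    (by
      intro ρ h
      apply Real.one_le_exp
      have h1 : -σ * α * (((S ρ ((Zp j).toList ++ (T2.toList ++ T3.toList)) (Ioc (mm (nrm ρ)) (mm (nrm ρ) + y))).card : ℝ) - Θ) =
        α * (-(σ * (((S ρ ((Zp j).toList ++ (T2.toList ++ T3.toList)) (Ioc (mm (nrm ρ)) (mm (nrm ρ) + y))).card : ℝ) - Θ))) := by ring
      rw [h1]
      exact mul_nonneg hα0.le (by linarith))
    (Real.exp (-(ε ^ 2 * z * V (T.filter (fun p => p ≤ L)) ^ 2 / 64)))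
    (by
      rw [EE_append]
      apply EE_le_const _ (fun p hp => (Zp_prime j p (mem_toList.1 hp)).pos)
      intro ρ _ hρ
      have hρZ : ∀ p ∈ Zp j, ρ p < p := fun p hp => hρ p (mem_toList.2 hp)
      obtain ⟨m, hmdef⟩ : ∃ m : ℕ, m = mm (nrm ρ) := ⟨_, rfl⟩
      obtain ⟨A, hA⟩ : ∃ A : Finset ℕ, A = S ρ (Zp j).toList (Ioc m (m + y)) := ⟨_, rfl⟩
      have hAK : (A.card : ℝ) = K := by
        rw [hA, hK]
        have h1 := hm3 (nrm ρ) (hnv ρ) y
        rw [← hmdef] at h1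
        rw [← h1]
        rw [S_congr (ρ := ρ) (ρ' := nrm ρ) _ (fun p hp => (hne ρ hρZ p (mem_toList.1 hp)).symm)]
      have hcon : EE (T2.toList ++ T3.toList) (fun ρ' => Real.exp (-σ * α * (((S ρ' ((Zp j).toList ++ (T2.toList ++ T3.toList))
          (Ioc (mm (nrm ρ')) (mm (nrm ρ') + y))).card : ℝ) - Θ))) ρ =
          Real.exp (σ * α * Θ) * EE (T2.toList ++ T3.toList)
            (fun ρ' => Real.exp (-σ * (η * z / (y * V T3)) * ((S ρ' (T2.toList ++ T3.toList) A).card : ℝ))) ρ := by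
        rw [← EE_mul_const, ← hα]
        apply EE_congr
        intro ρ' h _
        have h1 : ∀ p ∈ Zp j, ρ' p = ρ p := fun p hp => h p (hZn p (mem_toList.2 hp))
        rw [hnc ρ' ρ h1, ← hmdef, S_append, S_congr (ρ := ρ') (ρ' := ρ) (l := (Zp j).toList) _ (fun p hp => h1 p (mem_toList.1 hp)),
          ← hA, ← Real.exp_add]
        congr 1
        ring
      rw [hcon]
      have htp := two_phase m y z L hz1 hL1 hLy hzy T2.toList T3.toList hnd
        (fun p hp => (h2p p (mem_toList.1 hp)).2) (fun p hp => (h3p p (mem_toList.1 hp)).2) hSS2 hSS3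
        ε η (V T2) (V T3) hε (by linarith) hη0 hη1 (PP_toList T2).symm (PP_toList T3).symm hV3 hLb (-σ)
        (by rcases hσ with h | h
            · right; rw [h]
            · left; rw [h]; norm_num)
        A (by rw [hA]; exact S_subset _ _ _) ρ
      rw [hAK, ← hβ] at htp
      refine (mul_le_mul_of_nonneg_left htp (Real.exp_pos _).le).trans ?_
      rw [← Real.exp_add]
      apply Real.exp_le_exp.2
      have h32 : 32 * β * η = ε * β * V T2 := by rw [hη]; ring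
      rw [h32, hαΘ]
      have h5 := mul_le_mul_of_nonneg_left hbr (show 0 ≤ β * V T2 by positivity)
      calc β * V T2 * (σ * K0 - 3 * ε * K0) + (-σ * β * V T2 + ε * β * V T2 + ε * β * V T2) * K
          = β * V T2 * (σ * K0 - 3 * ε * K0 - σ * K + 2 * ε * K) := by ring
        _ ≤ β * V T2 * -(ε * K0) := h5
        _ = -(β * V T2 * (ε * K0)) := by ring
        _ ≤ -(ε ^ 2 * z * V (T.filter (fun p => p ≤ L)) ^ 2 / 64) := neg_le_neg hfin)
  rw [← hL, ← hz]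
  refine le_trans (measure_mono ?_) hprob
  intro ω hω
  simp only [Set.mem_setOf_eq]
  by_contra hcon
  apply hω
  refine ⟨mm (nrm (fun q => a q ω)), hm1 _ (hnv _), hm2 _ (hnv _), ?_⟩
  rw [hST, not_lt, hΘ, hD, hy] at hcon
  exact hcon

end Pool.Agent.V5helper42.RS
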