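import Pool.Agent.V5helper42.RS.H

set_option autoImplicit false

/-!
# Random sieve model: irregular intervals of the model (helper42)
-/

namespace Pool.Agent.V5helper42.RS

open Finset MeasureTheory ProbabilityTheory Filter Topology
open scoped ENNReal
open Pool.Agent.W41 (V V_ge V_pos fac_pos fac_le_one V_le_one)

lemma V_anti {S T : Finset ℕ} (h : S ⊆ T) (hT : ∀ p ∈ T, p.Prime) : V T ≤ V S := by
  unfold V
  rw [← prod_sdiff h]
  have h1 : ∏ p ∈ T \ S, (1 - 1 / (p : ℝ)) ≤ 1 :=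
    V_le_one (P := T \ S) fun p hp => hT p (Finset.mem_sdiff.1 hp).1
  have h2 : 0 ≤ ∏ p ∈ S, (1 - 1 / (p : ℝ)) := (V_pos (P := S) fun p hp => hT p (h hp)).le
  exact mul_le_of_le_one_left h2 h1

lemma log_tendsto : Tendsto (fun j : ℕ => Real.log (j : ℝ)) atTop atTop :=
  Real.tendsto_log_atTop.comp tendsto_natCast_atTop_atTop

lemma W_le_self : ∀ᶠ j : ℕ in atTop, W j ≤ j := by
  obtain ⟨C, hC, hW⟩ := W_upper
  have h1 : ∀ᶠ j : ℕ in atTop, C * Real.log j ≤ j := by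
    have h2 := (Real.isLittleO_log_id_atTop.comp_tendsto tendsto_natCast_atTop_atTop).bound
      (show 0 < 1 / C by positivity)
    filter_upwards [h2, eventually_ge_atTop 1] with j hj hj1
    simp only [Function.comp, id] at hj
    have hj0 : (0 : ℝ) < j := by exact_mod_cast hj1
    rw [Real.norm_eq_abs, Real.norm_eq_abs, abs_of_pos hj0] at hj
    have h3 := (le_abs_self _).trans hj
    have h4 := mul_le_mul_of_nonneg_left h3 hC.le
    have h5 : C * (1 / C * (j : ℝ)) = j := by field_simp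
    linarith
  filter_upwards [hW, h1] with j h2 h3
  exact h2.trans h3

/-- the exponent of the probability is large -/
lemma expo (ε : ℝ) (hε : 0 < ε) : ∀ᶠ j : ℕ in atTop, ∀ T : Finset ℕ, (∀ p ∈ T, p.Prime) →
    2 * Real.log j ≤ ε ^ 2 * (((j / 3 : ℕ) : ℝ)) * V (T.filter (fun p => p ≤ j ^ 5)) ^ 2 / 64 := by
  obtain ⟨C, hC, hW⟩ := W_upper
  have hpow : Tendsto (fun j : ℕ => j ^ 5) atTop atTop := tendsto_pow_atTop (by norm_num)
  have h1 := hpow.eventually hW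
  have h2 := ((Real.isLittleO_pow_log_id_atTop (n := 3)).comp_tendsto tendsto_natCast_atTop_atTop).bound
      (show 0 < ε ^ 2 / (64 * 200 * C ^ 2) by positivity)
  filter_upwards [h1, h2, eventually_ge_atTop 8, ev_log 0 1] with j hj1 hj2 hj3 hj4
  intro T hT
  have hj0 : (8 : ℝ) ≤ j := by exact_mod_cast hj3
  have hl : (1 : ℝ) ≤ Real.log j := by simpa using hj4
  simp only [Function.comp, id] at hj2
  rw [Real.norm_eq_abs, Real.norm_eq_abs, abs_of_pos (show (0 : ℝ) < j by linarith)] at hj2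
  have hj2' := (le_abs_self _).trans hj2
  have hV : 1 / (5 * C * Real.log j) ≤ V (T.filter (fun p => p ≤ j ^ 5)) := by
    have h3 : T.filter (fun p => p ≤ j ^ 5) ⊆ (Icc 1 (j ^ 5)).filter Nat.Prime := by
      intro p hp
      rw [mem_filter] at hp
      rw [mem_filter, mem_Icc]
      exact ⟨⟨(hT p hp.1).one_lt.le, hp.2⟩, hT p hp.1⟩
    refine le_trans ?_ (V_anti h3 fun p hp => (mem_filter.1 hp).2)
    have h4 : V ((Icc 1 (j ^ 5)).filter Nat.Prime) = 1 / W (j ^ 5) := by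
      rw [W_eq, one_div_one_div]
    rw [h4]
    apply one_div_le_one_div_of_le (W_pos _)
    refine hj1.trans (le_of_eq ?_)
    push_cast
    rw [Real.log_pow]
    push_cast
    ring
  have hV2 : (1 / (5 * C * Real.log j)) ^ 2 ≤ V (T.filter (fun p => p ≤ j ^ 5)) ^ 2 :=
    pow_le_pow_left₀ (by positivity) hV 2
  have hz : (j : ℝ) / 4 ≤ ((j / 3 : ℕ) : ℝ) := by
    have h5 : j ≤ 4 * (j / 3) := by omega
    have h6 : (j : ℝ) ≤ 4 * ((j / 3 : ℕ) : ℝ) := by exact_mod_cast h5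
    linarith
  have h7 : ε ^ 2 * ((j : ℝ) / 4) * (1 / (5 * C * Real.log j)) ^ 2 / 64 ≤
      ε ^ 2 * (((j / 3 : ℕ) : ℝ)) * V (T.filter (fun p => p ≤ j ^ 5)) ^ 2 / 64 := by
    apply div_le_div_of_nonneg_right _ (by norm_num)
    apply mul_le_mul _ hV2 (by positivity) (by positivity)
    exact mul_le_mul_of_nonneg_left hz (by positivity)
  refine le_trans ?_ h7
  have h8 : ε ^ 2 * ((j : ℝ) / 4) * (1 / (5 * C * Real.log j)) ^ 2 / 64 =
      (ε ^ 2 / (64 * 200 * C ^ 2) * j) * 2 / (Real.log j) ^ 2 := by field_simp; norm_num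
  rw [h8, le_div_iff₀ (by positivity)]
  nlinarith

/-- number of elements in `(m, m + y]` -/
noncomputable def NM (A : Set ℕ) (m y : ℕ) : ℕ := {n : ℕ | n ∈ A ∧ m < n ∧ n ≤ m + y}.ncard

open Classical in
lemma NM_eq (A : Set ℕ) (m y : ℕ) : NM A m y = ((Ioc m (m + y)).filter (fun n => n ∈ A)).card := by
  unfold NM
  rw [← Set.ncard_coe_finset]
  congr 1
  ext n
  simp only [coe_filter, mem_Ioc, Set.mem_setOf_eq]
  tauto

lemma card_TT_mono (ρ : ℕ → ℕ) (I : Finset ℕ) {s t : ℝ} (h : s ≤ t) :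
    (I.filter (fun n => ∀ p ∈ TT t, n % p ≠ ρ p)).card ≤ (I.filter (fun n => ∀ p ∈ TT s, n % p ≠ ρ p)).card := by
  apply card_le_card
  intro n hn
  rw [mem_filter] at hn ⊢
  exact ⟨hn.1, fun p hp => hn.2 p (TT_mono h hp)⟩

lemma sandwich2 (ρ : ℕ → ℕ) (hρ : ∀ p : ℕ, p.Prime → ρ p < p) (m y : ℕ) (hm : 1 ≤ m) :
    ((Ioc m (m + y)).filter (fun n => ∀ p ∈ TT (Real.log ((m + y : ℕ) : ℝ)), n % p ≠ ρ p)).card ≤
      NM (model ρ) m y ∧
    NM (model ρ) m y ≤
      ((Ioc m (m + y)).filter (fun n => ∀ p ∈ TT (Real.log (m : ℝ)), n % p ≠ ρ p)).card := by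
  rw [NM_eq]
  exact sandwich ρ hρ m y hm

theorem ae_regular2 {Ω : Type*} [MeasurableSpace Ω] (μ : Measure Ω) [IsProbabilityMeasure μ] (a : ℕ → Ω → ℕ) (hm : ∀ p, Measurable (a p))
    (hi : iIndepFun a μ) (hu : ∀ p : ℕ, p.Prime → ∀ r < p, μ {ω | a p ω = r} = (p : ℝ≥0∞)⁻¹)
    (ε : ℝ) (hε : 0 < ε) (hε1 : ε ≤ 1 / 4) (K : ℕ) (hFL : FL ε K) : ∀ᵐ ω ∂μ, ∀ᶠ m : ℕ in atTop, ∀ y : ℕ,
    (Real.log m) ^ (5 * K + 7) ≤ (y : ℝ) → y ≤ m →
    |(NM (model (fun q => a q ω)) m y : ℝ) - y / Real.log m| ≤ 4 * ε * (y / Real.log m) := by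
  filter_upwards [ae_regular μ a hm hi hu ε hε hε1 K hFL] with ω h
  filter_upwards [h] with m hm y h1 h2
  rw [NM_eq]
  exact hm y h1 h2

theorem ae_maier {Ω : Type*} [MeasurableSpace Ω] (μ : Measure Ω) [IsProbabilityMeasure μ] (a : ℕ → Ω → ℕ)
    (hm : ∀ p, Measurable (a p)) (hi : iIndepFun a μ)
    (hu : ∀ p : ℕ, p.Prime → ∀ r < p, μ {ω | a p ω = r} = (p : ℝ≥0∞)⁻¹)
    (b : ℕ) (hb : 8 ≤ b) (σ : ℝ) (hσ : σ = 1 ∨ σ = -1) : ∀ᵐ ω ∂μ, ∀ᶠ j : ℕ in atTop,
    ∃ m : ℕ, Real.exp j ≤ m ∧ (m : ℝ) ≤ 2 * Real.exp j ∧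
      3 / 2 * dd b ≤ σ * ((NM (model (fun q => a q ω)) m (j ^ b) : ℝ) * j / ((j ^ b : ℕ) : ℝ) - 1) := by
  obtain ⟨D, hD⟩ : ∃ D : ℝ, D = dd b := ⟨_, rfl⟩
  have hD0 : 0 < D := by rw [hD]; exact dd_pos b
  have hD4 : D ≤ 1 / 4 := by rw [hD]; exact dd_le b
  obtain ⟨ε, hεd⟩ : ∃ ε : ℝ, ε = D / 16 := ⟨_, rfl⟩
  have hε : 0 < ε := by rw [hεd]; positivity
  have hε1 : ε ≤ 1 / 2 := by rw [hεd]; linarith
  obtain ⟨δ, hd1, hd2, hd3, hpat⟩ := pattern b (by omega) σ hσ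
  obtain ⟨T, hTd⟩ : ∃ T : ℕ → Finset ℕ, T = fun j : ℕ => TT ((j : ℝ) + (1 + σ)) := ⟨_, rfl⟩
  have hσ0 : 0 ≤ 1 + σ := by rcases hσ with h | h <;> rw [h] <;> norm_num
  have hσ2 : 1 + σ ≤ 2 := by rcases hσ with h | h <;> rw [h] <;> norm_num
  have hT : ∀ j, ∀ p ∈ T j, p.Prime := by
    intro j p hp
    rw [hTd] at hp
    exact TT_prime _ p hp
  have hprob : ∀ᶠ j : ℕ in atTop, μ (BadJ a b σ ε (T j) j) ≤ ENNReal.ofReal (1 / (j : ℝ) ^ 2) := by
    filter_upwards [hpat, eventually_ge_atTop 4, W_le_self, expo ε hε] with j hj1 hj2 hj3 hj4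
    obtain ⟨c, hc, hcp⟩ := hj1
    have hjR : (4 : ℝ) ≤ j := by exact_mod_cast hj2
    have hj0 : (0 : ℝ) < j := by linarith
    have hVZ : 0 < V (Zp j) := V_pos (Zp_prime j)
    have hZT : Zp j ⊆ T j := by
      intro p hp
      rw [hTd]
      simp only
      rw [mem_TT]
      refine ⟨Zp_prime j p hp, ?_⟩
      have h1 : p ≤ j := by
        rw [Zp, mem_filter, mem_Icc] at hp
        omega
      have := W_mono h1
      linarith
    have hVT : 1 / (2 * (j : ℝ)) ≤ V (T j) := by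
      rw [hTd]
      refine le_trans ?_ (V_TT_ge _ (by linarith))
      exact one_div_le_one_div_of_le (by linarith) (by linarith)
    have hp := prob_j μ a hm hi hu b j hb hj2 σ hσ ε hε hε1 c hc (by
      refine le_trans ?_ hcp
      have h1 : 0 ≤ ((j ^ b : ℕ) : ℝ) * V (Zp j) := by positivity
      have := mul_le_mul_of_nonneg_right hd1 h1
      linarith) (T j) (hT j) hZT hVT
    refine hp.trans (ENNReal.ofReal_le_ofReal ?_)
    have h2 := hj4 (T j) (hT j)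
    calc Real.exp (-(ε ^ 2 * (((j / 3 : ℕ) : ℝ)) * V ((T j).filter (fun p => p ≤ j ^ 5)) ^ 2 / 64))
        ≤ Real.exp (-(2 * Real.log j)) := Real.exp_le_exp.2 (by linarith)
      _ = 1 / (j : ℝ) ^ 2 := by
          rw [Real.exp_neg, one_div]
          congr 1
          have : 2 * Real.log j = Real.log ((j : ℝ) ^ 2) := by rw [Real.log_pow]; push_cast; ring
          rw [this, Real.exp_log (by positivity)]
  obtain ⟨j0, hj0⟩ := eventually_atTop.1 hprob
  have hBC : ∀ᵐ ω ∂μ, ∀ᶠ j : ℕ in atTop, ω ∉ (if j0 ≤ j then BadJ a b σ ε (T j) j else ∅) := by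
    apply ae_eventually_notMem
    have hs : Summable (fun m : ℕ => 1 / (m : ℝ) ^ 2) := Real.summable_one_div_nat_pow.2 (by norm_num)
    refine ne_top_of_le_ne_top hs.tsum_ofReal_ne_top ?_
    apply ENNReal.tsum_le_tsum
    intro m
    split_ifs with h
    · exact hj0 m h
    · simp
  have hexpb : ∀ᶠ j : ℕ in atTop, ((j ^ b : ℕ) : ℝ) ≤ Real.exp j := by
    have h1 := (Real.isLittleO_pow_exp_atTop (n := b)).comp_tendsto tendsto_natCast_atTop_atTop
    have h2 := h1.bound (show (0 : ℝ) < 1 by norm_num)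
    filter_upwards [h2] with j hj
    simp only [Function.comp, Real.norm_eq_abs, one_mul] at hj
    rw [abs_of_pos (Real.exp_pos _)] at hj
    push_cast
    exact (le_abs_self _).trans hj
  obtain ⟨jD, hjD⟩ := exists_nat_ge (100 / D)
  filter_upwards [hBC, ae_lt μ a hm hu] with ω h1 h2
  filter_upwards [h1, eventually_ge_atTop j0, hexpb, eventually_ge_atTop jD, eventually_ge_atTop 8, W_le_self]
    with j g1 g2 g3 g4 g5 g6
  rw [if_pos g2] at g1
  unfold BadJ at g1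
  simp only [Set.mem_setOf_eq, not_not] at g1
  obtain ⟨m, hm1, hm2, hm3⟩ := g1
  refine ⟨m, hm1, hm2, ?_⟩
  rw [← hD] at hm3 ⊢
  have hjR : (8 : ℝ) ≤ j := by exact_mod_cast g5
  have hj0' : (0 : ℝ) < j := by linarith
  have hjD' : 100 / D ≤ j := hjD.trans (by exact_mod_cast g4)
  have hjD2 : 100 ≤ D * j := by
    rw [div_le_iff₀ hD0] at hjD'
    linarith
  have hy0 : (0 : ℝ) < ((j ^ b : ℕ) : ℝ) := by push_cast; positivity
  have hm0 : (0 : ℝ) < m := (Real.exp_pos _).trans_le hm1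
  have hm1' : 1 ≤ m := by exact_mod_cast (by
    have : (0 : ℝ) < m := hm0
    exact_mod_cast this : 0 < m)
  obtain ⟨s1, s2⟩ := sandwich2 (fun q => a q ω) h2 m (j ^ b) hm1'
  obtain ⟨N, hN⟩ : ∃ N : ℝ, N = (NM (model (fun q => a q ω)) m (j ^ b) : ℝ) := ⟨_, rfl⟩
  rw [← hN]
  rcases hσ with h | h
  · -- many elements
    rw [h] at hm3 ⊢
    have hT1 : T j = TT ((j : ℝ) + 2) := by rw [hTd, h]; norm_num
    rw [hT1] at hm3
    have hlog : Real.log (((m + j ^ b : ℕ)) : ℝ) ≤ (j : ℝ) + 2 := by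
      rw [Real.log_le_iff_le_exp (by push_cast; positivity)]
      have e : Real.exp ((j : ℝ) + 2) = Real.exp j * Real.exp 2 := Real.exp_add _ _
      have h3 : (3 : ℝ) ≤ Real.exp 2 := by
        have := Real.add_one_le_exp (2 : ℝ); linarith
      rw [e]
      push_cast
      have h4 : (j : ℝ) ^ b ≤ Real.exp j := by have := g3; push_cast at this; exact this
      nlinarith [Real.exp_pos (j : ℝ)]
    have h3 := card_TT_mono (fun p => a p ω) (Ioc m (m + j ^ b)) hlog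
    have h4 := (Nat.cast_le (α := ℝ)).2 (h3.trans s1)
    rw [← hN] at h4
    have hV := V_TT_ge ((j : ℝ) + 2) (by linarith)
    have h5 : (1 - 3 * ε) * ((1 + 2 * D) * (((j ^ b : ℕ) : ℝ) * (1 / ((j : ℝ) + 2)))) ≤ N := by
      have h6 : (1 - 3 * ε) * ((1 + 2 * D) * (((j ^ b : ℕ) : ℝ) * (1 / ((j : ℝ) + 2)))) ≤
          (1 - 3 * ε) * ((1 + 2 * D) * (((j ^ b : ℕ) : ℝ) * V (TT ((j : ℝ) + 2)))) := by
        apply mul_le_mul_of_nonneg_left _ (by rw [hεd]; linarith)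
        apply mul_le_mul_of_nonneg_left _ (by linarith)
        exact mul_le_mul_of_nonneg_left hV hy0.le
      linarith
    have h6 : (1 - 3 * ε) * (1 + 2 * D) * (j / ((j : ℝ) + 2)) ≤ N * j / ((j ^ b : ℕ) : ℝ) := by
      rw [le_div_iff₀ hy0]
      have h7 := mul_le_mul_of_nonneg_right h5 hj0'.le
      refine le_trans (le_of_eq ?_) h7
      field_simp
    have h8 : 1 + 3 / 2 * D ≤ (1 - 3 * ε) * (1 + 2 * D) * (j / ((j : ℝ) + 2)) := by
      rw [mul_div_assoc', le_div_iff₀ (by linarith), hεd]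
      nlinarith [mul_pos hD0 hj0']
    rw [one_mul]
    linarith
  · -- few elements
    rw [h] at hm3 ⊢
    have hT1 : T j = TT (j : ℝ) := by rw [hTd, h]; norm_num
    rw [hT1] at hm3
    have hlog : (j : ℝ) ≤ Real.log (m : ℝ) := (Real.le_log_iff_exp_le hm0).2 hm1
    have h3 := card_TT_mono (fun p => a p ω) (Ioc m (m + j ^ b)) hlog
    have h4 : N ≤ (((Ioc m (m + j ^ b)).filter (fun n => ∀ p ∈ TT (j : ℝ), n % p ≠ a p ω)).card : ℝ) := by
      rw [hN]; exact_mod_cast s2.trans h3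
    have hz1 : 1 ≤ j / 3 := by omega
    have hV := V_TT_le (j : ℝ) (by linarith) (j / 3) hz1 ((W_mono (by omega : j / 3 ≤ j)).trans g6)
    have hz : (j : ℝ) / 4 ≤ ((j / 3 : ℕ) : ℝ) := by
      have h5 : j ≤ 4 * (j / 3) := by omega
      have h6 : (j : ℝ) ≤ 4 * ((j / 3 : ℕ) : ℝ) := by exact_mod_cast h5
      linarith
    have hz2 : 1 / (((j / 3 : ℕ)) : ℝ) ≤ D / 25 := by
      rw [div_le_div_iff₀ (by linarith) (by norm_num)]
      nlinarith
    have h5 : N ≤ (1 + 3 * ε) * ((1 - 2 * D) * (((j ^ b : ℕ) : ℝ) * ((1 + D / 25) / j))) := by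
      have h6 : (1 + 3 * ε) * ((1 - 2 * D) * (((j ^ b : ℕ) : ℝ) * V (TT (j : ℝ)))) ≤
          (1 + 3 * ε) * ((1 - 2 * D) * (((j ^ b : ℕ) : ℝ) * ((1 + D / 25) / j))) := by
        apply mul_le_mul_of_nonneg_left _ (by linarith)
        apply mul_le_mul_of_nonneg_left _ (by linarith)
        apply mul_le_mul_of_nonneg_left _ hy0.le
        refine hV.trans ?_
        apply div_le_div_of_nonneg_right _ hj0'.le
        linarith
      linarith
    have h6 : N * j / ((j ^ b : ℕ) : ℝ) ≤ (1 + 3 * ε) * (1 - 2 * D) * (1 + D / 25) := by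
      rw [div_le_iff₀ hy0]
      have h7 := mul_le_mul_of_nonneg_right h5 hj0'.le
      refine h7.trans (le_of_eq ?_)
      field_simp
    have h8 : (1 + 3 * ε) * (1 - 2 * D) * (1 + D / 25) ≤ 1 - 3 / 2 * D := by
      rw [hεd]
      have hDD : 0 ≤ D * D := by positivity
      have hDDD : 0 ≤ D * D * D := by positivity
      nlinarith
    linarith

end Pool.Agent.V5helper42.RS
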