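import Pool.Agent.V5helper42.RS.I

set_option autoImplicit false

/-!
# Random sieve model: real lengths, partitions (helper42)
-/

namespace Pool.Agent.V5helper42.RS

open Finset Filter Topology

/-- the number of `n ∈ A` with `u < n ≤ v` -/
noncomputable def CC (A : Set ℕ) (u v : ℝ) : ℕ := {n : ℕ | n ∈ A ∧ u < n ∧ (n : ℝ) ≤ v}.ncard

lemma CC_fin (A : Set ℕ) (u v : ℝ) : {n : ℕ | n ∈ A ∧ u < n ∧ (n : ℝ) ≤ v}.Finite := by
  apply (Set.finite_Iic ⌊v⌋₊).subset
  rintro n ⟨_, _, h⟩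
  exact Nat.le_floor h

lemma CC_mono (A : Set ℕ) {u v v' : ℝ} (h : v ≤ v') : CC A u v ≤ CC A u v' := by
  apply Set.ncard_le_ncard _ (CC_fin A u v')
  rintro n ⟨h1, h2, h3⟩
  exact ⟨h1, h2, h3.trans h⟩

lemma CC_add (A : Set ℕ) {u w v : ℝ} (h1 : u ≤ w) (h2 : w ≤ v) : CC A u v = CC A u w + CC A w v := by
  unfold CC
  rw [← Set.ncard_union_eq _ (CC_fin A u w) (CC_fin A w v)]
  · congr 1
    ext n
    simp only [Set.mem_union, Set.mem_setOf_eq]
    constructor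
    · rintro ⟨h3, h4, h5⟩
      rcases le_or_gt (n : ℝ) w with h | h
      · exact Or.inl ⟨h3, h4, h⟩
      · exact Or.inr ⟨h3, h, h5⟩
    · rintro (⟨h3, h4, h5⟩ | ⟨h3, h4, h5⟩)
      · exact ⟨h3, h4, h5.trans h2⟩
      · exact ⟨h3, h1.trans_lt h4, h5⟩
  · rw [Set.disjoint_left]
    rintro n ⟨_, _, h4⟩ ⟨_, h5, _⟩
    exact absurd h5 (not_lt.2 h4)

lemma CC_NM (A : Set ℕ) (m y : ℕ) : CC A (m : ℝ) ((m : ℝ) + y) = NM A m y := by
  unfold CC NM
  congr 1
  ext n
  simp only [Set.mem_setOf_eq]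
  constructor
  · rintro ⟨h1, h2, h3⟩
    exact ⟨h1, by exact_mod_cast h2, by exact_mod_cast h3⟩
  · rintro ⟨h1, h2, h3⟩
    exact ⟨h1, by exact_mod_cast h2, by exact_mod_cast h3⟩

lemma CC_floor (A : Set ℕ) (u v : ℝ) (hu : 0 ≤ u) (huv : u ≤ v) :
    CC A u v = NM A ⌊u⌋₊ (⌊v⌋₊ - ⌊u⌋₊) := by
  unfold CC NM
  have h0 : ⌊u⌋₊ ≤ ⌊v⌋₊ := Nat.floor_mono huv
  congr 1
  ext n
  simp only [Set.mem_setOf_eq]
  rw [← Nat.floor_lt hu, ← Nat.le_floor_iff (hu.trans huv)]
  constructor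
  · rintro ⟨h1, h2, h3⟩
    exact ⟨h1, h2, by omega⟩
  · rintro ⟨h1, h2, h3⟩
    exact ⟨h1, h2, by omega⟩

theorem part_upper (A : Set ℕ) (f : ℝ → ℝ) (c g u v : ℝ) (hc : 0 ≤ c)
    (hf : ∀ x, u ≤ x → x ≤ v → 1 ≤ f x ∧ f x ≤ g)
    (h : ∀ x, u ≤ x → x ≤ v → (CC A x (x + f x) : ℝ) ≤ c * f x) :
    ∀ n : ℕ, ∀ x, u ≤ x → x ≤ v → v - x ≤ n → (CC A x v : ℝ) ≤ c * ((v - x) + g) := by
  intro n
  induction n with
  | zero =>
    intro x hux hxv hn
    have hx : x = v := le_antisymm hxv (by push_cast at hn; linarith)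
    obtain ⟨h1, h2⟩ := hf x hux hxv
    have h3 : CC A x v = 0 := by
      unfold CC
      rw [Set.ncard_eq_zero (CC_fin A x v)]
      ext n
      simp only [Set.mem_setOf_eq, Set.mem_empty_iff_false, iff_false, not_and, not_le]
      intro _ h4
      rw [hx] at h4; exact h4
    rw [h3]
    push_cast
    apply mul_nonneg hc
    linarith
  | succ n ih =>
    intro x hux hxv hn
    obtain ⟨h1, h2⟩ := hf x hux hxv
    have h3 := h x hux hxv
    rcases le_or_gt v (x + f x) with h4 | h4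
    · have h5 : (CC A x v : ℝ) ≤ CC A x (x + f x) := by exact_mod_cast CC_mono A h4
      have h6 : c * f x ≤ c * ((v - x) + g) := mul_le_mul_of_nonneg_left (by linarith) hc
      linarith
    · have h5 := CC_add A (u := x) (w := x + f x) (v := v) (by linarith) h4.le
      have h6 := ih (x + f x) (by linarith) h4.le (by push_cast at hn; linarith)
      have h7 : (CC A x v : ℝ) = CC A x (x + f x) + CC A (x + f x) v := by exact_mod_cast h5
      rw [h7]
      have : c * f x + c * (v - (x + f x) + g) = c * ((v - x) + g) := by ring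
      linarith

theorem part_lower (A : Set ℕ) (f : ℝ → ℝ) (c g u v : ℝ) (hc : 0 ≤ c)
    (hf : ∀ x, u ≤ x → x ≤ v → 1 ≤ f x ∧ f x ≤ g)
    (h : ∀ x, u ≤ x → x ≤ v → c * f x ≤ (CC A x (x + f x) : ℝ)) :
    ∀ n : ℕ, ∀ x, u ≤ x → x ≤ v → v - x ≤ n → c * ((v - x) - g) ≤ (CC A x v : ℝ) := by
  intro n
  induction n with
  | zero =>
    intro x hux hxv hn
    obtain ⟨h1, h2⟩ := hf x hux hxv
    have h3 : c * ((v - x) - g) ≤ 0 := by
      apply mul_nonpos_of_nonneg_of_nonpos hc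
      push_cast at hn
      linarith
    exact h3.trans (Nat.cast_nonneg _)
  | succ n ih =>
    intro x hux hxv hn
    obtain ⟨h1, h2⟩ := hf x hux hxv
    have h3 := h x hux hxv
    rcases le_or_gt v (x + f x) with h4 | h4
    · have h5 : c * ((v - x) - g) ≤ 0 := by
        apply mul_nonpos_of_nonneg_of_nonpos hc
        linarith
      exact h5.trans (Nat.cast_nonneg _)
    · have h5 := CC_add A (u := x) (w := x + f x) (v := v) (by linarith) h4.le
      have h6 := ih (x + f x) (by linarith) h4.le (by push_cast at hn; linarith)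
      have h7 : (CC A x v : ℝ) = CC A x (x + f x) + CC A (x + f x) v := by exact_mod_cast h5
      rw [h7]
      have : c * f x + c * (v - (x + f x) - g) = c * ((v - x) - g) := by ring
      linarith

/-- regularity for real intervals -/
theorem reg_real (A : Set ℕ) (ε : ℝ) (hε : 0 < ε) (hε1 : ε ≤ 1 / 4) (B : ℕ)
    (h : ∀ᶠ m : ℕ in atTop, ∀ y : ℕ, (Real.log m) ^ B ≤ (y : ℝ) → y ≤ m →
      |(NM A m y : ℝ) - y / Real.log m| ≤ 4 * ε * (y / Real.log m)) :
    ∀ᶠ x : ℝ in atTop, ∀ H : ℝ, (Real.log x) ^ (B + 1) ≤ H → H ≤ x / 2 →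
      |Real.log x / H * (CC A x (x + H) : ℝ) - 1| ≤ 5 * ε := by
  have h1 := tendsto_nat_floor_atTop.eventually (α := ℝ) h
  have h2 := Real.tendsto_log_atTop.eventually_ge_atTop (max 2 (16 / ε))
  filter_upwards [h1, h2, eventually_ge_atTop (8 : ℝ)] with x hx1 hx2 hx3
  intro H hH1 hH2
  obtain ⟨δ, hδ⟩ : ∃ δ : ℝ, δ = ε / 8 := ⟨_, rfl⟩
  have hδ0 : 0 < δ := by rw [hδ]; positivity
  have hL2 : 2 ≤ Real.log x := (le_max_left _ _).trans hx2
  have hLε : 16 / ε ≤ Real.log x := (le_max_right _ _).trans hx2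
  have hLδ : 2 ≤ δ * Real.log x := by
    rw [div_le_iff₀ hε] at hLε
    rw [hδ]; linarith
  obtain ⟨m, hm⟩ : ∃ m : ℕ, m = ⌊x⌋₊ := ⟨_, rfl⟩
  have hx0 : 0 ≤ x := by linarith
  have hm1 : (m : ℝ) ≤ x := by rw [hm]; exact Nat.floor_le hx0
  have hm2 : x < m + 1 := by rw [hm]; exact Nat.lt_floor_add_one x
  have hm0 : (0 : ℝ) < m := by linarith
  have hLB : (1 : ℝ) ≤ (Real.log x) ^ B := one_le_pow₀ (by linarith)
  have hH1' : (Real.log x) ^ B * Real.log x ≤ H := by rw [← pow_succ]; exact hH1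
  have hH3 : Real.log x ≤ H := by nlinarith
  have hH0 : 0 < H := by linarith
  obtain ⟨k, hk⟩ : ∃ k : ℕ, k = ⌊x + H⌋₊ := ⟨_, rfl⟩
  have hk1 : (k : ℝ) ≤ x + H := by rw [hk]; exact Nat.floor_le (by linarith)
  have hk2 : x + H < k + 1 := by rw [hk]; exact Nat.lt_floor_add_one _
  have hmk : m ≤ k := by rw [hm, hk]; exact Nat.floor_mono (by linarith)
  obtain ⟨y, hy⟩ : ∃ y : ℕ, y = k - m := ⟨_, rfl⟩
  have hyR : (y : ℝ) = k - m := by rw [hy, Nat.cast_sub hmk]
  have hy1 : (y : ℝ) ≤ H + 1 := by rw [hyR]; linarith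
  have hy2 : H - 1 ≤ y := by rw [hyR]; linarith
  have hCC : CC A x (x + H) = NM A m y := by
    rw [CC_floor A x (x + H) hx0 (by linarith), ← hm, ← hk, ← hy]
  have hlm1 : Real.log m ≤ Real.log x := Real.log_le_log hm0 hm1
  have hlm2 : Real.log x - 1 ≤ Real.log m := by
    have h3 : x / 2 ≤ m := by linarith
    have h4 := Real.log_le_log (by linarith) h3
    rw [Real.log_div (by linarith) (by norm_num)] at h4
    have := Real.log_two_lt_d9
    linarith
  have hlm0 : 0 < Real.log m := by linarith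
  have key := hx1 y (by
    rw [← hm]
    calc (Real.log m) ^ B ≤ (Real.log x) ^ B := pow_le_pow_left₀ hlm0.le hlm1 B
      _ ≤ y := by nlinarith) (by
    rw [← hm]
    have : (y : ℝ) ≤ m := by linarith
    exact_mod_cast this)
  rw [← hm] at key
  rw [hCC]
  obtain ⟨N, hN⟩ : ∃ N : ℝ, N = (NM A m y : ℝ) := ⟨_, rfl⟩
  rw [← hN] at key ⊢
  obtain ⟨k1, k2⟩ := abs_le.1 key
  obtain ⟨l, hl⟩ : ∃ l : ℝ, l = Real.log m := ⟨_, rfl⟩
  obtain ⟨L, hLd⟩ : ∃ L : ℝ, L = Real.log x := ⟨_, rfl⟩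
  rw [← hl] at k1 k2 hlm1 hlm2 hlm0
  rw [← hLd] at hlm1 hlm2 hL2 hLδ hH3 ⊢
  have hy0 : 0 ≤ (y : ℝ) := Nat.cast_nonneg y
  have hyl : (y : ℝ) / l * l = y := by field_simp
  have hN1 : N * l ≤ (1 + 4 * ε) * y := by
    have h3 : N ≤ (1 + 4 * ε) * (y / l) := by linarith
    have h4 := mul_le_mul_of_nonneg_right h3 hlm0.le
    have e : (1 + 4 * ε) * ((y : ℝ) / l) * l = (1 + 4 * ε) * y := by rw [mul_assoc, hyl]
    linarith
  have hN2 : (1 - 4 * ε) * y ≤ N * l := by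
    have h3 : (1 - 4 * ε) * (y / l) ≤ N := by linarith
    have h4 := mul_le_mul_of_nonneg_right h3 hlm0.le
    have e : (1 - 4 * ε) * ((y : ℝ) / l) * l = (1 - 4 * ε) * y := by rw [mul_assoc, hyl]
    linarith
  have hN0 : 0 ≤ N := by rw [hN]; exact Nat.cast_nonneg _
  have hLl : L ≤ (1 + δ) * l := by
    have h3 : 1 ≤ δ * l := by nlinarith
    linarith
  have hδH : 1 ≤ δ * H := by nlinarith
  have e : L / H * N - 1 = (L * N - H) / H := by field_simp
  rw [e, abs_div, abs_of_pos hH0, div_le_iff₀ hH0, abs_le]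
  constructor
  · -- L * N ≥ (1 - 5ε) H
    have h3 : N * l ≤ L * N := by nlinarith
    have h4 : (1 - 4 * ε) * (H - 1) ≤ (1 - 4 * ε) * y := mul_le_mul_of_nonneg_left hy2 (by linarith)
    have h5 : (1 - 4 * ε) * 1 ≤ δ * H := by nlinarith
    have h6 : δ * H ≤ ε * H := by
      apply mul_le_mul_of_nonneg_right _ hH0.le
      rw [hδ]; linarith
    nlinarith
  · have h3 : L * N ≤ (1 + δ) * (N * l) := by nlinarith
    have h4 : (1 + 4 * ε) * y ≤ (1 + 4 * ε) * ((1 + δ) * H) := by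
      apply mul_le_mul_of_nonneg_left _ (by linarith)
      nlinarith
    have h5 : (1 + δ) * (N * l) ≤ (1 + δ) * ((1 + 4 * ε) * ((1 + δ) * H)) := by
      apply mul_le_mul_of_nonneg_left _ (by linarith)
      linarith
    have h6 : (1 + δ) * ((1 + 4 * ε) * (1 + δ)) ≤ 1 + 5 * ε := by
      rw [hδ]
      have q1 : ε * ε ≤ ε * (1 / 4) := mul_le_mul_of_nonneg_left hε1 hε.le
      have q2 : ε * ε * ε ≤ ε * (1 / 4) * (1 / 4) := mul_le_mul q1 hε1 hε.le (by positivity)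
      have e2 : (1 + ε / 8) * ((1 + 4 * ε) * (1 + ε / 8)) =
          1 + 17 / 4 * ε + 65 / 64 * (ε * ε) + 1 / 16 * (ε * ε * ε) := by ring
      rw [e2]
      linarith
    have h7 := mul_le_mul_of_nonneg_right h6 hH0.le
    have e3 : (1 + δ) * ((1 + 4 * ε) * ((1 + δ) * H)) = (1 + δ) * ((1 + 4 * ε) * (1 + δ)) * H := by ring
    linarith

/-- irregularity passes to shorter intervals -/
theorem irr_real (A : Set ℕ) (σ D : ℝ) (hσ : σ = 1 ∨ σ = -1) (hD : 0 < D) (hD4 : D ≤ 1 / 4) (b : ℕ)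
    (h : ∀ᶠ j : ℕ in atTop, ∃ m : ℕ, Real.exp j ≤ m ∧ (m : ℝ) ≤ 2 * Real.exp j ∧
      3 / 2 * D ≤ σ * ((NM A m (j ^ b) : ℝ) * j / ((j ^ b : ℕ) : ℝ) - 1))
    (a : ℝ) (ha : 0 < a) (hab : a + 1 ≤ b) :
    ∀ᶠ X : ℝ in atTop, ∃ x : ℝ, X ≤ x ∧ x ≤ 10 * X ∧
      D ≤ σ * (Real.log x / Real.log x ^ a * (CC A x (x + Real.log x ^ a) : ℝ) - 1) := by
  have hlogceil : Tendsto (fun X : ℝ => ⌈Real.log X⌉₊) atTop atTop :=
    tendsto_nat_ceil_atTop.comp Real.tendsto_log_atTop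
  have hexpb : ∀ᶠ j : ℕ in atTop, ((j ^ b : ℕ) : ℝ) ≤ Real.exp j := by
    have h1 := (Real.isLittleO_pow_exp_atTop (n := b)).comp_tendsto tendsto_natCast_atTop_atTop
    have h2 := h1.bound (show (0 : ℝ) < 1 by norm_num)
    filter_upwards [h2] with j hj
    simp only [Function.comp, Real.norm_eq_abs, one_mul] at hj
    rw [abs_of_pos (Real.exp_pos _)] at hj
    push_cast
    exact (le_abs_self _).trans hj
  obtain ⟨jD, hjD⟩ := exists_nat_ge (2 ^ (b + 7) / D)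
  filter_upwards [hlogceil.eventually h, hlogceil.eventually hexpb, hlogceil.eventually_ge_atTop jD,
    hlogceil.eventually_ge_atTop 8, eventually_ge_atTop (1 : ℝ)] with X g1 g2 g3 g4 g5
  obtain ⟨j, hj⟩ : ∃ j : ℕ, j = ⌈Real.log X⌉₊ := ⟨_, rfl⟩
  rw [← hj] at g1 g2 g3 g4
  obtain ⟨m, hm1, hm2, hm3⟩ := g1
  obtain ⟨y, hy⟩ : ∃ y : ℕ, y = j ^ b := ⟨_, rfl⟩
  rw [← hy] at g2 hm3
  have hX0 : 0 < X := by linarith
  have hjX1 : X ≤ Real.exp j := by
    rw [← Real.log_le_iff_le_exp hX0, hj]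
    exact Nat.le_ceil _
  have hjX2 : Real.exp j ≤ 3 * X := by
    have h1 : (j : ℝ) ≤ Real.log X + 1 := by
      rw [hj]; exact (Nat.ceil_lt_add_one (Real.log_nonneg g5)).le
    have h2 := Real.exp_le_exp.2 h1
    rw [Real.exp_add, Real.exp_log hX0] at h2
    have h3 : Real.exp 1 < 3 := by have := Real.exp_one_lt_d9; linarith
    nlinarith
  have hjR : (8 : ℝ) ≤ j := by exact_mod_cast g4
  have hj0 : (0 : ℝ) < j := by linarith
  have hjD2 : 2 ^ (b + 7) ≤ D * j := by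
    have h1 : 2 ^ (b + 7) / D ≤ (j : ℝ) := hjD.trans (by exact_mod_cast g3)
    rw [div_le_iff₀ hD] at h1
    linarith
  have hy0 : (0 : ℝ) < y := by rw [hy]; push_cast; positivity
  have hm0 : (0 : ℝ) < m := (Real.exp_pos _).trans_le hm1
  -- the interval
  have hlog1 : ∀ x : ℝ, (m : ℝ) ≤ x → (j : ℝ) ≤ Real.log x := by
    intro x hx
    rw [Real.le_log_iff_exp_le (hm0.trans_le hx)]
    exact hm1.trans hx
  have hlog2 : ∀ x : ℝ, (m : ℝ) ≤ x → x ≤ m + y → Real.log x ≤ j + 2 := by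
    intro x hx hx2
    rw [Real.log_le_iff_le_exp (hm0.trans_le hx), Real.exp_add]
    have h3 : (3 : ℝ) ≤ Real.exp 2 := by
      have := Real.add_one_le_exp (2 : ℝ); linarith
    nlinarith [Real.exp_pos (j : ℝ)]
  obtain ⟨G, hG⟩ : ∃ G : ℝ, G = ((j : ℝ) + 2) ^ a := ⟨_, rfl⟩
  have hf : ∀ x : ℝ, (m : ℝ) ≤ x → x ≤ m + y → 1 ≤ Real.log x ^ a ∧ Real.log x ^ a ≤ G := by
    intro x hx hx2
    have h1 := hlog1 x hx
    have h2 := hlog2 x hx hx2
    refine ⟨Real.one_le_rpow (by linarith) ha.le, ?_⟩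
    rw [hG]
    exact Real.rpow_le_rpow (by linarith) h2 ha.le
  have hG0 : 0 < G := by rw [hG]; positivity
  have hGy : G * j ≤ 2 ^ b * y := by
    have h1 : ((j : ℝ) + 2) ^ a ≤ ((j : ℝ) + 2) ^ ((b : ℝ) - 1) :=
      Real.rpow_le_rpow_of_exponent_le (by linarith) (by linarith)
    have h2 : ((j : ℝ) + 2) ^ ((b : ℝ) - 1) * ((j : ℝ) + 2) = ((j : ℝ) + 2) ^ b := by
      have h3 : ((j : ℝ) + 2) ^ ((b : ℝ) - 1) * ((j : ℝ) + 2) = ((j : ℝ) + 2) ^ ((b : ℝ) - 1) * ((j : ℝ) + 2) ^ (1 : ℝ) := by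
        rw [Real.rpow_one]
      rw [h3, ← Real.rpow_add (by linarith), ← Real.rpow_natCast]
      congr 1
      ring
    have h4 : ((j : ℝ) + 2) ^ b ≤ (2 * j) ^ b := pow_le_pow_left₀ (by linarith) (by linarith) b
    have h5 : (2 * (j : ℝ)) ^ b = 2 ^ b * y := by rw [hy, mul_pow]; push_cast; rfl
    have h6 : G * j ≤ ((j : ℝ) + 2) ^ ((b : ℝ) - 1) * ((j : ℝ) + 2) := by
      rw [hG]
      apply mul_le_mul h1 (by linarith) hj0.le (by positivity)
    linarith
  have hGy2 : 128 * G ≤ D * y := by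
    have h1 : (128 * G) * j ≤ (D * y) * j := by
      have h2 : (2 : ℝ) ^ (b + 7) = 128 * 2 ^ b := by rw [pow_add]; norm_num; ring
      rw [h2] at hjD2
      have h3 := mul_le_mul_of_nonneg_right hjD2 hy0.le
      nlinarith
    exact le_of_mul_le_mul_right h1 hj0
  have hDj : 128 ≤ D * j := by
    have h2 : (2 : ℝ) ^ (b + 7) = 128 * 2 ^ b := by rw [pow_add]; norm_num; ring
    have h3 : (1 : ℝ) ≤ 2 ^ b := one_le_pow₀ (by norm_num)
    rw [h2] at hjD2
    linarith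
  obtain ⟨n, hn⟩ := exists_nat_ge ((y : ℝ))
  by_contra hcon
  push Not at hcon
  have hrange : ∀ x : ℝ, (m : ℝ) ≤ x → x ≤ m + y → X ≤ x ∧ x ≤ 10 * X := by
    intro x hx hx2
    constructor
    · linarith
    · linarith
  have hNM := CC_NM A m y
  rcases hσ with hs | hs
  · rw [hs] at hcon hm3
    have hpu := part_upper A (fun x => Real.log x ^ a) ((1 + D) / j) G m (m + y) (by positivity) hf (by
      intro x hx hx2
      obtain ⟨r1, r2⟩ := hrange x hx hx2
      have h1 := hcon x r1 r2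
      have h2 := hlog1 x hx
      have h3 : 0 < Real.log x := by linarith
      have h4 : 0 < Real.log x ^ a := Real.rpow_pos_of_pos h3 a
      have h5 : Real.log x / Real.log x ^ a * (CC A x (x + Real.log x ^ a) : ℝ) ≤ 1 + D := by linarith
      rw [div_mul_eq_mul_div, div_le_iff₀ h4] at h5
      rw [div_mul_eq_mul_div, le_div_iff₀ hj0]
      have h6 : (0 : ℝ) ≤ (CC A x (x + Real.log x ^ a) : ℝ) := Nat.cast_nonneg _
      nlinarith) n m le_rfl (by linarith) (by linarith)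
    rw [hNM] at hpu
    have h7 : (NM A m y : ℝ) * j / y ≤ (1 + D) * (1 + D / 128) := by
      rw [div_le_iff₀ hy0]
      have h8 : (NM A m y : ℝ) * j ≤ (1 + D) * (y + G) := by
        have h9 := mul_le_mul_of_nonneg_right hpu hj0.le
        have e : (1 + D) / (j : ℝ) * ((m + y - m) + G) * j = (1 + D) * (y + G) := by field_simp; ring
        rw [e] at h9
        exact h9
      nlinarith
    nlinarith
  · rw [hs] at hcon hm3
    have hpl := part_lower A (fun x => Real.log x ^ a) ((1 - D) / (j + 2)) G m (m + y)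
      (div_nonneg (by linarith) (by linarith)) hf (by
      intro x hx hx2
      obtain ⟨r1, r2⟩ := hrange x hx hx2
      have h1 := hcon x r1 r2
      have h2 := hlog1 x hx
      have h2' := hlog2 x hx hx2
      have h3 : 0 < Real.log x := by linarith
      have h4 : 0 < Real.log x ^ a := Real.rpow_pos_of_pos h3 a
      have h5 : 1 - D ≤ Real.log x / Real.log x ^ a * (CC A x (x + Real.log x ^ a) : ℝ) := by linarith
      rw [div_mul_eq_mul_div, le_div_iff₀ h4] at h5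
      rw [div_mul_eq_mul_div, div_le_iff₀ (by linarith)]
      have h6 : (0 : ℝ) ≤ (CC A x (x + Real.log x ^ a) : ℝ) := Nat.cast_nonneg _
      nlinarith) n m le_rfl (by linarith) (by linarith)
    rw [hNM] at hpl
    have h7 : (1 - D) * (1 - D / 128) * (j / ((j : ℝ) + 2)) ≤ (NM A m y : ℝ) * j / y := by
      rw [le_div_iff₀ hy0]
      have h8 : (1 - D) * (y - G) * (j / ((j : ℝ) + 2)) ≤ (NM A m y : ℝ) * j := by
        have h9 := mul_le_mul_of_nonneg_right hpl hj0.le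
        refine le_trans (le_of_eq ?_) h9
        field_simp
        ring
      refine le_trans ?_ h8
      have h10 : (1 - D) * (1 - D / 128) * (j / ((j : ℝ) + 2)) * y = ((1 - D) * ((1 - D / 128) * y)) * (j / ((j : ℝ) + 2)) := by ring
      rw [h10]
      apply mul_le_mul_of_nonneg_right _ (by positivity)
      apply mul_le_mul_of_nonneg_left _ (by linarith)
      linarith
    have h8 : 1 - D / 64 ≤ j / ((j : ℝ) + 2) := by
      rw [le_div_iff₀ (by linarith)]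
      nlinarith
    have h9 : (1 - D) * (1 - D / 128) * (1 - D / 64) ≤ (1 - D) * (1 - D / 128) * (j / ((j : ℝ) + 2)) := by
      apply mul_le_mul_of_nonneg_left h8
      apply mul_nonneg <;> linarith
    have h10 : 1 - 3 / 2 * D < (1 - D) * (1 - D / 128) * (1 - D / 64) := by
      have e : (1 - D) * (1 - D / 128) * (1 - D / 64) = 1 - D - (1 - D) * (D / 128 + D / 64 - D / 128 * (D / 64)) := by ring
      rw [e]
      have h11 : 0 ≤ (1 - D) := by linarith
      have h12 : 0 ≤ D / 128 * (D / 64) := by positivity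
      nlinarith
    linarith

end Pool.Agent.V5helper42.RS
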