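import Pool.Agent.V5helper42.RS.J

set_option autoImplicit false

/-!
# Random sieve model: rates and the main theorem (helper42)
-/

namespace Pool.Agent.V5helper42.RS

open Finset MeasureTheory ProbabilityTheory Filter Topology
open scoped ENNReal

lemma rate (C0 M : ℕ) (hC0 : 1 ≤ C0) (hM : 1 ≤ M) : ∃ c : ℝ, 0 < c ∧ ∃ A₀ : ℝ, 1 ≤ A₀ ∧ ∀ s : ℝ, A₀ ≤ s →
    ∃ n : ℕ, C0 ≤ n ∧ 2 * M ≤ n ∧ 3 ≤ n ∧ (20 * (C0 : ℝ) * n + 33 ≤ s) ∧
      10 * ((M : ℝ) / n) ^ n ≤ Real.exp (-(c * s * Real.log s)) := by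
  have hC : (1 : ℝ) ≤ C0 := by exact_mod_cast hC0
  have hMR : (1 : ℝ) ≤ M := by exact_mod_cast hM
  obtain ⟨κ, hκ⟩ : ∃ κ : ℝ, κ = 1 / (40 * (C0 : ℝ)) := ⟨_, rfl⟩
  have hκ0 : 0 < κ := by rw [hκ]; positivity
  refine ⟨κ / 4, by positivity, (40 * C0 * M) ^ 2 + 480 * C0 + 66 + 40 * C0 + (33 + 20 * C0 * (C0 + 2 * M + 4)) + 3, ?_, ?_⟩
  · have : (0 : ℝ) ≤ (40 * C0 * M) ^ 2 + 480 * C0 + 66 + 40 * C0 + (33 + 20 * C0 * (C0 + 2 * M + 4)) := by positivity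
    linarith
  intro s hs
  have p1 : (0 : ℝ) ≤ (40 * C0 * M) ^ 2 := by positivity
  have p2 : (0 : ℝ) ≤ 20 * C0 * (C0 + 2 * M + 4) := by positivity
  have hs0 : 0 < s := by linarith
  have hs3 : 3 ≤ s := by linarith
  obtain ⟨n, hn⟩ : ∃ n : ℕ, n = ⌊(s - 33) / (20 * C0)⌋₊ := ⟨_, rfl⟩
  have hq0 : 0 ≤ (s - 33) / (20 * (C0 : ℝ)) := div_nonneg (by linarith) (by linarith)
  have hn1 : (n : ℝ) ≤ (s - 33) / (20 * C0) := by rw [hn]; exact Nat.floor_le hq0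
  have hn2 : (s - 33) / (20 * C0) < n + 1 := by rw [hn]; exact Nat.lt_floor_add_one _
  rw [le_div_iff₀ (by linarith)] at hn1
  rw [div_lt_iff₀ (by linarith)] at hn2
  have hbig : (C0 : ℝ) + 2 * M + 4 ≤ n + 1 := by
    by_contra hcon
    push Not at hcon
    have h1 : ((n : ℝ) + 1) * (20 * C0) ≤ (C0 + 2 * M + 4) * (20 * C0) :=
      mul_le_mul_of_nonneg_right hcon.le (by positivity)
    nlinarith
  have hnC : C0 ≤ n := by
    have : (C0 : ℝ) ≤ n := by linarith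
    exact_mod_cast this
  have hnM : 2 * M ≤ n := by
    have : 2 * (M : ℝ) ≤ n := by linarith
    exact_mod_cast this
  have hn3 : 3 ≤ n := by
    have : (3 : ℝ) ≤ n := by linarith
    exact_mod_cast this
  refine ⟨n, hnC, hnM, hn3, by linarith, ?_⟩
  have hn0 : (0 : ℝ) < n := by exact_mod_cast (by omega : 0 < n)
  have hκn : κ * s ≤ n := by
    rw [hκ, one_div, inv_mul_le_iff₀ (by positivity)]
    nlinarith
  have hlog1 : 1 ≤ Real.log s := by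
    rw [Real.le_log_iff_exp_le hs0]
    have := Real.exp_one_lt_d9; linarith
  obtain ⟨r, hr⟩ : ∃ r : ℝ, r = Real.exp (Real.log s / 2) := ⟨_, rfl⟩
  have hr0 : 0 < r := by rw [hr]; exact Real.exp_pos _
  have hrr : r * r = s := by
    rw [hr, ← Real.exp_add]
    have : Real.log s / 2 + Real.log s / 2 = Real.log s := by ring
    rw [this, Real.exp_log hs0]
  have hrM : 40 * (C0 : ℝ) * M ≤ r := by
    by_contra hcon
    push Not at hcon
    have h1 : r * r < (40 * C0 * M) * (40 * C0 * M) := mul_self_lt_mul_self hr0.le hcon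
    nlinarith
  have hMn : (M : ℝ) / n ≤ Real.exp (-(Real.log s / 2)) := by
    rw [Real.exp_neg, ← hr, div_le_iff₀ hn0]
    have h1 : (M : ℝ) ≤ κ * r := by
      rw [hκ, one_div, le_inv_mul_iff₀ (by positivity)]
      linarith
    calc (M : ℝ) ≤ κ * r := h1
      _ = r⁻¹ * (κ * s) := by rw [← hrr]; field_simp
      _ ≤ r⁻¹ * n := mul_le_mul_of_nonneg_left hκn (by positivity)
  have h1 : ((M : ℝ) / n) ^ n ≤ Real.exp (-(κ * s * Real.log s / 2)) := by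
    calc ((M : ℝ) / n) ^ n ≤ (Real.exp (-(Real.log s / 2))) ^ n := pow_le_pow_left₀ (by positivity) hMn n
      _ = Real.exp (n * (-(Real.log s / 2))) := by rw [← Real.exp_nat_mul]
      _ ≤ Real.exp (-(κ * s * Real.log s / 2)) := by
          apply Real.exp_le_exp.2
          nlinarith
  have h2 : (10 : ℝ) ≤ Real.exp (κ * s * Real.log s / 4) := by
    have h3 : 12 ≤ κ * s := by
      rw [hκ, one_div, le_inv_mul_iff₀ (by positivity)]
      linarith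
    have h4 : 3 ≤ κ * s * Real.log s / 4 := by nlinarith
    have h5 : (10 : ℝ) ≤ Real.exp 3 := by
      have h6 : (2.7 : ℝ) < Real.exp 1 := by have := Real.exp_one_gt_d9; linarith
      have h7 : Real.exp 3 = Real.exp 1 ^ 3 := by rw [← Real.exp_nat_mul]; norm_num
      rw [h7]
      have h8 : (2.7 : ℝ) ^ 3 ≤ Real.exp 1 ^ 3 := pow_le_pow_left₀ (by norm_num) h6.le 3
      norm_num at h8 ⊢
      linarith
    exact h5.trans (Real.exp_le_exp.2 h4)
  calc 10 * ((M : ℝ) / n) ^ n ≤ Real.exp (κ * s * Real.log s / 4) * Real.exp (-(κ * s * Real.log s / 2)) :=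
        mul_le_mul h2 h1 (by positivity) (Real.exp_pos _).le
    _ = Real.exp (-(κ / 4 * s * Real.log s)) := by rw [← Real.exp_add]; congr 1; ring

lemma dd_ge (b : ℕ) (s : ℝ) (hs : 0 < s) (hb : (b : ℝ) + 3 ≤ s + 12) :
    Real.exp (-(5 * (s + 12) * Real.log (s + 12))) ≤ dd b := by
  obtain ⟨v, hv⟩ : ∃ v : ℝ, v = s + 12 := ⟨_, rfl⟩
  obtain ⟨n, hn⟩ : ∃ n : ℕ, n = b + 3 := ⟨_, rfl⟩
  have hnR : (n : ℝ) = b + 3 := by rw [hn]; push_cast; ring
  have hv12 : 12 < v := by linarith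
  have hn0 : (0 : ℝ) < n := by rw [hnR]; positivity
  have hn1 : 1 ≤ n := by omega
  have hnv : (n : ℝ) ≤ v := by linarith
  unfold dd
  rw [← hv, ← hnR, ← hn]
  have h1 : (n.factorial : ℝ) ≤ (n : ℝ) ^ n := by exact_mod_cast Nat.factorial_le_pow n
  have h2 : (4 : ℝ) ≤ 4 ^ n := by
    calc (4 : ℝ) = 4 ^ 1 := by norm_num
      _ ≤ 4 ^ n := pow_le_pow_right₀ (by norm_num) hn1
  have h3 : (32 * (n : ℝ)) ^ n * (4 * n.factorial) ≤ (v ^ 5) ^ n := by
    calc (32 * (n : ℝ)) ^ n * (4 * n.factorial) ≤ (32 * (n : ℝ)) ^ n * (4 ^ n * (n : ℝ) ^ n) := by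
          apply mul_le_mul_of_nonneg_left _ (by positivity)
          exact mul_le_mul h2 h1 (by positivity) (by positivity)
      _ = (128 * (n : ℝ) ^ 2) ^ n := by
          rw [← mul_pow, ← mul_pow]; congr 1; ring
      _ ≤ (v ^ 5) ^ n := by
          apply pow_le_pow_left₀ (by positivity)
          have h4 : (n : ℝ) ^ 2 ≤ v ^ 2 := pow_le_pow_left₀ hn0.le hnv 2
          have h5 : (128 : ℝ) ≤ v ^ 3 := by
            have : (12 : ℝ) ^ 3 ≤ v ^ 3 := pow_le_pow_left₀ (by norm_num) hv12.le 3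
            norm_num at this; linarith
          calc 128 * (n : ℝ) ^ 2 ≤ v ^ 3 * v ^ 2 := mul_le_mul h5 h4 (by positivity) (by positivity)
            _ = v ^ 5 := by ring
  have hlv : 0 ≤ Real.log v := Real.log_nonneg (by linarith)
  have h4 : (v ^ 5) ^ n ≤ Real.exp (5 * v * Real.log v) := by
    rw [← pow_mul]
    have h5 : v ^ (5 * n) = Real.exp ((5 * n : ℕ) * Real.log v) := by
      rw [Real.exp_nat_mul, Real.exp_log (by linarith)]
    rw [h5]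
    apply Real.exp_le_exp.2
    push_cast
    nlinarith
  rw [Real.exp_neg, ← one_div, div_pow, one_pow, div_div]
  apply one_div_le_one_div_of_le (by positivity)
  exact h3.trans h4

theorem main : ∃ c : ℝ, 0 < c ∧ ∃ A₀ : ℝ, ∀ {Ω : Type*} [MeasurableSpace Ω] (μ : Measure Ω)
    [IsProbabilityMeasure μ] (a : ℕ → Ω → ℕ), (∀ p, Measurable (a p)) → iIndepFun a μ →
    (∀ p : ℕ, p.Prime → ∀ r < p, μ {ω | a p ω = r} = (p : ℝ≥0∞)⁻¹) →
    ∀ᵐ ω ∂μ,
      (∀ s : ℝ, A₀ ≤ s → ∀ᶠ x : ℝ in atTop, ∀ H : ℝ, Real.log x ^ s ≤ H → H ≤ x / 2 →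
        |Real.log x / H * (CC (model fun p => a p ω) x (x + H) : ℝ) - 1| ≤ Real.exp (-(c * s * Real.log s))) ∧
      (∀ s : ℝ, 0 < s → ∀ᶠ X : ℝ in atTop,
        (∃ x : ℝ, X ≤ x ∧ x ≤ 10 * X ∧ 1 + Real.exp (-(5 * (s + 12) * Real.log (s + 12))) ≤
          Real.log x / Real.log x ^ s * (CC (model fun p => a p ω) x (x + Real.log x ^ s) : ℝ)) ∧
        (∃ x : ℝ, X ≤ x ∧ x ≤ 10 * X ∧ Real.log x / Real.log x ^ s *
          (CC (model fun p => a p ω) x (x + Real.log x ^ s) : ℝ) ≤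
            1 - Real.exp (-(5 * (s + 12) * Real.log (s + 12))))) := by
  obtain ⟨C0, M, hC0, hM, hF⟩ := fundR
  obtain ⟨c, hc, A₀, hA₀, hrate⟩ := rate C0 M hC0 hM
  refine ⟨c, hc, A₀, ?_⟩
  intro Ω _ μ _ a hm hi hu
  have hreg : ∀ᵐ ω ∂μ, ∀ n : ℕ, C0 ≤ n → 2 * M ≤ n → 3 ≤ n → ∀ᶠ x : ℝ in atTop, ∀ H : ℝ,
      (Real.log x) ^ (20 * C0 * n + 33) ≤ H → H ≤ x / 2 →
      |Real.log x / H * (CC (model fun p => a p ω) x (x + H) : ℝ) - 1| ≤ 10 * ((M : ℝ) / n) ^ n := by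
    rw [ae_all_iff]
    intro n
    by_cases hn : C0 ≤ n ∧ 2 * M ≤ n ∧ 3 ≤ n
    · obtain ⟨h1, h2, h3⟩ := hn
      have hn0 : (0 : ℝ) < n := by exact_mod_cast (by omega : 0 < n)
      have hMR : (0 : ℝ) < M := by exact_mod_cast hM
      obtain ⟨ε, hε⟩ : ∃ ε : ℝ, ε = 2 * ((M : ℝ) / n) ^ n := ⟨_, rfl⟩
      have hε0 : 0 < ε := by rw [hε]; positivity
      have hε1 : ε ≤ 1 / 4 := by
        have h4 : (M : ℝ) / n ≤ 1 / 2 := by
          rw [div_le_div_iff₀ hn0 (by norm_num)]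
          have : 2 * (M : ℝ) ≤ n := by exact_mod_cast h2
          linarith
        have h5 : ((M : ℝ) / n) ^ n ≤ (1 / 2) ^ n := pow_le_pow_left₀ (by positivity) h4 n
        have h6 : (1 / 2 : ℝ) ^ n ≤ (1 / 2) ^ 3 := pow_le_pow_of_le_one (by norm_num) (by norm_num) h3
        rw [hε]
        norm_num at h6
        linarith
      have hFL : FL ε (4 * (C0 * n) + 5) := by
        obtain ⟨y0, hy2, hy0⟩ := hF n h1 h2
        exact ⟨y0, hy2, by rw [hε]; exact hy0⟩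
      filter_upwards [ae_regular2 μ a hm hi hu ε hε0 hε1 _ hFL] with ω hω
      intro _ _ _
      have h7 := reg_real (model fun p => a p ω) ε hε0 hε1 (5 * (4 * (C0 * n) + 5) + 7) hω
      have e1 : 5 * (4 * (C0 * n) + 5) + 7 + 1 = 20 * C0 * n + 33 := by ring
      rw [e1] at h7
      filter_upwards [h7] with x hx H hH1 hH2
      have h8 := hx H hH1 hH2
      have e2 : 5 * ε = 10 * ((M : ℝ) / n) ^ n := by rw [hε]; ring
      rwa [e2] at h8
    · exact Eventually.of_forall fun ω h1 h2 h3 => absurd ⟨h1, h2, h3⟩ hn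
  have hirr : ∀ σ : ℝ, (σ = 1 ∨ σ = -1) → ∀ᵐ ω ∂μ, ∀ b : ℕ, 8 ≤ b → ∀ᶠ j : ℕ in atTop,
      ∃ m : ℕ, Real.exp j ≤ m ∧ (m : ℝ) ≤ 2 * Real.exp j ∧
      3 / 2 * dd b ≤ σ * ((NM (model fun q => a q ω) m (j ^ b) : ℝ) * j / ((j ^ b : ℕ) : ℝ) - 1) := by
    intro σ hσ
    rw [ae_all_iff]
    intro b
    by_cases hb : 8 ≤ b
    · filter_upwards [ae_maier μ a hm hi hu b hb σ hσ] with ω hω
      exact fun _ => hω
    · exact Eventually.of_forall fun ω h => absurd h hb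
  filter_upwards [hreg, hirr 1 (Or.inl rfl), hirr (-1) (Or.inr rfl)] with ω h1 h2 h3
  refine ⟨?_, ?_⟩
  · intro s hs
    obtain ⟨n, n1, n2, n3, n4, n5⟩ := hrate s hs
    filter_upwards [h1 n n1 n2 n3, Real.tendsto_log_atTop.eventually_ge_atTop 1] with x hx hx1
    intro H hH1 hH2
    refine (hx H ?_ hH2).trans n5
    refine le_trans ?_ hH1
    rw [← Real.rpow_natCast]
    apply Real.rpow_le_rpow_of_exponent_le hx1
    push_cast
    linarith
  · intro s hs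
    obtain ⟨b, hb⟩ : ∃ b : ℕ, b = ⌈s⌉₊ + 8 := ⟨_, rfl⟩
    have hb8 : 8 ≤ b := by omega
    have hbR : (b : ℝ) = ⌈s⌉₊ + 8 := by rw [hb]; push_cast; ring
    have hc1 : s ≤ ⌈s⌉₊ := Nat.le_ceil s
    have hc2 : (⌈s⌉₊ : ℝ) < s + 1 := Nat.ceil_lt_add_one hs.le
    have hdd := dd_ge b s hs (by rw [hbR]; linarith)
    have u1 := irr_real (model fun p => a p ω) 1 (dd b) (Or.inl rfl) (dd_pos b) (dd_le b) b (h2 b hb8) s hs
      (by rw [hbR]; linarith)
    have u2 := irr_real (model fun p => a p ω) (-1) (dd b) (Or.inr rfl) (dd_pos b) (dd_le b) b (h3 b hb8) s hs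
      (by rw [hbR]; linarith)
    filter_upwards [u1, u2] with X hX1 hX2
    obtain ⟨x1, r1, r2, r3⟩ := hX1
    obtain ⟨x2, t1, t2, t3⟩ := hX2
    exact ⟨⟨x1, r1, r2, by linarith⟩, ⟨x2, t1, t2, by linarith⟩⟩

end Pool.Agent.V5helper42.RS
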