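import Pool.Agent.V5helper42.RS.S1

set_option autoImplicit false

/-!
# Upper bound sieve for an arbitrary set of primes (helper42)
-/

namespace Pool.Agent.V5helper42.RS

open Finset Filter Topology
open Pool.Agent.W41 (V V_ge V_pos fac_pos fac_le_one V_le_one)

/-- number of elements of `(u, u + y]` outside the classes `ρ p`, `p ∈ P` -/
def cntP (ρ : ℕ → ℕ) (P : Finset ℕ) (u y : ℕ) : ℕ := ((Ioc u (u + y)).filter (fun k => ∀ p ∈ P, k % p ≠ ρ p)).card

lemma cntP_anti (ρ : ℕ → ℕ) {P P' : Finset ℕ} (h : P ⊆ P') (u y : ℕ) : cntP ρ P' u y ≤ cntP ρ P u y := by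
  apply card_le_card
  intro k hk
  rw [mem_filter] at hk ⊢
  exact ⟨hk.1, fun p hp => hk.2 p (h hp)⟩

lemma cntP_Pr (ρ : ℕ → ℕ) (n u y : ℕ) : cntP ρ (Pr n) u y = cnt ρ n u y := rfl

lemma cntP_add (ρ : ℕ → ℕ) (P : Finset ℕ) (u y h : ℕ) : cntP ρ P u (y + h) = cntP ρ P u y + cntP ρ P (u + y) h := by
  unfold cntP
  have e : Ioc u (u + (y + h)) = Ioc u (u + y) ∪ Ioc (u + y) (u + y + h) := by
    ext x
    simp only [mem_Ioc, mem_union]
    omega
  rw [e, filter_union, card_union_of_disjoint]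
  apply disjoint_filter_filter
  rw [disjoint_left]
  intro x h1 h2
  rw [mem_Ioc] at h1 h2
  omega

lemma V_split {P Q : Finset ℕ} (h : P ⊆ Q) : V Q = V (Q \ P) * V P := by
  unfold V
  exact (prod_sdiff h).symm

lemma V_sdiff_ge {P Q : Finset ℕ} (hQ : ∀ p ∈ Q, p.Prime) (h : P ⊆ Q) (hV : V P ≤ 4 * V Q) : 1 / 4 ≤ V (Q \ P) := by
  rw [V_split h] at hV
  have hP := V_pos fun p hp => hQ p (h hp)
  by_contra hcon
  push Not at hcon
  nlinarith

/-- BRUN-TITCHMARSH for arbitrary classes and most of the primes -/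
theorem btP : ∃ C : ℝ, 1 ≤ C ∧ ∀ᶠ j : ℕ in atTop, ∀ P : Finset ℕ, P ⊆ Pr j → V P ≤ 4 * V (Pr j) →
    ∀ ρ : ℕ → ℕ, (∀ p ∈ P, ρ p < p) → ∀ u h : ℕ, j ≤ h →
    (cntP ρ P u h : ℝ) ≤ C * (h / Real.log j) := by
  obtain ⟨K, y0, hK1, hy2, hF⟩ := Pool.Agent.W41.fund (ε := 1) one_pos
  have hKR : (1 : ℝ) ≤ K := by exact_mod_cast hK1
  refine ⟨16 * K, by linarith, ?_⟩
  obtain ⟨w, hw⟩ : ∃ w : ℕ → ℕ, w = fun j : ℕ => ⌊(j : ℝ) ^ (1 / (K : ℝ))⌋₊ := ⟨_, rfl⟩
  have hwt : Tendsto w atTop atTop := by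
    rw [hw]
    exact tendsto_nat_floor_atTop.comp ((tendsto_rpow_atTop (by positivity)).comp tendsto_natCast_atTop_atTop)
  filter_upwards [hwt.eventually_ge_atTop y0, hwt.eventually VV_upper, hwt.eventually_ge_atTop 2,
    ev_log 0 (4 * K), eventually_ge_atTop 2] with j h1 h2 h3 h4 h5
  intro P hP hVP ρ hρ u h hjh
  have hj0 : (2 : ℝ) ≤ j := by exact_mod_cast h5
  have hl : 4 * K ≤ Real.log j := by simpa using h4
  have hwj : (w j : ℝ) ≤ (j : ℝ) ^ (1 / (K : ℝ)) := by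
    rw [hw]; exact Nat.floor_le (by positivity)
  have hwK : w j ^ K ≤ j := by
    have h6 : (w j : ℝ) ^ K ≤ ((j : ℝ) ^ (1 / (K : ℝ))) ^ K := pow_le_pow_left₀ (Nat.cast_nonneg _) hwj K
    rw [← Real.rpow_natCast ((j : ℝ) ^ (1 / (K : ℝ))) K, ← Real.rpow_mul (by linarith), one_div,
      inv_mul_cancel₀ (by linarith), Real.rpow_one] at h6
    exact_mod_cast h6
  have hwj2 : w j ≤ j := by
    calc w j = w j ^ 1 := (pow_one _).symm
      _ ≤ w j ^ K := Nat.pow_le_pow_right (by omega) hK1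
      _ ≤ j := hwK
  have hlw : Real.log j / (2 * K) ≤ Real.log (w j) := by
    have h6 : (j : ℝ) ^ (1 / (K : ℝ)) ≤ 2 * w j := by
      have h7 : (j : ℝ) ^ (1 / (K : ℝ)) < w j + 1 := by rw [hw]; exact Nat.lt_floor_add_one _
      have h8 : (1 : ℝ) ≤ w j := by exact_mod_cast (by omega : 1 ≤ w j)
      linarith
    have hw0 : (0 : ℝ) < w j := by exact_mod_cast (by omega : 0 < w j)
    have h7 := Real.log_le_log (Real.rpow_pos_of_pos (by linarith) _) h6
    rw [Real.log_rpow (by linarith), Real.log_mul (by norm_num) hw0.ne'] at h7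
    have h8 := Real.log_two_lt_d9
    have h9 : 1 / (K : ℝ) * Real.log j = Real.log j / (2 * K) + Real.log j / (2 * K) := by field_simp; norm_num
    have h10 : 2 ≤ Real.log j / (2 * K) := by
      rw [le_div_iff₀ (by linarith)]; linarith
    linarith
  have hlog0 : 0 < Real.log j := by linarith
  have hlw0 : 0 < Real.log (w j) := lt_of_lt_of_le (by positivity) hlw
  obtain ⟨Q, hQ⟩ : ∃ Q : Finset ℕ, Q = P.filter (fun p => p ≤ w j) := ⟨_, rfl⟩
  have hQP : Q ⊆ P := by rw [hQ]; exact filter_subset _ _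
  have hPp : ∀ p ∈ P, p.Prime := fun p hp => Pr_prime j p (hP hp)
  have hQw : Q ⊆ Pr (w j) := by
    intro p hp
    rw [hQ, mem_filter] at hp
    rw [mem_Pr]
    exact ⟨hPp p hp.1, hp.2⟩
  have hQp : ∀ p ∈ Q, p.Prime := fun p hp => hPp p (hQP hp)
  have hVQ : V Q ≤ 4 * V (Pr (w j)) := by
    have g1 := V_sdiff_ge (Pr_prime j) hP hVP
    have g2 : Pr (w j) \ Q ⊆ Pr j \ P := by
      intro p hp
      rw [Finset.mem_sdiff] at hp ⊢
      refine ⟨Pr_mono hwj2 hp.1, fun h => hp.2 ?_⟩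
      rw [hQ, mem_filter]
      exact ⟨h, ((mem_Pr _ _).1 hp.1).2⟩
    have g3 : V (Pr j \ P) ≤ V (Pr (w j) \ Q) :=
      V_anti g2 fun p hp => Pr_prime j p (Finset.mem_sdiff.1 hp).1
    rw [V_split hQw]
    have g4 : 0 < V Q := V_pos hQp
    nlinarith
  obtain ⟨ρ', hρ', he⟩ := card_shift u h Q hQp ρ (fun p hp => hρ p (hQP hp))
  have h6 := hF (w j) h1 h (hwK.trans hjh) Q (fun p hp => ((mem_Pr _ _).1 (hQw hp))) ρ' hρ'
  rw [← he, one_mul] at h6
  have h7 := (abs_le.1 h6).2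
  have h8 : (cntP ρ P u h : ℝ) ≤ cntP ρ Q u h := by exact_mod_cast cntP_anti ρ hQP u h
  have h9 : (cntP ρ Q u h : ℝ) ≤ 2 * (h * V Q) := by
    unfold cntP
    linarith
  have h10 : V Q ≤ 8 * K / Real.log j := by
    have g1 : V (Pr (w j)) ≤ 2 * K / Real.log j := by
      refine h2.trans ?_
      rw [div_le_div_iff₀ hlw0 hlog0, one_mul]
      rw [div_le_iff₀ (by linarith)] at hlw
      linarith
    have g2 : 8 * (K : ℝ) / Real.log j = 4 * (2 * K / Real.log j) := by ring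
    rw [g2]
    linarith
  calc (cntP ρ P u h : ℝ) ≤ 2 * (h * V Q) := h8.trans h9
    _ ≤ 2 * (h * (8 * K / Real.log j)) := by
        apply mul_le_mul_of_nonneg_left _ (by norm_num)
        exact mul_le_mul_of_nonneg_left h10 (Nat.cast_nonneg _)
    _ = 16 * K * (h / Real.log j) := by ring

/-- one class modulo a prime `p`, in the survivors of the primes of `P` -/
def clsP (ρ : ℕ → ℕ) (P : Finset ℕ) (p r u y : ℕ) : Finset ℕ :=
  (Ioc u (u + y)).filter (fun k => k % p = r ∧ ∀ q ∈ P, k % q ≠ ρ q)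

theorem btP_class : ∃ C : ℝ, 1 ≤ C ∧ ∀ᶠ j : ℕ in atTop, ∀ P : Finset ℕ, P ⊆ Pr j → V P ≤ 4 * V (Pr j) →
    ∀ ρ : ℕ → ℕ, (∀ q ∈ P, ρ q < q) → ∀ p : ℕ, p.Prime → p ∉ P → ∀ r u y : ℕ, 2 * (p * j) ≤ y →
    ((clsP ρ P p r u y).card : ℝ) ≤ C * ((y / p) / Real.log j) := by
  obtain ⟨C, hC1, hC⟩ := btP
  refine ⟨2 * C, by linarith, ?_⟩
  filter_upwards [hC, eventually_ge_atTop 2] with j hj hj2
  intro P hP hVP ρ hρ p hp hjp r u y hy
  have hp0 : (0 : ℝ) < p := by exact_mod_cast hp.pos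
  have hlog0 : 0 < Real.log j := Real.log_pos (by exact_mod_cast (by omega : 1 < j))
  obtain ⟨ρ', hρ'⟩ : ∃ ρ' : ℕ → ℕ, ρ' = fun q => ((((ρ q : ZMod q) - r) * (p : ZMod q)⁻¹ + 1 : ZMod q)).val := ⟨_, rfl⟩
  obtain ⟨h, hh⟩ : ∃ h : ℕ, h = (u + y) / p - u / p + 1 := ⟨_, rfl⟩
  have hle : u / p ≤ (u + y) / p := Nat.div_le_div_right (by omega)
  have hPp : ∀ q ∈ P, q.Prime := fun q hq => Pr_prime j q (hP hq)
  have hjh : j ≤ h := by
    have h1 : (2 * (p * j)) / p = 2 * j := by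
      rw [show 2 * (p * j) = (2 * j) * p by ring, Nat.mul_div_cancel _ hp.pos]
    have h2 : 2 * j ≤ y / p := by rw [← h1]; exact Nat.div_le_div_right hy
    have h3 : u / p + y / p ≤ (u + y) / p := by
      rw [Nat.le_div_iff_mul_le hp.pos, Nat.add_mul]
      exact Nat.add_le_add (Nat.div_mul_le_self u p) (Nat.div_mul_le_self y p)
    omega
  have hval : ∀ q ∈ P, ρ' q < q := by
    intro q hq
    haveI : NeZero q := ⟨(hPp q hq).ne_zero⟩
    rw [hρ']
    exact ZMod.val_lt _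
  have hmap : (clsP ρ P p r u y).card ≤ cntP ρ' P (u / p) h := by
    unfold cntP clsP
    apply card_le_card_of_injOn (fun k => k / p + 1)
    · intro k hk
      rw [mem_coe, mem_filter, mem_Ioc] at hk
      obtain ⟨⟨k1, k2⟩, k3, k4⟩ := hk
      rw [mem_coe, mem_filter, mem_Ioc]
      have h1 : u / p ≤ k / p := Nat.div_le_div_right k1.le
      have h2 : k / p ≤ (u + y) / p := Nat.div_le_div_right k2
      refine ⟨⟨(by show u / p < k / p + 1; omega), (by show k / p + 1 ≤ u / p + h; omega)⟩, fun q hq hcon => k4 q hq ?_⟩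
      have hqp := hPp q hq
      haveI : NeZero q := ⟨hqp.ne_zero⟩
      haveI : Fact q.Prime := ⟨hqp⟩
      have hpq : (p : ZMod q) ≠ 0 := by
        rw [Ne, ZMod.natCast_eq_zero_iff]
        intro hd
        have := (Nat.prime_dvd_prime_iff_eq hqp hp).1 hd
        exact hjp (this ▸ hq)
      rw [hρ', ← ZMod.val_natCast] at hcon
      have h3 := ZMod.val_injective q hcon
      push_cast at h3
      have h4 : ((k / p : ℕ) : ZMod q) * p = (ρ q : ZMod q) - r := by
        have h5 : ((k / p : ℕ) : ZMod q) = ((ρ q : ZMod q) - r) * (p : ZMod q)⁻¹ := by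
          exact add_right_cancel h3
        rw [h5, mul_assoc, inv_mul_cancel₀ hpq, mul_one]
      have h5 : (k : ZMod q) = ρ q := by
        have h6 := Nat.div_add_mod k p
        rw [k3] at h6
        have h7 : ((p * (k / p) + r : ℕ) : ZMod q) = (k : ZMod q) := by rw [h6]
        push_cast at h7
        rw [← h7, mul_comm, h4]
        ring
      have h6 := (ZMod.natCast_eq_natCast_iff _ _ _).1 h5
      have h7 : k % q = ρ q % q := h6
      rw [h7, Nat.mod_eq_of_lt (hρ q hq)]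
    · intro k hk k' hk' hkk
      rw [mem_coe, mem_filter] at hk hk'
      have h1 := Nat.div_add_mod k p
      have h2 := Nat.div_add_mod k' p
      rw [hk.2.1] at h1
      rw [hk'.2.1] at h2
      simp only [Nat.add_right_cancel_iff] at hkk
      rw [← h1, ← h2, hkk]
  have hh2 : (h : ℝ) ≤ 2 * (y / p) := by
    have h1 : ((h : ℕ) : ℝ) = (((u + y) / p : ℕ) : ℝ) - ((u / p : ℕ) : ℝ) + 1 := by
      rw [hh]; push_cast [Nat.cast_sub hle]; ring
    have h2 : (((u + y) / p : ℕ) : ℝ) ≤ (u + y : ℝ) / p := by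
      have := @Nat.cast_div_le ℝ _ _ _ (u + y) p
      push_cast at this
      exact this
    have h3 : (u : ℝ) / p < ((u / p : ℕ) : ℝ) + 1 := by
      rw [div_lt_iff₀ hp0]
      have h4 := Nat.div_add_mod u p
      have h5 := Nat.mod_lt u hp.pos
      have h6 : u < (u / p + 1) * p := by
        have : (u / p + 1) * p = p * (u / p) + p := by ring
        omega
      exact_mod_cast h6
    have h4 : (2 : ℝ) ≤ y / p := by
      rw [le_div_iff₀ hp0]
      have h5 : 2 * p ≤ y := by nlinarith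
      exact_mod_cast h5
    have h5 : ((u : ℝ) + y) / p = u / p + y / p := add_div _ _ _
    rw [h1]
    rw [h5] at h2
    linarith
  have h6 := hj P hP hVP ρ' hval (u / p) h hjh
  have h7 : ((clsP ρ P p r u y).card : ℝ) ≤ cntP ρ' P (u / p) h := by
    exact_mod_cast hmap
  calc _ ≤ (cntP ρ' P (u / p) h : ℝ) := h7
    _ ≤ C * (h / Real.log j) := h6
    _ ≤ C * ((2 * (y / p)) / Real.log j) := by
        apply mul_le_mul_of_nonneg_left _ (by linarith)
        exact div_le_div_of_nonneg_right hh2 hlog0.le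
    _ = 2 * C * ((y / p) / Real.log j) := by ring

/-- Weierstrass' inequality -/
lemma V_ge_one_sub (S : Finset ℕ) (hS : ∀ p ∈ S, p.Prime) : 1 - ∑ p ∈ S, 1 / (p : ℝ) ≤ V S := by
  induction S using Finset.induction_on with
  | empty => simp [V]
  | insert a s ha ih =>
    have ih' := ih (fun p hp => hS p (mem_insert_of_mem hp))
    have hVs := V_pos (fun p hp => hS p (mem_insert_of_mem hp) : ∀ p ∈ s, p.Prime)
    have hVs1 := V_le_one (fun p hp => hS p (mem_insert_of_mem hp) : ∀ p ∈ s, p.Prime)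
    have e : V (insert a s) = (1 - 1 / (a : ℝ)) * V s := by unfold V; rw [prod_insert ha]
    rw [sum_insert ha, e]
    have h4 : 0 ≤ 1 / (a : ℝ) := by positivity
    have h5 : (1 - 1 / (a : ℝ)) * V s = V s - 1 / a * V s := by ring
    have h6 : 1 / (a : ℝ) * V s ≤ 1 / a * 1 := mul_le_mul_of_nonneg_left hVs1 h4
    rw [h5]
    linarith

end Pool.Agent.V5helper42.RS
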