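import Pool.Agent.V5helper42.RS.P1
import Pool.Agent.V5helper42.RS.P2

set_option autoImplicit false

/-!
# The modulus of the Maier matrix sieves as all primes up to the logarithm (helper42)
-/

namespace Pool.Agent.V5helper42.RS

open Finset Filter Topology
open Pool.Agent.W41 (V V_ge V_pos fac_pos fac_le_one V_le_one)
open Pool.Agent.H510R2.Maier (VV)

lemma div1000_tendsto : Tendsto (fun j : ℕ => j / 1000) atTop atTop := by
  apply tendsto_atTop.2
  intro b
  filter_upwards [eventually_ge_atTop (1000 * b)] with j hj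
  omega

lemma VV_ratio2 (δ : ℝ) (hδ : 0 < δ) (hδ1 : δ ≤ 1 / 2) : ∀ᶠ j : ℕ in atTop,
    (1 - δ) * V (Pr (j / 1000)) ≤ V (Pr j) := by
  obtain ⟨G, hG⟩ : ∃ G : ℝ, G = Real.exp Real.eulerMascheroniConstant := ⟨_, rfl⟩
  have hG0 : 0 < G := by rw [hG]; exact Real.exp_pos _
  have hm := Pool.Agent.H305R2.mertens_three
  rw [← hG] at hm
  have h1 := (hm.comp div1000_tendsto).eventually (lt_mem_nhds (show G * (1 - δ / 4) < G by nlinarith))
  have h2 := hm.eventually (gt_mem_nhds (show G < G * (1 + δ / 4) by nlinarith))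
  filter_upwards [h1, h2, div1000_tendsto.eventually (ev_log 0 (32 / δ)), div1000_tendsto.eventually_gt_atTop 1,
    eventually_ge_atTop 1000] with j g1 g2 g3 g4 g5
  have hl1 : 0 < Real.log ((j / 1000 : ℕ) : ℝ) := Real.log_pos (by exact_mod_cast g4)
  have hl2 : 0 < Real.log (j : ℝ) := Real.log_pos (by exact_mod_cast (by omega : 1 < j))
  have g3' : 32 / δ ≤ Real.log ((j / 1000 : ℕ) : ℝ) := by simpa using g3
  simp only [Function.comp] at g1
  rw [lt_div_iff₀ hl1] at g1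
  rw [div_lt_iff₀ hl2] at g2
  have g1' : G * (1 - δ / 4) * Real.log ((j / 1000 : ℕ) : ℝ) < W (j / 1000) := g1
  have g2' : W j < G * (1 + δ / 4) * Real.log (j : ℝ) := g2
  have hlog : Real.log (j : ℝ) ≤ (1 + δ / 4) * Real.log ((j / 1000 : ℕ) : ℝ) := by
    have h6 : j ≤ 2000 * (j / 1000) := by omega
    have h7 : (j : ℝ) ≤ 2000 * ((j / 1000 : ℕ) : ℝ) := by exact_mod_cast h6
    have hz0 : (0 : ℝ) < ((j / 1000 : ℕ) : ℝ) := by exact_mod_cast (by omega : 0 < j / 1000)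
    have h8 := Real.log_le_log (by exact_mod_cast (by omega : 0 < j)) h7
    rw [Real.log_mul (by norm_num) hz0.ne'] at h8
    have h9 : Real.log 2000 ≤ 8 := by
      rw [Real.log_le_iff_le_exp (by norm_num)]
      have h10 : (2.7 : ℝ) < Real.exp 1 := by have := Real.exp_one_gt_d9; linarith
      have h11 : Real.exp 8 = Real.exp 1 ^ 8 := by rw [← Real.exp_nat_mul]; norm_num
      rw [h11]
      have h12 : (2.7 : ℝ) ^ 8 ≤ Real.exp 1 ^ 8 := pow_le_pow_left₀ (by norm_num) h10.le 8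
      norm_num at h12 ⊢
      linarith
    rw [div_le_iff₀ hδ] at g3'
    nlinarith
  rw [V_Pr, V_Pr, mul_one_div, div_le_div_iff₀ (W_pos _) (W_pos _), one_mul]
  have h3 : W j ≤ G * (1 + δ / 4) * ((1 + δ / 4) * Real.log ((j / 1000 : ℕ) : ℝ)) :=
    g2'.le.trans (mul_le_mul_of_nonneg_left hlog (by positivity))
  have h4 : (1 - δ) * W j ≤ (1 - δ) * (G * (1 + δ / 4) * ((1 + δ / 4) * Real.log ((j / 1000 : ℕ) : ℝ))) :=
    mul_le_mul_of_nonneg_left h3 (by linarith)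
  have h5 : (1 - δ) * ((1 + δ / 4) * (1 + δ / 4)) ≤ 1 - δ / 4 := by nlinarith [sq_nonneg δ, mul_pos hδ hδ]
  have h6 : 0 ≤ G * Real.log ((j / 1000 : ℕ) : ℝ) := by positivity
  have h7 := mul_le_mul_of_nonneg_right h5 h6
  nlinarith

lemma one_add_sum_le : ∀ S : Finset ℕ, (∀ p ∈ S, p.Prime) → 1 + ∑ p ∈ S, 1 / (p : ℝ) ≤ 1 / V S := by
  intro S
  induction S using Finset.induction_on with
  | empty => intro _; simp [V]
  | insert a s ha ih =>
    intro h
    have ih' := ih (fun p hp => h p (mem_insert_of_mem hp))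
    have hap := fac_pos (h a (mem_insert_self _ _))
    have hVs := V_pos (fun p hp => h p (mem_insert_of_mem hp) : ∀ p ∈ s, p.Prime)
    have e : V (insert a s) = (1 - 1 / (a : ℝ)) * V s := by unfold V; rw [prod_insert ha]
    rw [sum_insert ha, e]
    have h2 : 1 + 1 / (a : ℝ) ≤ 1 / (1 - 1 / (a : ℝ)) := by
      rw [le_div_iff₀ hap]
      have : 0 ≤ 1 / (a : ℝ) * (1 / a) := by positivity
      nlinarith
    have h3 : 0 ≤ ∑ p ∈ s, 1 / (p : ℝ) := sum_nonneg fun _ _ => by positivity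
    have h4 : 0 ≤ 1 / (a : ℝ) := by positivity
    calc 1 + (1 / (a : ℝ) + ∑ p ∈ s, 1 / (p : ℝ)) ≤ (1 + 1 / (a : ℝ)) * (1 + ∑ p ∈ s, 1 / (p : ℝ)) := by
          nlinarith [mul_nonneg h4 h3]
      _ ≤ (1 / (1 - 1 / (a : ℝ))) * (1 / V s) :=
          mul_le_mul h2 ih' (by positivity) (by positivity)
      _ = 1 / ((1 - 1 / (a : ℝ)) * V s) := by rw [one_div_mul_one_div]

/-- the primes of the modulus sieve as all primes up to `j` -/
theorem low2 (ε : ℝ) (hε : 0 < ε) : ∃ δ : ℝ, 0 < δ ∧ ∀ᶠ j : ℕ in atTop, ∀ P : Finset ℕ, P ⊆ Pr (j / 1000) →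
    ∑ p ∈ Pr (j / 1000) \ P, 1 / (p : ℝ) ≤ δ →
    V P ≤ (1 + ε) * V (Pr j) ∧ V P ≤ 4 * V (Pr j) ∧
    ∀ ρ : ℕ → ℕ, (∀ p ∈ Pr j, ρ p < p) → ∀ u y : ℕ, 2 * (j * j) ≤ y →
      (cntP ρ P u y : ℝ) - ε * (y / Real.log j) ≤ cnt ρ j u y := by
  obtain ⟨C, hC1, hC⟩ := btP_class
  obtain ⟨δ, hδ⟩ : ∃ δ : ℝ, δ = min (1 / 8) (min (ε / 4) (ε / (2 * C))) := ⟨_, rfl⟩
  have hδ0 : 0 < δ := by rw [hδ]; positivity
  have hδ1 : δ ≤ 1 / 8 := by rw [hδ]; exact min_le_left _ _
  have hδ2 : δ ≤ ε / 4 := by rw [hδ]; exact (min_le_right _ _).trans (min_le_left _ _)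
  have hδ3 : 2 * C * δ ≤ ε := by
    have : δ ≤ ε / (2 * C) := by rw [hδ]; exact (min_le_right _ _).trans (min_le_right _ _)
    rw [le_div_iff₀ (by linarith)] at this
    linarith
  refine ⟨δ, hδ0, ?_⟩
  filter_upwards [hC, VV_ratio2 (δ / 2) (by positivity) (by linarith), eventually_ge_atTop 2] with j h1 h2 h3
  intro P hP hsum
  have hjj : Pr (j / 1000) ⊆ Pr j := Pr_mono (by omega)
  have hPj : P ⊆ Pr j := hP.trans hjj
  have hlog0 : 0 < Real.log (j : ℝ) := Real.log_pos (by exact_mod_cast (by omega : 1 < j))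
  obtain ⟨D, hD⟩ : ∃ D : Finset ℕ, D = Pr j \ P := ⟨_, rfl⟩
  have hDp : ∀ p ∈ D, p.Prime ∧ p ≤ j ∧ p ∉ P := by
    intro p hp
    rw [hD, Finset.mem_sdiff, mem_Pr] at hp
    exact ⟨hp.1.1, hp.1.2, hp.2⟩
  have hsum2 : ∑ p ∈ D, 1 / (p : ℝ) ≤ 2 * δ := by
    have e : D = (Pr (j / 1000) \ P) ∪ (Pr j \ Pr (j / 1000)) := by
      rw [hD]
      ext p
      simp only [Finset.mem_sdiff, mem_union]
      constructor
      · rintro ⟨g1, g2⟩
        by_cases hp : p ∈ Pr (j / 1000)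
        · exact Or.inl ⟨hp, g2⟩
        · exact Or.inr ⟨g1, hp⟩
      · rintro (⟨g1, g2⟩ | ⟨g1, g2⟩)
        · exact ⟨hjj g1, g2⟩
        · exact ⟨g1, fun h => g2 (hP h)⟩
    have hdisj : Disjoint (Pr (j / 1000) \ P) (Pr j \ Pr (j / 1000)) := by
      rw [disjoint_left]
      intro p g1 g2
      rw [Finset.mem_sdiff] at g1 g2
      exact g2.2 g1.1
    rw [e, sum_union hdisj]
    have g1 := one_add_sum_le (Pr j \ Pr (j / 1000)) (fun p hp => Pr_prime j p (Finset.mem_sdiff.1 hp).1)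
    have hV3 : 0 < V (Pr (j / 1000)) := V_pos (Pr_prime _)
    have hVD0 : 0 < V (Pr j \ Pr (j / 1000)) := V_pos fun p hp => Pr_prime j p (Finset.mem_sdiff.1 hp).1
    have g2 : 1 - δ / 2 ≤ V (Pr j \ Pr (j / 1000)) := by
      rw [V_split hjj] at h2
      exact le_of_mul_le_mul_right h2 hV3
    have g3 : 1 / V (Pr j \ Pr (j / 1000)) ≤ 1 + δ := by
      rw [div_le_iff₀ hVD0]
      nlinarith
    linarith
  have hVDge : 1 - 2 * δ ≤ V D := by
    have := V_ge_one_sub D fun p hp => (hDp p hp).1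
    linarith
  have hVP : V (Pr j) = V D * V P := by rw [hD]; exact V_split hPj
  have hP0 : 0 < V P := V_pos fun p hp => Pr_prime j p (hPj hp)
  have hv1 : V P ≤ (1 + ε) * V (Pr j) := by
    rw [hVP]
    have g1 : 1 ≤ (1 + ε) * (1 - 2 * δ) := by nlinarith
    have g2 : (1 + ε) * (1 - 2 * δ) ≤ (1 + ε) * V D := mul_le_mul_of_nonneg_left hVDge (by linarith)
    have g3 : 1 * V P ≤ ((1 + ε) * V D) * V P := mul_le_mul_of_nonneg_right (g1.trans g2) hP0.le
    linarith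
  have hv2 : V P ≤ 4 * V (Pr j) := by
    rw [hVP]
    have g3 : 1 * V P ≤ (4 * V D) * V P := mul_le_mul_of_nonneg_right (by linarith) hP0.le
    linarith
  refine ⟨hv1, hv2, ?_⟩
  intro ρ hρ u y hy
  have hρP : ∀ q ∈ P, ρ q < q := fun q hq => hρ q (hPj hq)
  have hcover : (Ioc u (u + y)).filter (fun k => ∀ p ∈ P, k % p ≠ ρ p) ⊆
      (Ioc u (u + y)).filter (fun k => ∀ p ∈ Pr j, k % p ≠ ρ p) ∪
      D.biUnion (fun p => clsP ρ P p (ρ p) u y) := by
    intro k hk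
    rw [mem_filter] at hk
    by_cases hall : ∀ p ∈ Pr j, k % p ≠ ρ p
    · exact mem_union_left _ (mem_filter.2 ⟨hk.1, hall⟩)
    · push Not at hall
      obtain ⟨p, hp, hpk⟩ := hall
      apply mem_union_right
      rw [mem_biUnion]
      have hpn1 : p ∉ P := fun h => hk.2 p h hpk
      refine ⟨p, ?_, (by unfold clsP; exact mem_filter.2 ⟨hk.1, hpk, fun q hq => hk.2 q hq⟩)⟩
      rw [hD, Finset.mem_sdiff]
      exact ⟨hp, hpn1⟩
  have hcard := (card_le_card hcover).trans (card_union_le _ _)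
  have hcard2 : ((D.biUnion (fun p => clsP ρ P p (ρ p) u y)).card : ℝ) ≤ ε * (y / Real.log j) := by
    have h6 : ((D.biUnion (fun p => clsP ρ P p (ρ p) u y)).card : ℝ) ≤
        ∑ p ∈ D, ((clsP ρ P p (ρ p) u y).card : ℝ) := by
      exact_mod_cast card_biUnion_le
    have h7 : ∀ p ∈ D, ((clsP ρ P p (ρ p) u y).card : ℝ) ≤ C * (y / Real.log j) * (1 / (p : ℝ)) := by
      intro p hp
      obtain ⟨p1, p2, p3⟩ := hDp p hp
      have h8 : 2 * (p * j) ≤ y := by
        have : p * j ≤ j * j := Nat.mul_le_mul_right j p2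
        omega
      have h9 := h1 P hPj hv2 ρ hρP p p1 p3 (ρ p) u y h8
      refine h9.trans (le_of_eq ?_)
      ring
    have hyl : 0 ≤ (y : ℝ) / Real.log j := by positivity
    calc _ ≤ _ := h6
      _ ≤ ∑ p ∈ D, C * (y / Real.log j) * (1 / (p : ℝ)) := sum_le_sum h7
      _ = C * (y / Real.log j) * ∑ p ∈ D, 1 / (p : ℝ) := by rw [mul_sum]
      _ ≤ C * (y / Real.log j) * (2 * δ) := by
          apply mul_le_mul_of_nonneg_left hsum2
          exact mul_nonneg (by linarith) hyl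
      _ = (2 * C * δ) * (y / Real.log j) := by ring
      _ ≤ ε * (y / Real.log j) := mul_le_mul_of_nonneg_right hδ3 hyl
  have hcard3 : (cntP ρ P u y : ℝ) ≤ (cnt ρ j u y : ℝ) +
      ((D.biUnion (fun p => clsP ρ P p (ρ p) u y)).card : ℝ) := by
    unfold cntP cnt
    exact_mod_cast hcard
  linarith

/-- the Chinese remainder theorem -/
theorem crtP (P : Finset ℕ) (hP : ∀ p ∈ P, p.Prime) (c : ℕ → ℕ) (hc : ∀ p ∈ P, c p < p) :
    ∃ r : ℕ, ∀ Y : ℕ, VV (∏ p ∈ P, p) r Y = cntP c P 0 Y := by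
  have hco : Set.Pairwise (↑P : Set ℕ) (Function.onFun Nat.Coprime (fun p => p)) := by
    intro p hp q hq hpq
    exact (Nat.coprime_primes (hP p hp) (hP q hq)).2 hpq
  have hne : ∀ p ∈ P, (fun p : ℕ => p) p ≠ 0 := fun p hp => (hP p hp).ne_zero
  obtain ⟨k, hk⟩ : ∃ k, k = Nat.chineseRemainderOfFinset (fun p => p - c p) (fun p => p) P hne hco := ⟨_, rfl⟩
  have hkm : ∀ p ∈ P, (k : ℕ) ≡ p - c p [MOD p] := k.2
  refine ⟨k, fun Y => ?_⟩
  unfold VV cntP
  have e : Ioc 0 (0 + Y) = Icc 1 Y := by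
    ext x; simp only [mem_Ioc, mem_Icc]; omega
  rw [e]
  congr 1
  apply filter_congr
  intro h _
  rw [Nat.coprime_prod_right_iff]
  constructor
  · intro H p hp hcp
    have h1 := H p hp
    have hpp := hP p hp
    rw [Nat.coprime_comm, hpp.coprime_iff_not_dvd] at h1
    apply h1
    have h2 : (k : ℕ) + h ≡ (p - c p) + h [MOD p] := Nat.ModEq.add_right _ (hkm p hp)
    rw [Nat.ModEq.dvd_iff h2 dvd_rfl]
    have h3 := Nat.div_add_mod h p
    rw [hcp] at h3
    have h4 := hc p hp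
    have h5 : (p - c p) + h = p * (h / p + 1) := by
      rw [mul_add, mul_one]; omega
    rw [h5]
    exact dvd_mul_right _ _
  · intro H p hp
    have hpp := hP p hp
    rw [Nat.coprime_comm, hpp.coprime_iff_not_dvd]
    intro hd
    apply H p hp
    have h2 : (k : ℕ) + h ≡ (p - c p) + h [MOD p] := Nat.ModEq.add_right _ (hkm p hp)
    rw [Nat.ModEq.dvd_iff h2 dvd_rfl] at hd
    have h4 := hc p hp
    have h3 := Nat.div_add_mod h p
    have h6 := Nat.mod_lt h hpp.pos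
    -- `p ∣ (p - c p) + h % p`
    have h7 : p ∣ (p - c p) + h % p := by
      have h8 : (p - c p) + h = p * (h / p) + ((p - c p) + h % p) := by omega
      rw [h8] at hd
      exact (Nat.dvd_add_right (dvd_mul_right _ _)).1 hd
    obtain ⟨q, hq⟩ := h7
    have h8 : q = 1 := by
      have h9 : 0 < q := by
        rcases Nat.eq_zero_or_pos q with h0 | h0
        · subst h0; omega
        · exact h0
      have h10 : q < 2 := by
        by_contra hcon
        have : p * 2 ≤ p * q := Nat.mul_le_mul_left p (by omega)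
        omega
      omega
    subst h8
    omega

end Pool.Agent.V5helper42.RS
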