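import Pool.Agent.V5helper42.RS.S3

set_option autoImplicit false

/-!
# Random sieve model: comparison with the extremal interval sieve (helper42)
-/

namespace Pool.Agent.V5helper42.RS

open Finset MeasureTheory ProbabilityTheory Filter Topology
open scoped ENNReal
open Pool.Agent.W41 (V V_ge V_pos fac_pos fac_le_one V_le_one)

/-- the possible numbers of survivors in an interval of length `y` -/
def Cts (k y : ℕ) : Set ℕ :=
  {N | ∃ c : ℕ → ℕ, N = ((Icc 1 y).filter (fun n => ∀ p ∈ Pr k, ¬ n ≡ c p [MOD p])).card}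

/-- the largest number of survivors -/
noncomputable def Sp (k y : ℕ) : ℕ := sSup (Cts k y)

/-- the smallest number of survivors -/
noncomputable def Sm (k y : ℕ) : ℕ := sInf (Cts k y)

lemma Cts_ne (k y : ℕ) : (Cts k y).Nonempty := ⟨_, fun _ => 0, rfl⟩

lemma Cts_bdd (k y : ℕ) : BddAbove (Cts k y) := by
  refine ⟨y, ?_⟩
  rintro N ⟨c, rfl⟩
  exact (card_filter_le _ _).trans (by simp)

lemma Cts_iff (k y N : ℕ) : N ∈ Cts k y ↔ ∃ c : ℕ → ℕ, (∀ p ∈ Pr k, c p < p) ∧ cnt c k 0 y = N := by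
  have e : Ioc 0 (0 + y) = Icc 1 y := by
    ext x; simp only [mem_Ioc, mem_Icc]; omega
  constructor
  · rintro ⟨c, rfl⟩
    refine ⟨fun p => c p % p, fun p hp => Nat.mod_lt _ (Pr_prime k p hp).pos, ?_⟩
    unfold cnt
    rw [e]
    rfl
  · rintro ⟨c, hc, rfl⟩
    refine ⟨c, ?_⟩
    unfold cnt
    rw [e]
    congr 1
    apply filter_congr
    intro n _
    constructor
    · intro h p hp h'
      exact h p hp ((modEq_iff (hc p hp)).1 h')
    · intro h p hp h'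
      exact h p hp ((modEq_iff (hc p hp)).2 h')

lemma Sp_spec (k y : ℕ) : ∃ c : ℕ → ℕ, (∀ p ∈ Pr k, c p < p) ∧ cnt c k 0 y = Sp k y :=
  (Cts_iff k y _).1 (Nat.sSup_mem (Cts_ne k y) (Cts_bdd k y))

lemma Sm_spec (k y : ℕ) : ∃ c : ℕ → ℕ, (∀ p ∈ Pr k, c p < p) ∧ cnt c k 0 y = Sm k y :=
  (Cts_iff k y _).1 (Nat.sInf_mem (Cts_ne k y))

lemma cnt_mem (ρ : ℕ → ℕ) (k u y : ℕ) (hρ : ∀ p ∈ Pr k, ρ p < p) : cnt ρ k u y ∈ Cts k y := by
  obtain ⟨ρ', h1, h2⟩ := card_shift u y (Pr k) (Pr_prime k) ρ hρ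
  rw [Cts_iff]
  refine ⟨ρ', h1, ?_⟩
  have e : Ioc 0 (0 + y) = Icc 1 y := by
    ext x; simp only [mem_Ioc, mem_Icc]; omega
  unfold cnt
  rw [e, ← h2]

lemma cnt_le_Sp (ρ : ℕ → ℕ) (k u y : ℕ) (hρ : ∀ p ∈ Pr k, ρ p < p) : cnt ρ k u y ≤ Sp k y :=
  le_csSup (Cts_bdd k y) (cnt_mem ρ k u y hρ)

lemma Sm_le_cnt (ρ : ℕ → ℕ) (k u y : ℕ) (hρ : ∀ p ∈ Pr k, ρ p < p) : Sm k y ≤ cnt ρ k u y :=
  Nat.sInf_le (cnt_mem ρ k u y hρ)

/-- the normalised extremal numbers -/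
noncomputable def sp (k y : ℕ) : ℝ := (Sp k y : ℝ) / (y * V (Pr k))

noncomputable def sm (k y : ℕ) : ℝ := (Sm k y : ℝ) / (y * V (Pr k))

/-- eventual facts on the sizes -/
lemma sizes (A : ℕ) (hA : 1 ≤ A) (τ : ℝ) (hτ : 0 < τ) (B : ℝ) : ∀ᶠ j : ℕ in atTop,
    3 * ((j : ℝ) * zz j) ≤ (j : ℝ) ^ (2 + τ) ∧ B ≤ (j : ℝ) ^ (2 + τ) ∧ Real.log (zz j) ≤ 2 * Real.log j ∧
    Real.log j ≤ Real.log (zz j) ∧ 1 ≤ Real.log j ∧ B ≤ Real.log j ∧ 8 ≤ j ∧
    Real.log j / 2 ≤ Real.log ((j / 3 : ℕ) : ℝ) ∧ W (zz j) ≤ j := by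
  obtain ⟨C, hC, hW⟩ := W_upper
  have h1 : ∀ᶠ j : ℕ in atTop, 6 * (Real.log j) ^ 3 ≤ (j : ℝ) ^ τ := by
    have h2 := ((isLittleO_log_rpow_rpow_atTop 3 hτ).comp_tendsto tendsto_natCast_atTop_atTop).bound
      (show (0 : ℝ) < 1 / 6 by norm_num)
    filter_upwards [h2, eventually_ge_atTop 1] with j hj hj1
    simp only [Function.comp] at hj
    rw [Real.norm_eq_abs, Real.norm_eq_abs, abs_of_nonneg (Real.rpow_nonneg (Nat.cast_nonneg _) _)] at hj
    have h3 := (le_abs_self _).trans hj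
    have h4 : (Real.log j) ^ (3 : ℝ) = (Real.log j) ^ 3 := by
      rw [← Real.rpow_natCast]; norm_num
    rw [h4] at h3
    linarith
  have h3 : ∀ᶠ j : ℕ in atTop, 2 * C * Real.log j ≤ j := by
    have h2 := (Real.isLittleO_log_id_atTop.comp_tendsto tendsto_natCast_atTop_atTop).bound
      (show 0 < 1 / (2 * C) by positivity)
    filter_upwards [h2, eventually_ge_atTop 1] with j hj hj1
    simp only [Function.comp, id] at hj
    have hj0 : (0 : ℝ) < j := by exact_mod_cast hj1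
    rw [Real.norm_eq_abs, Real.norm_eq_abs, abs_of_pos hj0] at hj
    have h3 := (le_abs_self _).trans hj
    have h4 := mul_le_mul_of_nonneg_left h3 (show 0 ≤ 2 * C by positivity)
    have h5 : 2 * C * (1 / (2 * C) * (j : ℝ)) = j := by field_simp
    linarith
  filter_upwards [h1, ev_log 0 4, ev_log 0 B, eventually_ge_atTop 9, le_zz, log_zz 1 one_pos,
    zz_tendsto.eventually hW, h3] with j g1 g2 g3 g4 g5 g6 g7 g8
  have hl : (4 : ℝ) ≤ Real.log j := by simpa using g2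
  have hB : B ≤ Real.log j := by simpa using g3
  have hj0 : (9 : ℝ) ≤ j := by exact_mod_cast g4
  have hz : (zz j : ℝ) ≤ 2 * (j * (Real.log j) ^ 3) := by
    have h5 : (1 : ℝ) ≤ j * (Real.log j) ^ 3 := by
      have : (1 : ℝ) ≤ (Real.log j) ^ 3 := one_le_pow₀ (by linarith)
      nlinarith
    have := (Nat.ceil_lt_add_one (show 0 ≤ (j : ℝ) * (Real.log j) ^ 3 by positivity)).le
    unfold zz
    linarith
  have hjp : (j : ℝ) ^ (2 + τ) = j ^ 2 * (j : ℝ) ^ τ := by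
    rw [Real.rpow_add (by linarith)]
    norm_num
  have hlog3 : Real.log j / 2 ≤ Real.log ((j / 3 : ℕ) : ℝ) := by
    have h6 : (j : ℝ) / 6 ≤ ((j / 3 : ℕ) : ℝ) := by
      have h6 : j ≤ 6 * (j / 3) := by omega
      have h7 : (j : ℝ) ≤ 6 * ((j / 3 : ℕ) : ℝ) := by exact_mod_cast h6
      linarith
    have h7 := Real.log_le_log (by linarith) h6
    rw [Real.log_div (by linarith) (by norm_num)] at h7
    have h8 : Real.log 6 ≤ 2 := by
      rw [Real.log_le_iff_le_exp (by norm_num)]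
      have h8 : Real.exp 2 = Real.exp 1 * Real.exp 1 := by rw [← Real.exp_add]; norm_num
      have h9 := Real.exp_one_gt_d9
      rw [h8]; nlinarith
    linarith
  have hlz : Real.log (zz j) ≤ 2 * Real.log j := by
    have h6 : Real.log ((j / 3 : ℕ) : ℝ) ≤ Real.log j := by
      apply Real.log_le_log
      · exact_mod_cast (by omega : 0 < j / 3)
      · exact_mod_cast (by omega : j / 3 ≤ j)
    linarith
  refine ⟨?_, ?_, hlz, ?_, by linarith, hB, by omega, hlog3, ?_⟩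
  · rw [hjp]
    have h6 : (0 : ℝ) ≤ j ^ 2 := by positivity
    have h7 := mul_le_mul_of_nonneg_left g1 h6
    have h8 : 3 * ((j : ℝ) * zz j) ≤ 3 * (j * (2 * (j * (Real.log j) ^ 3))) := by
      apply mul_le_mul_of_nonneg_left _ (by norm_num)
      exact mul_le_mul_of_nonneg_left hz (by linarith)
    linarith
  · refine hB.trans ?_
    have h6 : Real.log j ≤ (j : ℝ) := (Real.log_le_sub_one_of_pos (by linarith)).trans (by linarith)
    have h7 : (j : ℝ) ≤ (j : ℝ) ^ (2 + τ) := by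
      calc (j : ℝ) = (j : ℝ) ^ (1 : ℝ) := (Real.rpow_one _).symm
        _ ≤ (j : ℝ) ^ (2 + τ) := Real.rpow_le_rpow_of_exponent_le (by linarith) (by linarith)
    linarith
  · apply Real.log_le_log (by linarith)
    exact_mod_cast (by omega : j ≤ zz j)
  · calc W (zz j) ≤ C * Real.log (zz j) := g7
      _ ≤ C * (2 * Real.log j) := mul_le_mul_of_nonneg_left hlz hC.le
      _ ≤ j := by linarith

/-- lower bound for the ratio of the products -/
lemma ratio_low (A : ℕ) (hA : 1 ≤ A) : ∃ c : ℝ, 0 < c ∧ ∀ᶠ j : ℕ in atTop, ∀ y : ℕ, j ≤ y → y ≤ j ^ A →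
    c / Real.log j ≤ V (Pr y) ∧ c / Real.log j ≤ V (Pr j) := by
  obtain ⟨c, hc, hc2⟩ := VV_lower
  obtain ⟨N0, hN0⟩ := eventually_atTop.1 hc2
  have hAR : (1 : ℝ) ≤ A := by exact_mod_cast hA
  refine ⟨c / A, by positivity, ?_⟩
  filter_upwards [eventually_ge_atTop N0, eventually_ge_atTop 2] with j h1 h2
  intro y hjy hyA
  have hj0 : (2 : ℝ) ≤ j := by exact_mod_cast h2
  have hl0 : 0 < Real.log j := Real.log_pos (by linarith)
  have hy0 : (2 : ℝ) ≤ y := by exact_mod_cast h2.trans hjy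
  have hly : Real.log y ≤ A * Real.log j := by
    rw [← Real.log_pow]
    exact Real.log_le_log (by linarith) (by exact_mod_cast hyA)
  have hly0 : 0 < Real.log y := Real.log_pos (by linarith)
  constructor
  · refine le_trans ?_ (hN0 y (h1.trans hjy))
    rw [div_div]
    exact div_le_div_of_nonneg_left hc.le hly0 hly
  · refine le_trans ?_ (hN0 j h1)
    rw [div_div]
    apply div_le_div_of_nonneg_left hc.le hl0
    nlinarith

section

variable {Ω : Type*} [MeasurableSpace Ω]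

theorem probA (μ : Measure Ω) [IsProbabilityMeasure μ] (a : ℕ → Ω → ℕ)
    (hm : ∀ p, Measurable (a p)) (hi : iIndepFun a μ)
    (hu : ∀ p : ℕ, p.Prime → ∀ r < p, μ {ω | a p ω = r} = (p : ℝ≥0∞)⁻¹)
    (A : ℕ) (hA : 1 ≤ A) (τ : ℝ) (hτ : 0 < τ) (ε : ℝ) (hε : 0 < ε) (hε1 : ε ≤ 1) :
    ∀ᶠ j : ℕ in atTop, ∀ m y : ℕ, ∀ T : Finset ℕ, (∀ p ∈ T, p.Prime) → Pr (zz j) ⊆ T →
      1 / (3 * (j : ℝ)) ≤ V T → (j : ℝ) ^ (2 + τ) ≤ y → y ≤ j ^ A →
      μ {ω | ¬ |(((Ioc m (m + y)).filter (fun n => ∀ p ∈ T, n % p ≠ a p ω)).card : ℝ) -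
        cnt (fun p => a p ω) (zz j) m y * (V T / V (Pr (zz j)))| ≤ 3 * ε * (y * V T)} ≤
        ENNReal.ofReal (2 * Real.exp (-(10 * j))) := by
  obtain ⟨C1, hC1, hC⟩ := c1_exists
  obtain ⟨c, hc, hr⟩ := ratio_low A hA
  obtain ⟨c', hc', hVl⟩ := VV_lower
  filter_upwards [zz_tendsto.eventually hC, hr, sizes A hA τ hτ (8 * C1 / ε),
    sizes A hA τ hτ (640 * C1 / (ε ^ 2 * c ^ 2 * c')), zz_tendsto.eventually VV_upper,
    zz_tendsto.eventually hVl, le_zz] with j h1 h2 h3 h4 h5 h6 h7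
  obtain ⟨s1, s2, s3, s4, s5, s6, s7, s8, s9⟩ := h3
  obtain ⟨_, _, _, _, _, t6, _, _, _⟩ := h4
  intro m y T hT hzT hVT hy1 hy2
  have hj0 : (8 : ℝ) ≤ j := by exact_mod_cast s7
  have hz0 : (0 : ℝ) < zz j := by exact_mod_cast (by omega : 0 < zz j)
  have hy0 : (0 : ℝ) < y := lt_of_lt_of_le (by positivity) hy1
  have hzy : (zz j : ℝ) ≤ y := by nlinarith
  have hzyN : zz j ≤ y := by exact_mod_cast hzy
  have hjy : j ≤ y := (by omega : j ≤ zz j).trans hzyN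
  have hzV : (zz j : ℝ) ≤ y * V T := by
    calc (zz j : ℝ) = 3 * (j * zz j) * (1 / (3 * (j : ℝ))) := by field_simp
      _ ≤ y * V T := mul_le_mul (s1.trans hy1) hVT (by positivity) hy0.le
  have hyC : 8 * C1 ≤ ε * y := by
    have h8 := s2.trans hy1
    rw [div_le_iff₀ hε] at h8
    linarith
  refine (prob_one μ a hm hi hu m y (zz j) (by omega) hzyN T hT hzT hzV ε C1 hε hε1 hC1 hyC
    (fun ρ hρ => h1 ρ hρ m y hzyN)).trans ?_
  apply ENNReal.ofReal_le_ofReal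
  apply mul_le_mul_of_nonneg_left _ (by norm_num)
  apply Real.exp_le_exp.2
  rw [neg_le_neg_iff]
  have hlz0 : 0 < Real.log (zz j) := by linarith
  have hV0 : 0 < V (Pr (zz j)) := V_pos (Pr_prime _)
  have hratio : c ≤ V (Pr y) / V (Pr (zz j)) := by
    rw [le_div_iff₀ hV0]
    have h8 := (h2 y hjy hy2).1
    have h9 : V (Pr (zz j)) ≤ 1 / Real.log j :=
      h5.trans (one_div_le_one_div_of_le (by linarith) s4)
    calc c * V (Pr (zz j)) ≤ c * (1 / Real.log j) := mul_le_mul_of_nonneg_left h9 hc.le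
      _ = c / Real.log j := by ring
      _ ≤ V (Pr y) := h8
  have hzVz : c' / 2 * (j * (Real.log j) ^ 2) ≤ zz j * V (Pr (zz j)) := by
    have h8 : c' / (2 * Real.log j) ≤ V (Pr (zz j)) :=
      le_trans (div_le_div_of_nonneg_left hc'.le hlz0 s3) h6
    have h9 := mul_le_mul (zz_ge j) h8 (by positivity) hz0.le
    have h10 : (j : ℝ) * (Real.log j) ^ 3 * (c' / (2 * Real.log j)) = c' / 2 * (j * (Real.log j) ^ 2) := by
      field_simp
    rw [h10] at h9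
    exact h9
  have h8 : c ^ 2 ≤ (V (Pr y) / V (Pr (zz j))) ^ 2 := pow_le_pow_left₀ hc.le hratio 2
  have h9 : c ^ 2 * (c' / 2 * (j * (Real.log j) ^ 2)) ≤ (V (Pr y) / V (Pr (zz j))) ^ 2 * (zz j * V (Pr (zz j))) :=
    mul_le_mul h8 hzVz (by positivity) (by positivity)
  have h10 : 10 * (j : ℝ) ≤ ε ^ 2 * (c ^ 2 * (c' / 2 * (j * (Real.log j) ^ 2))) / (32 * C1) := by
    rw [le_div_iff₀ (by positivity)]
    have h11 : 640 * C1 ≤ Real.log j * (ε ^ 2 * c ^ 2 * c') := by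
      rw [div_le_iff₀ (by positivity)] at t6
      exact t6
    have h12 : 640 * C1 ≤ (Real.log j) ^ 2 * (ε ^ 2 * c ^ 2 * c') := by
      have : Real.log j * (ε ^ 2 * c ^ 2 * c') ≤ (Real.log j) ^ 2 * (ε ^ 2 * c ^ 2 * c') := by
        apply mul_le_mul_of_nonneg_right _ (by positivity)
        nlinarith
      linarith
    have h13 := mul_le_mul_of_nonneg_right h12 (show (0 : ℝ) ≤ j / 2 by positivity)
    linarith
  refine h10.trans ?_
  apply div_le_div_of_nonneg_right _ (by positivity)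
  have h11 := mul_le_mul_of_nonneg_left h9 (show 0 ≤ ε ^ 2 by positivity)
  linarith

theorem probB (μ : Measure Ω) [IsProbabilityMeasure μ] (a : ℕ → Ω → ℕ)
    (hm : ∀ p, Measurable (a p)) (hi : iIndepFun a μ)
    (hu : ∀ p : ℕ, p.Prime → ∀ r < p, μ {ω | a p ω = r} = (p : ℝ≥0∞)⁻¹)
    (A : ℕ) (hA : 1 ≤ A) (τ : ℝ) (hτ : 0 < τ) (ε : ℝ) (hε : 0 < ε) (hε1 : ε ≤ 1) :
    ∀ᶠ j : ℕ in atTop, ∀ y : ℕ, ∀ T : Finset ℕ, (∀ p ∈ T, p.Prime) → Pr (j / 3) ⊆ T →
      1 / (3 * (j : ℝ)) ≤ V T → (j : ℝ) ^ (2 + τ) ≤ y → y ≤ j ^ A →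
      ∀ c : ℕ → ℕ, (∀ p ∈ Pr (j / 3), c p < p) →
      μ {ω | ¬ ∃ m : ℕ, Real.exp j ≤ m ∧ (m : ℝ) ≤ 2 * Real.exp j ∧
        |(((Ioc m (m + y)).filter (fun n => ∀ p ∈ T, n % p ≠ a p ω)).card : ℝ) -
        cnt c (j / 3) 0 y * (V T / V (Pr (j / 3)))| ≤ 3 * ε * (y * V T)} ≤
        ENNReal.ofReal (2 * (1 / (j : ℝ) ^ (A + 4))) := by
  obtain ⟨C1, hC1, hC⟩ := c1_exists
  obtain ⟨c, hc, hr⟩ := ratio_low A hA
  obtain ⟨c₃, hc₃⟩ : ∃ c₃ : ℝ, c₃ = ε ^ 2 * (c / 2) ^ 2 * (c / 6) / (32 * C1) := ⟨_, rfl⟩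
  have hc₃0 : 0 < c₃ := by rw [hc₃]; positivity
  have hlog2 := ((Real.isLittleO_pow_log_id_atTop (n := 2)).comp_tendsto tendsto_natCast_atTop_atTop).bound
      (show 0 < c₃ / ((A : ℝ) + 4) by positivity)
  filter_upwards [div3_tendsto.eventually hC, hr, sizes A hA τ hτ (8 * C1 / ε), div3_tendsto.eventually VV_upper,
    hlog2, le_zz] with j h1 h2 h3 h5 h6 h7
  obtain ⟨s1, s2, s3, s4, s5, s6, s7, s8, s9⟩ := h3
  intro y T hT hzT hVT hy1 hy2 c0 hc0
  have hj0 : (8 : ℝ) ≤ j := by exact_mod_cast s7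
  have hy0 : (0 : ℝ) < y := lt_of_lt_of_le (by positivity) hy1
  have hz0 : (0 : ℝ) < zz j := by exact_mod_cast (by omega : 0 < zz j)
  have hzy : (zz j : ℝ) ≤ y := by nlinarith
  have hzyN : zz j ≤ y := by exact_mod_cast hzy
  have hjy : j ≤ y := (by omega : j ≤ zz j).trans hzyN
  have h3y : j / 3 ≤ y := (by omega : j / 3 ≤ j).trans hjy
  have h3z : ((j / 3 : ℕ) : ℝ) ≤ zz j := by exact_mod_cast (by omega : j / 3 ≤ zz j)
  have hzV : ((j / 3 : ℕ) : ℝ) ≤ y * V T := by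
    have h8 : (zz j : ℝ) ≤ y * V T := by
      calc (zz j : ℝ) = 3 * (j * zz j) * (1 / (3 * (j : ℝ))) := by field_simp
        _ ≤ y * V T := mul_le_mul (s1.trans hy1) hVT (by positivity) hy0.le
    linarith
  have hyC : 8 * C1 ≤ ε * y := by
    have h8 := s2.trans hy1
    rw [div_le_iff₀ hε] at h8
    linarith
  refine (prob_crt μ a hm hi hu j y (by omega) h3y T hT hzT hzV ε C1 hε hε1 hC1 hyC c0 hc0
    (h1 c0 hc0 0 y h3y)).trans ?_
  apply ENNReal.ofReal_le_ofReal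
  apply mul_le_mul_of_nonneg_left _ (by norm_num)
  have hV0 : 0 < V (Pr (j / 3)) := V_pos (Pr_prime _)
  have hl0 : 0 < Real.log j := by linarith
  have hratio : c / 2 ≤ V (Pr y) / V (Pr (j / 3)) := by
    rw [le_div_iff₀ hV0]
    have h8 := (h2 y hjy hy2).1
    have h9 : V (Pr (j / 3)) ≤ 1 / (Real.log j / 2) :=
      h5.trans (one_div_le_one_div_of_le (by linarith) s8)
    calc c / 2 * V (Pr (j / 3)) ≤ c / 2 * (1 / (Real.log j / 2)) := mul_le_mul_of_nonneg_left h9 (by positivity)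
      _ = c / Real.log j := by field_simp
      _ ≤ V (Pr y) := h8
  have hzVz : c / 6 * (j / Real.log j) ≤ ((j / 3 : ℕ) : ℝ) * V (Pr (j / 3)) := by
    have h8 : c / Real.log j ≤ V (Pr (j / 3)) :=
      ((h2 y hjy hy2).2).trans (V_anti (Pr_mono (by omega)) (Pr_prime _))
    have h9 : (j : ℝ) / 6 ≤ ((j / 3 : ℕ) : ℝ) := by
      have h6 : j ≤ 6 * (j / 3) := by omega
      have h7 : (j : ℝ) ≤ 6 * ((j / 3 : ℕ) : ℝ) := by exact_mod_cast h6
      linarith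
    have h10 := mul_le_mul h9 h8 (by positivity) (Nat.cast_nonneg _)
    have h11 : (j : ℝ) / 6 * (c / Real.log j) = c / 6 * (j / Real.log j) := by field_simp
    rw [h11] at h10
    exact h10
  have h8 : (c / 2) ^ 2 ≤ (V (Pr y) / V (Pr (j / 3))) ^ 2 := pow_le_pow_left₀ (by positivity) hratio 2
  have h9 : (c / 2) ^ 2 * (c / 6 * (j / Real.log j)) ≤
      (V (Pr y) / V (Pr (j / 3))) ^ 2 * (((j / 3 : ℕ) : ℝ) * V (Pr (j / 3))) :=
    mul_le_mul h8 hzVz (by positivity) (by positivity)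
  have h10 : ((A : ℝ) + 4) * Real.log j ≤ ε ^ 2 * (V (Pr y) / V (Pr (j / 3))) ^ 2 *
      (((j / 3 : ℕ) : ℝ) * V (Pr (j / 3))) / (32 * C1) := by
    have h11 : ((A : ℝ) + 4) * Real.log j ≤ c₃ * (j / Real.log j) := by
      simp only [Function.comp, id] at h6
      rw [Real.norm_eq_abs, Real.norm_eq_abs, abs_of_nonneg (show (0 : ℝ) ≤ (Real.log j) ^ 2 by positivity),
        abs_of_pos (show (0 : ℝ) < j by linarith), div_mul_eq_mul_div, le_div_iff₀ (by positivity)] at h6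
      rw [mul_div_assoc', le_div_iff₀ hl0]
      nlinarith
    refine h11.trans ?_
    rw [hc₃, div_mul_eq_mul_div]
    apply div_le_div_of_nonneg_right _ (by positivity)
    have h12 := mul_le_mul_of_nonneg_left h9 (show 0 ≤ ε ^ 2 by positivity)
    linarith
  calc Real.exp (-(ε ^ 2 * (V (Pr y) / V (Pr (j / 3))) ^ 2 * (((j / 3 : ℕ) : ℝ) * V (Pr (j / 3))) / (32 * C1)))
      ≤ Real.exp (-(((A : ℝ) + 4) * Real.log j)) := Real.exp_le_exp.2 (by linarith)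
    _ = 1 / (j : ℝ) ^ (A + 4) := by
        rw [Real.exp_neg, one_div]
        congr 1
        have : ((A : ℝ) + 4) * Real.log j = Real.log ((j : ℝ) ^ (A + 4)) := by rw [Real.log_pow]; push_cast; ring
        rw [this, Real.exp_log (by positivity)]

end

end Pool.Agent.V5helper42.RS
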