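import Pool.Agent.V5helper42.RS.P3
import Pool.Agent.V5helper42.RS.S4

set_option autoImplicit false

/-!
# The Maier matrix with an arbitrary pattern of classes: set-up (helper42)
-/

namespace Pool.Agent.V5helper42.RS

open Finset Filter Topology
open Pool.Agent.W41 (V V_ge V_pos fac_pos fac_le_one V_le_one)
open Pool.Agent.H510R2.Maier (VV thw)
open Pool.Agent.H378R2 (WW PW GoodS GoodP yy BE mem_PW th)

/-- the set of the primes -/
def PS : Set ℕ := {p | p.Prime}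

lemma thw_eq (n Y : ℕ) : thw n Y = ∑ m ∈ Ioc n (n + Y), th m := by
  unfold thw
  apply Finset.sum_bij (fun h _ => n + h)
  · intro h hh
    rw [mem_Icc] at hh
    rw [mem_Ioc]; omega
  · intro h1 _ h2 _ e
    exact Nat.add_left_cancel e
  · intro m hm
    rw [mem_Ioc] at hm
    exact ⟨m - n, by rw [mem_Icc]; omega, by show n + (m - n) = m; omega⟩
  · intro h _; rfl

open Classical in
lemma thw_eq2 (n Y : ℕ) : thw n Y = ∑ m ∈ (Ioc n (n + Y)).filter (fun m => m ∈ PS), Real.log m := by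
  rw [thw_eq, sum_filter]
  apply sum_congr rfl
  intro m _
  unfold th PS
  by_cases h : m.Prime
  · simp [h]
  · simp [h]

lemma thw_lo (n Y : ℕ) (x : ℝ) (hx : 0 < x) (hn : x < n) : Real.log x * (NM PS n Y : ℝ) ≤ thw n Y := by
  classical
  rw [thw_eq2, NM_eq, mul_comm, ← nsmul_eq_mul]
  apply card_nsmul_le_sum
  intro m hm
  rw [mem_filter, mem_Ioc] at hm
  apply Real.log_le_log hx
  have : (n : ℝ) < m := by exact_mod_cast hm.1.1
  linarith

lemma thw_hi (n Y : ℕ) (x : ℝ) (hx : (n : ℝ) + Y ≤ x) : thw n Y ≤ Real.log x * (NM PS n Y : ℝ) := by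
  classical
  rw [thw_eq2, NM_eq, mul_comm, ← nsmul_eq_mul]
  apply sum_le_card_nsmul
  intro m hm
  rw [mem_filter, mem_Ioc] at hm
  apply Real.log_le_log
  · exact_mod_cast (by omega : 0 < m)
  · have : (m : ℝ) ≤ n + Y := by exact_mod_cast hm.1.2
    linarith

lemma pw3 (s t : ℝ) (hs : 0 < s) (ht : 4 * s ≤ t) : (t + 2) ^ s ≤ (1 + 4 * s / t) * t ^ s := by
  have ht0 : 0 < t := by linarith
  have e : t + 2 = (1 + 2 / t) * t := by field_simp
  rw [e, Real.mul_rpow (by positivity) ht0.le]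
  apply mul_le_mul_of_nonneg_right _ (by positivity)
  have h1 : (1 + 2 / t) ^ s ≤ (Real.exp (2 / t)) ^ s := by
    apply Real.rpow_le_rpow (by positivity) _ hs.le
    have := Real.add_one_le_exp (2 / t)
    linarith
  have h2 : (Real.exp (2 / t)) ^ s = Real.exp (2 * s / t) := by
    rw [← Real.exp_mul]; congr 1; ring
  have h3 : 2 * s / t ≤ 1 / 2 := by
    rw [div_le_div_iff₀ ht0 (by norm_num)]; linarith
  have h4 : 0 < 2 * s / t := by positivity
  have h5 : Real.exp (2 * s / t) ≤ 1 / (1 - 2 * s / t) := by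
    have h6 := Real.one_sub_le_exp_neg (2 * s / t)
    rw [Real.exp_neg] at h6
    rw [le_div_iff₀ (by linarith)]
    have h7 := Real.exp_pos (2 * s / t)
    calc Real.exp (2 * s / t) * (1 - 2 * s / t) ≤ Real.exp (2 * s / t) * (Real.exp (2 * s / t))⁻¹ :=
          mul_le_mul_of_nonneg_left h6 h7.le
      _ = 1 := mul_inv_cancel₀ h7.ne'
  have h6 : 1 / (1 - 2 * s / t) ≤ 1 + 2 * (2 * s / t) := by
    rw [div_le_iff₀ (by linarith)]
    nlinarith
  have h7 : 4 * s / t = 2 * (2 * s / t) := by ring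
  rw [h7]
  rw [h2] at h1
  linarith

/-- sizes of the lengths -/
lemma sizes2 (s : ℝ) (hs : 2 < s) (ε₁ : ℝ) (hε₁ : 0 < ε₁) : ∀ᶠ X : ℝ in atTop,
    8 * Real.log X ^ 2 ≤ Real.log X ^ s ∧ (Real.log X + 2) ^ s ≤ Real.log X ^ (⌈s⌉₊ + 1) ∧
    Real.log X ^ (⌈s⌉₊ + 1) ≤ X ∧ 4 * s ≤ Real.log X ∧ 8 ≤ Real.log X ∧
    (8 * s + 3) ≤ ε₁ * (Real.log X - 1) := by
  have h1 : ∀ᶠ t : ℝ in atTop, 8 ≤ t ^ (s - 2) :=
    (tendsto_rpow_atTop (by linarith)).eventually_ge_atTop 8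
  have h2 : ∀ᶠ X : ℝ in atTop, (Real.log X) ^ (⌈s⌉₊ + 1) ≤ X := by
    have h1 := (Real.isLittleO_pow_log_id_atTop (n := ⌈s⌉₊ + 1)).bound (show (0 : ℝ) < 1 by norm_num)
    filter_upwards [h1, eventually_ge_atTop (1 : ℝ)] with X h2 h3
    rw [Real.norm_of_nonneg (pow_nonneg (Real.log_nonneg h3) _), id, Real.norm_of_nonneg (by linarith)] at h2
    linarith
  have hlog := Real.tendsto_log_atTop
  filter_upwards [hlog.eventually h1, h2, hlog.eventually_ge_atTop (4 * s), hlog.eventually_ge_atTop 8,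
    hlog.eventually_ge_atTop (2 ^ s), hlog.eventually_ge_atTop ((8 * s + 3) / ε₁ + 1)] with X g1 g2 g3 g4 g5 g6
  obtain ⟨t, ht⟩ : ∃ t : ℝ, t = Real.log X := ⟨_, rfl⟩
  rw [← ht] at g1 g2 g3 g4 g5 g6 ⊢
  have ht0 : 0 < t := by linarith
  refine ⟨?_, ?_, g2, g3, g4, ?_⟩
  · have e : t ^ s = t ^ (s - 2) * t ^ 2 := by
      rw [← Real.rpow_natCast t 2, ← Real.rpow_add ht0]; congr 1; push_cast; ring
    rw [e]
    exact mul_le_mul_of_nonneg_right g1 (by positivity)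
  · have h3 : (t + 2) ^ s ≤ (2 * t) ^ s := Real.rpow_le_rpow (by linarith) (by linarith) (by linarith)
    have h4 : (2 * t) ^ s = 2 ^ s * t ^ s := Real.mul_rpow (by norm_num) ht0.le
    have h5 : (2 : ℝ) ^ s * t ^ s ≤ t * t ^ s := mul_le_mul_of_nonneg_right g5 (by positivity)
    have h6 : t * t ^ s = t ^ (s + 1) := by
      rw [Real.rpow_add ht0, Real.rpow_one]; ring
    have h7 : t ^ (s + 1) ≤ t ^ (((⌈s⌉₊ + 1 : ℕ)) : ℝ) := by
      apply Real.rpow_le_rpow_of_exponent_le (by linarith)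
      push_cast
      have := Nat.le_ceil s
      linarith
    rw [Real.rpow_natCast] at h7
    linarith
  · have h3 : (8 * s + 3) / ε₁ ≤ t - 1 := by linarith
    rw [div_le_iff₀ hε₁] at h3
    linarith

theorem setup (s : ℝ) (hs : 2 < s) (C : ℝ) (hC1 : 1 ≤ C)
    (hbt : ∀ᶠ j : ℕ in atTop, ∀ P : Finset ℕ, P ⊆ Pr j → V P ≤ 4 * V (Pr j) →
      ∀ ρ : ℕ → ℕ, (∀ p ∈ P, ρ p < p) → ∀ u h : ℕ, j ≤ h → (cntP ρ P u h : ℝ) ≤ C * (h / Real.log j))
    (ε₁ : ℝ) (hε₁ : 0 < ε₁) (hε₂ : ε₁ ≤ 1 / 2) : ∀ᶠ X : ℝ in atTop,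
    ∃ P : Finset ℕ, P ⊆ Pr ⌊Real.log X⌋₊ ∧ V P ≤ (1 + ε₁) * V (Pr ⌊Real.log X⌋₊) ∧
      (∀ c : ℕ → ℕ, (∀ p ∈ Pr ⌊Real.log X⌋₊, c p < p) →
        (cntP c P 0 ⌊(Real.log X + 2) ^ s⌋₊ : ℝ) ≤ cnt c ⌊Real.log X⌋₊ 0 ⌊Real.log X ^ s⌋₊ +
          ε₁ * (1 + C) * (⌊Real.log X ^ s⌋₊ / Real.log ⌊Real.log X⌋₊)) ∧
      (∀ c : ℕ → ℕ, (∀ p ∈ Pr ⌊Real.log X⌋₊, c p < p) →
        (∃ n : ℕ, X < n ∧ (n : ℝ) < 3 * X ∧
          (1 - ε₁) * (((cntP c P 0 ⌊Real.log X ^ s⌋₊ : ℝ) - 80) / V P) ≤ thw n ⌊Real.log X ^ s⌋₊) ∧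
        (∃ n : ℕ, X < n ∧ (n : ℝ) < 3 * X ∧
          thw n ⌊(Real.log X + 2) ^ s⌋₊ ≤ (1 + ε₁) * (((cntP c P 0 ⌊(Real.log X + 2) ^ s⌋₊ : ℝ) + 80) / V P))) := by
  obtain ⟨δ, hδ0, hlow⟩ := low2 ε₁ hε₁
  obtain ⟨Z, hZ⟩ := exists_nat_gt (2 / δ)
  obtain ⟨X0, hX0⟩ := rowsK (⌈s⌉₊ + 1) ε₁ hε₁ (by linarith) Z
  have hfl : Tendsto (fun x : ℝ => ⌊Real.log x⌋₊) atTop atTop :=
    tendsto_nat_floor_atTop.comp Real.tendsto_log_atTop
  have hll : ∀ᶠ X : ℝ in atTop, 12 / δ ≤ (Real.log (Real.log X)) ^ 2 := by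
    have h1 : Tendsto (fun X : ℝ => (Real.log (Real.log X)) ^ 2) atTop atTop :=
      (tendsto_pow_atTop (by norm_num)).comp (Real.tendsto_log_atTop.comp Real.tendsto_log_atTop)
    exact h1.eventually_ge_atTop _
  filter_upwards [hfl.eventually hlow, hfl.eventually hbt, sizes2 s hs ε₁ hε₁, eventually_ge_atTop X0, hll]
    with X h1 h2 h3 h4 h5
  obtain ⟨s1, s2, s3, s4, s5, s6⟩ := h3
  obtain ⟨t, ht⟩ : ∃ t : ℝ, t = Real.log X := ⟨_, rfl⟩
  obtain ⟨j, hj⟩ : ∃ j : ℕ, j = ⌊t⌋₊ := ⟨_, rfl⟩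
  obtain ⟨ps, S, hps, hS, hrows⟩ := hX0 X h4
  rw [← ht, ← hj] at h1 h2
  rw [← ht] at h5 s1 s2 s3 s4 s5 s6 hrows
  rw [← ht, ← hj]
  have ht0 : 0 < t := by linarith
  have hj1 : (j : ℝ) ≤ t := by rw [hj]; exact Nat.floor_le ht0.le
  have hj2 : t < j + 1 := by rw [hj]; exact Nat.lt_floor_add_one _
  have hjR : (7 : ℝ) < j := by linarith
  have hj0 : (0 : ℝ) < j := by linarith
  have hyy : yy X = j / 1000 := by
    unfold yy
    rw [← ht, hj]
    exact Nat.floor_div_ofNat t 1000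
  obtain ⟨P, hP⟩ : ∃ P : Finset ℕ, P = PW X S ps := ⟨_, rfl⟩
  have hPsub : P ⊆ Pr (j / 1000) := by
    intro p hp
    rw [hP, mem_PW, hyy] at hp
    rw [mem_Pr]
    exact ⟨hp.2.1, hp.1⟩
  have hPj : P ⊆ Pr j := hPsub.trans (Pr_mono (by omega))
  have hsum : ∑ p ∈ Pr (j / 1000) \ P, 1 / (p : ℝ) ≤ δ := by
    have hsub : Pr (j / 1000) \ P ⊆ S ∪ ({ps} : Finset ℕ).filter Nat.Prime := by
      intro p hp
      rw [Finset.mem_sdiff, mem_Pr, hP, mem_PW, hyy] at hp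
      obtain ⟨⟨p1, p2⟩, p3⟩ := hp
      rw [mem_union, mem_filter, mem_singleton]
      by_cases hpS : p ∈ S
      · exact Or.inl hpS
      · right
        by_cases hpp : p = ps
        · exact ⟨hpp, p1⟩
        · exact absurd ⟨p2, p1, hpS, hpp⟩ p3
    have g1 : ∑ p ∈ Pr (j / 1000) \ P, 1 / (p : ℝ) ≤ ∑ p ∈ S ∪ ({ps} : Finset ℕ).filter Nat.Prime, 1 / (p : ℝ) :=
      sum_le_sum_of_subset_of_nonneg hsub fun _ _ _ => by positivity
    have g2 : ∑ p ∈ S ∪ ({ps} : Finset ℕ).filter Nat.Prime, 1 / (p : ℝ) ≤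
        ∑ p ∈ S, 1 / (p : ℝ) + ∑ p ∈ ({ps} : Finset ℕ).filter Nat.Prime, 1 / (p : ℝ) := by
      rw [← sum_union_inter]
      have : 0 ≤ ∑ p ∈ S ∩ ({ps} : Finset ℕ).filter Nat.Prime, 1 / (p : ℝ) := sum_nonneg fun _ _ => by positivity
      linarith
    have g3 : ∑ p ∈ ({ps} : Finset ℕ).filter Nat.Prime, 1 / (p : ℝ) ≤ δ / 2 := by
      rcases hps with g | g
      · have : ({ps} : Finset ℕ).filter Nat.Prime = ∅ := by
          rw [filter_eq_empty_iff]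
          intro p hp
          rw [mem_singleton, g] at hp
          rw [hp]
          exact Nat.not_prime_one
        rw [this, sum_empty]
        positivity
      · have : ({ps} : Finset ℕ).filter Nat.Prime = {ps} := by
          rw [filter_eq_self]
          intro p hp
          rw [mem_singleton] at hp
          rw [hp]
          exact g.1
        rw [this, sum_singleton]
        have hpsR : 2 / δ < (ps : ℝ) := hZ.trans (by exact_mod_cast g.2)
        have hps0 : (0 : ℝ) < ps := lt_trans (by positivity) hpsR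
        rw [div_lt_iff₀ hδ0] at hpsR
        rw [div_le_iff₀ hps0]
        linarith
    have g4 : ∑ p ∈ S, 1 / (p : ℝ) ≤ δ / 2 := by
      refine hS.2.trans ?_
      rw [← ht]
      have h0 : 0 < (Real.log t) ^ 2 := lt_of_lt_of_le (by positivity) h5
      rw [div_le_iff₀ h0]
      rw [div_le_iff₀ hδ0] at h5
      linarith
    linarith
  obtain ⟨l1, l2, l3⟩ := h1 P hPsub hsum
  obtain ⟨y, hy⟩ : ∃ y : ℕ, y = ⌊t ^ s⌋₊ := ⟨_, rfl⟩
  obtain ⟨Y, hY⟩ : ∃ Y : ℕ, Y = ⌊(t + 2) ^ s⌋₊ := ⟨_, rfl⟩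
  rw [← hy, ← hY]
  have hts0 : 0 < t ^ s := Real.rpow_pos_of_pos ht0 s
  have hy1 : (y : ℝ) ≤ t ^ s := by rw [hy]; exact Nat.floor_le hts0.le
  have hy2 : t ^ s < y + 1 := by rw [hy]; exact Nat.lt_floor_add_one _
  have ht2s : 0 < (t + 2) ^ s := Real.rpow_pos_of_pos (by linarith) s
  have hY1 : (Y : ℝ) ≤ (t + 2) ^ s := by rw [hY]; exact Nat.floor_le ht2s.le
  have hyY : y ≤ Y := by
    rw [hy, hY]
    exact Nat.floor_mono (Real.rpow_le_rpow ht0.le (by linarith) (by linarith))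
  have ht64 : 8 * t ≤ t ^ 2 := by rw [sq]; exact mul_le_mul_of_nonneg_right s5 ht0.le
  have hyj : 2 * (j * j) ≤ y := by
    have g1 : (j : ℝ) * j ≤ t ^ 2 := by rw [sq]; exact mul_le_mul hj1 hj1 hj0.le ht0.le
    have g2 : ((2 * (j * j) : ℕ) : ℝ) ≤ y := by push_cast; linarith
    exact_mod_cast g2
  have hlogj : 0 < Real.log (j : ℝ) := Real.log_pos (by linarith)
  refine ⟨P, hPj, l1, ?_, ?_⟩
  · intro c hc
    have g1 := l3 c hc 0 y hyj
    have hcP : ∀ p ∈ P, c p < p := fun p hp => hc p (hPj hp)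
    obtain ⟨h0, hh0⟩ : ∃ h0 : ℕ, h0 = Y - y := ⟨_, rfl⟩
    have hYe : Y = y + h0 := by omega
    have g2 : cntP c P (0 + y) h0 ≤ cntP c P (0 + y) (h0 + j) := by
      rw [cntP_add]; exact Nat.le_add_right _ _
    have g3 := h2 P hPj l2 c hcP (0 + y) (h0 + j) (by omega)
    have hlen : ((h0 + j : ℕ) : ℝ) ≤ ε₁ * y := by
      have q1 : (h0 : ℝ) = Y - y := by rw [hh0, Nat.cast_sub hyY]
      have q2 := pw3 s t (by linarith) s4
      have q3 : (1 + 4 * s / t) * t ^ s = t ^ s + 4 * s / t * t ^ s := by ring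
      have q4 : ((h0 + j : ℕ) : ℝ) ≤ 4 * s / t * t ^ s + 1 + t := by push_cast; linarith
      have q5 : t ^ s ≤ 2 * y := by linarith
      have q6 : 4 * s / t * t ^ s ≤ 4 * s / t * (2 * y) := mul_le_mul_of_nonneg_left q5 (by positivity)
      have hy0 : (0 : ℝ) < y := by linarith
      have q7 : 1 + t ≤ 2 / t * y := by
        rw [div_mul_eq_mul_div, le_div_iff₀ ht0]
        have : (1 + t) * t = t + t ^ 2 := by ring
        rw [this]; linarith
      have q8 : 4 * s / t * (2 * y) + 2 / t * y = (8 * s + 2) / t * y := by ring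
      have q9 : (8 * s + 2) / t ≤ ε₁ := by
        rw [div_le_iff₀ ht0]
        have : ε₁ * (t - 1) ≤ ε₁ * t := mul_le_mul_of_nonneg_left (by linarith) hε₁.le
        linarith
      have q10 : (8 * s + 2) / t * y ≤ ε₁ * y := mul_le_mul_of_nonneg_right q9 hy0.le
      linarith
    have g4 : C * (((h0 + j : ℕ) : ℝ) / Real.log j) ≤ C * (ε₁ * y / Real.log j) := by
      apply mul_le_mul_of_nonneg_left _ (by linarith)
      exact div_le_div_of_nonneg_right hlen hlogj.le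
    have g5 : (cntP c P 0 Y : ℝ) = cntP c P 0 y + cntP c P (0 + y) h0 := by
      rw [hYe, cntP_add]; push_cast; ring
    have g6 : (cntP c P (0 + y) h0 : ℝ) ≤ cntP c P (0 + y) (h0 + j) := by exact_mod_cast g2
    have g7 : ε₁ * (1 + C) * ((y : ℝ) / Real.log j) = ε₁ * (y / Real.log j) + C * (ε₁ * y / Real.log j) := by ring
    rw [g5, g7]
    linarith
  · intro c hc
    have hcP : ∀ p ∈ P, c p < p := fun p hp => hc p (hPj hp)
    obtain ⟨r, hr⟩ := crtP P (fun p hp => Pr_prime j p (hPj hp)) c hcP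
    have hWW : WW X S ps = ∏ p ∈ P, p := by rw [hP]; rfl
    have hBE : BE (PW X S ps) = V P := by rw [hP]; rfl
    rw [hWW, hBE] at hrows
    constructor
    · have g := (hrows r y (by linarith [Real.rpow_le_rpow ht0.le (show t ≤ t + 2 by linarith) (show 0 ≤ s by linarith)])).1
      rw [hr y] at g
      exact g
    · have g := (hrows r Y (hY1.trans s2)).2
      rw [hr Y] at g
      exact g

end Pool.Agent.V5helper42.RS
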