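import Pool.Agent.V5helper42.RS.S6

set_option autoImplicit false

/-!
# Random sieve model: real variable (helper42)
-/

namespace Pool.Agent.V5helper42.RS

open Finset Filter Topology
open Pool.Agent.W41 (V V_ge V_pos fac_pos fac_le_one V_le_one)

/-- the extremal constants -/
noncomputable def sP (a t : ℝ) : ℝ := W ⌊t⌋₊ / t ^ a * (Sp ⌊t⌋₊ ⌊t ^ a⌋₊ : ℝ)

noncomputable def sM (a t : ℝ) : ℝ := W ⌊t⌋₊ / t ^ a * (Sm ⌊t⌋₊ ⌊t ^ a⌋₊ : ℝ)

/-- the normalised number of elements -/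
noncomputable def Rr (M : Set ℕ) (a x : ℝ) : ℝ := Real.log x / Real.log x ^ a * (CC M x (x + Real.log x ^ a) : ℝ)

lemma NM_add (M : Set ℕ) (m y h : ℕ) : NM M m (y + h) = NM M m y + NM M (m + y) h := by
  have h1 := CC_add M (u := (m : ℝ)) (w := (m : ℝ) + y) (v := ((m : ℝ) + y) + h) (by
    have : (0 : ℝ) ≤ y := Nat.cast_nonneg _
    linarith) (by
    have : (0 : ℝ) ≤ h := Nat.cast_nonneg _
    linarith)
  rw [CC_NM] at h1
  have e1 : ((m : ℝ) + y) + h = (m : ℝ) + ((y + h : ℕ) : ℝ) := by push_cast; ring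
  rw [e1, CC_NM] at h1
  rw [h1]
  congr 1
  have e2 : (m : ℝ) + ((y + h : ℕ) : ℝ) = ((m + y : ℕ) : ℝ) + h := by push_cast; ring
  have e3 : (m : ℝ) + y = ((m + y : ℕ) : ℝ) := by push_cast; ring
  rw [e2, e3, CC_NM]

lemma NM_one (M : Set ℕ) (m : ℕ) : NM M m 1 ≤ 1 := by
  classical
  rw [NM_eq]
  refine (card_filter_le _ _).trans ?_
  simp

lemma NM_mono (M : Set ℕ) (m : ℕ) {y y' : ℕ} (h : y ≤ y') : NM M m y ≤ NM M m y' := by
  obtain ⟨d, rfl⟩ := Nat.exists_eq_add_of_le h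
  rw [NM_add]
  exact Nat.le_add_right _ _

lemma sP_eq (a t : ℝ) (ht : 0 < t) (hy : 0 < ⌊t ^ a⌋₊) : sP a t = ((⌊t ^ a⌋₊ : ℝ) / t ^ a) * sp ⌊t⌋₊ ⌊t ^ a⌋₊ := by
  have hH : 0 < t ^ a := Real.rpow_pos_of_pos ht a
  have hV := V_pos (Pr_prime ⌊t⌋₊)
  have hy0 : (0 : ℝ) < (⌊t ^ a⌋₊ : ℝ) := by exact_mod_cast hy
  have hW : W ⌊t⌋₊ = 1 / V (Pr ⌊t⌋₊) := by rw [W_eq]; rfl
  unfold sP sp
  rw [hW]
  field_simp

lemma sM_eq (a t : ℝ) (ht : 0 < t) (hy : 0 < ⌊t ^ a⌋₊) : sM a t = ((⌊t ^ a⌋₊ : ℝ) / t ^ a) * sm ⌊t⌋₊ ⌊t ^ a⌋₊ := by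
  have hH : 0 < t ^ a := Real.rpow_pos_of_pos ht a
  have hV := V_pos (Pr_prime ⌊t⌋₊)
  have hy0 : (0 : ℝ) < (⌊t ^ a⌋₊ : ℝ) := by exact_mod_cast hy
  have hW : W ⌊t⌋₊ = 1 / V (Pr ⌊t⌋₊) := by rw [W_eq]; rfl
  unfold sM sm
  rw [hW]
  field_simp

/-- sizes of the powers -/
lemma pw (a τ : ℝ) (ha : 2 + τ < a) (hτ : 0 < τ) (A : ℕ) (hA : a + 1 ≤ A) : ∀ᶠ t : ℝ in atTop,
    t ^ (2 + τ) + 1 ≤ t ^ a ∧ ∀ j : ℕ, (j : ℝ) ≤ t → t ≤ j + 2 → t ^ a ≤ (j : ℝ) ^ A := by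
  have h1 : ∀ᶠ t : ℝ in atTop, 2 ≤ t ^ (a - (2 + τ)) :=
    (tendsto_rpow_atTop (by linarith)).eventually_ge_atTop 2
  filter_upwards [h1, eventually_ge_atTop (4 : ℝ), eventually_ge_atTop (2 ^ a + 2)] with t h2 h3 h4
  constructor
  · have h5 : t ^ a = t ^ (2 + τ) * t ^ (a - (2 + τ)) := by
      rw [← Real.rpow_add (by linarith)]; congr 1; ring
    have h6 : (1 : ℝ) ≤ t ^ (2 + τ) := Real.one_le_rpow (by linarith) (by linarith)
    rw [h5]
    nlinarith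
  · intro j hj1 hj2
    have hj : (2 : ℝ) ≤ j := by linarith
    have h5 : t ^ a ≤ (2 * j : ℝ) ^ a := Real.rpow_le_rpow (by linarith) (by linarith) (by linarith)
    have h6 : (2 * j : ℝ) ^ a = 2 ^ a * (j : ℝ) ^ a := Real.mul_rpow (by norm_num) (by linarith)
    have h7 : (2 : ℝ) ^ a * (j : ℝ) ^ a ≤ j * (j : ℝ) ^ a := by
      apply mul_le_mul_of_nonneg_right _ (by positivity)
      linarith
    have h8 : (j : ℝ) * (j : ℝ) ^ a = (j : ℝ) ^ (a + 1) := by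
      rw [Real.rpow_add (by linarith), Real.rpow_one]; ring
    have h9 : (j : ℝ) ^ (a + 1) ≤ (j : ℝ) ^ (A : ℝ) := Real.rpow_le_rpow_of_exponent_le (by linarith) hA
    rw [Real.rpow_natCast] at h9
    linarith

/-- `((j + 1)^a ≤ (1 + 2 a / j) j^a` -/
lemma pw2 (a : ℝ) (ha : 0 < a) (j : ℕ) (hj : 2 * a ≤ j) (hj1 : 1 ≤ j) :
    ((j : ℝ) + 1) ^ a ≤ (1 + 2 * a / j) * (j : ℝ) ^ a := by
  have hj0 : (0 : ℝ) < j := by exact_mod_cast hj1
  have e : (j : ℝ) + 1 = (1 + 1 / j) * j := by field_simp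
  rw [e, Real.mul_rpow (by positivity) hj0.le]
  apply mul_le_mul_of_nonneg_right _ (by positivity)
  have h1 : (1 + 1 / (j : ℝ)) ^ a ≤ (Real.exp (1 / j)) ^ a := by
    apply Real.rpow_le_rpow (by positivity) _ ha.le
    have := Real.add_one_le_exp (1 / (j : ℝ))
    linarith
  have h2 : (Real.exp (1 / (j : ℝ))) ^ a = Real.exp (a / j) := by
    rw [← Real.exp_mul]; congr 1; ring
  have h3 : a / j ≤ 1 / 2 := by
    rw [div_le_div_iff₀ hj0 (by norm_num)]; linarith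
  have h4 : 0 < a / (j : ℝ) := by positivity
  have h5 : Real.exp (a / j) ≤ 1 / (1 - a / j) := by
    have h6 := Real.one_sub_le_exp_neg (a / (j : ℝ))
    rw [Real.exp_neg] at h6
    rw [le_div_iff₀ (by linarith)]
    have h7 := Real.exp_pos (a / (j : ℝ))
    calc Real.exp (a / j) * (1 - a / j) ≤ Real.exp (a / j) * (Real.exp (a / j))⁻¹ :=
          mul_le_mul_of_nonneg_left h6 h7.le
      _ = 1 := mul_inv_cancel₀ h7.ne'
  have h6 : 1 / (1 - a / (j : ℝ)) ≤ 1 + 2 * (a / j) := by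
    rw [div_le_iff₀ (by linarith)]
    nlinarith
  have h7 : 2 * a / (j : ℝ) = 2 * (a / j) := by ring
  rw [h7]
  rw [h2] at h1
  linarith

/-- all `x` -/
theorem all_x (M : Set ℕ) (a τ : ℝ) (ha : 2 + τ < a) (hτ : 0 < τ) (A : ℕ) (hA : a + 1 ≤ A) (ε : ℝ) (hε : 0 < ε)
    (h : ∀ᶠ m : ℕ in atTop, ∀ y : ℕ, (jj m : ℝ) ^ (2 + τ) ≤ y → y ≤ jj m ^ A →
      ∀ k : ℕ, (k = jj m ∨ k = jj m + 1) →
      sm k y - ε ≤ (NM M m y : ℝ) * Real.log m / y ∧ (NM M m y : ℝ) * Real.log m / y ≤ sp k y + ε) :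
    ∀ᶠ x : ℝ in atTop, sM a (Real.log x) - 3 * ε ≤ Rr M a x ∧ Rr M a x ≤ sP a (Real.log x) + 3 * ε := by
  obtain ⟨C1, hC1, hbd⟩ := sp_bdd
  have hfl : Tendsto (fun x : ℝ => ⌊Real.log x⌋₊) atTop atTop :=
    tendsto_nat_floor_atTop.comp Real.tendsto_log_atTop
  have hLH : ∀ᶠ t : ℝ in atTop, t ≤ ε * t ^ a := by
    have h1 : ∀ᶠ t : ℝ in atTop, 1 / ε ≤ t ^ (a - 1) := (tendsto_rpow_atTop (by linarith)).eventually_ge_atTop _
    filter_upwards [h1, eventually_ge_atTop (1 : ℝ)] with t h2 h3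
    have h4 : t ^ a = t ^ (a - 1) * t := by
      have : t ^ (a - 1) * t = t ^ (a - 1) * t ^ (1 : ℝ) := by rw [Real.rpow_one]
      rw [this, ← Real.rpow_add (by linarith)]; congr 1; ring
    rw [h4]
    rw [div_le_iff₀ hε] at h2
    nlinarith
  filter_upwards [tendsto_nat_floor_atTop.eventually (α := ℝ) h, hfl.eventually hbd,
    Real.tendsto_log_atTop.eventually (pw a τ ha hτ A hA), Real.tendsto_log_atTop.eventually hLH,
    Real.tendsto_log_atTop.eventually_ge_atTop (max 4 ((C1 + ε) / ε + 1)), eventually_ge_atTop (2 : ℝ)]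
    with x h1 h2 h3 h4 h5 h6
  obtain ⟨m, hm⟩ : ∃ m : ℕ, m = ⌊x⌋₊ := ⟨_, rfl⟩
  obtain ⟨k, hk⟩ : ∃ k : ℕ, k = ⌊Real.log x⌋₊ := ⟨_, rfl⟩
  obtain ⟨L, hL⟩ : ∃ L : ℝ, L = Real.log x := ⟨_, rfl⟩
  rw [← hm] at h1
  rw [← hk] at h2
  rw [← hL] at h3 h4 h5 hk ⊢
  obtain ⟨H, hH⟩ : ∃ H : ℝ, H = L ^ a := ⟨_, rfl⟩
  have hL4 : 4 ≤ L := (le_max_left _ _).trans h5
  have hLC : (C1 + ε) / ε + 1 ≤ L := (le_max_right _ _).trans h5
  have hx0 : 0 ≤ x := by linarith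
  have hm1 : (m : ℝ) ≤ x := by rw [hm]; exact Nat.floor_le hx0
  have hm2 : x < m + 1 := by rw [hm]; exact Nat.lt_floor_add_one x
  have hmR : (1 : ℝ) < m := by linarith
  have hm0 : (0 : ℝ) < m := by linarith
  have hm1' : 1 ≤ m := by
    have : 1 < m := by exact_mod_cast hmR
    omega
  have hlm1 : Real.log m ≤ L := by rw [hL]; exact Real.log_le_log hm0 hm1
  have hlm2 : L - 1 ≤ Real.log m := by
    have h3 : x / 2 ≤ m := by linarith
    have h4 := Real.log_le_log (by linarith) h3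
    rw [Real.log_div (by linarith) (by norm_num), ← hL] at h4
    have := Real.log_two_lt_d9
    linarith
  have hlm0 : 0 < Real.log m := by linarith
  obtain ⟨f1, f2, f3, f4⟩ := jj_facts m hm1'
  have hk1 : (k : ℝ) ≤ L := by rw [hk]; exact Nat.floor_le (by linarith)
  have hk2 : L < k + 1 := by rw [hk]; exact Nat.lt_floor_add_one _
  have hkj : k = jj m ∨ k = jj m + 1 := by
    have q1 : jj m ≤ k := by
      have : ((jj m : ℕ) : ℝ) < ((k + 1 : ℕ) : ℝ) := by push_cast; linarith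
      have : jj m < k + 1 := by exact_mod_cast this
      omega
    have q2 : k < jj m + 2 := by
      have : ((k : ℕ) : ℝ) < ((jj m + 2 : ℕ) : ℝ) := by push_cast; linarith
      exact_mod_cast this
    omega
  obtain ⟨p1, p2⟩ := h3
  have hjL : (jj m : ℝ) ≤ L := by linarith
  have p3 := p2 (jj m) hjL (by linarith)
  rw [← hH] at p1 p3 h4
  have hH0 : 0 < H := by rw [hH]; exact Real.rpow_pos_of_pos (by linarith) a
  obtain ⟨y, hy⟩ : ∃ y : ℕ, y = ⌊H⌋₊ := ⟨_, rfl⟩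
  have hy1 : (y : ℝ) ≤ H := by rw [hy]; exact Nat.floor_le hH0.le
  have hy2 : H < y + 1 := by rw [hy]; exact Nat.lt_floor_add_one _
  have hyτ : L ^ (2 + τ) ≤ y := by linarith
  have hyj : (jj m : ℝ) ^ (2 + τ) ≤ y :=
    (Real.rpow_le_rpow (Nat.cast_nonneg _) hjL (by linarith)).trans hyτ
  have hyA : y ≤ jj m ^ A := by
    have : (y : ℝ) ≤ ((jj m ^ A : ℕ) : ℝ) := by push_cast; linarith
    exact_mod_cast this
  have hLτ : L ≤ L ^ (2 + τ) := by
    calc L = L ^ (1 : ℝ) := (Real.rpow_one _).symm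
      _ ≤ L ^ (2 + τ) := Real.rpow_le_rpow_of_exponent_le (by linarith) (by linarith)
  have hyk : k ≤ y := by
    have : (k : ℝ) ≤ y := by linarith
    exact_mod_cast this
  have hyN0 : 0 < y := by
    have : (0 : ℝ) < y := by linarith
    exact_mod_cast this
  have hy0 : (0 : ℝ) < y := by exact_mod_cast hyN0
  obtain ⟨b1, b2, b3⟩ := h2 y hyk
  obtain ⟨c1, c2⟩ := h1 y hyj hyA k hkj
  -- the count
  obtain ⟨N, hN⟩ : ∃ N : ℝ, N = (NM M m y : ℝ) := ⟨_, rfl⟩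
  have hN0 : 0 ≤ N := by rw [hN]; exact Nat.cast_nonneg _
  rw [← hN] at c1 c2
  have hCC : N ≤ (CC M x (x + H) : ℝ) ∧ (CC M x (x + H) : ℝ) ≤ N + 1 := by
    rw [CC_floor M x (x + H) hx0 (by linarith), ← hm, hN]
    have q1 : y ≤ ⌊x + H⌋₊ - m := by
      have q2 : m + y ≤ ⌊x + H⌋₊ := by
        apply Nat.le_floor
        push_cast
        linarith
      omega
    have q3 : ⌊x + H⌋₊ - m ≤ y + 1 := by
      have q4 : ⌊x + H⌋₊ < m + y + 2 := by
        rw [Nat.floor_lt (by linarith)]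
        push_cast
        linarith
      omega
    constructor
    · exact_mod_cast NM_mono M m q1
    · have q5 : NM M m (⌊x + H⌋₊ - m) ≤ NM M m y + 1 :=
        (NM_mono M m q3).trans (by rw [NM_add]; exact Nat.add_le_add_left (NM_one M _) _)
      exact_mod_cast q5
  have hRr : Rr M a x = L / H * (CC M x (x + H) : ℝ) := by
    unfold Rr
    rw [← hL, ← hH]
  have hsM : sM a L = (y / H) * sm k y := by
    rw [sM_eq a L (by linarith) (by rw [← hH, ← hy]; exact hyN0), ← hH, ← hy, ← hk]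
  have hsP : sP a L = (y / H) * sp k y := by
    rw [sP_eq a L (by linarith) (by rw [← hH, ← hy]; exact hyN0), ← hH, ← hy, ← hk]
  obtain ⟨r, hr⟩ : ∃ r : ℝ, r = (y : ℝ) / H := ⟨_, rfl⟩
  have hr0 : 0 < r := by rw [hr]; positivity
  have hr1 : r ≤ 1 := by rw [hr, div_le_one hH0]; exact hy1
  rw [← hr] at hsM hsP
  obtain ⟨u, hu⟩ : ∃ u : ℝ, u = N * Real.log m / y := ⟨_, rfl⟩
  rw [← hu] at c1 c2
  have hu0 : 0 ≤ u := by rw [hu]; positivity
  have hLN : L / H * N = (L / Real.log m) * (r * u) := by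
    rw [hr, hu]; field_simp
  have hLl : 1 ≤ L / Real.log m := by rw [one_le_div hlm0]; exact hlm1
  rw [hRr, hsM, hsP]
  have hLH0 : 0 ≤ L / H := by positivity
  constructor
  · have q1 : L / H * N ≤ L / H * (CC M x (x + H) : ℝ) := mul_le_mul_of_nonneg_left hCC.1 hLH0
    have q2 : r * u ≤ (L / Real.log m) * (r * u) := le_mul_of_one_le_left (by positivity) hLl
    have q3 : r * (sm k y - ε) ≤ r * u := mul_le_mul_of_nonneg_left c1 hr0.le
    have q4 : r * ε ≤ ε := by nlinarith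
    rw [hLN] at q1
    linarith [mul_sub r (sm k y) ε]
  · have q1 : L / H * (CC M x (x + H) : ℝ) ≤ L / H * (N + 1) := mul_le_mul_of_nonneg_left hCC.2 hLH0
    have q2 : L / H ≤ ε := by rw [div_le_iff₀ hH0]; exact h4
    have q3 : r * u ≤ r * sp k y + ε := by
      have q4 : r * u ≤ r * (sp k y + ε) := mul_le_mul_of_nonneg_left c2 hr0.le
      have q5 : r * ε ≤ ε := by nlinarith
      linarith [mul_add r (sp k y) ε]
    have q4 : (L / Real.log m) * (r * u) ≤ r * u + ε := by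
      have q5 : L / Real.log m ≤ 1 + 1 / Real.log m := by
        rw [div_le_iff₀ hlm0]
        have : (1 + 1 / Real.log m) * Real.log m = Real.log m + 1 := by field_simp
        rw [this]; linarith
      have q6 : r * u ≤ C1 + ε := by
        have : r * sp k y ≤ C1 := by nlinarith [b1.trans b2]
        linarith
      have q7 : (L / Real.log m) * (r * u) ≤ (1 + 1 / Real.log m) * (r * u) :=
        mul_le_mul_of_nonneg_right q5 (by positivity)
      have q8 : (1 / Real.log m) * (r * u) ≤ ε := by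
        have q9 : (1 / Real.log m) * (r * u) ≤ (1 / Real.log m) * (C1 + ε) :=
          mul_le_mul_of_nonneg_left q6 (by positivity)
        have q10 : (1 / Real.log m) * (C1 + ε) ≤ ε := by
          rw [one_div, inv_mul_le_iff₀ hlm0]
          have q11 : (C1 + ε) / ε ≤ Real.log m := by linarith
          rw [div_le_iff₀ hε] at q11
          linarith
        linarith
      linarith [add_mul 1 (1 / Real.log m) (r * u)]
    have q5 : L / H * (N + 1) = L / H * N + L / H := by ring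
    rw [q5, hLN] at q1
    linarith

/-- the model has few elements in short intervals -/
theorem model_bt : ∃ C : ℝ, 1 ≤ C ∧ ∀ᶠ j : ℕ in atTop, ∀ ρ : ℕ → ℕ, (∀ p : ℕ, p.Prime → ρ p < p) → ∀ m h : ℕ,
    Real.exp j ≤ m → j ≤ h → (NM (model ρ) m h : ℝ) ≤ C * (h / Real.log j) := by
  obtain ⟨C, hC1, hC⟩ := bt
  refine ⟨C, hC1, ?_⟩
  filter_upwards [hC, W_le_self] with j h1 h2
  intro ρ hρ m h hm hjh
  refine le_trans ?_ (h1 ρ (fun p hp => hρ p (Pr_prime _ p hp)) m h hjh)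
  have hm0 : (0 : ℝ) < m := (Real.exp_pos _).trans_le hm
  have hm1 : 1 ≤ m := by
    have : 0 < m := by exact_mod_cast hm0
    omega
  have h3 := (sandwich2 ρ hρ m h hm1).2
  have h4 : ((Ioc m (m + h)).filter (fun n => ∀ p ∈ TT (Real.log (m : ℝ)), n % p ≠ ρ p)).card ≤ cnt ρ j m h := by
    unfold cnt
    apply card_le_card
    intro n hn
    rw [mem_filter] at hn ⊢
    refine ⟨hn.1, fun p hp => hn.2 p ?_⟩
    rw [mem_Pr] at hp
    rw [mem_TT]
    refine ⟨hp.1, ((W_mono hp.2).trans h2).trans ?_⟩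
    exact (Real.le_log_iff_exp_le hm0).2 hm
  exact_mod_cast h3.trans h4

end Pool.Agent.V5helper42.RS
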