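import Pool.Agent.V5helper42.RS.P4
import Pool.Agent.V5helper42.RS.S7

set_option autoImplicit false

/-!
# The primes are at least as irregular as the interval sieve (helper42)
-/

namespace Pool.Agent.V5helper42.RS

open Finset Filter Topology
open Pool.Agent.W41 (V V_ge V_pos fac_pos fac_le_one V_le_one)
open Pool.Agent.H510R2.Maier (VV thw)

lemma CC_ge_NM (A : Set ℕ) (n y : ℕ) (h : ℝ) (hy : (y : ℝ) ≤ h) : (NM A n y : ℝ) ≤ CC A n (n + h) := by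
  have h1 := CC_mono A (u := (n : ℝ)) (show (n : ℝ) + y ≤ n + h by linarith)
  rw [← CC_NM]
  exact Nat.cast_le.2 h1

lemma CC_le_NM (A : Set ℕ) (n Y : ℕ) (h : ℝ) (h0 : 0 ≤ h) (hY : ⌊h⌋₊ ≤ Y) : (CC A n (n + h) : ℝ) ≤ NM A n Y := by
  rw [CC_floor A _ _ (Nat.cast_nonneg _) (by linarith), Nat.floor_natCast]
  have e : ⌊(n : ℝ) + h⌋₊ - n = ⌊h⌋₊ := by
    rw [add_comm, Nat.floor_add_natCast h0]; omega
  rw [e]
  exact_mod_cast NM_mono A n hY

/-- many primes -/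
theorem primes_up (s : ℝ) (hs : 2 < s) (ε : ℝ) (hε : 0 < ε) : ∀ᶠ X : ℝ in atTop,
    ∃ x : ℝ, X / 3 ≤ x ∧ x ≤ 3 * X ∧ sP s (Real.log X) - ε ≤ Rr PS s x := by
  obtain ⟨C1, hC1, hbd⟩ := sp_bdd
  obtain ⟨C, hC, hbt⟩ := btP
  obtain ⟨c', hc', hVl⟩ := VV_lower
  obtain ⟨ε₁, hε₁⟩ : ∃ ε₁ : ℝ, ε₁ = min (1 / 2) (ε / (1 + 4 * C1)) := ⟨_, rfl⟩
  have hε₁0 : 0 < ε₁ := by rw [hε₁]; positivity
  have hε₁1 : ε₁ ≤ 1 / 2 := by rw [hε₁]; exact min_le_left _ _
  have hε₁2 : ε₁ * (1 + 4 * C1) ≤ ε := by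
    have : ε₁ ≤ ε / (1 + 4 * C1) := by rw [hε₁]; exact min_le_right _ _
    rwa [le_div_iff₀ (by linarith)] at this
  have hfl : Tendsto (fun x : ℝ => ⌊Real.log x⌋₊) atTop atTop :=
    tendsto_nat_floor_atTop.comp Real.tendsto_log_atTop
  filter_upwards [setup s hs C hC hbt ε₁ hε₁0 hε₁1, hfl.eventually hbd, hfl.eventually hVl, sizes2 s hs ε₁ hε₁0,
    Real.tendsto_log_atTop.eventually_ge_atTop (80 / (c' * ε₁)), Real.tendsto_log_atTop.eventually_ge_atTop (20 * s / ε₁),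
    eventually_ge_atTop (1 : ℝ)] with X h1 h2 h3 h4 h5 h6 h7
  obtain ⟨s1, s2, s3, s4, s5, s6⟩ := h4
  obtain ⟨P, hPj, hVP, _, hrow⟩ := h1
  obtain ⟨t, ht⟩ : ∃ t : ℝ, t = Real.log X := ⟨_, rfl⟩
  obtain ⟨j, hj⟩ : ∃ j : ℕ, j = ⌊t⌋₊ := ⟨_, rfl⟩
  obtain ⟨y, hy⟩ : ∃ y : ℕ, y = ⌊t ^ s⌋₊ := ⟨_, rfl⟩
  rw [← ht, ← hj] at h2 h3 hPj hVP
  rw [← ht, ← hj, ← hy] at hrow
  rw [← ht] at s1 s2 s3 s4 s5 s6 h5 h6 ⊢
  have hX0 : 0 < X := by linarith
  have ht0 : 0 < t := by linarith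
  have hj1 : (j : ℝ) ≤ t := by rw [hj]; exact Nat.floor_le ht0.le
  have hj2 : t < j + 1 := by rw [hj]; exact Nat.lt_floor_add_one _
  have hjR : (7 : ℝ) < j := by linarith
  have hj0 : (0 : ℝ) < j := by linarith
  have hts0 : 0 < t ^ s := Real.rpow_pos_of_pos ht0 s
  have hy1 : (y : ℝ) ≤ t ^ s := by rw [hy]; exact Nat.floor_le hts0.le
  have hy2 : t ^ s < y + 1 := by rw [hy]; exact Nat.lt_floor_add_one _
  have ht2 : 8 * t ≤ t ^ 2 := by rw [sq]; exact mul_le_mul_of_nonneg_right s5 ht0.le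
  have hyt : 7 * t ^ 2 ≤ y := by linarith
  have hy0 : (0 : ℝ) < y := by linarith
  have hyN0 : 0 < y := by exact_mod_cast hy0
  have hjy : j ≤ y := by
    have : (j : ℝ) ≤ y := by linarith
    exact_mod_cast this
  obtain ⟨b1, b2, b3⟩ := h2 y hjy
  have hVj0 : 0 < V (Pr j) := V_pos (Pr_prime j)
  have hVP0 : 0 < V P := V_pos fun p hp => Pr_prime j p (hPj hp)
  have hlogj0 : 0 < Real.log (j : ℝ) := Real.log_pos (by linarith)
  have hlogj1 : Real.log (j : ℝ) ≤ t := (Real.log_le_sub_one_of_pos hj0).trans (by linarith)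
  -- `80 ≤ ε₁ y V_j`
  have h80 : 80 ≤ ε₁ * (y * V (Pr j)) := by
    have q1 : t * c' ≤ y * V (Pr j) := by
      have q2 : t * c' ≤ y * (c' / Real.log j) := by
        rw [mul_div_assoc', le_div_iff₀ hlogj0]
        have q3 : t * c' * Real.log j ≤ t * c' * t := mul_le_mul_of_nonneg_left hlogj1 (by positivity)
        have q4 : t * c' * t = c' * t ^ 2 := by ring
        have q5 : c' * t ^ 2 ≤ c' * y := mul_le_mul_of_nonneg_left (by linarith [sq_nonneg t]) hc'.le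
        linarith
      exact q2.trans (mul_le_mul_of_nonneg_left h3 hy0.le)
    rw [div_le_iff₀ (by positivity)] at h5
    have q2 : ε₁ * (t * c') ≤ ε₁ * (y * V (Pr j)) := mul_le_mul_of_nonneg_left q1 hε₁0.le
    linarith
  obtain ⟨c, hc1, hc2⟩ := Sp_spec j y
  obtain ⟨n, n1, n2, n3⟩ := (hrow c hc1).1
  refine ⟨n, by linarith, n2.le, ?_⟩
  have hn0 : (0 : ℝ) < n := by linarith
  -- the values
  obtain ⟨N, hN⟩ : ∃ N : ℝ, N = (NM PS n y : ℝ) := ⟨_, rfl⟩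
  have hN0 : 0 ≤ N := by rw [hN]; exact Nat.cast_nonneg _
  have hyX : (y : ℝ) ≤ X := by
    have := Real.rpow_le_rpow ht0.le (show t ≤ t + 2 by linarith) (show 0 ≤ s by linarith)
    linarith
  have hthw : thw n y ≤ (t + 2) * N := by
    have q1 := thw_hi n y (4 * X) (by linarith)
    have q2 : Real.log (4 * X) ≤ t + 2 := by
      rw [Real.log_mul (by norm_num) hX0.ne', ← ht]
      have q3 : Real.log 4 = 2 * Real.log 2 := by
        rw [show (4 : ℝ) = 2 ^ 2 by norm_num, Real.log_pow]; push_cast; ring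
      have := Real.log_two_lt_d9
      linarith
    rw [← hN] at q1
    exact q1.trans (mul_le_mul_of_nonneg_right q2 hN0)
  obtain ⟨L, hL⟩ : ∃ L : ℝ, L = Real.log (n : ℝ) := ⟨_, rfl⟩
  have hL1 : t ≤ L := by rw [hL, ht]; exact Real.log_le_log hX0 n1.le
  have hL2 : L ≤ t + 2 := by
    have q1 : L ≤ Real.log (3 * X) := by rw [hL]; exact Real.log_le_log hn0 n2.le
    rw [Real.log_mul (by norm_num) hX0.ne', ← ht] at q1
    have q2 : Real.log 3 ≤ 2 := by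
      have := Real.log_le_sub_one_of_pos (show (0 : ℝ) < 3 by norm_num)
      linarith
    linarith
  have hLs0 : 0 < L ^ s := Real.rpow_pos_of_pos (by linarith) s
  have hLs1 : t ^ s ≤ L ^ s := Real.rpow_le_rpow ht0.le hL1 (by linarith)
  have hLs2 : L ^ s ≤ (1 + 4 * s / t) * t ^ s :=
    (Real.rpow_le_rpow (by linarith) hL2 (by linarith)).trans (pw3 s t (by linarith) s4)
  have hR : Rr PS s n = L / L ^ s * (CC PS n (n + L ^ s) : ℝ) := by
    unfold Rr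
    rw [← hL]
  have hR0 : 0 ≤ Rr PS s n := by
    rw [hR]
    have : 0 ≤ L := by linarith
    positivity
  have hRN : L / L ^ s * N ≤ Rr PS s n := by
    rw [hR]
    apply mul_le_mul_of_nonneg_left _ (div_nonneg (by linarith) hLs0.le)
    rw [hN]
    exact CC_ge_NM PS n y _ (hy1.trans hLs1)
  have hsP : sP s t = (y / t ^ s) * sp j y := by
    rw [sP_eq s t ht0 (by rw [← hy]; exact hyN0), ← hy, ← hj]
  obtain ⟨r, hr⟩ : ∃ r : ℝ, r = (y : ℝ) / t ^ s := ⟨_, rfl⟩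
  have hr0 : 0 < r := by rw [hr]; positivity
  have hr1 : r ≤ 1 := by rw [hr, div_le_one hts0]; exact hy1
  rw [← hr] at hsP
  obtain ⟨σ, hσ⟩ : ∃ σ : ℝ, σ = (1 - 2 * ε₁) * (sp j y - ε₁) := ⟨_, rfl⟩
  have hsp0 : 0 ≤ sp j y := b1.trans b2
  -- `y σ ≤ (t + 2) N`
  have hmain : y * σ ≤ (t + 2) * N := by
    rcases le_or_gt (sp j y - ε₁) 0 with hneg | hpos
    · have q1 : σ ≤ 0 := by
        rw [hσ]
        exact mul_nonpos_of_nonneg_of_nonpos (by linarith) hneg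
      have q2 : y * σ ≤ 0 := mul_nonpos_of_nonneg_of_nonpos hy0.le q1
      have q3 : 0 ≤ (t + 2) * N := mul_nonneg (by linarith) hN0
      linarith
    · refine le_trans ?_ (n3.trans hthw)
      have q1 : (sp j y - ε₁) * (y * V (Pr j)) ≤ (cntP c P 0 y : ℝ) - 80 := by
        have q2 : (Sp j y : ℝ) ≤ cntP c P 0 y := by
          rw [← hc2, ← cntP_Pr]
          exact_mod_cast cntP_anti c hPj 0 y
        rw [Sp_eq j y hyN0] at q2
        rw [sub_mul]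
        linarith
      have q2 : (sp j y - ε₁) * y / (1 + ε₁) ≤ ((cntP c P 0 y : ℝ) - 80) / V P := by
        rw [div_le_div_iff₀ (by linarith) hVP0]
        have q3 : (sp j y - ε₁) * y * V P ≤ (sp j y - ε₁) * y * ((1 + ε₁) * V (Pr j)) :=
          mul_le_mul_of_nonneg_left hVP (mul_nonneg hpos.le hy0.le)
        have q4 : (sp j y - ε₁) * y * ((1 + ε₁) * V (Pr j)) = (sp j y - ε₁) * (y * V (Pr j)) * (1 + ε₁) := by ring
        have q5 := mul_le_mul_of_nonneg_right q1 (show 0 ≤ 1 + ε₁ by linarith)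
        linarith
      have q3 := mul_le_mul_of_nonneg_left q2 (show 0 ≤ 1 - ε₁ by linarith)
      refine le_trans ?_ q3
      have q4 : (1 - 2 * ε₁) ≤ (1 - ε₁) / (1 + ε₁) := by
        rw [le_div_iff₀ (by linarith)]
        nlinarith
      have q5 := mul_le_mul_of_nonneg_right q4 (mul_nonneg hpos.le hy0.le)
      rw [hσ]
      have e1 : (y : ℝ) * ((1 - 2 * ε₁) * (sp j y - ε₁)) = (1 - 2 * ε₁) * ((sp j y - ε₁) * y) := by ring
      have e2 : (1 - ε₁) * ((sp j y - ε₁) * y / (1 + ε₁)) = (1 - ε₁) / (1 + ε₁) * ((sp j y - ε₁) * y) := by ring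
      rw [e1, e2]
      exact q5
  -- `σ` against `sp`
  have hσ1 : sp j y - ε₁ * (1 + 2 * C1) ≤ σ := by
    rw [hσ]
    have q1 : ε₁ * sp j y ≤ ε₁ * C1 := mul_le_mul_of_nonneg_left b3 hε₁0.le
    have q2 : (1 - 2 * ε₁) * (sp j y - ε₁) = sp j y - ε₁ - 2 * (ε₁ * sp j y) + 2 * (ε₁ * ε₁) := by ring
    have q3 : 0 ≤ ε₁ * ε₁ := by positivity
    rw [q2]
    linarith
  have hσ2 : σ ≤ C1 := by
    rw [hσ]
    rcases le_or_gt (sp j y - ε₁) 0 with hneg | hpos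
    · have := mul_nonpos_of_nonneg_of_nonpos (show 0 ≤ 1 - 2 * ε₁ by linarith) hneg
      linarith
    · have q1 : (1 - 2 * ε₁) * (sp j y - ε₁) ≤ 1 * (sp j y - ε₁) := mul_le_mul_of_nonneg_right (by linarith) hpos.le
      linarith
  -- the factor
  have hfac : (1 - ε₁) * (t + 2) * (1 + 4 * s / t) ≤ t := by
    have q1 : (t + 2) * (1 + 4 * s / t) = t + 2 + 4 * s + 8 * s / t := by field_simp; ring
    have q2 : 8 * s / t ≤ s := by
      rw [div_le_iff₀ ht0]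
      have : s * 8 ≤ s * t := mul_le_mul_of_nonneg_left s5 (by linarith)
      linarith
    have q3 : (t + 2) * (1 + 4 * s / t) ≤ t + 6 * s := by rw [q1]; linarith
    rw [div_le_iff₀ hε₁0] at h6
    have q4 : (1 - ε₁) * ((t + 2) * (1 + 4 * s / t)) ≤ (1 - ε₁) * (t + 6 * s) :=
      mul_le_mul_of_nonneg_left q3 (by linarith)
    have q5 : (1 - ε₁) * (t + 6 * s) = t - ε₁ * t + (1 - ε₁) * (6 * s) := by ring
    have q6 : (1 - ε₁) * (6 * s) ≤ 1 * (6 * s) := mul_le_mul_of_nonneg_right (by linarith) (by linarith)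
    rw [mul_assoc]
    linarith
  rcases le_or_gt σ 0 with hσn | hσp
  · have q1 : r * sp j y ≤ sp j y := mul_le_of_le_one_left hsp0 hr1
    rw [hsP]
    have q2 : ε₁ * (1 + 2 * C1) ≤ ε₁ * (1 + 4 * C1) := mul_le_mul_of_nonneg_left (by linarith) hε₁0.le
    linarith
  · have q1 : (1 - ε₁) * (r * σ) ≤ L / L ^ s * N := by
      have q2 : y * σ / (t + 2) ≤ N := by
        rw [div_le_iff₀ (by linarith)]
        linarith
      have q3 : t / ((1 + 4 * s / t) * t ^ s) ≤ L / L ^ s :=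
        div_le_div₀ (by linarith) hL1 hLs0 hLs2
      have q4 : t / ((1 + 4 * s / t) * t ^ s) * (y * σ / (t + 2)) ≤ L / L ^ s * N :=
        mul_le_mul q3 q2 (div_nonneg (mul_nonneg hy0.le hσp.le) (by linarith)) (div_nonneg (by linarith) hLs0.le)
      refine le_trans ?_ q4
      have e1 : t / ((1 + 4 * s / t) * t ^ s) * (y * σ / (t + 2)) =
          (t / ((t + 2) * (1 + 4 * s / t))) * (r * σ) := by
        rw [hr]
        have : 1 + 4 * s / t ≠ 0 := by positivity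
        field_simp
      rw [e1]
      apply mul_le_mul_of_nonneg_right _ (mul_nonneg hr0.le hσp.le)
      rw [le_div_iff₀ (by positivity), ← mul_assoc]
      exact hfac
    have q2 : ε₁ * (r * σ) ≤ ε₁ * C1 := by
      apply mul_le_mul_of_nonneg_left _ hε₁0.le
      exact (mul_le_of_le_one_left hσp.le hr1).trans hσ2
    have q3 : r * (sp j y - ε₁ * (1 + 2 * C1)) ≤ r * σ := mul_le_mul_of_nonneg_left hσ1 hr0.le
    have q4 : r * (ε₁ * (1 + 2 * C1)) ≤ ε₁ * (1 + 2 * C1) :=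
      mul_le_of_le_one_left (mul_nonneg hε₁0.le (by linarith)) hr1
    have q5 : (1 - ε₁) * (r * σ) = r * σ - ε₁ * (r * σ) := by ring
    rw [mul_sub] at q3
    rw [hsP]
    have q6 : ε₁ * (1 + 2 * C1) + ε₁ * C1 ≤ ε₁ * (1 + 4 * C1) := by
      have : ε₁ * (1 + 2 * C1) + ε₁ * C1 = ε₁ * (1 + 3 * C1) := by ring
      rw [this]
      exact mul_le_mul_of_nonneg_left (by linarith) hε₁0.le
    linarith

/-- few primes -/
theorem primes_lo (s : ℝ) (hs : 2 < s) (ε : ℝ) (hε : 0 < ε) : ∀ᶠ X : ℝ in atTop,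
    ∃ x : ℝ, X / 3 ≤ x ∧ x ≤ 3 * X ∧ Rr PS s x ≤ sM s (Real.log X) + ε := by
  obtain ⟨C1, hC1, hbd⟩ := sp_bdd
  obtain ⟨C, hC, hbt⟩ := btP
  obtain ⟨c', hc', hVl⟩ := VV_lower
  obtain ⟨κ, hκ⟩ : ∃ κ : ℝ, κ = (1 + C) / c' + 1 := ⟨_, rfl⟩
  have hκ0 : 0 < κ := by rw [hκ]; positivity
  obtain ⟨ε₁, hε₁⟩ : ∃ ε₁ : ℝ, ε₁ = min (1 / 2) (ε / (2 * κ + C1)) := ⟨_, rfl⟩
  have hε₁0 : 0 < ε₁ := by rw [hε₁]; positivity
  have hε₁1 : ε₁ ≤ 1 / 2 := by rw [hε₁]; exact min_le_left _ _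
  have hε₁2 : ε₁ * (2 * κ + C1) ≤ ε := by
    have : ε₁ ≤ ε / (2 * κ + C1) := by rw [hε₁]; exact min_le_right _ _
    rwa [le_div_iff₀ (by linarith)] at this
  have hfl : Tendsto (fun x : ℝ => ⌊Real.log x⌋₊) atTop atTop :=
    tendsto_nat_floor_atTop.comp Real.tendsto_log_atTop
  filter_upwards [setup s hs C hC hbt ε₁ hε₁0 hε₁1, hfl.eventually hbd, hfl.eventually hVl, sizes2 s hs ε₁ hε₁0,
    Real.tendsto_log_atTop.eventually_ge_atTop (80 / (c' * ε₁)),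
    eventually_ge_atTop (1 : ℝ)] with X h1 h2 h3 h4 h5 h7
  obtain ⟨s1, s2, s3, s4, s5, s6⟩ := h4
  obtain ⟨P, hPj, hVP, hlow, hrow⟩ := h1
  obtain ⟨t, ht⟩ : ∃ t : ℝ, t = Real.log X := ⟨_, rfl⟩
  obtain ⟨j, hj⟩ : ∃ j : ℕ, j = ⌊t⌋₊ := ⟨_, rfl⟩
  obtain ⟨y, hy⟩ : ∃ y : ℕ, y = ⌊t ^ s⌋₊ := ⟨_, rfl⟩
  obtain ⟨Y, hY⟩ : ∃ Y : ℕ, Y = ⌊(t + 2) ^ s⌋₊ := ⟨_, rfl⟩
  rw [← ht, ← hj] at h2 h3 hPj hVP
  rw [← ht, ← hj, ← hy, ← hY] at hrow hlow
  rw [← ht] at s1 s2 s3 s4 s5 s6 h5 ⊢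
  have hX0 : 0 < X := by linarith
  have ht0 : 0 < t := by linarith
  have hj1 : (j : ℝ) ≤ t := by rw [hj]; exact Nat.floor_le ht0.le
  have hj2 : t < j + 1 := by rw [hj]; exact Nat.lt_floor_add_one _
  have hjR : (7 : ℝ) < j := by linarith
  have hj0 : (0 : ℝ) < j := by linarith
  have hts0 : 0 < t ^ s := Real.rpow_pos_of_pos ht0 s
  have hy1 : (y : ℝ) ≤ t ^ s := by rw [hy]; exact Nat.floor_le hts0.le
  have hy2 : t ^ s < y + 1 := by rw [hy]; exact Nat.lt_floor_add_one _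
  have ht2 : 8 * t ≤ t ^ 2 := by rw [sq]; exact mul_le_mul_of_nonneg_right s5 ht0.le
  have hyt : 7 * t ^ 2 ≤ y := by linarith
  have hy0 : (0 : ℝ) < y := by linarith
  have hyN0 : 0 < y := by exact_mod_cast hy0
  have hjy : j ≤ y := by
    have : (j : ℝ) ≤ y := by linarith
    exact_mod_cast this
  obtain ⟨b1, b2, b3⟩ := h2 y hjy
  have hVj0 : 0 < V (Pr j) := V_pos (Pr_prime j)
  have hVP0 : 0 < V P := V_pos fun p hp => Pr_prime j p (hPj hp)
  have hVjP : V (Pr j) ≤ V P := V_anti hPj (Pr_prime j)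
  have hlogj0 : 0 < Real.log (j : ℝ) := Real.log_pos (by linarith)
  have hlogj1 : Real.log (j : ℝ) ≤ t := (Real.log_le_sub_one_of_pos hj0).trans (by linarith)
  have h80 : 80 ≤ ε₁ * (y * V (Pr j)) := by
    have q1 : t * c' ≤ y * V (Pr j) := by
      have q2 : t * c' ≤ y * (c' / Real.log j) := by
        rw [mul_div_assoc', le_div_iff₀ hlogj0]
        have q3 : t * c' * Real.log j ≤ t * c' * t := mul_le_mul_of_nonneg_left hlogj1 (by positivity)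
        have q4 : t * c' * t = c' * t ^ 2 := by ring
        have q5 : c' * t ^ 2 ≤ c' * y := mul_le_mul_of_nonneg_left (by linarith [sq_nonneg t]) hc'.le
        linarith
      exact q2.trans (mul_le_mul_of_nonneg_left h3 hy0.le)
    rw [div_le_iff₀ (by positivity)] at h5
    have q2 : ε₁ * (t * c') ≤ ε₁ * (y * V (Pr j)) := mul_le_mul_of_nonneg_left q1 hε₁0.le
    linarith
  obtain ⟨c, hc1, hc2⟩ := Sm_spec j y
  obtain ⟨n, n1, n2, n3⟩ := (hrow c hc1).2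
  have hl := hlow c hc1
  refine ⟨n, by linarith, n2.le, ?_⟩
  have hn0 : (0 : ℝ) < n := by linarith
  obtain ⟨N, hN⟩ : ∃ N : ℝ, N = (NM PS n Y : ℝ) := ⟨_, rfl⟩
  have hN0 : 0 ≤ N := by rw [hN]; exact Nat.cast_nonneg _
  have hthw : t * N ≤ thw n Y := by
    rw [ht, hN]
    exact thw_lo n Y X hX0 n1
  obtain ⟨L, hL⟩ : ∃ L : ℝ, L = Real.log (n : ℝ) := ⟨_, rfl⟩
  have hL1 : t ≤ L := by rw [hL, ht]; exact Real.log_le_log hX0 n1.le
  have hL2 : L ≤ t + 2 := by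
    have q1 : L ≤ Real.log (3 * X) := by rw [hL]; exact Real.log_le_log hn0 n2.le
    rw [Real.log_mul (by norm_num) hX0.ne', ← ht] at q1
    have q2 : Real.log 3 ≤ 2 := by
      have := Real.log_le_sub_one_of_pos (show (0 : ℝ) < 3 by norm_num)
      linarith
    linarith
  have hL0 : 0 < L := by linarith
  have hLs0 : 0 < L ^ s := Real.rpow_pos_of_pos hL0 s
  have hR : Rr PS s n = L / L ^ s * (CC PS n (n + L ^ s) : ℝ) := by
    unfold Rr
    rw [← hL]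
  have hRN : Rr PS s n ≤ L / L ^ s * N := by
    rw [hR]
    apply mul_le_mul_of_nonneg_left _ (div_nonneg hL0.le hLs0.le)
    rw [hN]
    apply CC_le_NM PS n Y _ hLs0.le
    rw [hY]
    exact Nat.floor_mono (Real.rpow_le_rpow hL0.le hL2 (by linarith))
  have hLt : L / L ^ s ≤ t / t ^ s := by
    have e1 : ∀ u : ℝ, 0 < u → u / u ^ s = u ^ (1 - s) := by
      intro u hu
      rw [Real.rpow_sub hu, Real.rpow_one]
    rw [e1 L hL0, e1 t ht0]
    exact Real.rpow_le_rpow_of_nonpos ht0 hL1 (by linarith)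
  have hsM : sM s t = (y / t ^ s) * sm j y := by
    rw [sM_eq s t ht0 (by rw [← hy]; exact hyN0), ← hy, ← hj]
  obtain ⟨r, hr⟩ : ∃ r : ℝ, r = (y : ℝ) / t ^ s := ⟨_, rfl⟩
  have hr0 : 0 < r := by rw [hr]; positivity
  have hr1 : r ≤ 1 := by rw [hr, div_le_one hts0]; exact hy1
  rw [← hr] at hsM
  -- `t N ≤ (1 + ε₁) y (sm + ε₁ κ)`
  have hcount : (cntP c P 0 Y : ℝ) + 80 ≤ (sm j y + ε₁ * κ) * (y * V (Pr j)) := by
    rw [hc2, Sm_eq j y hyN0] at hl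
    have q1 : (y : ℝ) / Real.log j ≤ (1 / c') * (y * V (Pr j)) := by
      have q2 : (y : ℝ) * (c' / Real.log j) ≤ y * V (Pr j) := mul_le_mul_of_nonneg_left h3 hy0.le
      have q3 : (1 / c') * (y * (c' / Real.log j)) ≤ (1 / c') * (y * V (Pr j)) :=
        mul_le_mul_of_nonneg_left q2 (by positivity)
      refine le_trans (le_of_eq ?_) q3
      field_simp
    have q2 : ε₁ * (1 + C) * ((y : ℝ) / Real.log j) ≤ ε₁ * (1 + C) * ((1 / c') * (y * V (Pr j))) :=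
      mul_le_mul_of_nonneg_left q1 (mul_nonneg hε₁0.le (by linarith))
    have q3 : (sm j y + ε₁ * κ) * (y * V (Pr j)) = sm j y * (y * V (Pr j)) +
        ε₁ * (1 + C) * ((1 / c') * (y * V (Pr j))) + ε₁ * (y * V (Pr j)) := by
      rw [hκ]; ring
    rw [q3]
    linarith
  have hσ0 : 0 ≤ sm j y + ε₁ * κ := add_nonneg b1 (mul_nonneg hε₁0.le hκ0.le)
  have htN : t * N ≤ (1 + ε₁) * ((sm j y + ε₁ * κ) * y) := by
    refine hthw.trans (n3.trans ?_)
    apply mul_le_mul_of_nonneg_left _ (by linarith)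
    rw [div_le_iff₀ hVP0]
    have q1 : (sm j y + ε₁ * κ) * y * V (Pr j) ≤ (sm j y + ε₁ * κ) * y * V P :=
      mul_le_mul_of_nonneg_left hVjP (mul_nonneg hσ0 hy0.le)
    have q2 : (sm j y + ε₁ * κ) * (y * V (Pr j)) = (sm j y + ε₁ * κ) * y * V (Pr j) := by ring
    linarith
  have hfin : Rr PS s n ≤ (1 + ε₁) * (r * (sm j y + ε₁ * κ)) := by
    have q1 : L / L ^ s * N ≤ t / t ^ s * N := mul_le_mul_of_nonneg_right hLt hN0
    have q2 : t / t ^ s * N = t * N / t ^ s := by ring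
    have q3 : t * N / t ^ s ≤ (1 + ε₁) * ((sm j y + ε₁ * κ) * y) / t ^ s :=
      div_le_div_of_nonneg_right htN hts0.le
    have q4 : (1 + ε₁) * ((sm j y + ε₁ * κ) * y) / t ^ s = (1 + ε₁) * (r * (sm j y + ε₁ * κ)) := by
      rw [hr]; ring
    rw [q2] at q1
    rw [q4] at q3
    exact hRN.trans (q1.trans q3)
  have q1 : r * (sm j y + ε₁ * κ) ≤ r * sm j y + ε₁ * κ := by
    have : r * (ε₁ * κ) ≤ ε₁ * κ := mul_le_of_le_one_left (mul_nonneg hε₁0.le hκ0.le) hr1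
    rw [mul_add]; linarith
  have q2 : r * sm j y ≤ C1 := (mul_le_of_le_one_left b1 hr1).trans (b2.trans b3)
  have q3 : ε₁ * (r * sm j y + ε₁ * κ) ≤ ε₁ * (C1 + κ) := by
    apply mul_le_mul_of_nonneg_left _ hε₁0.le
    have : ε₁ * κ ≤ 1 * κ := mul_le_mul_of_nonneg_right (by linarith) hκ0.le
    linarith
  have q4 : (1 + ε₁) * (r * (sm j y + ε₁ * κ)) ≤ (1 + ε₁) * (r * sm j y + ε₁ * κ) :=
    mul_le_mul_of_nonneg_left q1 (by linarith)
  have q5 : (1 + ε₁) * (r * sm j y + ε₁ * κ) = r * sm j y + ε₁ * κ + ε₁ * (r * sm j y + ε₁ * κ) := by ring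
  have q6 : ε₁ * κ + ε₁ * (C1 + κ) = ε₁ * (2 * κ + C1) := by ring
  rw [hsM]
  linarith

end Pool.Agent.V5helper42.RS
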