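import Pool.Agent.V5helper42.RS.I

set_option autoImplicit false

/-!
# Random sieve model: the interval sieve (helper42)
-/

namespace Pool.Agent.V5helper42.RS

open Finset Filter Topology
open Pool.Agent.W41 (V V_ge V_pos fac_pos fac_le_one V_le_one)

/-- the primes up to `n` -/
def Pr (n : ℕ) : Finset ℕ := (Icc 1 n).filter Nat.Prime

lemma Pr_prime (n : ℕ) : ∀ p ∈ Pr n, p.Prime := fun _ hp => (mem_filter.1 hp).2

lemma mem_Pr (n p : ℕ) : p ∈ Pr n ↔ p.Prime ∧ p ≤ n := by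
  unfold Pr
  rw [mem_filter, mem_Icc]
  constructor
  · rintro ⟨⟨_, h⟩, h'⟩; exact ⟨h', h⟩
  · rintro ⟨h', h⟩; exact ⟨⟨h'.one_lt.le, h⟩, h'⟩

lemma Pr_mono {m n : ℕ} (h : m ≤ n) : Pr m ⊆ Pr n := by
  intro p hp
  rw [mem_Pr] at hp ⊢
  exact ⟨hp.1, hp.2.trans h⟩

/-- number of elements of `(u, u + y]` outside the classes `ρ p`, `p ≤ n` -/
def cnt (ρ : ℕ → ℕ) (n u y : ℕ) : ℕ := ((Ioc u (u + y)).filter (fun k => ∀ p ∈ Pr n, k % p ≠ ρ p)).card

lemma cnt_anti (ρ : ℕ → ℕ) {n n' : ℕ} (h : n ≤ n') (u y : ℕ) : cnt ρ n' u y ≤ cnt ρ n u y := by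
  apply card_le_card
  intro k hk
  rw [mem_filter] at hk ⊢
  exact ⟨hk.1, fun p hp => hk.2 p (Pr_mono h hp)⟩

lemma V_Pr (n : ℕ) : V (Pr n) = 1 / W n := by
  rw [W_eq, one_div_one_div]; rfl

lemma VV_lower : ∃ c : ℝ, 0 < c ∧ ∀ᶠ n : ℕ in atTop, c / Real.log n ≤ V (Pr n) := by
  obtain ⟨C, hC, hW⟩ := W_upper
  refine ⟨1 / C, by positivity, ?_⟩
  filter_upwards [hW, eventually_gt_atTop 1] with n hn hn1
  have hl : 0 < Real.log n := Real.log_pos (by exact_mod_cast hn1)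
  rw [V_Pr, div_div]
  exact one_div_le_one_div_of_le (W_pos _) hn

lemma VV_upper : ∀ᶠ n : ℕ in atTop, V (Pr n) ≤ 1 / Real.log n := by
  have hG : (1 : ℝ) < Real.exp Real.eulerMascheroniConstant := by
    have := Real.one_half_lt_eulerMascheroniConstant
    exact Real.one_lt_exp_iff.2 (by linarith)
  have h := Pool.Agent.H305R2.mertens_three.eventually (lt_mem_nhds hG)
  filter_upwards [h, eventually_gt_atTop 1] with n hn hn1
  have hl : 0 < Real.log n := Real.log_pos (by exact_mod_cast hn1)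
  rw [lt_div_iff₀ hl, one_mul] at hn
  rw [V_Pr]
  exact one_div_le_one_div_of_le hl hn.le

/-- the cut -/
noncomputable def zz (j : ℕ) : ℕ := ⌈(j : ℝ) * (Real.log j) ^ 3⌉₊

lemma zz_ge (j : ℕ) : (j : ℝ) * (Real.log j) ^ 3 ≤ zz j := Nat.le_ceil _

lemma le_zz : ∀ᶠ j : ℕ in atTop, j + 1 ≤ zz j := by
  filter_upwards [ev_log 0 2, eventually_ge_atTop 1] with j hj hj1
  have h1 : (2 : ℝ) ≤ Real.log j := by simpa using hj
  have hj0 : (1 : ℝ) ≤ j := by exact_mod_cast hj1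
  have h2 : (2 : ℝ) ≤ (Real.log j) ^ 3 := by
    have : (2 : ℝ) ^ 3 ≤ (Real.log j) ^ 3 := pow_le_pow_left₀ (by norm_num) h1 3
    linarith
  have h3 := zz_ge j
  have h4 : (j : ℝ) + 1 ≤ zz j := by nlinarith
  exact_mod_cast h4

lemma zz_tendsto : Tendsto zz atTop atTop := by
  refine tendsto_atTop_mono' atTop ?_ tendsto_id
  filter_upwards [le_zz] with j hj
  simp only [id]; omega

lemma div3_tendsto : Tendsto (fun j : ℕ => j / 3) atTop atTop := by
  apply tendsto_atTop.2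
  intro b
  filter_upwards [eventually_ge_atTop (3 * b)] with j hj
  omega

lemma loglog_small (δ : ℝ) (hδ : 0 < δ) : ∀ᶠ j : ℕ in atTop, Real.log (Real.log j) ≤ δ * Real.log j := by
  have h1 := (Real.isLittleO_log_id_atTop.comp_tendsto log_tendsto).bound hδ
  filter_upwards [h1, ev_log 0 1] with j hj hj1
  have h2 : (1 : ℝ) ≤ Real.log j := by simpa using hj1
  simp only [Function.comp, id] at hj
  rw [Real.norm_eq_abs, Real.norm_eq_abs, abs_of_pos (show 0 < Real.log (j : ℝ) by linarith)] at hj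
  exact (le_abs_self _).trans hj

lemma log_zz (δ : ℝ) (hδ : 0 < δ) : ∀ᶠ j : ℕ in atTop,
    Real.log (zz j) ≤ (1 + δ) * Real.log ((j / 3 : ℕ) : ℝ) := by
  filter_upwards [loglog_small (δ / 6) (by positivity), ev_log 0 2, ev_log 0 ((1 + 2 * (1 + δ)) * (2 / δ)),
    eventually_ge_atTop 6] with j h1 h2 h3 h4
  have hl : (2 : ℝ) ≤ Real.log j := by simpa using h2
  have h3' : (1 + 2 * (1 + δ)) * (2 / δ) ≤ Real.log j := by simpa using h3
  have hj0 : (6 : ℝ) ≤ j := by exact_mod_cast h4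
  have hz : (zz j : ℝ) ≤ 2 * (j * (Real.log j) ^ 3) := by
    have h5 : (1 : ℝ) ≤ j * (Real.log j) ^ 3 := by
      have : (1 : ℝ) ≤ (Real.log j) ^ 3 := one_le_pow₀ (by linarith)
      nlinarith
    have := (Nat.ceil_lt_add_one (show 0 ≤ (j : ℝ) * (Real.log j) ^ 3 by positivity)).le
    unfold zz
    linarith
  have hz0 : (0 : ℝ) < zz j := by
    have := zz_ge j
    have h5 : (0 : ℝ) < j * (Real.log j) ^ 3 := by positivity
    linarith
  have hlz : Real.log (zz j) ≤ 1 + Real.log j + 3 * Real.log (Real.log j) := by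
    have h5 := Real.log_le_log hz0 hz
    rw [Real.log_mul (by norm_num) (by positivity), Real.log_mul (by positivity) (by positivity), Real.log_pow] at h5
    have := Real.log_two_lt_d9
    push_cast at h5
    linarith
  have hl3 : Real.log j - 2 ≤ Real.log ((j / 3 : ℕ) : ℝ) := by
    have h5 : (j : ℝ) / 6 ≤ ((j / 3 : ℕ) : ℝ) := by
      have h6 : j ≤ 6 * (j / 3) := by omega
      have h7 : (j : ℝ) ≤ 6 * ((j / 3 : ℕ) : ℝ) := by exact_mod_cast h6
      linarith
    have h6 := Real.log_le_log (by linarith) h5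
    rw [Real.log_div (by linarith) (by norm_num)] at h6
    have h7 : Real.log 6 ≤ 2 := by
      rw [Real.log_le_iff_le_exp (by norm_num)]
      have h8 : Real.exp 2 = Real.exp 1 * Real.exp 1 := by rw [← Real.exp_add]; norm_num
      have h9 := Real.exp_one_gt_d9
      rw [h8]; nlinarith
    linarith
  have h5 : 1 + 2 * (1 + δ) ≤ δ / 2 * Real.log j := by
    have h6 := mul_le_mul_of_nonneg_left h3' (show 0 ≤ δ / 2 by positivity)
    have h7 : δ / 2 * ((1 + 2 * (1 + δ)) * (2 / δ)) = 1 + 2 * (1 + δ) := by field_simp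
    linarith
  have h6 := mul_le_mul_of_nonneg_left hl3 (show 0 ≤ 1 + δ by linarith)
  nlinarith

/-- the product of Mertens does not change between `j / 3` and `j (log j)^3` -/
lemma VV_ratio (δ : ℝ) (hδ : 0 < δ) (hδ1 : δ ≤ 1 / 2) : ∀ᶠ j : ℕ in atTop,
    (1 - δ) * V (Pr (j / 3)) ≤ V (Pr (zz j)) := by
  obtain ⟨G, hG⟩ : ∃ G : ℝ, G = Real.exp Real.eulerMascheroniConstant := ⟨_, rfl⟩
  have hG0 : 0 < G := by rw [hG]; exact Real.exp_pos _
  have hm := Pool.Agent.H305R2.mertens_three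
  rw [← hG] at hm
  have h1 := (hm.comp div3_tendsto).eventually (lt_mem_nhds (show G * (1 - δ / 4) < G by nlinarith))
  have h2 := (hm.comp zz_tendsto).eventually (gt_mem_nhds (show G < G * (1 + δ / 4) by nlinarith))
  filter_upwards [h1, h2, log_zz (δ / 4) (by positivity), div3_tendsto.eventually_gt_atTop 1,
    zz_tendsto.eventually_gt_atTop 1] with j g1 g2 g3 g4 g5
  have hl1 : 0 < Real.log ((j / 3 : ℕ) : ℝ) := Real.log_pos (by exact_mod_cast g4)
  have hl2 : 0 < Real.log (zz j : ℝ) := Real.log_pos (by exact_mod_cast g5)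
  simp only [Function.comp] at g1 g2
  rw [lt_div_iff₀ hl1] at g1
  rw [div_lt_iff₀ hl2] at g2
  have g1' : G * (1 - δ / 4) * Real.log ((j / 3 : ℕ) : ℝ) < W (j / 3) := g1
  have g2' : W (zz j) < G * (1 + δ / 4) * Real.log (zz j : ℝ) := g2
  rw [V_Pr, V_Pr, mul_one_div, div_le_div_iff₀ (W_pos _) (W_pos _), one_mul]
  have h3 : W (zz j) ≤ G * (1 + δ / 4) * ((1 + δ / 4) * Real.log ((j / 3 : ℕ) : ℝ)) :=
    g2'.le.trans (mul_le_mul_of_nonneg_left g3 (by positivity))
  have h4 : (1 - δ) * W (zz j) ≤ (1 - δ) * (G * (1 + δ / 4) * ((1 + δ / 4) * Real.log ((j / 3 : ℕ) : ℝ))) :=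
    mul_le_mul_of_nonneg_left h3 (by linarith)
  have h5 : (1 - δ) * ((1 + δ / 4) * (1 + δ / 4)) ≤ 1 - δ / 4 := by nlinarith [sq_nonneg δ, mul_pos hδ hδ]
  have h6 : 0 ≤ G * Real.log ((j / 3 : ℕ) : ℝ) := by positivity
  have h7 := mul_le_mul_of_nonneg_right h5 h6
  nlinarith

/-- BRUN-TITCHMARSH for arbitrary classes -/
theorem bt : ∃ C : ℝ, 1 ≤ C ∧ ∀ᶠ j : ℕ in atTop, ∀ ρ : ℕ → ℕ, (∀ p ∈ Pr j, ρ p < p) → ∀ u h : ℕ, j ≤ h →
    (cnt ρ j u h : ℝ) ≤ C * (h / Real.log j) := by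
  obtain ⟨K, y0, hK1, hy2, hF⟩ := Pool.Agent.W41.fund (ε := 1) one_pos
  have hKR : (1 : ℝ) ≤ K := by exact_mod_cast hK1
  refine ⟨4 * K, by linarith, ?_⟩
  obtain ⟨w, hw⟩ : ∃ w : ℕ → ℕ, w = fun j : ℕ => ⌊(j : ℝ) ^ (1 / (K : ℝ))⌋₊ := ⟨_, rfl⟩
  have hwt : Tendsto w atTop atTop := by
    rw [hw]
    exact tendsto_nat_floor_atTop.comp ((tendsto_rpow_atTop (by positivity)).comp tendsto_natCast_atTop_atTop)
  filter_upwards [hwt.eventually_ge_atTop y0, hwt.eventually VV_upper, hwt.eventually_ge_atTop 2,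
    ev_log 0 (4 * K), eventually_ge_atTop 2] with j h1 h2 h3 h4 h5
  intro ρ hρ u h hjh
  have hj0 : (2 : ℝ) ≤ j := by exact_mod_cast h5
  have hl : 4 * K ≤ Real.log j := by simpa using h4
  have hwj : (w j : ℝ) ≤ (j : ℝ) ^ (1 / (K : ℝ)) := by
    rw [hw]; exact Nat.floor_le (by positivity)
  have hwK : w j ^ K ≤ j := by
    have h6 : (w j : ℝ) ^ K ≤ ((j : ℝ) ^ (1 / (K : ℝ))) ^ K := pow_le_pow_left₀ (Nat.cast_nonneg _) hwj K
    rw [← Real.rpow_natCast ((j : ℝ) ^ (1 / (K : ℝ))) K, ← Real.rpow_mul (by linarith), one_div,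
      inv_mul_cancel₀ (by linarith), Real.rpow_one] at h6
    exact_mod_cast h6
  have hwj2 : w j ≤ j := by
    calc w j = w j ^ 1 := (pow_one _).symm
      _ ≤ w j ^ K := Nat.pow_le_pow_right (by omega) hK1
      _ ≤ j := hwK
  have hlw : Real.log j / (2 * K) ≤ Real.log (w j) := by
    have h6 : (j : ℝ) ^ (1 / (K : ℝ)) ≤ 2 * w j := by
      have h7 : (j : ℝ) ^ (1 / (K : ℝ)) < w j + 1 := by rw [hw]; exact Nat.lt_floor_add_one _
      have h8 : (1 : ℝ) ≤ w j := by exact_mod_cast (by omega : 1 ≤ w j)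
      linarith
    have hw0 : (0 : ℝ) < w j := by exact_mod_cast (by omega : 0 < w j)
    have h7 := Real.log_le_log (Real.rpow_pos_of_pos (by linarith) _) h6
    rw [Real.log_rpow (by linarith), Real.log_mul (by norm_num) hw0.ne'] at h7
    have h8 := Real.log_two_lt_d9
    have h9 : 1 / (K : ℝ) * Real.log j = Real.log j / (2 * K) + Real.log j / (2 * K) := by field_simp; norm_num
    have h10 : 2 ≤ Real.log j / (2 * K) := by
      rw [le_div_iff₀ (by linarith)]; linarith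
    linarith
  have hlog0 : 0 < Real.log j := by linarith
  have hlw0 : 0 < Real.log (w j) := lt_of_lt_of_le (by positivity) hlw
  have hwP : ∀ p ∈ Pr (w j), p.Prime := Pr_prime _
  obtain ⟨ρ', hρ', he⟩ := card_shift u h (Pr (w j)) hwP ρ (fun p hp => hρ p (Pr_mono hwj2 hp))
  have h6 := hF (w j) h1 h (hwK.trans hjh) (Pr (w j)) (fun p hp => ((mem_Pr _ _).1 hp)) ρ' hρ'
  rw [← he, one_mul] at h6
  have h7 := (abs_le.1 h6).2
  have h8 : (cnt ρ j u h : ℝ) ≤ cnt ρ (w j) u h := by exact_mod_cast cnt_anti ρ hwj2 u h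
  have h9 : (cnt ρ (w j) u h : ℝ) ≤ 2 * (h * V (Pr (w j))) := by
    unfold cnt
    linarith
  have h10 : V (Pr (w j)) ≤ 2 * K / Real.log j := by
    refine h2.trans ?_
    rw [div_le_div_iff₀ hlw0 hlog0, one_mul]
    rw [div_le_iff₀ (by linarith)] at hlw
    linarith
  calc (cnt ρ j u h : ℝ) ≤ 2 * (h * V (Pr (w j))) := h8.trans h9
    _ ≤ 2 * (h * (2 * K / Real.log j)) := by
        apply mul_le_mul_of_nonneg_left _ (by norm_num)
        exact mul_le_mul_of_nonneg_left h10 (Nat.cast_nonneg _)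
    _ = 4 * K * (h / Real.log j) := by ring

/-- one class modulo `p` in the survivors of the primes up to `j` -/
def cls (ρ : ℕ → ℕ) (j p r u y : ℕ) : Finset ℕ :=
  (Ioc u (u + y)).filter (fun k => k % p = r ∧ ∀ q ∈ Pr j, k % q ≠ ρ q)

/-- one class modulo a prime `p > j`, in the survivors of the primes up to `j` -/
theorem bt_class : ∃ C : ℝ, 1 ≤ C ∧ ∀ᶠ j : ℕ in atTop, ∀ ρ : ℕ → ℕ, (∀ q ∈ Pr j, ρ q < q) → ∀ p : ℕ, p.Prime →
    j < p → ∀ r u y : ℕ, 2 * (p * j) ≤ y →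
    ((cls ρ j p r u y).card : ℝ) ≤ C * ((y / p) / Real.log j) := by
  obtain ⟨C, hC1, hC⟩ := bt
  refine ⟨2 * C, by linarith, ?_⟩
  filter_upwards [hC, eventually_ge_atTop 2] with j hj hj2
  intro ρ hρ p hp hjp r u y hy
  have hp0 : (0 : ℝ) < p := by exact_mod_cast hp.pos
  have hlog0 : 0 < Real.log j := Real.log_pos (by exact_mod_cast (by omega : 1 < j))
  -- the transformed classes
  obtain ⟨ρ', hρ'⟩ : ∃ ρ' : ℕ → ℕ, ρ' = fun q => ((((ρ q : ZMod q) - r) * (p : ZMod q)⁻¹ + 1 : ZMod q)).val := ⟨_, rfl⟩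
  obtain ⟨h, hh⟩ : ∃ h : ℕ, h = (u + y) / p - u / p + 1 := ⟨_, rfl⟩
  have hle : u / p ≤ (u + y) / p := Nat.div_le_div_right (by omega)
  have hjh : j ≤ h := by
    have h1 : (2 * (p * j)) / p = 2 * j := by
      rw [show 2 * (p * j) = (2 * j) * p by ring, Nat.mul_div_cancel _ hp.pos]
    have h2 : 2 * j ≤ y / p := by rw [← h1]; exact Nat.div_le_div_right hy
    have h3 : u / p + y / p ≤ (u + y) / p := by
      rw [Nat.le_div_iff_mul_le hp.pos, Nat.add_mul]
      exact Nat.add_le_add (Nat.div_mul_le_self u p) (Nat.div_mul_le_self y p)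
    omega
  have hval : ∀ q ∈ Pr j, ρ' q < q := by
    intro q hq
    haveI : NeZero q := ⟨(Pr_prime _ q hq).ne_zero⟩
    rw [hρ']
    exact ZMod.val_lt _
  have hmap : (cls ρ j p r u y).card ≤ cnt ρ' j (u / p) h := by
    unfold cnt cls
    apply card_le_card_of_injOn (fun k => k / p + 1)
    · intro k hk
      rw [mem_coe, mem_filter, mem_Ioc] at hk
      obtain ⟨⟨k1, k2⟩, k3, k4⟩ := hk
      rw [mem_coe, mem_filter, mem_Ioc]
      have h1 : u / p ≤ k / p := Nat.div_le_div_right k1.le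
      have h2 : k / p ≤ (u + y) / p := Nat.div_le_div_right k2
      refine ⟨⟨(by show u / p < k / p + 1; omega), (by show k / p + 1 ≤ u / p + h; omega)⟩, fun q hq hcon => k4 q hq ?_⟩
      have hqp := Pr_prime _ q hq
      haveI : NeZero q := ⟨hqp.ne_zero⟩
      haveI : Fact q.Prime := ⟨hqp⟩
      have hqj : q ≤ j := ((mem_Pr _ _).1 hq).2
      have hpq : (p : ZMod q) ≠ 0 := by
        rw [Ne, ZMod.natCast_eq_zero_iff]
        intro hd
        have := (Nat.prime_dvd_prime_iff_eq hqp hp).1 hd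
        omega
      rw [hρ', ← ZMod.val_natCast] at hcon
      have h3 := ZMod.val_injective q hcon
      push_cast at h3
      have h4 : ((k / p : ℕ) : ZMod q) * p = (ρ q : ZMod q) - r := by
        have h5 : ((k / p : ℕ) : ZMod q) = ((ρ q : ZMod q) - r) * (p : ZMod q)⁻¹ := by
          exact add_right_cancel h3
        rw [h5, mul_assoc, inv_mul_cancel₀ hpq, mul_one]
      have h5 : (k : ZMod q) = ρ q := by
        have h6 := Nat.div_add_mod k p
        rw [k3] at h6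
        have h7 : ((p * (k / p) + r : ℕ) : ZMod q) = (k : ZMod q) := by rw [h6]
        push_cast at h7
        rw [← h7, mul_comm, h4]
        ring
      have h6 := (ZMod.natCast_eq_natCast_iff _ _ _).1 h5
      have h7 : k % q = ρ q % q := h6
      rw [h7, Nat.mod_eq_of_lt (hρ q hq)]
    · intro k hk k' hk' hkk
      rw [mem_coe, mem_filter] at hk hk'
      have h1 := Nat.div_add_mod k p
      have h2 := Nat.div_add_mod k' p
      rw [hk.2.1] at h1
      rw [hk'.2.1] at h2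
      simp only [Nat.add_right_cancel_iff] at hkk
      rw [← h1, ← h2, hkk]
  have hh2 : (h : ℝ) ≤ 2 * (y / p) := by
    have h1 : ((h : ℕ) : ℝ) = (((u + y) / p : ℕ) : ℝ) - ((u / p : ℕ) : ℝ) + 1 := by
      rw [hh]; push_cast [Nat.cast_sub hle]; ring
    have h2 : (((u + y) / p : ℕ) : ℝ) ≤ (u + y : ℝ) / p := by
      have := @Nat.cast_div_le ℝ _ _ _ (u + y) p
      push_cast at this
      exact this
    have h3 : (u : ℝ) / p < ((u / p : ℕ) : ℝ) + 1 := by
      rw [div_lt_iff₀ hp0]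
      have h4 := Nat.div_add_mod u p
      have h5 := Nat.mod_lt u hp.pos
      have h6 : u < (u / p + 1) * p := by
        have : (u / p + 1) * p = p * (u / p) + p := by ring
        omega
      exact_mod_cast h6
    have h4 : (2 : ℝ) ≤ y / p := by
      rw [le_div_iff₀ hp0]
      have h5 : 2 * p ≤ y := by nlinarith
      exact_mod_cast h5
    have h5 : ((u : ℝ) + y) / p = u / p + y / p := add_div _ _ _
    rw [h1]
    rw [h5] at h2
    linarith
  have h6 := hj ρ' hval (u / p) h hjh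
  have h7 : ((cls ρ j p r u y).card : ℝ) ≤ cnt ρ' j (u / p) h := by
    exact_mod_cast hmap
  calc _ ≤ (cnt ρ' j (u / p) h : ℝ) := h7
    _ ≤ C * (h / Real.log j) := h6
    _ ≤ C * ((2 * (y / p)) / Real.log j) := by
        apply mul_le_mul_of_nonneg_left _ (by linarith)
        exact div_le_div_of_nonneg_right hh2 hlog0.le
    _ = 2 * C * ((y / p) / Real.log j) := by ring

/-- the primes between `j / 3` and `j (log j)^3` remove few survivors -/
theorem low (ε : ℝ) (hε : 0 < ε) : ∀ᶠ j : ℕ in atTop, ∀ ρ : ℕ → ℕ, (∀ q ∈ Pr (j / 3), ρ q < q) →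
    ∀ u y n1 n2 : ℕ, 2 * (zz j * j) ≤ y → j / 3 ≤ n1 → n1 ≤ n2 → n2 ≤ zz j →
    (cnt ρ n1 u y : ℝ) - ε * (y / Real.log j) ≤ cnt ρ n2 u y := by
  obtain ⟨C, hC1, hC⟩ := bt_class
  obtain ⟨δ, hδ⟩ : ∃ δ : ℝ, δ = min (1 / 2) (ε / (8 * C)) := ⟨_, rfl⟩
  have hδ0 : 0 < δ := by rw [hδ]; positivity
  have hδ1 : δ ≤ 1 / 2 := by rw [hδ]; exact min_le_left _ _
  have hδ2 : δ * (8 * C) ≤ ε := by
    have : δ ≤ ε / (8 * C) := by rw [hδ]; exact min_le_right _ _
    rwa [le_div_iff₀ (by linarith)] at this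
  filter_upwards [div3_tendsto.eventually hC, VV_ratio δ hδ0 hδ1, ev_log 0 4, eventually_ge_atTop 9,
    div3_tendsto.eventually_gt_atTop 1]
    with j h1 h2 h3 h4 h5
  intro ρ hρ u y n1 n2 hy hn1 hn12 hn2
  have hl : (4 : ℝ) ≤ Real.log j := by simpa using h3
  have hl3 : Real.log j / 2 ≤ Real.log ((j / 3 : ℕ) : ℝ) := by
    have h6 : (j : ℝ) / 6 ≤ ((j / 3 : ℕ) : ℝ) := by
      have h6 : j ≤ 6 * (j / 3) := by omega
      have h7 : (j : ℝ) ≤ 6 * ((j / 3 : ℕ) : ℝ) := by exact_mod_cast h6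
      linarith
    have hj0 : (9 : ℝ) ≤ j := by exact_mod_cast h4
    have h7 := Real.log_le_log (by linarith) h6
    rw [Real.log_div (by linarith) (by norm_num)] at h7
    have h8 : Real.log 6 ≤ 2 := by
      rw [Real.log_le_iff_le_exp (by norm_num)]
      have h8 : Real.exp 2 = Real.exp 1 * Real.exp 1 := by rw [← Real.exp_add]; norm_num
      have h9 := Real.exp_one_gt_d9
      rw [h8]; nlinarith
    linarith
  have hlog0 : 0 < Real.log ((j / 3 : ℕ) : ℝ) := by linarith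
  obtain ⟨D, hD⟩ : ∃ D : Finset ℕ, D = Pr (zz j) \ Pr (j / 3) := ⟨_, rfl⟩
  have hsub : Pr (j / 3) ⊆ Pr (zz j) := Pr_mono (by omega)
  have hDp : ∀ p ∈ D, p.Prime ∧ j / 3 < p ∧ p ≤ zz j := by
    intro p hp
    rw [hD, Finset.mem_sdiff, mem_Pr, mem_Pr] at hp
    obtain ⟨⟨p1, p2⟩, p3⟩ := hp
    refine ⟨p1, ?_, p2⟩
    by_contra hcon
    exact p3 ⟨p1, by omega⟩
  have hVD : V (Pr (zz j)) = V D * V (Pr (j / 3)) := by
    unfold V
    rw [hD, prod_sdiff hsub]
  have hVD0 : 0 < V D := V_pos fun p hp => (hDp p hp).1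
  have hV3 : 0 < V (Pr (j / 3)) := V_pos (Pr_prime _)
  have hVD1 : 1 - δ ≤ V D := by
    rw [hVD] at h2
    exact le_of_mul_le_mul_right h2 hV3
  have hsum : ∑ p ∈ D, 1 / (p : ℝ) ≤ 2 * δ := by
    -- `1 + ∑ ≤ 1 / V`
    have key : ∀ S : Finset ℕ, (∀ p ∈ S, p.Prime) → 1 + ∑ p ∈ S, 1 / (p : ℝ) ≤ 1 / V S := by
      intro S
      induction S using Finset.induction_on with
      | empty => intro _; simp [V]
      | insert a s ha ih =>
        intro h
        have ih' := ih (fun p hp => h p (mem_insert_of_mem hp))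
        have hap := fac_pos (h a (mem_insert_self _ _))
        have hVs := V_pos (fun p hp => h p (mem_insert_of_mem hp) : ∀ p ∈ s, p.Prime)
        have e : V (insert a s) = (1 - 1 / (a : ℝ)) * V s := by unfold V; rw [prod_insert ha]
        rw [sum_insert ha, e]
        have h2 : 1 + 1 / (a : ℝ) ≤ 1 / (1 - 1 / (a : ℝ)) := by
          rw [le_div_iff₀ hap]
          have : 0 ≤ 1 / (a : ℝ) * (1 / a) := by positivity
          nlinarith
        have h3 : 0 ≤ ∑ p ∈ s, 1 / (p : ℝ) := sum_nonneg fun _ _ => by positivity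
        have h4 : 0 ≤ 1 / (a : ℝ) := by positivity
        calc 1 + (1 / (a : ℝ) + ∑ p ∈ s, 1 / (p : ℝ)) ≤ (1 + 1 / (a : ℝ)) * (1 + ∑ p ∈ s, 1 / (p : ℝ)) := by
              nlinarith [mul_nonneg h4 h3]
          _ ≤ (1 / (1 - 1 / (a : ℝ))) * (1 / V s) :=
              mul_le_mul h2 ih' (by positivity) (by positivity)
          _ = 1 / ((1 - 1 / (a : ℝ)) * V s) := by rw [one_div_mul_one_div]
    have h6 := key D fun p hp => (hDp p hp).1
    have h7 : 1 / V D ≤ 1 + 2 * δ := by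
      rw [div_le_iff₀ hVD0]
      nlinarith
    linarith
  -- the removed elements
  have hcover : (Ioc u (u + y)).filter (fun k => ∀ p ∈ Pr n1, k % p ≠ ρ p) ⊆
      (Ioc u (u + y)).filter (fun k => ∀ p ∈ Pr n2, k % p ≠ ρ p) ∪
      D.biUnion (fun p => cls ρ (j / 3) p (ρ p) u y) := by
    intro k hk
    rw [mem_filter] at hk
    by_cases hall : ∀ p ∈ Pr n2, k % p ≠ ρ p
    · exact mem_union_left _ (mem_filter.2 ⟨hk.1, hall⟩)
    · push Not at hall
      obtain ⟨p, hp, hpk⟩ := hall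
      apply mem_union_right
      rw [mem_biUnion]
      have hpn1 : p ∉ Pr n1 := fun h => hk.2 p h hpk
      refine ⟨p, ?_, (by unfold cls; exact mem_filter.2 ⟨hk.1, hpk, fun q hq => hk.2 q (Pr_mono hn1 hq)⟩)⟩
      rw [hD, Finset.mem_sdiff]
      exact ⟨Pr_mono hn2 hp, fun h => hpn1 (Pr_mono hn1 h)⟩
  have hcard := (card_le_card hcover).trans (card_union_le _ _)
  have hcard2 : ((D.biUnion (fun p => cls ρ (j / 3) p (ρ p) u y)).card : ℝ) ≤
      ε * (y / Real.log j) := by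
    have h6 : ((D.biUnion (fun p => cls ρ (j / 3) p (ρ p) u y)).card : ℝ) ≤
        ∑ p ∈ D, ((cls ρ (j / 3) p (ρ p) u y).card : ℝ) := by
      exact_mod_cast card_biUnion_le
    have h7 : ∀ p ∈ D, ((cls ρ (j / 3) p (ρ p) u y).card : ℝ) ≤
        C * (y / Real.log ((j / 3 : ℕ) : ℝ)) * (1 / (p : ℝ)) := by
      intro p hp
      obtain ⟨p1, p2, p3⟩ := hDp p hp
      have h8 : 2 * (p * (j / 3)) ≤ y := by
        have : p * (j / 3) ≤ zz j * j := Nat.mul_le_mul p3 (by omega)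
        omega
      have h9 := h1 ρ hρ p p1 p2 (ρ p) u y h8
      refine h9.trans (le_of_eq ?_)
      ring
    calc _ ≤ _ := h6
      _ ≤ ∑ p ∈ D, C * (y / Real.log ((j / 3 : ℕ) : ℝ)) * (1 / (p : ℝ)) := sum_le_sum h7
      _ = C * (y / Real.log ((j / 3 : ℕ) : ℝ)) * ∑ p ∈ D, 1 / (p : ℝ) := by rw [mul_sum]
      _ ≤ C * (y / Real.log ((j / 3 : ℕ) : ℝ)) * (2 * δ) := by
          apply mul_le_mul_of_nonneg_left hsum
          positivity
      _ ≤ C * (y / (Real.log j / 2)) * (2 * δ) := by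
          apply mul_le_mul_of_nonneg_right _ (by positivity)
          apply mul_le_mul_of_nonneg_left _ (by linarith)
          exact div_le_div_of_nonneg_left (Nat.cast_nonneg _) (by linarith) hl3
      _ = (δ * (4 * C)) * (y / Real.log j) := by field_simp; norm_num
      _ ≤ ε * (y / Real.log j) := by
          apply mul_le_mul_of_nonneg_right _ (by positivity)
          nlinarith
  have hcard3 : (cnt ρ n1 u y : ℝ) ≤ (cnt ρ n2 u y : ℝ) +
      ((D.biUnion (fun p => cls ρ (j / 3) p (ρ p) u y)).card : ℝ) := by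
    unfold cnt
    exact_mod_cast hcard
  linarith

end Pool.Agent.V5helper42.RS
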