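import Pool.Agent.V5helper42.RS.S1
import Pool.Agent.V5helper42.RS.G3

set_option autoImplicit false

/-!
# Random sieve model: deviation from the survivors of the primes up to the cut (helper42)
-/

namespace Pool.Agent.V5helper42.RS

open Finset MeasureTheory ProbabilityTheory Filter Topology
open scoped ENNReal
open Pool.Agent.W41 (V V_ge V_pos fac_pos fac_le_one V_le_one)

/-- the constant of the upper bound sieve -/
theorem c1_exists : ∃ C1 : ℝ, 1 ≤ C1 ∧ ∀ᶠ n : ℕ in atTop, ∀ ρ : ℕ → ℕ, (∀ p ∈ Pr n, ρ p < p) → ∀ u y : ℕ, n ≤ y →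
    (cnt ρ n u y : ℝ) ≤ C1 * (y * V (Pr n)) := by
  obtain ⟨C, hC1, hC⟩ := bt
  obtain ⟨c, hc, hc2⟩ := VV_lower
  refine ⟨max 1 (C / c), le_max_left _ _, ?_⟩
  filter_upwards [hC, hc2] with n h1 h2
  intro ρ hρ u y hy
  have h3 := h1 ρ hρ u y hy
  have h4 : (C / c) * (y * (c / Real.log n)) ≤ (C / c) * (y * V (Pr n)) := by
    apply mul_le_mul_of_nonneg_left _ (by positivity)
    exact mul_le_mul_of_nonneg_left h2 (Nat.cast_nonneg _)
  have h5 : (C / c) * (y * (c / Real.log n)) = C * (y / Real.log n) := by field_simp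
  have h6 : 0 ≤ (y : ℝ) * V (Pr n) := mul_nonneg (Nat.cast_nonneg _) (V_pos (Pr_prime n)).le
  calc (cnt ρ n u y : ℝ) ≤ C * (y / Real.log n) := h3
    _ ≤ (C / c) * (y * V (Pr n)) := by rw [← h5]; exact h4
    _ ≤ max 1 (C / c) * (y * V (Pr n)) := mul_le_mul_of_nonneg_right (le_max_right _ _) h6

/-- data common to both parts: the primes of `T` above `z` -/
lemma parts (z y : ℕ) (T : Finset ℕ) (hT : ∀ p ∈ T, p.Prime) (hzT : Pr z ⊆ T) (hzy : z ≤ y) :
    ∃ T2 T3 : Finset ℕ, (T2.toList ++ T3.toList).Nodup ∧ (∀ p ∈ T2, p.Prime ∧ z < p) ∧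
      (∀ p ∈ T3, p.Prime ∧ y < p) ∧ V T = V (Pr z) * (V T2 * V T3) ∧ V (Pr y) ≤ V (Pr z) * V T2 ∧
      (∀ p ∈ (Pr z).toList, p ∉ T2.toList ++ T3.toList) ∧
      (∀ p, p ∈ (Pr z).toList ++ (T2.toList ++ T3.toList) ↔ p ∈ T) := by
  obtain ⟨T2, hT2⟩ : ∃ T2 : Finset ℕ, T2 = (T.filter (fun p => p ≤ y)) \ Pr z := ⟨_, rfl⟩
  obtain ⟨T3, hT3⟩ : ∃ T3 : Finset ℕ, T3 = T.filter (fun p => ¬ p ≤ y) := ⟨_, rfl⟩
  have hZL : Pr z ⊆ T.filter (fun p => p ≤ y) := by
    intro p hp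
    rw [mem_filter]
    refine ⟨hzT hp, ?_⟩
    rw [mem_Pr] at hp
    omega
  have h2p : ∀ p ∈ T2, p.Prime ∧ z < p := by
    intro p hp
    rw [hT2, Finset.mem_sdiff, mem_filter] at hp
    refine ⟨hT p hp.1.1, ?_⟩
    by_contra h
    apply hp.2
    rw [mem_Pr]
    exact ⟨hT p hp.1.1, by omega⟩
  have h3p : ∀ p ∈ T3, p.Prime ∧ y < p := by
    intro p hp
    rw [hT3, mem_filter] at hp
    exact ⟨hT p hp.1, by omega⟩
  have hV12 : V (T.filter (fun p => p ≤ y)) = V (Pr z) * V T2 := by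
    unfold V
    rw [hT2, mul_comm, prod_sdiff hZL]
  have hd23 : Disjoint T2 T3 := by
    rw [disjoint_left]
    intro p h1 h2
    rw [hT2, Finset.mem_sdiff, mem_filter] at h1
    rw [hT3, mem_filter] at h2
    exact h2.2 h1.1.2
  have hZn : ∀ p ∈ (Pr z).toList, p ∉ T2.toList ++ T3.toList := by
    intro p hp h
    rw [List.mem_append, mem_toList, mem_toList] at h
    rw [mem_toList] at hp
    rcases h with h | h
    · rw [hT2, Finset.mem_sdiff] at h
      exact h.2 hp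
    · rw [hT3, mem_filter] at h
      exact h.2 (mem_filter.1 (hZL hp)).2
  refine ⟨T2, T3, ?_, h2p, h3p, ?_, ?_, hZn, ?_⟩
  · refine List.nodup_append.2 ⟨nodup_toList _, nodup_toList _, ?_⟩
    intro p hp q hq hpq
    subst hpq
    exact (disjoint_left.1 hd23 (mem_toList.1 hp)) (mem_toList.1 hq)
  · rw [← mul_assoc, ← hV12]
    unfold V
    rw [hT3, prod_filter_mul_prod_filter_not]
  · rw [← hV12]
    apply V_anti _ (Pr_prime y)
    intro p hp
    rw [mem_filter] at hp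
    rw [mem_Pr]
    exact ⟨hT p hp.1, hp.2⟩
  · intro p
    simp only [List.mem_append, mem_toList]
    constructor
    · rintro (h | h | h)
      · exact hzT h
      · rw [hT2, Finset.mem_sdiff, mem_filter] at h
        exact h.1.1
      · rw [hT3, mem_filter] at h
        exact h.1
    · intro h
      by_cases hpL : p ≤ y
      · by_cases hpZ : p ∈ Pr z
        · exact Or.inl hpZ
        · exact Or.inr (Or.inl (by rw [hT2, Finset.mem_sdiff, mem_filter]; exact ⟨⟨h, hpL⟩, hpZ⟩))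
      · exact Or.inr (Or.inr (by rw [hT3, mem_filter]; exact ⟨h, hpL⟩))

/-- one interval: deviation from the survivors of the primes up to `z` -/
theorem prob_one {Ω : Type*} [MeasurableSpace Ω] (μ : Measure Ω) [IsProbabilityMeasure μ] (a : ℕ → Ω → ℕ)
    (hm : ∀ p, Measurable (a p)) (hi : iIndepFun a μ)
    (hu : ∀ p : ℕ, p.Prime → ∀ r < p, μ {ω | a p ω = r} = (p : ℝ≥0∞)⁻¹)
    (m y z : ℕ) (hz : 1 ≤ z) (hzy : z ≤ y) (T : Finset ℕ) (hT : ∀ p ∈ T, p.Prime) (hzT : Pr z ⊆ T)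
    (hzV : (z : ℝ) ≤ y * V T) (ε C1 : ℝ) (hε : 0 < ε) (hε1 : ε ≤ 1) (hC1 : 1 ≤ C1) (hyC : 8 * C1 ≤ ε * y)
    (hcnt : ∀ ρ : ℕ → ℕ, (∀ p ∈ Pr z, ρ p < p) → (cnt ρ z m y : ℝ) ≤ C1 * (y * V (Pr z))) :
    μ {ω | ¬ |(((Ioc m (m + y)).filter (fun n => ∀ p ∈ T, n % p ≠ a p ω)).card : ℝ) -
      cnt (fun p => a p ω) z m y * (V T / V (Pr z))| ≤ 3 * ε * (y * V T)} ≤
      ENNReal.ofReal (2 * Real.exp (-(ε ^ 2 * (V (Pr y) / V (Pr z)) ^ 2 * (z * V (Pr z)) / (32 * C1)))) := by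
  obtain ⟨T2, T3, hnd, h2p, h3p, hVT, hVy, hZn, hmemT⟩ := parts z y T hT hzT hzy
  have hz0 : (0 : ℝ) < z := by exact_mod_cast hz
  have hy1 : (z : ℝ) ≤ y := by exact_mod_cast hzy
  have hy0 : (0 : ℝ) < y := hz0.trans_le hy1
  have hVZ : 0 < V (Pr z) := V_pos (Pr_prime z)
  have hV2 : 0 < V T2 := V_pos fun p hp => (h2p p hp).1
  have hV3 : 0 < V T3 := V_pos fun p hp => (h3p p hp).1
  have hVZ1 : V (Pr z) ≤ 1 := V_le_one (Pr_prime z)
  have hV21 : V T2 ≤ 1 := V_le_one fun p hp => (h2p p hp).1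
  have hV31 : V T3 ≤ 1 := V_le_one fun p hp => (h3p p hp).1
  have hVTe : V T / V (Pr z) = V T2 * V T3 := by
    rw [hVT]; field_simp
  have hVT2 : V T ≤ V T2 := by
    rw [hVT]
    calc V (Pr z) * (V T2 * V T3) ≤ 1 * (V T2 * 1) := by
          apply mul_le_mul hVZ1 _ (by positivity) (by norm_num)
          exact mul_le_mul_of_nonneg_left hV31 hV2.le
      _ = V T2 := by ring
  have hVT3 : V T ≤ V T3 := by
    rw [hVT]
    calc V (Pr z) * (V T2 * V T3) ≤ 1 * (1 * V T3) := by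
          apply mul_le_mul hVZ1 _ (by positivity) (by norm_num)
          exact mul_le_mul_of_nonneg_right hV21 hV3.le
      _ = V T3 := by ring
  have hndl : ((Pr z).toList ++ (T2.toList ++ T3.toList)).Nodup := List.nodup_append.2 ⟨nodup_toList _, hnd, by
    intro p hp q hq hpq
    subst hpq
    exact hZn p hp hq⟩
  have hST : ∀ (ρ : ℕ → ℕ) (I : Finset ℕ), S ρ ((Pr z).toList ++ (T2.toList ++ T3.toList)) I =
      I.filter (fun n => ∀ p ∈ T, n % p ≠ ρ p) := by
    intro ρ I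
    unfold S
    apply filter_congr
    intro n _
    simp only [hmemT]
  have hSz : ∀ ρ : ℕ → ℕ, (S ρ (Pr z).toList (Ioc m (m + y))).card = cnt ρ z m y := by
    intro ρ
    unfold S cnt
    simp only [mem_toList]
  obtain ⟨α, hα⟩ : ∃ α : ℝ, α = ε / C1 * V T2 / 32 * z / (y * V T3) := ⟨_, rfl⟩
  have hα0 : 0 ≤ α := by rw [hα]; positivity
  have hprob := prob_le μ a hm hi hu ((Pr z).toList ++ (T2.toList ++ T3.toList)) hndl
    (fun p hp => hT p ((hmemT p).1 hp))
    (fun ρ => ¬ |((S ρ ((Pr z).toList ++ (T2.toList ++ T3.toList)) (Ioc m (m + y))).card : ℝ) -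
      (cnt ρ z m y : ℝ) * (V T2 * V T3)| ≤ 3 * ε * (y * V (Pr z) * (V T2 * V T3)))
    (by
      intro ρ ρ' h
      have h1 : cnt ρ z m y = cnt ρ' z m y := by
        rw [← hSz, ← hSz, S_congr _ fun p hp => h p (List.mem_append_left _ hp)]
      rw [S_congr _ h, h1]
      exact id)
    (fun ρ =>
      Real.exp (α * (((S ρ ((Pr z).toList ++ (T2.toList ++ T3.toList)) (Ioc m (m + y))).card : ℝ) -
        ((cnt ρ z m y : ℝ) * (V T2 * V T3) + 3 * ε * (y * V (Pr z) * (V T2 * V T3))))) +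
      Real.exp (α * (((cnt ρ z m y : ℝ) * (V T2 * V T3) -
        3 * ε * (y * V (Pr z) * (V T2 * V T3))) - ((S ρ ((Pr z).toList ++ (T2.toList ++ T3.toList)) (Ioc m (m + y))).card : ℝ))))
    (fun ρ => by positivity)
    (by
      intro ρ hρ
      rw [abs_le, not_and_or, not_le, not_le] at hρ
      rcases hρ with h | h
      · have h3 : 1 ≤ Real.exp (α * (((cnt ρ z m y : ℝ) * (V T2 * V T3) -
          3 * ε * (y * V (Pr z) * (V T2 * V T3))) - ((S ρ ((Pr z).toList ++ (T2.toList ++ T3.toList)) (Ioc m (m + y))).card : ℝ))) :=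
          Real.one_le_exp (mul_nonneg hα0 (by linarith))
        have h4 := Real.exp_pos (α * (((S ρ ((Pr z).toList ++ (T2.toList ++ T3.toList)) (Ioc m (m + y))).card : ℝ) -
          ((cnt ρ z m y : ℝ) * (V T2 * V T3) + 3 * ε * (y * V (Pr z) * (V T2 * V T3)))))
        linarith
      · have h3 : 1 ≤ Real.exp (α * (((S ρ ((Pr z).toList ++ (T2.toList ++ T3.toList)) (Ioc m (m + y))).card : ℝ) -
          ((cnt ρ z m y : ℝ) * (V T2 * V T3) + 3 * ε * (y * V (Pr z) * (V T2 * V T3))))) :=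
          Real.one_le_exp (mul_nonneg hα0 (by linarith))
        have h4 := Real.exp_pos (α * (((cnt ρ z m y : ℝ) * (V T2 * V T3) -
          3 * ε * (y * V (Pr z) * (V T2 * V T3))) - ((S ρ ((Pr z).toList ++ (T2.toList ++ T3.toList)) (Ioc m (m + y))).card : ℝ)))
        linarith)
    (2 * Real.exp (-(ε ^ 2 * (V (Pr y) / V (Pr z)) ^ 2 * (z * V (Pr z)) / (32 * C1))))
    (by
      rw [EE_append]
      apply EE_le_const _ (fun p hp => (Pr_prime z p (mem_toList.1 hp)).pos)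
      intro ρ _ hρ
      have hρZ : ∀ p ∈ Pr z, ρ p < p := fun p hp => hρ p (mem_toList.2 hp)
      obtain ⟨A, hA⟩ : ∃ A : Finset ℕ, A = S ρ (Pr z).toList (Ioc m (m + y)) := ⟨_, rfl⟩
      have hAc : (A.card : ℝ) = cnt ρ z m y := by rw [hA, hSz]
      have hd := dev m y z hz hzy T2 T3 hnd h2p h3p
        (hzV.trans (mul_le_mul_of_nonneg_left hVT2 hy0.le))
        (by
          have h1 := mul_le_mul_of_nonneg_left hVT3 hy0.le
          have h2 : 0 ≤ (y : ℝ) * V T3 := by positivity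
          linarith)
        ε C1 (y * V (Pr z)) hε hε1 hC1 (by positivity) hyC A (by rw [hA]; exact S_subset _ _ _)
        (by rw [hAc]; exact hcnt ρ hρZ) ρ
      rw [← hα, hAc] at hd
      have hE : EE (T2.toList ++ T3.toList) (fun ρ =>
          Real.exp (α * (((S ρ ((Pr z).toList ++ (T2.toList ++ T3.toList)) (Ioc m (m + y))).card : ℝ) -
            ((cnt ρ z m y : ℝ) * (V T2 * V T3) + 3 * ε * (y * V (Pr z) * (V T2 * V T3))))) +
          Real.exp (α * (((cnt ρ z m y : ℝ) * (V T2 * V T3) -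
            3 * ε * (y * V (Pr z) * (V T2 * V T3))) - ((S ρ ((Pr z).toList ++ (T2.toList ++ T3.toList)) (Ioc m (m + y))).card : ℝ)))) ρ =
          EE (T2.toList ++ T3.toList) (fun ρ' =>
            Real.exp (α * (((S ρ' (T2.toList ++ T3.toList) A).card : ℝ) -
              ((cnt ρ z m y : ℝ) * (V T2 * V T3) + 3 * ε * (y * V (Pr z) * (V T2 * V T3))))) +
            Real.exp (α * (((cnt ρ z m y : ℝ) * (V T2 * V T3) -
              3 * ε * (y * V (Pr z) * (V T2 * V T3))) - ((S ρ' (T2.toList ++ T3.toList) A).card : ℝ)))) ρ := by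
        apply EE_congr
        intro ρ' h _
        have h1 : ∀ p ∈ (Pr z).toList, ρ' p = ρ p := fun p hp => h p (hZn p hp)
        have h2 : cnt ρ' z m y = cnt ρ z m y := by rw [← hSz, ← hSz, S_congr _ h1]
        rw [h2, S_append, S_congr (ρ := ρ') (ρ' := ρ) (l := (Pr z).toList) _ h1, ← hA]
      rw [hE]
      refine hd.trans ?_
      apply mul_le_mul_of_nonneg_left _ (by norm_num)
      apply Real.exp_le_exp.2
      rw [neg_le_neg_iff]
      have h1 : V (Pr y) / V (Pr z) ≤ V T2 := by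
        rw [div_le_iff₀ hVZ]; linarith
      have h2 : (V (Pr y) / V (Pr z)) ^ 2 ≤ V T2 ^ 2 :=
        pow_le_pow_left₀ (div_nonneg (V_pos (Pr_prime y)).le hVZ.le) h1 2
      have h3 : ε ^ 2 * V T2 ^ 2 * z * (y * V (Pr z)) / (32 * C1 * y) = ε ^ 2 * V T2 ^ 2 * (z * V (Pr z)) / (32 * C1) := by
        field_simp
      rw [h3]
      apply div_le_div_of_nonneg_right _ (by positivity)
      apply mul_le_mul_of_nonneg_right _ (by positivity)
      exact mul_le_mul_of_nonneg_left h2 (by positivity))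
  refine le_trans (measure_mono ?_) hprob
  intro ω hω
  have hω2 : ¬ |(((Ioc m (m + y)).filter (fun n => ∀ p ∈ T, n % p ≠ a p ω)).card : ℝ) -
      cnt (fun p => a p ω) z m y * (V T / V (Pr z))| ≤ 3 * ε * (y * V T) := hω
  show ¬ |((S (fun q => a q ω) ((Pr z).toList ++ (T2.toList ++ T3.toList)) (Ioc m (m + y))).card : ℝ) -
      (cnt (fun q => a q ω) z m y : ℝ) * (V T2 * V T3)| ≤ 3 * ε * (y * V (Pr z) * (V T2 * V T3))
  rw [hST, ← hVTe]
  have e : (y : ℝ) * V (Pr z) * (V T / V (Pr z)) = y * V T := by field_simp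
  rw [e]
  exact hω2

end Pool.Agent.V5helper42.RS
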