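import Pool.Agent.V5helper42.RS.S2

set_option autoImplicit false

/-!
# Random sieve model: prescribed patterns occur (helper42)
-/

namespace Pool.Agent.V5helper42.RS

open Finset MeasureTheory ProbabilityTheory Filter Topology
open scoped ENNReal
open Pool.Agent.W41 (V V_ge V_pos fac_pos fac_le_one V_le_one)

lemma Zp_eq (j : ℕ) : Zp j = Pr (j / 3) := rfl

/-- the pattern `c` of classes modulo the primes up to `j / 3` occurs near some `m ∈ [e^j, 2 e^j]`, with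
the typical density for the other primes -/
theorem prob_crt {Ω : Type*} [MeasurableSpace Ω] (μ : Measure Ω) [IsProbabilityMeasure μ] (a : ℕ → Ω → ℕ)
    (hm : ∀ p, Measurable (a p)) (hi : iIndepFun a μ)
    (hu : ∀ p : ℕ, p.Prime → ∀ r < p, μ {ω | a p ω = r} = (p : ℝ≥0∞)⁻¹)
    (j y : ℕ) (hj : 3 ≤ j) (hzy : j / 3 ≤ y) (T : Finset ℕ) (hT : ∀ p ∈ T, p.Prime)
    (hzT : Pr (j / 3) ⊆ T)
    (hzV : (((j / 3 : ℕ)) : ℝ) ≤ y * V T) (ε C1 : ℝ) (hε : 0 < ε) (hε1 : ε ≤ 1) (hC1 : 1 ≤ C1) (hyC : 8 * C1 ≤ ε * y)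
    (c : ℕ → ℕ) (hc : ∀ p ∈ Pr (j / 3), c p < p)
    (hcnt : (cnt c (j / 3) 0 y : ℝ) ≤ C1 * (y * V (Pr (j / 3)))) :
    μ {ω | ¬ ∃ m : ℕ, Real.exp j ≤ m ∧ (m : ℝ) ≤ 2 * Real.exp j ∧
      |(((Ioc m (m + y)).filter (fun n => ∀ p ∈ T, n % p ≠ a p ω)).card : ℝ) -
      cnt c (j / 3) 0 y * (V T / V (Pr (j / 3)))| ≤ 3 * ε * (y * V T)} ≤
      ENNReal.ofReal (2 * Real.exp (-(ε ^ 2 * (V (Pr y) / V (Pr (j / 3))) ^ 2 *
        ((((j / 3 : ℕ)) : ℝ) * V (Pr (j / 3))) / (32 * C1)))) := by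
  obtain ⟨z, hzd⟩ : ∃ z : ℕ, z = j / 3 := ⟨_, rfl⟩
  rw [← hzd] at hzy hzT hzV hc hcnt ⊢
  have hz : 1 ≤ z := by omega
  obtain ⟨T2, T3, hnd, h2p, h3p, hVT, hVy, hZn, hmemT⟩ := parts z y T hT hzT hzy
  have hz0 : (0 : ℝ) < z := by exact_mod_cast hz
  have hy1 : (z : ℝ) ≤ y := by exact_mod_cast hzy
  have hy0 : (0 : ℝ) < y := hz0.trans_le hy1
  have hVZ : 0 < V (Pr z) := V_pos (Pr_prime z)
  have hV2 : 0 < V T2 := V_pos fun p hp => (h2p p hp).1
  have hV3 : 0 < V T3 := V_pos fun p hp => (h3p p hp).1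
  have hVZ1 : V (Pr z) ≤ 1 := V_le_one (Pr_prime z)
  have hV21 : V T2 ≤ 1 := V_le_one fun p hp => (h2p p hp).1
  have hV31 : V T3 ≤ 1 := V_le_one fun p hp => (h3p p hp).1
  have hVTe : V T / V (Pr z) = V T2 * V T3 := by
    rw [hVT]; field_simp
  have hVT2 : V T ≤ V T2 := by
    rw [hVT]
    calc V (Pr z) * (V T2 * V T3) ≤ 1 * (V T2 * 1) := by
          apply mul_le_mul hVZ1 _ (by positivity) (by norm_num)
          exact mul_le_mul_of_nonneg_left hV31 hV2.le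
      _ = V T2 := by ring
  have hVT3 : V T ≤ V T3 := by
    rw [hVT]
    calc V (Pr z) * (V T2 * V T3) ≤ 1 * (1 * V T3) := by
          apply mul_le_mul hVZ1 _ (by positivity) (by norm_num)
          exact mul_le_mul_of_nonneg_right hV21 hV3.le
      _ = V T3 := by ring
  have hndl : ((Pr z).toList ++ (T2.toList ++ T3.toList)).Nodup := List.nodup_append.2 ⟨nodup_toList _, hnd, by
    intro p hp q hq hpq
    subst hpq
    exact hZn p hp hq⟩
  have hST : ∀ (ρ : ℕ → ℕ) (I : Finset ℕ), S ρ ((Pr z).toList ++ (T2.toList ++ T3.toList)) I =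
      I.filter (fun n => ∀ p ∈ T, n % p ≠ ρ p) := by
    intro ρ I
    unfold S
    apply filter_congr
    intro n _
    simp only [hmemT]
  -- the translation
  have hcrt2 : ∀ u : ℕ → ℕ, (∀ p ∈ Pr z, u p < p) → ∃ m : ℕ, Real.exp j ≤ m ∧ (m : ℝ) ≤ 2 * Real.exp j ∧ ∀ y : ℕ,
      (S u (Pr z).toList (Ioc m (m + y))).card = (S c (Pr z).toList (Icc 1 y)).card := by
    intro u hu'
    have h := crt j hj c u (by rw [Zp_eq, ← hzd]; exact hc) (by rw [Zp_eq, ← hzd]; exact hu')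
    rw [Zp_eq, ← hzd] at h
    exact h
  choose! mm hm1 hm2 hm3 using hcrt2
  obtain ⟨nrm, hnrm⟩ : ∃ nrm : (ℕ → ℕ) → (ℕ → ℕ), nrm = fun ρ p => if p ∈ Pr z then ρ p % p else 0 := ⟨_, rfl⟩
  have hnv : ∀ ρ : ℕ → ℕ, ∀ p ∈ Pr z, nrm ρ p < p := by
    intro ρ p hp
    rw [hnrm]
    simp only [if_pos hp]
    exact Nat.mod_lt _ (Pr_prime z p hp).pos
  have hnc : ∀ ρ ρ' : ℕ → ℕ, (∀ p ∈ Pr z, ρ p = ρ' p) → nrm ρ = nrm ρ' := by
    intro ρ ρ' h
    rw [hnrm]
    funext p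
    by_cases hp : p ∈ Pr z
    · simp only [if_pos hp, h p hp]
    · simp only [if_neg hp]
  have hne : ∀ ρ : ℕ → ℕ, (∀ p ∈ Pr z, ρ p < p) → ∀ p ∈ Pr z, nrm ρ p = ρ p := by
    intro ρ h p hp
    rw [hnrm]
    simp only [if_pos hp, Nat.mod_eq_of_lt (h p hp)]
  obtain ⟨K, hK⟩ : ∃ K : ℕ, K = cnt c z 0 y := ⟨_, rfl⟩
  have hK2 : (S c (Pr z).toList (Icc 1 y)).card = K := by
    rw [hK]
    unfold S cnt
    have e : Ioc 0 (0 + y) = Icc 1 y := by
      ext x; simp only [mem_Ioc, mem_Icc]; omega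
    rw [e]
    simp only [mem_toList]
  rw [← hK] at hcnt ⊢
  obtain ⟨α, hα⟩ : ∃ α : ℝ, α = ε / C1 * V T2 / 32 * z / (y * V T3) := ⟨_, rfl⟩
  have hα0 : 0 ≤ α := by rw [hα]; positivity
  have hprob := prob_le μ a hm hi hu ((Pr z).toList ++ (T2.toList ++ T3.toList)) hndl
    (fun p hp => hT p ((hmemT p).1 hp))
    (fun ρ => ¬ |((S ρ ((Pr z).toList ++ (T2.toList ++ T3.toList)) (Ioc (mm (nrm ρ)) (mm (nrm ρ) + y))).card : ℝ) -
      (K : ℝ) * (V T2 * V T3)| ≤ 3 * ε * (y * V (Pr z) * (V T2 * V T3)))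
    (by
      intro ρ ρ' h
      have h1 : nrm ρ = nrm ρ' := hnc ρ ρ' fun p hp => h p (List.mem_append_left _ (mem_toList.2 hp))
      rw [h1, S_congr _ h]
      exact id)
    (fun ρ =>
      Real.exp (α * (((S ρ ((Pr z).toList ++ (T2.toList ++ T3.toList)) (Ioc (mm (nrm ρ)) (mm (nrm ρ) + y))).card : ℝ) -
        ((K : ℝ) * (V T2 * V T3) + 3 * ε * (y * V (Pr z) * (V T2 * V T3))))) +
      Real.exp (α * (((K : ℝ) * (V T2 * V T3) -
        3 * ε * (y * V (Pr z) * (V T2 * V T3))) - ((S ρ ((Pr z).toList ++ (T2.toList ++ T3.toList)) (Ioc (mm (nrm ρ)) (mm (nrm ρ) + y))).card : ℝ))))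
    (fun ρ => by positivity)
    (by
      intro ρ hρ
      rw [abs_le, not_and_or, not_le, not_le] at hρ
      rcases hρ with h | h
      · have h3 : 1 ≤ Real.exp (α * (((K : ℝ) * (V T2 * V T3) -
          3 * ε * (y * V (Pr z) * (V T2 * V T3))) - ((S ρ ((Pr z).toList ++ (T2.toList ++ T3.toList)) (Ioc (mm (nrm ρ)) (mm (nrm ρ) + y))).card : ℝ))) :=
          Real.one_le_exp (mul_nonneg hα0 (by linarith))
        have h4 := Real.exp_pos (α * (((S ρ ((Pr z).toList ++ (T2.toList ++ T3.toList)) (Ioc (mm (nrm ρ)) (mm (nrm ρ) + y))).card : ℝ) -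
          ((K : ℝ) * (V T2 * V T3) + 3 * ε * (y * V (Pr z) * (V T2 * V T3)))))
        linarith
      · have h3 : 1 ≤ Real.exp (α * (((S ρ ((Pr z).toList ++ (T2.toList ++ T3.toList)) (Ioc (mm (nrm ρ)) (mm (nrm ρ) + y))).card : ℝ) -
          ((K : ℝ) * (V T2 * V T3) + 3 * ε * (y * V (Pr z) * (V T2 * V T3))))) :=
          Real.one_le_exp (mul_nonneg hα0 (by linarith))
        have h4 := Real.exp_pos (α * (((K : ℝ) * (V T2 * V T3) -
          3 * ε * (y * V (Pr z) * (V T2 * V T3))) - ((S ρ ((Pr z).toList ++ (T2.toList ++ T3.toList)) (Ioc (mm (nrm ρ)) (mm (nrm ρ) + y))).card : ℝ)))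
        linarith)
    (2 * Real.exp (-(ε ^ 2 * (V (Pr y) / V (Pr z)) ^ 2 * (z * V (Pr z)) / (32 * C1))))
    (by
      rw [EE_append]
      apply EE_le_const _ (fun p hp => (Pr_prime z p (mem_toList.1 hp)).pos)
      intro ρ _ hρ
      have hρZ : ∀ p ∈ Pr z, ρ p < p := fun p hp => hρ p (mem_toList.2 hp)
      obtain ⟨m, hmdef⟩ : ∃ m : ℕ, m = mm (nrm ρ) := ⟨_, rfl⟩
      obtain ⟨A, hA⟩ : ∃ A : Finset ℕ, A = S ρ (Pr z).toList (Ioc m (m + y)) := ⟨_, rfl⟩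
      have hAc : (A.card : ℝ) = K := by
        rw [hA, ← hK2]
        have h1 := hm3 (nrm ρ) (hnv ρ) y
        rw [← hmdef] at h1
        rw [← h1]
        rw [S_congr (ρ := ρ) (ρ' := nrm ρ) _ (fun p hp => (hne ρ hρZ p (mem_toList.1 hp)).symm)]
      have hd := dev m y z hz hzy T2 T3 hnd h2p h3p
        (hzV.trans (mul_le_mul_of_nonneg_left hVT2 hy0.le))
        (by
          have h1 := mul_le_mul_of_nonneg_left hVT3 hy0.le
          have h2 : 0 ≤ (y : ℝ) * V T3 := by positivity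
          linarith)
        ε C1 (y * V (Pr z)) hε hε1 hC1 (by positivity) hyC A (by rw [hA]; exact S_subset _ _ _)
        (by rw [hAc]; exact hcnt) ρ
      rw [← hα, hAc] at hd
      have hE : EE (T2.toList ++ T3.toList) (fun ρ =>
          Real.exp (α * (((S ρ ((Pr z).toList ++ (T2.toList ++ T3.toList)) (Ioc (mm (nrm ρ)) (mm (nrm ρ) + y))).card : ℝ) -
            ((K : ℝ) * (V T2 * V T3) + 3 * ε * (y * V (Pr z) * (V T2 * V T3))))) +
          Real.exp (α * (((K : ℝ) * (V T2 * V T3) -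
            3 * ε * (y * V (Pr z) * (V T2 * V T3))) - ((S ρ ((Pr z).toList ++ (T2.toList ++ T3.toList)) (Ioc (mm (nrm ρ)) (mm (nrm ρ) + y))).card : ℝ)))) ρ =
          EE (T2.toList ++ T3.toList) (fun ρ' =>
            Real.exp (α * (((S ρ' (T2.toList ++ T3.toList) A).card : ℝ) -
              ((K : ℝ) * (V T2 * V T3) + 3 * ε * (y * V (Pr z) * (V T2 * V T3))))) +
            Real.exp (α * (((K : ℝ) * (V T2 * V T3) -
              3 * ε * (y * V (Pr z) * (V T2 * V T3))) - ((S ρ' (T2.toList ++ T3.toList) A).card : ℝ)))) ρ := by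
        apply EE_congr
        intro ρ' h _
        have h1 : ∀ p ∈ (Pr z).toList, ρ' p = ρ p := fun p hp => h p (hZn p hp)
        have h2 : nrm ρ' = nrm ρ := hnc ρ' ρ fun p hp => h1 p (mem_toList.2 hp)
        rw [h2, ← hmdef, S_append, S_congr (ρ := ρ') (ρ' := ρ) (l := (Pr z).toList) _ h1, ← hA]
      rw [hE]
      refine hd.trans ?_
      apply mul_le_mul_of_nonneg_left _ (by norm_num)
      apply Real.exp_le_exp.2
      rw [neg_le_neg_iff]
      have h1 : V (Pr y) / V (Pr z) ≤ V T2 := by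
        rw [div_le_iff₀ hVZ]; linarith
      have h2 : (V (Pr y) / V (Pr z)) ^ 2 ≤ V T2 ^ 2 :=
        pow_le_pow_left₀ (div_nonneg (V_pos (Pr_prime y)).le hVZ.le) h1 2
      have h3 : ε ^ 2 * V T2 ^ 2 * z * (y * V (Pr z)) / (32 * C1 * y) = ε ^ 2 * V T2 ^ 2 * (z * V (Pr z)) / (32 * C1) := by
        field_simp
      rw [h3]
      apply div_le_div_of_nonneg_right _ (by positivity)
      apply mul_le_mul_of_nonneg_right _ (by positivity)
      exact mul_le_mul_of_nonneg_left h2 (by positivity))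
  refine le_trans (measure_mono ?_) hprob
  intro ω hω
  show ¬ |((S (fun q => a q ω) ((Pr z).toList ++ (T2.toList ++ T3.toList))
      (Ioc (mm (nrm (fun q => a q ω))) (mm (nrm (fun q => a q ω)) + y))).card : ℝ) -
      (K : ℝ) * (V T2 * V T3)| ≤ 3 * ε * (y * V (Pr z) * (V T2 * V T3))
  intro hcon
  apply hω
  refine ⟨mm (nrm (fun q => a q ω)), hm1 _ (hnv _), hm2 _ (hnv _), ?_⟩
  rw [hST, ← hVTe] at hcon
  have e : (y : ℝ) * V (Pr z) * (V T / V (Pr z)) = y * V T := by field_simp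
  rw [e] at hcon
  exact hcon

end Pool.Agent.V5helper42.RS
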