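import Pool.Agent.V5helper42.RS.S4
import Pool.Agent.V5helper42.RS.J

set_option autoImplicit false

/-!
# Random sieve model: comparison with the interval sieve, almost sure bounds (helper42)
-/

namespace Pool.Agent.V5helper42.RS

open Finset MeasureTheory ProbabilityTheory Filter Topology
open scoped ENNReal
open Pool.Agent.W41 (V V_ge V_pos fac_pos fac_le_one V_le_one)

/-- integer part of the logarithm -/
noncomputable def jj (m : ℕ) : ℕ := ⌊Real.log m⌋₊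

lemma jj_tendsto : Tendsto jj atTop atTop := tendsto_nat_floor_atTop.comp log_tendsto

lemma jj_facts (m : ℕ) (hm : 1 ≤ m) : (jj m : ℝ) ≤ Real.log m ∧ Real.log m < jj m + 1 ∧
    Real.exp (jj m) ≤ m ∧ (m : ℝ) < Real.exp (jj m + 1) := by
  have hm0 : (0 : ℝ) < m := by exact_mod_cast hm
  have h1 : (jj m : ℝ) ≤ Real.log m := Nat.floor_le (Real.log_nonneg (by exact_mod_cast hm))
  have h2 : Real.log m < jj m + 1 := Nat.lt_floor_add_one _
  exact ⟨h1, h2, (Real.le_log_iff_exp_le hm0).1 h1, (Real.log_lt_iff_lt_exp hm0).1 h2⟩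

lemma pow_le_exp (A : ℕ) : ∀ᶠ j : ℕ in atTop, 8 * ((j : ℝ) ^ A + 1) ≤ Real.exp j := by
  have h1 := (Real.isLittleO_pow_exp_atTop (n := A + 1)).comp_tendsto tendsto_natCast_atTop_atTop
  have h2 := h1.bound (show (0 : ℝ) < 1 by norm_num)
  filter_upwards [h2, eventually_ge_atTop 16] with j hj hj1
  simp only [Function.comp, Real.norm_eq_abs, one_mul] at hj
  rw [abs_of_pos (Real.exp_pos _)] at hj
  have h3 := (le_abs_self _).trans hj
  have hj0 : (16 : ℝ) ≤ j := by exact_mod_cast hj1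
  have h4 : (1 : ℝ) ≤ (j : ℝ) ^ A := one_le_pow₀ (by linarith)
  have e : (j : ℝ) ^ (A + 1) = (j : ℝ) ^ A * j := pow_succ _ _
  rw [e] at h3
  nlinarith

/-- the bad event at `m` -/
def BadA {Ω : Type*} (a : ℕ → Ω → ℕ) (ε τ : ℝ) (A m : ℕ) : Set Ω :=
  ⋃ y ∈ (range (jj m ^ A + 1)).filter (fun y : ℕ => (jj m : ℝ) ^ (2 + τ) ≤ (y : ℝ)), ⋃ k ∈ ({m, m + y} : Finset ℕ),
    {ω | ¬ |(((Ioc m (m + y)).filter (fun n => ∀ p ∈ TT (Real.log (k : ℝ)), n % p ≠ a p ω)).card : ℝ) -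
      cnt (fun p => a p ω) (zz (jj m)) m y * (V (TT (Real.log (k : ℝ))) / V (Pr (zz (jj m))))| ≤
        3 * ε * (y * V (TT (Real.log (k : ℝ))))}

theorem prob_BadA {Ω : Type*} [MeasurableSpace Ω] (μ : Measure Ω) [IsProbabilityMeasure μ] (a : ℕ → Ω → ℕ)
    (hm : ∀ p, Measurable (a p)) (hi : iIndepFun a μ)
    (hu : ∀ p : ℕ, p.Prime → ∀ r < p, μ {ω | a p ω = r} = (p : ℝ≥0∞)⁻¹)
    (A : ℕ) (hA : 1 ≤ A) (τ : ℝ) (hτ : 0 < τ) (ε : ℝ) (hε : 0 < ε) (hε1 : ε ≤ 1) :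
    ∀ᶠ m : ℕ in atTop, μ (BadA a ε τ A m) ≤ ENNReal.ofReal (1 / (m : ℝ) ^ 2) := by
  filter_upwards [jj_tendsto.eventually (probA μ a hm hi hu A hA τ hτ ε hε hε1),
    jj_tendsto.eventually (sizes A hA τ hτ 1), jj_tendsto.eventually (pow_le_exp A), eventually_ge_atTop 1]
    with m h1 h2 h3 h4
  obtain ⟨f1, f2, f3, f4⟩ := jj_facts m h4
  obtain ⟨j, hj⟩ : ∃ j : ℕ, j = jj m := ⟨_, rfl⟩
  unfold BadA
  rw [← hj] at h1 h2 h3 f1 f2 f3 f4 ⊢
  obtain ⟨s1, s2, s3, s4, s5, s6, s7, s8, s9⟩ := h2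
  have hjR : (8 : ℝ) ≤ j := by exact_mod_cast s7
  have hm0 : (0 : ℝ) < m := by exact_mod_cast h4
  have one : ∀ y ∈ (range (j ^ A + 1)).filter (fun y : ℕ => (j : ℝ) ^ (2 + τ) ≤ (y : ℝ)),
      ∀ k ∈ ({m, m + y} : Finset ℕ),
      μ {ω | ¬ |(((Ioc m (m + y)).filter (fun n => ∀ p ∈ TT (Real.log (k : ℝ)), n % p ≠ a p ω)).card : ℝ) -
      cnt (fun p => a p ω) (zz j) m y * (V (TT (Real.log (k : ℝ))) / V (Pr (zz j)))| ≤
        3 * ε * (y * V (TT (Real.log (k : ℝ))))} ≤ ENNReal.ofReal (2 * Real.exp (-(10 * j))) := by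
    intro y hy k hk
    rw [mem_filter, mem_range] at hy
    obtain ⟨hyA, hyL⟩ := hy
    have hyA' : y ≤ j ^ A := by omega
    have hym : y ≤ m := by
      have h5 : (y : ℝ) ≤ (j : ℝ) ^ A := by exact_mod_cast hyA'
      have h6 : (0 : ℝ) ≤ (j : ℝ) ^ A := by positivity
      have h7 : (y : ℝ) ≤ m := by linarith
      exact_mod_cast h7
    have hkm : m ≤ k ∧ k ≤ 2 * m := by
      rw [mem_insert, mem_singleton] at hk
      omega
    have hk0 : (0 : ℝ) < k := by exact_mod_cast (by omega : 0 < k)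
    have hlk1 : (j : ℝ) ≤ Real.log k := f1.trans (Real.log_le_log hm0 (by exact_mod_cast hkm.1))
    have hlk2 : Real.log k ≤ 3 * j := by
      have h6 : Real.log k ≤ Real.log (2 * m) := Real.log_le_log hk0 (by exact_mod_cast hkm.2)
      rw [Real.log_mul (by norm_num) hm0.ne'] at h6
      have h7 : Real.log 2 ≤ 1 := by
        have := Real.log_two_lt_d9; linarith
      linarith
    apply h1 m y (TT (Real.log k)) (TT_prime _) _ _ hyL hyA'
    · intro p hp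
      rw [mem_Pr] at hp
      rw [mem_TT]
      exact ⟨hp.1, ((W_mono hp.2).trans s9).trans hlk1⟩
    · exact (one_div_le_one_div_of_le (by linarith) hlk2).trans (V_TT_ge _ (by linarith))
  refine (measure_biUnion_finset_le _ _).trans ?_
  have h6 : ∀ y ∈ (range (j ^ A + 1)).filter (fun y : ℕ => (j : ℝ) ^ (2 + τ) ≤ (y : ℝ)),
      μ (⋃ k ∈ ({m, m + y} : Finset ℕ),
    {ω | ¬ |(((Ioc m (m + y)).filter (fun n => ∀ p ∈ TT (Real.log (k : ℝ)), n % p ≠ a p ω)).card : ℝ) -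
      cnt (fun p => a p ω) (zz j) m y * (V (TT (Real.log (k : ℝ))) / V (Pr (zz j)))| ≤
        3 * ε * (y * V (TT (Real.log (k : ℝ))))}) ≤
      2 * ENNReal.ofReal (2 * Real.exp (-(10 * j))) := by
    intro y hy
    refine (measure_biUnion_finset_le _ _).trans ((sum_le_sum (one y hy)).trans ?_)
    rw [sum_const, nsmul_eq_mul]
    gcongr
    exact_mod_cast card_le_two
  refine (sum_le_sum h6).trans ?_
  rw [sum_const, nsmul_eq_mul]
  have h7 : (((range (j ^ A + 1)).filter (fun y : ℕ => (j : ℝ) ^ (2 + τ) ≤ (y : ℝ))).card : ℝ≥0∞) ≤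
      ((j ^ A + 1 : ℕ) : ℝ≥0∞) := by
    have := card_filter_le (range (j ^ A + 1)) (fun y : ℕ => (j : ℝ) ^ (2 + τ) ≤ (y : ℝ))
    rw [card_range] at this
    exact_mod_cast this
  refine (mul_le_mul_left h7 _).trans ?_
  have e2 : (2 : ℝ≥0∞) = ENNReal.ofReal 2 := by simp
  rw [e2, ← ENNReal.ofReal_natCast, ← ENNReal.ofReal_mul (by norm_num), ← ENNReal.ofReal_mul (by positivity)]
  apply ENNReal.ofReal_le_ofReal
  have h8 : (((j ^ A + 1 : ℕ) : ℝ)) * 4 ≤ Real.exp j := by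
    push_cast
    have h6 : (0 : ℝ) ≤ (j : ℝ) ^ A := by positivity
    linarith
  calc (((j ^ A + 1 : ℕ) : ℝ)) * (2 * (2 * Real.exp (-(10 * j))))
      = ((((j ^ A + 1 : ℕ) : ℝ)) * 4) * Real.exp (-(10 * j)) := by ring
    _ ≤ Real.exp j * Real.exp (-(10 * j)) := mul_le_mul_of_nonneg_right h8 (Real.exp_pos _).le
    _ = Real.exp (-(9 * j)) := by rw [← Real.exp_add]; congr 1; ring
    _ ≤ Real.exp (-(2 * (j + 1))) := Real.exp_le_exp.2 (by linarith)
    _ = 1 / Real.exp (j + 1) ^ 2 := by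
        rw [Real.exp_neg, one_div, ← Real.exp_nat_mul]; norm_num
    _ ≤ 1 / (m : ℝ) ^ 2 := one_div_le_one_div_of_le (by positivity) (pow_le_pow_left₀ hm0.le f4.le 2)

lemma arL {N y L M W' u C1 : ℝ} (hy : 0 < y) (hL : 0 < L) (hM : 0 ≤ M) (hV : 1 / (L + M) ≤ W')
    (hN : u * (y * W') ≤ N) (hN0 : 0 ≤ N) (hu : u ≤ C1) (hC1 : 0 ≤ C1) : u - C1 * M / L ≤ N * L / y := by
  have h0 : 0 ≤ C1 * M / L := by positivity
  rcases le_or_gt u 0 with h | h
  · have : 0 ≤ N * L / y := by positivity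
    linarith
  · have h1 : u * (y * (1 / (L + M))) ≤ N := by
      refine le_trans ?_ hN
      apply mul_le_mul_of_nonneg_left _ h.le
      exact mul_le_mul_of_nonneg_left hV hy.le
    have h2 : u * (L / (L + M)) ≤ N * L / y := by
      rw [le_div_iff₀ hy]
      have h3 := mul_le_mul_of_nonneg_right h1 hL.le
      refine le_trans (le_of_eq ?_) h3
      field_simp
    have h3 : u - C1 * M / L ≤ u * (L / (L + M)) := by
      have h4 : u * (L / (L + M)) = u - u * M / (L + M) := by field_simp; ring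
      rw [h4]
      have h5 : u * M / (L + M) ≤ C1 * M / L := by
        apply div_le_div₀ (by positivity) _ hL (by linarith)
        exact mul_le_mul_of_nonneg_right hu hM
      linarith
    linarith

lemma arU {N y L W' u C1 w : ℝ} (hy : 0 < y) (hL : 0 < L) (hw : 0 < w) (hV : W' ≤ (1 + 1 / w) / L)
    (hN : N ≤ u * (y * W')) (hu : 0 ≤ u) (hu2 : u ≤ C1) : N * L / y ≤ u + C1 / w := by
  have h1 : N ≤ u * (y * ((1 + 1 / w) / L)) := by
    refine hN.trans ?_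
    apply mul_le_mul_of_nonneg_left _ hu
    exact mul_le_mul_of_nonneg_left hV hy.le
  have h2 : N * L / y ≤ u * (1 + 1 / w) := by
    rw [div_le_iff₀ hy]
    have h3 := mul_le_mul_of_nonneg_right h1 hL.le
    refine h3.trans (le_of_eq ?_)
    field_simp
  have h3 : u * (1 + 1 / w) = u + u / w := by ring
  have h4 : u / w ≤ C1 / w := div_le_div_of_nonneg_right hu2 hw.le
  linarith

/-- the extremal numbers are bounded -/
theorem sp_bdd : ∃ C1 : ℝ, 1 ≤ C1 ∧ ∀ᶠ k : ℕ in atTop, ∀ y : ℕ, k ≤ y →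
    0 ≤ sm k y ∧ sm k y ≤ sp k y ∧ sp k y ≤ C1 := by
  obtain ⟨C1, hC1, hC⟩ := c1_exists
  refine ⟨C1, hC1, ?_⟩
  filter_upwards [hC, eventually_ge_atTop 1] with k hk hk1
  intro y hy
  have hV := V_pos (Pr_prime k)
  have hy0 : (0 : ℝ) < y := by exact_mod_cast (by omega : 0 < y)
  obtain ⟨c, hc1, hc2⟩ := Sp_spec k y
  refine ⟨by unfold sm; positivity, ?_, ?_⟩
  · unfold sm sp
    apply div_le_div_of_nonneg_right _ (by positivity)
    rw [← hc2]
    exact_mod_cast Sm_le_cnt c k 0 y hc1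
  · unfold sp
    rw [div_le_iff₀ (by positivity), ← hc2]
    exact hk c hc1 0 y hy

lemma Sp_eq (k y : ℕ) (hy : 0 < y) : (Sp k y : ℝ) = sp k y * (y * V (Pr k)) := by
  have hV := V_pos (Pr_prime k)
  have hy0 : (0 : ℝ) < y := by exact_mod_cast hy
  unfold sp
  field_simp

lemma Sm_eq (k y : ℕ) (hy : 0 < y) : (Sm k y : ℝ) = sm k y * (y * V (Pr k)) := by
  have hV := V_pos (Pr_prime k)
  have hy0 : (0 : ℝ) < y := by exact_mod_cast hy
  unfold sm
  field_simp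

/-- choice of the parameters -/
lemma small_par (C1 : ℝ) (hC1 : 1 ≤ C1) (ε₀ : ℝ) (hε₀ : 0 < ε₀) : ∃ ε δ : ℝ, 0 < ε ∧ ε ≤ 1 ∧ 0 < δ ∧ δ ≤ 1 / 2 ∧
    3 * ε ≤ ε₀ / 4 ∧ 2 * δ * C1 ≤ ε₀ / 4 := by
  refine ⟨min 1 (ε₀ / 12), min (1 / 2) (ε₀ / (8 * C1)), by positivity, min_le_left _ _, by positivity,
    min_le_left _ _, ?_, ?_⟩
  · have := min_le_right 1 (ε₀ / 12)
    linarith
  · have h1 := min_le_right (1 / 2) (ε₀ / (8 * C1))
    have h2 : 2 * (ε₀ / (8 * C1)) * C1 = ε₀ / 4 := by field_simp; norm_num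
    have h3 : 2 * min (1 / 2) (ε₀ / (8 * C1)) * C1 ≤ 2 * (ε₀ / (8 * C1)) * C1 := by
      apply mul_le_mul_of_nonneg_right _ (by linarith)
      linarith
    linarith

theorem ae_A {Ω : Type*} [MeasurableSpace Ω] (μ : Measure Ω) [IsProbabilityMeasure μ] (a : ℕ → Ω → ℕ)
    (hm : ∀ p, Measurable (a p)) (hi : iIndepFun a μ)
    (hu : ∀ p : ℕ, p.Prime → ∀ r < p, μ {ω | a p ω = r} = (p : ℝ≥0∞)⁻¹)
    (A : ℕ) (hA : 1 ≤ A) (τ : ℝ) (hτ : 0 < τ) (ε₀ : ℝ) (hε₀ : 0 < ε₀) :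
    ∀ᵐ ω ∂μ, ∀ᶠ m : ℕ in atTop, ∀ y : ℕ, (jj m : ℝ) ^ (2 + τ) ≤ y → y ≤ jj m ^ A →
      ∀ k : ℕ, (k = jj m ∨ k = jj m + 1) →
      sm k y - ε₀ ≤ (NM (model (fun q => a q ω)) m y : ℝ) * Real.log m / y ∧
      (NM (model (fun q => a q ω)) m y : ℝ) * Real.log m / y ≤ sp k y + ε₀ := by
  obtain ⟨C1, hC1, hbd⟩ := sp_bdd
  obtain ⟨c', hc', hVl⟩ := VV_lower
  obtain ⟨ε, δ, hε, hε1, hδ, hδ1, hpe, hpd⟩ := small_par C1 hC1 ε₀ hε₀
  obtain ⟨ε₁, hε₁⟩ : ∃ ε₁ : ℝ, ε₁ = c' * (ε₀ / 8) := ⟨_, rfl⟩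
  have hε₁0 : 0 < ε₁ := by rw [hε₁]; positivity
  obtain ⟨j1, hj1⟩ := exists_nat_ge (4 * (2 * C1 + 3) / ε₀)
  have hbad := prob_BadA μ a hm hi hu A hA τ hτ ε hε hε1
  obtain ⟨m0, hm0⟩ := eventually_atTop.1 hbad
  have hBC : ∀ᵐ ω ∂μ, ∀ᶠ m : ℕ in atTop, ω ∉ (if m0 ≤ m then BadA a ε τ A m else ∅) := by
    apply ae_eventually_notMem
    have hs : Summable (fun m : ℕ => 1 / (m : ℝ) ^ 2) := Real.summable_one_div_nat_pow.2 (by norm_num)
    refine ne_top_of_le_ne_top hs.tsum_ofReal_ne_top ?_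
    apply ENNReal.tsum_le_tsum
    intro m
    split_ifs with h
    · exact hm0 m h
    · simp
  have hbd2 : ∀ᶠ j : ℕ in atTop, ∀ k : ℕ, (k = j ∨ k = j + 1) → ∀ y : ℕ, k ≤ y →
      0 ≤ sm k y ∧ sm k y ≤ sp k y ∧ sp k y ≤ C1 := by
    filter_upwards [hbd, (tendsto_add_atTop_nat 1).eventually hbd] with j g1 g2
    rintro k (rfl | rfl)
    · exact g1
    · exact g2
  filter_upwards [hBC, ae_lt μ a hm hu] with ω h1 h2
  filter_upwards [h1, eventually_ge_atTop m0, jj_tendsto.eventually hbd2,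
    jj_tendsto.eventually (sizes A hA τ hτ 1), jj_tendsto.eventually (pow_le_exp A), eventually_ge_atTop 1,
    jj_tendsto.eventually (low ε₁ hε₁0), jj_tendsto.eventually (VV_ratio δ hδ hδ1), jj_tendsto.eventually le_zz,
    jj_tendsto.eventually (zz_tendsto.eventually hVl), jj_tendsto.eventually_ge_atTop j1, jj_tendsto.eventually W_le_self]
    with m g1 g2 g3 g4 g5 g6 g7 g8 g9 g10 g11 g12
  intro y hy1 hy2 k hk
  rw [if_pos g2] at g1
  obtain ⟨f1, f2, f3, f4⟩ := jj_facts m g6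
  have key : ∀ k ∈ ({m, m + y} : Finset ℕ),
      |(((Ioc m (m + y)).filter (fun n => ∀ p ∈ TT (Real.log (k : ℝ)), n % p ≠ a p ω)).card : ℝ) -
      cnt (fun p => a p ω) (zz (jj m)) m y * (V (TT (Real.log (k : ℝ))) / V (Pr (zz (jj m))))| ≤
        3 * ε * (y * V (TT (Real.log (k : ℝ)))) := by
    intro k hk
    by_contra hcon
    apply g1
    unfold BadA
    simp only [Set.mem_iUnion]
    refine ⟨y, ?_, k, hk, hcon⟩
    rw [mem_filter, mem_range]
    exact ⟨by omega, hy1⟩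
  obtain ⟨j, hj⟩ : ∃ j : ℕ, j = jj m := ⟨_, rfl⟩
  rw [← hj] at g3 g4 g5 g7 g8 g9 g10 g11 g12 f1 f2 f3 f4 hy1 hy2 hk key
  obtain ⟨s1, s2, s3, s4, s5, s6, s7, s8, s9⟩ := g4
  have hjR : (8 : ℝ) ≤ j := by exact_mod_cast s7
  have hm0' : (0 : ℝ) < m := by exact_mod_cast g6
  have hL0 : 0 < Real.log m := by linarith
  have hjε : 4 * (2 * C1 + 3) ≤ ε₀ * j := by
    have h3 : 4 * (2 * C1 + 3) / ε₀ ≤ (j : ℝ) := hj1.trans (by exact_mod_cast g11)
    rw [div_le_iff₀ hε₀] at h3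
    linarith
  have hz0 : (0 : ℝ) < zz j := by exact_mod_cast (by omega : 0 < zz j)
  have hzy3 : 3 * ((j : ℝ) * zz j) ≤ y := s1.trans hy1
  have hjz : (0 : ℝ) ≤ (j : ℝ) * zz j := mul_nonneg (by linarith) hz0.le
  have hzy : (zz j : ℝ) ≤ y := by
    have h3 : (zz j : ℝ) ≤ (3 * (j : ℝ)) * zz j := le_mul_of_one_le_left hz0.le (by linarith)
    have h4 : (3 * (j : ℝ)) * zz j = 3 * ((j : ℝ) * zz j) := by ring
    rw [h4] at h3
    exact h3.trans hzy3
  have hy0 : (0 : ℝ) < y := hz0.trans_le hzy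
  have hzyN : zz j ≤ y := by exact_mod_cast hzy
  have hyN0 : 0 < y := by exact_mod_cast hy0
  have hkz : k ≤ zz j := by omega
  have hkj : j ≤ k := by omega
  have hky : k ≤ y := hkz.trans hzyN
  have hym : y ≤ m := by
    have h5 : (y : ℝ) ≤ (j : ℝ) ^ A := by exact_mod_cast hy2
    have h6 : (0 : ℝ) ≤ (j : ℝ) ^ A := by positivity
    have h7 : (y : ℝ) ≤ m := by linarith
    exact_mod_cast h7
  have hρ : ∀ n : ℕ, ∀ p ∈ Pr n, (fun q => a q ω) p < p := fun n p hp => h2 p (Pr_prime n p hp)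
  obtain ⟨b1, b2, b3⟩ := g3 k hk y hky
  obtain ⟨s1', s2'⟩ := sandwich2 (fun q => a q ω) h2 m y g6
  obtain ⟨N, hN⟩ : ∃ N : ℝ, N = (NM (model (fun q => a q ω)) m y : ℝ) := ⟨_, rfl⟩
  have hN0 : 0 ≤ N := by rw [hN]; exact Nat.cast_nonneg _
  have hVz : 0 < V (Pr (zz j)) := V_pos (Pr_prime _)
  have hV3 : 0 < V (Pr (j / 3)) := V_pos (Pr_prime _)
  have hVk0 : 0 < V (Pr k) := V_pos (Pr_prime _)
  obtain ⟨κ, hκ⟩ : ∃ κ : ℝ, κ = (cnt (fun p => a p ω) (zz j) m y : ℝ) / (y * V (Pr (zz j))) := ⟨_, rfl⟩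
  have hκe : (cnt (fun p => a p ω) (zz j) m y : ℝ) = κ * (y * V (Pr (zz j))) := by
    rw [hκ]; field_simp
  have hκ0 : 0 ≤ κ := by rw [hκ]; positivity
  -- upper bound for κ
  have hκU : κ ≤ sp k y + 2 * δ * C1 := by
    have h3 : (cnt (fun p => a p ω) (zz j) m y : ℝ) ≤ Sp k y := by
      exact_mod_cast (cnt_anti _ hkz m y).trans (cnt_le_Sp _ k m y (hρ k))
    rw [Sp_eq k y hyN0] at h3
    have h4 : (1 - δ) * V (Pr k) ≤ V (Pr (zz j)) := by
      refine le_trans ?_ g8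
      apply mul_le_mul_of_nonneg_left _ (by linarith)
      exact V_anti (Pr_mono (by omega)) (Pr_prime _)
    have h5 : V (Pr k) ≤ (1 + 2 * δ) * V (Pr (zz j)) := by
      have h6 : (1 + 2 * δ) * ((1 - δ) * V (Pr k)) ≤ (1 + 2 * δ) * V (Pr (zz j)) :=
        mul_le_mul_of_nonneg_left h4 (by linarith)
      have h7 : V (Pr k) ≤ (1 + 2 * δ) * ((1 - δ) * V (Pr k)) := by
        have h8 : 1 ≤ (1 + 2 * δ) * (1 - δ) := by
          have h9 : 0 ≤ δ * (1 - 2 * δ) := mul_nonneg hδ.le (by linarith)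
          have h10 : (1 + 2 * δ) * (1 - δ) = 1 + δ * (1 - 2 * δ) := by ring
          rw [h10]
          exact le_add_of_nonneg_right h9
        have h9 : 1 * V (Pr k) ≤ ((1 + 2 * δ) * (1 - δ)) * V (Pr k) := mul_le_mul_of_nonneg_right h8 hVk0.le
        rw [one_mul, mul_assoc] at h9
        exact h9
      linarith
    have h6 : κ * (y * V (Pr (zz j))) ≤ (sp k y * (1 + 2 * δ)) * (y * V (Pr (zz j))) := by
      rw [← hκe]
      refine h3.trans ?_
      have h7 : sp k y * (y * V (Pr k)) ≤ sp k y * (y * ((1 + 2 * δ) * V (Pr (zz j)))) := by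
        apply mul_le_mul_of_nonneg_left _ (b1.trans b2)
        exact mul_le_mul_of_nonneg_left h5 hy0.le
      linarith
    have h7 := le_of_mul_le_mul_right h6 (by positivity)
    have h8 : sp k y * (1 + 2 * δ) ≤ sp k y + 2 * δ * C1 := by
      have h9 : 2 * δ * sp k y ≤ 2 * δ * C1 := mul_le_mul_of_nonneg_left b3 (by positivity)
      have h10 : sp k y * (1 + 2 * δ) = sp k y + 2 * δ * sp k y := by ring
      rw [h10]
      exact add_le_add le_rfl h9
    linarith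
  -- lower bound for κ
  have hκL : sm k y - ε₀ / 4 ≤ κ := by
    have h3 := g7 (fun q => a q ω) (hρ _) m y k (zz j) (by
      have h4 : (2 * (zz j * j) : ℝ) ≤ y := by
        rw [mul_comm (zz j : ℝ) (j : ℝ)]
        exact le_trans (by linarith only [hjz]) hzy3
      exact_mod_cast h4) (by omega) hkz le_rfl
    have h4 : (Sm k y : ℝ) ≤ cnt (fun q => a q ω) k m y := by exact_mod_cast Sm_le_cnt _ k m y (hρ k)
    rw [Sm_eq k y hyN0] at h4
    have h5 : V (Pr (zz j)) ≤ V (Pr k) := V_anti (Pr_mono hkz) (Pr_prime _)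
    have h6 : sm k y * (y * V (Pr (zz j))) ≤ sm k y * (y * V (Pr k)) := by
      apply mul_le_mul_of_nonneg_left _ b1
      exact mul_le_mul_of_nonneg_left h5 hy0.le
    have hlz0 : 0 < Real.log (zz j) := by linarith
    have h7 : c' / (2 * Real.log j) ≤ V (Pr (zz j)) :=
      le_trans (div_le_div_of_nonneg_left hc'.le hlz0 s3) g10
    have h8 : ε₁ * (y / Real.log j) ≤ ε₀ / 4 * (y * V (Pr (zz j))) := by
      have h9 : ε₀ / 4 * (y * (c' / (2 * Real.log j))) ≤ ε₀ / 4 * (y * V (Pr (zz j))) := by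
        apply mul_le_mul_of_nonneg_left _ (by positivity)
        exact mul_le_mul_of_nonneg_left h7 hy0.le
      refine le_trans (le_of_eq ?_) h9
      rw [hε₁]
      field_simp
      norm_num
    have h9 : (sm k y - ε₀ / 4) * (y * V (Pr (zz j))) ≤ κ * (y * V (Pr (zz j))) := by
      rw [← hκe]
      have h10 : (sm k y - ε₀ / 4) * (y * V (Pr (zz j))) = sm k y * (y * V (Pr (zz j))) - ε₀ / 4 * (y * V (Pr (zz j))) := by ring
      rw [h10]
      linarith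
    exact le_of_mul_le_mul_right h9 (by positivity)
  have hN1 : (((Ioc m (m + y)).filter (fun n => ∀ p ∈ TT (Real.log ((m + y : ℕ) : ℝ)), n % p ≠ a p ω)).card : ℝ) ≤ N := by
    rw [hN]; exact_mod_cast s1'
  have hN2 : N ≤ (((Ioc m (m + y)).filter (fun n => ∀ p ∈ TT (Real.log (m : ℝ)), n % p ≠ a p ω)).card : ℝ) := by
    rw [hN]; exact_mod_cast s2'
  have ku := (abs_le.1 (key m (by simp))).2
  have kl := (abs_le.1 (key (m + y) (by simp))).1
  rw [hκe] at ku kl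
  have e1 : ∀ v : ℝ, κ * (y * V (Pr (zz j))) * (v / V (Pr (zz j))) = κ * (y * v) := by
    intro v; field_simp
  rw [e1] at ku kl
  rw [← hN]
  constructor
  · have hk0 : (0 : ℝ) < ((m + y : ℕ) : ℝ) := by exact_mod_cast (by omega : 0 < m + y)
    have hlk2 : Real.log ((m + y : ℕ) : ℝ) ≤ Real.log m + 1 := by
      have h6 : Real.log ((m + y : ℕ) : ℝ) ≤ Real.log (2 * m) := Real.log_le_log hk0 (by exact_mod_cast (by omega : m + y ≤ 2 * m))
      rw [Real.log_mul (by norm_num) hm0'.ne'] at h6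
      have := Real.log_two_lt_d9; linarith
    have hlk1 : Real.log m ≤ Real.log ((m + y : ℕ) : ℝ) := Real.log_le_log hm0' (by exact_mod_cast (by omega : m ≤ m + y))
    have hVk : 1 / (Real.log m + 1) ≤ V (TT (Real.log ((m + y : ℕ) : ℝ))) :=
      (one_div_le_one_div_of_le (by linarith) hlk2).trans (V_TT_ge _ (by linarith))
    have h3 : (κ - 3 * ε) * (y * V (TT (Real.log ((m + y : ℕ) : ℝ)))) ≤ N := by
      have e2 : (κ - 3 * ε) * (y * V (TT (Real.log ((m + y : ℕ) : ℝ)))) =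
        κ * (y * V (TT (Real.log ((m + y : ℕ) : ℝ)))) - 3 * ε * (y * V (TT (Real.log ((m + y : ℕ) : ℝ)))) := by ring
      rw [e2]; linarith
    have hκC : κ - 3 * ε ≤ 2 * C1 := by
      have h9 : 2 * δ * C1 ≤ 1 * C1 := mul_le_mul_of_nonneg_right (by linarith only [hδ1]) (by linarith only [hC1])
      linarith only [h9, hκU, b3, hε]
    have h4 := arL hy0 hL0 one_pos.le hVk h3 hN0 hκC (by linarith)
    have h5 : 2 * C1 * 1 / Real.log m ≤ ε₀ / 4 := by
      rw [div_le_div_iff₀ hL0 (by norm_num)]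
      have h9 : ε₀ * j ≤ ε₀ * Real.log m := mul_le_mul_of_nonneg_left f1 hε₀.le
      linarith only [h9, hjε, hC1]
    linarith
  · have hw1 : (1 : ℝ) ≤ (j : ℝ) := by linarith
    have hV1 := V_TT_le (Real.log m) (by linarith) j (by omega) (g12.trans f1)
    have h3 : N ≤ (κ + 3 * ε) * (y * V (TT (Real.log m))) := by
      have e2 : (κ + 3 * ε) * (y * V (TT (Real.log m))) =
        κ * (y * V (TT (Real.log m))) + 3 * ε * (y * V (TT (Real.log m))) := by ring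
      rw [e2]; linarith
    have hκC : κ + 3 * ε ≤ 2 * C1 + 3 := by
      have h9 : 2 * δ * C1 ≤ 1 * C1 := mul_le_mul_of_nonneg_right (by linarith only [hδ1]) (by linarith only [hC1])
      linarith only [h9, hκU, b3, hε1]
    have h4 := arU hy0 hL0 (by linarith : (0 : ℝ) < j) hV1 h3 (by linarith) hκC
    have h5 : (2 * C1 + 3) / (j : ℝ) ≤ ε₀ / 4 := by
      rw [div_le_div_iff₀ (by linarith) (by norm_num)]
      linarith
    linarith

end Pool.Agent.V5helper42.RS
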