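import Pool.Agent.V5helper42.RS.S5

set_option autoImplicit false

/-!
# Random sieve model: the extremal patterns occur (helper42)
-/

namespace Pool.Agent.V5helper42.RS

open Finset MeasureTheory ProbabilityTheory Filter Topology
open scoped ENNReal
open Pool.Agent.W41 (V V_ge V_pos fac_pos fac_le_one V_le_one)

theorem ae_pat {Ω : Type*} [MeasurableSpace Ω] (μ : Measure Ω) [IsProbabilityMeasure μ] (a : ℕ → Ω → ℕ)
    (hm : ∀ p, Measurable (a p)) (hi : iIndepFun a μ)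
    (hu : ∀ p : ℕ, p.Prime → ∀ r < p, μ {ω | a p ω = r} = (p : ℝ≥0∞)⁻¹)
    (A : ℕ) (hA : 1 ≤ A) (τ : ℝ) (hτ : 0 < τ) (ε : ℝ) (hε : 0 < ε) (hε1 : ε ≤ 1)
    (T : ℕ → Finset ℕ) (hT : ∀ᶠ j : ℕ in atTop, (∀ p ∈ T j, p.Prime) ∧ Pr (j / 3) ⊆ T j ∧ 1 / (3 * (j : ℝ)) ≤ V (T j))
    (c : ℕ → ℕ → ℕ → ℕ) (hc : ∀ j y : ℕ, ∀ p ∈ Pr (j / 3), c j y p < p) :
    ∀ᵐ ω ∂μ, ∀ᶠ j : ℕ in atTop, ∀ y : ℕ, (j : ℝ) ^ (2 + τ) ≤ y → y ≤ j ^ A →
      ∃ m : ℕ, Real.exp j ≤ m ∧ (m : ℝ) ≤ 2 * Real.exp j ∧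
        |(((Ioc m (m + y)).filter (fun n => ∀ p ∈ T j, n % p ≠ a p ω)).card : ℝ) -
        cnt (c j y) (j / 3) 0 y * (V (T j) / V (Pr (j / 3)))| ≤ 3 * ε * (y * V (T j)) := by
  obtain ⟨E, hE⟩ : ∃ E : ℕ → ℕ → Set Ω, E = fun (j y : ℕ) => {ω | ¬ ∃ m : ℕ, Real.exp j ≤ m ∧ (m : ℝ) ≤ 2 * Real.exp j ∧
        |(((Ioc m (m + y)).filter (fun n => ∀ p ∈ T j, n % p ≠ a p ω)).card : ℝ) -
        cnt (c j y) (j / 3) 0 y * (V (T j) / V (Pr (j / 3)))| ≤ 3 * ε * (y * V (T j))} := ⟨_, rfl⟩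
  obtain ⟨Bd, hBd⟩ : ∃ Bd : ℕ → Set Ω, Bd = fun j =>
    ⋃ y ∈ (range (j ^ A + 1)).filter (fun y : ℕ => (j : ℝ) ^ (2 + τ) ≤ (y : ℝ)), E j y := ⟨_, rfl⟩
  have hbad : ∀ᶠ j : ℕ in atTop, μ (Bd j) ≤ ENNReal.ofReal (1 / (j : ℝ) ^ 2) := by
    filter_upwards [probB μ a hm hi hu A hA τ hτ ε hε hε1, hT, eventually_ge_atTop 4] with j h1 h2 h3
    obtain ⟨t1, t2, t3⟩ := h2
    have hjR : (4 : ℝ) ≤ j := by exact_mod_cast h3
    have h6 : ∀ y ∈ (range (j ^ A + 1)).filter (fun y : ℕ => (j : ℝ) ^ (2 + τ) ≤ (y : ℝ)),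
        μ (E j y) ≤ ENNReal.ofReal (2 * (1 / (j : ℝ) ^ (A + 4))) := by
      intro y hy
      rw [mem_filter, mem_range] at hy
      rw [hE]
      exact h1 y (T j) t1 t2 t3 hy.2 (by omega) (c j y) (hc j y)
    rw [hBd]
    refine (measure_biUnion_finset_le _ _).trans ((sum_le_sum h6).trans ?_)
    rw [sum_const, nsmul_eq_mul]
    have h7 : (((range (j ^ A + 1)).filter (fun y : ℕ => (j : ℝ) ^ (2 + τ) ≤ (y : ℝ))).card : ℝ≥0∞) ≤
        ((j ^ A + 1 : ℕ) : ℝ≥0∞) := by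
      have := card_filter_le (range (j ^ A + 1)) (fun y : ℕ => (j : ℝ) ^ (2 + τ) ≤ (y : ℝ))
      rw [card_range] at this
      exact_mod_cast this
    refine (mul_le_mul_left h7 _).trans ?_
    rw [← ENNReal.ofReal_natCast, ← ENNReal.ofReal_mul (by positivity)]
    apply ENNReal.ofReal_le_ofReal
    have h8 : (1 : ℝ) ≤ (j : ℝ) ^ A := one_le_pow₀ (by linarith)
    have h9 : (((j ^ A + 1 : ℕ)) : ℝ) ≤ 2 * (j : ℝ) ^ A := by push_cast; linarith
    calc (((j ^ A + 1 : ℕ)) : ℝ) * (2 * (1 / (j : ℝ) ^ (A + 4))) ≤ 2 * (j : ℝ) ^ A * (2 * (1 / (j : ℝ) ^ (A + 4))) :=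
          mul_le_mul_of_nonneg_right h9 (by positivity)
      _ = 4 / (j : ℝ) ^ 4 := by
          rw [pow_add]; field_simp; norm_num
      _ ≤ 1 / (j : ℝ) ^ 2 := by
          rw [div_le_div_iff₀ (by positivity) (by positivity)]
          have q1 : (4 : ℝ) ≤ (j : ℝ) ^ 2 := by nlinarith
          have q2 : (j : ℝ) ^ 4 = (j : ℝ) ^ 2 * (j : ℝ) ^ 2 := by ring
          rw [q2]
          have q3 := mul_le_mul_of_nonneg_right q1 (show (0 : ℝ) ≤ (j : ℝ) ^ 2 by positivity)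
          linarith
  obtain ⟨m0, hm0⟩ := eventually_atTop.1 hbad
  have hBC : ∀ᵐ ω ∂μ, ∀ᶠ j : ℕ in atTop, ω ∉ (if m0 ≤ j then Bd j else ∅) := by
    apply ae_eventually_notMem
    have hs : Summable (fun m : ℕ => 1 / (m : ℝ) ^ 2) := Real.summable_one_div_nat_pow.2 (by norm_num)
    refine ne_top_of_le_ne_top hs.tsum_ofReal_ne_top ?_
    apply ENNReal.tsum_le_tsum
    intro m
    split_ifs with h
    · exact hm0 m h
    · simp
  filter_upwards [hBC] with ω h1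
  filter_upwards [h1, eventually_ge_atTop m0] with j g1 g2
  intro y hy1 hy2
  rw [if_pos g2] at g1
  by_contra hcon
  apply g1
  rw [hBd]
  simp only [Set.mem_iUnion]
  refine ⟨y, by rw [mem_filter, mem_range]; exact ⟨by omega, hy1⟩, ?_⟩
  rw [hE]
  exact hcon

theorem ae_B {Ω : Type*} [MeasurableSpace Ω] (μ : Measure Ω) [IsProbabilityMeasure μ] (a : ℕ → Ω → ℕ)
    (hm : ∀ p, Measurable (a p)) (hi : iIndepFun a μ)
    (hu : ∀ p : ℕ, p.Prime → ∀ r < p, μ {ω | a p ω = r} = (p : ℝ≥0∞)⁻¹)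
    (A : ℕ) (hA : 1 ≤ A) (τ : ℝ) (hτ : 0 < τ) (ε₀ : ℝ) (hε₀ : 0 < ε₀) :
    ∀ᵐ ω ∂μ, ∀ᶠ j : ℕ in atTop, ∀ y : ℕ, (j : ℝ) ^ (2 + τ) ≤ y → y ≤ j ^ A →
      (∃ m : ℕ, Real.exp j ≤ m ∧ (m : ℝ) ≤ 2 * Real.exp j ∧
        sp j y - ε₀ ≤ (NM (model (fun q => a q ω)) m y : ℝ) * j / y) ∧
      (∃ m : ℕ, Real.exp j ≤ m ∧ (m : ℝ) ≤ 2 * Real.exp j ∧
        (NM (model (fun q => a q ω)) m y : ℝ) * j / y ≤ sm j y + ε₀) := by
  obtain ⟨C1, hC1, hbd⟩ := sp_bdd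
  obtain ⟨c', hc', hVl⟩ := VV_lower
  obtain ⟨ε, δ, hε, hε1, hδ, hδ1, hpe, hpd⟩ := small_par C1 hC1 ε₀ hε₀
  obtain ⟨ε₁, hε₁⟩ : ∃ ε₁ : ℝ, ε₁ = c' * (ε₀ / 4) := ⟨_, rfl⟩
  have hε₁0 : 0 < ε₁ := by rw [hε₁]; positivity
  obtain ⟨j1, hj1⟩ := exists_nat_ge (4 * (2 * C1 + 3 + ε₀) / ε₀)
  choose cmax hx1 hx2 using Sp_spec
  choose cmin hn1 hn2 using Sm_spec
  have hsub3 : ∀ j, Pr (j / 3) ⊆ Pr j := fun j => Pr_mono (by omega)
  have P1 := ae_pat μ a hm hi hu A hA τ hτ ε hε hε1 (fun j => TT ((j : ℝ) + 2)) (by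
    filter_upwards [W_le_self, eventually_ge_atTop 4] with j h1 h2
    have hjR : (4 : ℝ) ≤ j := by exact_mod_cast h2
    refine ⟨TT_prime _, ?_, ?_⟩
    · intro p hp
      rw [mem_Pr] at hp
      rw [mem_TT]
      refine ⟨hp.1, ?_⟩
      have := W_mono (by omega : p ≤ j)
      linarith
    · exact (one_div_le_one_div_of_le (by linarith) (by linarith)).trans (V_TT_ge _ (by linarith)))
    cmax (fun j y p hp => hx1 j y p (hsub3 j hp))
  have P2 := ae_pat μ a hm hi hu A hA τ hτ ε hε hε1 (fun j => TT (j : ℝ)) (by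
    filter_upwards [W_le_self, eventually_ge_atTop 4] with j h1 h2
    have hjR : (4 : ℝ) ≤ j := by exact_mod_cast h2
    refine ⟨TT_prime _, ?_, ?_⟩
    · intro p hp
      rw [mem_Pr] at hp
      rw [mem_TT]
      refine ⟨hp.1, ?_⟩
      have := W_mono (by omega : p ≤ j)
      linarith
    · exact (one_div_le_one_div_of_le (by linarith) (by linarith)).trans (V_TT_ge _ (by linarith)))
    cmin (fun j y p hp => hn1 j y p (hsub3 j hp))
  filter_upwards [P1, P2, ae_lt μ a hm hu] with ω h1 h2 h3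
  filter_upwards [h1, h2, hbd, sizes A hA τ hτ 1, pow_le_exp A, low ε₁ hε₁0, VV_ratio δ hδ hδ1, le_zz,
    div3_tendsto.eventually hVl, eventually_ge_atTop j1, W_le_self]
    with j g1 g2 g3 g4 g5 g7 g8 g9 g10 g11 g12
  intro y hy1 hy2
  obtain ⟨s1, s2, s3, s4, s5, s6, s7, s8, s9⟩ := g4
  have hjR : (8 : ℝ) ≤ j := by exact_mod_cast s7
  have hj0 : (0 : ℝ) < j := by linarith
  have hjε : 4 * (2 * C1 + 3 + ε₀) ≤ ε₀ * j := by
    have h3 : 4 * (2 * C1 + 3 + ε₀) / ε₀ ≤ (j : ℝ) := hj1.trans (by exact_mod_cast g11)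
    rw [div_le_iff₀ hε₀] at h3
    linarith
  have hz0 : (0 : ℝ) < zz j := by exact_mod_cast (by omega : 0 < zz j)
  have hzy3 : 3 * ((j : ℝ) * zz j) ≤ y := s1.trans hy1
  have hzy : (zz j : ℝ) ≤ y := by nlinarith
  have hy0 : (0 : ℝ) < y := hz0.trans_le hzy
  have hzyN : zz j ≤ y := by exact_mod_cast hzy
  have hyN0 : 0 < y := by exact_mod_cast hy0
  have hky : j ≤ y := (by omega : j ≤ zz j).trans hzyN
  have hyE : (y : ℝ) ≤ Real.exp j := by
    have h5 : (y : ℝ) ≤ (j : ℝ) ^ A := by exact_mod_cast hy2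
    have h6 : (0 : ℝ) ≤ (j : ℝ) ^ A := by positivity
    linarith
  obtain ⟨b1, b2, b3⟩ := g3 y hky
  have hVz : 0 < V (Pr (zz j)) := V_pos (Pr_prime _)
  have hV3 : 0 < V (Pr (j / 3)) := V_pos (Pr_prime _)
  have hVj : 0 < V (Pr j) := V_pos (Pr_prime _)
  have hVj3 : V (Pr j) ≤ V (Pr (j / 3)) := V_anti (hsub3 j) (Pr_prime _)
  constructor
  · obtain ⟨m, m1, m2, m3⟩ := g1 y hy1 hy2
    refine ⟨m, m1, m2, ?_⟩
    have hm0 : (0 : ℝ) < m := (Real.exp_pos _).trans_le m1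
    have hm1 : 1 ≤ m := by
      have : 0 < m := by exact_mod_cast hm0
      omega
    obtain ⟨s1', s2'⟩ := sandwich2 (fun q => a q ω) h3 m y hm1
    obtain ⟨N, hN⟩ : ∃ N : ℝ, N = (NM (model (fun q => a q ω)) m y : ℝ) := ⟨_, rfl⟩
    have hN0 : 0 ≤ N := by rw [hN]; exact Nat.cast_nonneg _
    rw [← hN]
    obtain ⟨κ, hκ⟩ : ∃ κ : ℝ, κ = (cnt (cmax j y) (j / 3) 0 y : ℝ) / (y * V (Pr (j / 3))) := ⟨_, rfl⟩
    have hκe : (cnt (cmax j y) (j / 3) 0 y : ℝ) = κ * (y * V (Pr (j / 3))) := by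
      rw [hκ]; field_simp
    have hκ0 : 0 ≤ κ := by rw [hκ]; positivity
    have hκL : sp j y - 2 * δ * C1 ≤ κ := by
      have h4 : (Sp j y : ℝ) ≤ cnt (cmax j y) (j / 3) 0 y := by
        rw [← hx2 j y]
        exact_mod_cast cnt_anti _ (by omega : j / 3 ≤ j) 0 y
      rw [Sp_eq j y hyN0] at h4
      have h5 : (1 - δ) * V (Pr (j / 3)) ≤ V (Pr j) :=
        g8.trans (V_anti (Pr_mono (by omega)) (Pr_prime _))
      have h6 : sp j y * (y * ((1 - δ) * V (Pr (j / 3)))) ≤ sp j y * (y * V (Pr j)) := by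
        apply mul_le_mul_of_nonneg_left _ (b1.trans b2)
        exact mul_le_mul_of_nonneg_left h5 hy0.le
      have h7 : (sp j y * (1 - δ)) * (y * V (Pr (j / 3))) ≤ κ * (y * V (Pr (j / 3))) := by
        rw [← hκe]
        have e : (sp j y * (1 - δ)) * (y * V (Pr (j / 3))) = sp j y * (y * ((1 - δ) * V (Pr (j / 3)))) := by ring
        rw [e]; linarith
      have h8 := le_of_mul_le_mul_right h7 (by positivity)
      have h9 : sp j y - 2 * δ * C1 ≤ sp j y * (1 - δ) := by nlinarith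
      linarith
    have hlog : Real.log (((m + y : ℕ)) : ℝ) ≤ (j : ℝ) + 2 := by
      rw [Real.log_le_iff_le_exp (by push_cast; positivity)]
      have e : Real.exp ((j : ℝ) + 2) = Real.exp j * Real.exp 2 := Real.exp_add _ _
      have h3 : (3 : ℝ) ≤ Real.exp 2 := by
        have := Real.add_one_le_exp (2 : ℝ); linarith
      rw [e]
      push_cast
      nlinarith [Real.exp_pos (j : ℝ)]
    have h4 := card_TT_mono (fun p => a p ω) (Ioc m (m + y)) hlog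
    have h5 := (Nat.cast_le (α := ℝ)).2 (h4.trans s1')
    rw [← hN] at h5
    have kl := (abs_le.1 m3).1
    rw [hκe] at kl
    have e1 : ∀ v : ℝ, κ * (y * V (Pr (j / 3))) * (v / V (Pr (j / 3))) = κ * (y * v) := by
      intro v; field_simp
    rw [e1] at kl
    have h6 : (κ - 3 * ε) * (y * V (TT ((j : ℝ) + 2))) ≤ N := by
      have e2 : (κ - 3 * ε) * (y * V (TT ((j : ℝ) + 2))) =
        κ * (y * V (TT ((j : ℝ) + 2))) - 3 * ε * (y * V (TT ((j : ℝ) + 2))) := by ring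
      rw [e2]; linarith
    -- truncated
    have h7 : (min κ C1 - 3 * ε) * (y * V (TT ((j : ℝ) + 2))) ≤ N := by
      refine le_trans ?_ h6
      apply mul_le_mul_of_nonneg_right _ (mul_nonneg hy0.le (V_pos (TT_prime _)).le)
      have := min_le_left κ C1
      linarith
    have hV := V_TT_ge ((j : ℝ) + 2) (by linarith)
    have h8 := arL hy0 hj0 (by norm_num : (0 : ℝ) ≤ 2) hV h7 hN0 (C1 := C1) (by
      have := min_le_right κ C1
      linarith) (by linarith)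
    have h9 : sp j y - 2 * δ * C1 ≤ min κ C1 := by
      apply le_min hκL
      have : 0 ≤ 2 * δ * C1 := by positivity
      linarith
    have h10 : C1 * 2 / (j : ℝ) ≤ ε₀ / 4 := by
      rw [div_le_div_iff₀ hj0 (by norm_num)]
      nlinarith
    linarith
  · obtain ⟨m, m1, m2, m3⟩ := g2 y hy1 hy2
    refine ⟨m, m1, m2, ?_⟩
    have hm0 : (0 : ℝ) < m := (Real.exp_pos _).trans_le m1
    have hm1 : 1 ≤ m := by
      have : 0 < m := by exact_mod_cast hm0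
      omega
    obtain ⟨s1', s2'⟩ := sandwich2 (fun q => a q ω) h3 m y hm1
    obtain ⟨N, hN⟩ : ∃ N : ℝ, N = (NM (model (fun q => a q ω)) m y : ℝ) := ⟨_, rfl⟩
    have hN0 : 0 ≤ N := by rw [hN]; exact Nat.cast_nonneg _
    rw [← hN]
    obtain ⟨κ, hκ⟩ : ∃ κ : ℝ, κ = (cnt (cmin j y) (j / 3) 0 y : ℝ) / (y * V (Pr (j / 3))) := ⟨_, rfl⟩
    have hκe : (cnt (cmin j y) (j / 3) 0 y : ℝ) = κ * (y * V (Pr (j / 3))) := by
      rw [hκ]; field_simp
    have hκ0 : 0 ≤ κ := by rw [hκ]; positivity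
    have hκU : κ ≤ sm j y + ε₀ / 4 := by
      have h4 := g7 (cmin j y) (fun p hp => hn1 j y p (hsub3 j hp)) 0 y (j / 3) j (by
        have h4 : (2 * (zz j * j) : ℝ) ≤ y := by nlinarith
        exact_mod_cast h4) le_rfl (by omega) (by omega)
      rw [hn2 j y, Sm_eq j y hyN0] at h4
      have h5 : sm j y * (y * V (Pr j)) ≤ sm j y * (y * V (Pr (j / 3))) := by
        apply mul_le_mul_of_nonneg_left _ b1
        exact mul_le_mul_of_nonneg_left hVj3 hy0.le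
      have hl3 : 0 < Real.log ((j / 3 : ℕ) : ℝ) := by linarith
      have h7 : c' / Real.log j ≤ V (Pr (j / 3)) := by
        refine le_trans ?_ g10
        apply div_le_div_of_nonneg_left hc'.le hl3
        apply Real.log_le_log
        · exact_mod_cast (by omega : 0 < j / 3)
        · exact_mod_cast (by omega : j / 3 ≤ j)
      have h8 : ε₁ * (y / Real.log j) ≤ ε₀ / 4 * (y * V (Pr (j / 3))) := by
        have h9 : ε₀ / 4 * (y * (c' / Real.log j)) ≤ ε₀ / 4 * (y * V (Pr (j / 3))) := by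
          apply mul_le_mul_of_nonneg_left _ (by positivity)
          exact mul_le_mul_of_nonneg_left h7 hy0.le
        refine le_trans (le_of_eq ?_) h9
        rw [hε₁]
        field_simp
      have h9 : κ * (y * V (Pr (j / 3))) ≤ (sm j y + ε₀ / 4) * (y * V (Pr (j / 3))) := by
        rw [← hκe]
        have h10 : (sm j y + ε₀ / 4) * (y * V (Pr (j / 3))) = sm j y * (y * V (Pr (j / 3))) + ε₀ / 4 * (y * V (Pr (j / 3))) := by ring
        rw [h10]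
        linarith
      exact le_of_mul_le_mul_right h9 (by positivity)
    have hlog : (j : ℝ) ≤ Real.log (m : ℝ) := (Real.le_log_iff_exp_le hm0).2 m1
    have h4 := card_TT_mono (fun p => a p ω) (Ioc m (m + y)) hlog
    have h5 : N ≤ (((Ioc m (m + y)).filter (fun n => ∀ p ∈ TT (j : ℝ), n % p ≠ a p ω)).card : ℝ) := by
      rw [hN]; exact_mod_cast s2'.trans h4
    have ku := (abs_le.1 m3).2
    rw [hκe] at ku
    have e1 : ∀ v : ℝ, κ * (y * V (Pr (j / 3))) * (v / V (Pr (j / 3))) = κ * (y * v) := by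
      intro v; field_simp
    rw [e1] at ku
    have h6 : N ≤ (κ + 3 * ε) * (y * V (TT (j : ℝ))) := by
      have e2 : (κ + 3 * ε) * (y * V (TT (j : ℝ))) =
        κ * (y * V (TT (j : ℝ))) + 3 * ε * (y * V (TT (j : ℝ))) := by ring
      rw [e2]; linarith
    have hV1 := V_TT_le (j : ℝ) (by linarith) j (by omega) g12
    have hκC : κ + 3 * ε ≤ 2 * C1 + 3 + ε₀ := by linarith
    have h7 := arU hy0 hj0 hj0 hV1 h6 (by linarith) hκC
    have h8 : (2 * C1 + 3 + ε₀) / (j : ℝ) ≤ ε₀ / 4 := by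
      rw [div_le_div_iff₀ hj0 (by norm_num)]
      linarith
    linarith

end Pool.Agent.V5helper42.RS
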