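import Pool.Agent.V5helper42.RS.S7

set_option autoImplicit false

/-!
# Random sieve model: the extremal constants are attained (helper42)
-/

namespace Pool.Agent.V5helper42.RS

open Finset MeasureTheory ProbabilityTheory Filter Topology
open scoped ENNReal
open Pool.Agent.W41 (V V_ge V_pos fac_pos fac_le_one V_le_one)

/-- the shift of the length -/
lemma shift_len (M : Set ℕ) (m y y1 h : ℕ) (E : ℝ) (hE : ∀ m' : ℕ, m ≤ m' → (NM M m' h : ℝ) ≤ E)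
    (h1 : y ≤ y1 + h) (h2 : y1 ≤ y + h) :
    (NM M m y : ℝ) - E ≤ NM M m y1 ∧ (NM M m y1 : ℝ) ≤ NM M m y + E := by
  constructor
  · have q1 : NM M m y ≤ NM M m y1 + NM M (m + y1) h := by
      rw [← NM_add]; exact NM_mono M m h1
    have q2 := hE (m + y1) (Nat.le_add_right _ _)
    have q3 : (NM M m y : ℝ) ≤ NM M m y1 + NM M (m + y1) h := by exact_mod_cast q1
    linarith
  · have q1 : NM M m y1 ≤ NM M m y + NM M (m + y) h := by
      rw [← NM_add]; exact NM_mono M m h2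
    have q2 := hE (m + y) (Nat.le_add_right _ _)
    have q3 : (NM M m y1 : ℝ) ≤ NM M m y + NM M (m + y) h := by exact_mod_cast q1
    linarith

/-- existence of `x` -/
theorem some_x (a τ : ℝ) (ha : 2 + τ < a) (hτ : 0 < τ) (A : ℕ) (hA : a + 1 ≤ A) (ε : ℝ) (hε : 0 < ε)
    (ρ : ℕ → ℕ) (hρ : ∀ p : ℕ, p.Prime → ρ p < p)
    (h : ∀ᶠ j : ℕ in atTop, ∀ y : ℕ, (j : ℝ) ^ (2 + τ) ≤ y → y ≤ j ^ A →
      (∃ m : ℕ, Real.exp j ≤ m ∧ (m : ℝ) ≤ 2 * Real.exp j ∧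
        sp j y - ε ≤ (NM (model ρ) m y : ℝ) * j / y) ∧
      (∃ m : ℕ, Real.exp j ≤ m ∧ (m : ℝ) ≤ 2 * Real.exp j ∧
        (NM (model ρ) m y : ℝ) * j / y ≤ sm j y + ε)) :
    ∀ᶠ X : ℝ in atTop, (∃ x : ℝ, X / 3 ≤ x ∧ x ≤ 3 * X ∧ sP a (Real.log X) - 3 * ε ≤ Rr (model ρ) a x) ∧
      (∃ x : ℝ, X / 3 ≤ x ∧ x ≤ 3 * X ∧ Rr (model ρ) a x ≤ sM a (Real.log X) + 3 * ε) := by
  obtain ⟨C1, hC1, hbd⟩ := sp_bdd
  obtain ⟨C, hC1', hbt⟩ := model_bt
  have hfl : Tendsto (fun x : ℝ => ⌊Real.log x⌋₊) atTop atTop :=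
    tendsto_nat_floor_atTop.comp Real.tendsto_log_atTop
  have ha0 : 0 < a := by linarith
  filter_upwards [hfl.eventually h, hfl.eventually hbd, hfl.eventually hbt,
    Real.tendsto_log_atTop.eventually (pw a τ ha hτ A hA),
    hfl.eventually_ge_atTop ⌈2 * a⌉₊, hfl.eventually_ge_atTop 8,
    hfl.eventually_ge_atTop ⌈(1 + 4 * a) * (C1 + ε) / ε⌉₊, hfl.eventually (ev_log 0 (2 * C * (2 * a + 4) / ε)),
    hfl.eventually (ev_log 0 1), eventually_ge_atTop (2 : ℝ)]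
    with X h1 h2 h3 h4 h5 h6 h7 h8 h8' h9
  obtain ⟨j, hj⟩ : ∃ j : ℕ, j = ⌊Real.log X⌋₊ := ⟨_, rfl⟩
  obtain ⟨t, ht⟩ : ∃ t : ℝ, t = Real.log X := ⟨_, rfl⟩
  rw [← hj] at h1 h2 h3 h5 h6 h7 h8 h8'
  rw [← ht] at h4 hj ⊢
  obtain ⟨H0, hH0d⟩ : ∃ H0 : ℝ, H0 = t ^ a := ⟨_, rfl⟩
  have hX0 : 0 < X := by linarith
  have ht0 : 0 ≤ t := by rw [ht]; exact Real.log_nonneg (by linarith)
  have hj1 : (j : ℝ) ≤ t := by rw [hj]; exact Nat.floor_le ht0
  have hj2 : t < j + 1 := by rw [hj]; exact Nat.lt_floor_add_one _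
  have hjR : (8 : ℝ) ≤ j := by exact_mod_cast h6
  have hj0 : (0 : ℝ) < j := by linarith
  have hja : 2 * a ≤ j := (Nat.le_ceil _).trans (by exact_mod_cast h5)
  have hjC : (1 + 4 * a) * (C1 + ε) ≤ ε * j := by
    have q1 : (1 + 4 * a) * (C1 + ε) / ε ≤ j := (Nat.le_ceil _).trans (by exact_mod_cast h7)
    rw [div_le_iff₀ hε] at q1
    linarith
  have hlog1 : 1 ≤ Real.log (j : ℝ) := by simpa using h8'
  have hlogC : 2 * C * (2 * a + 4) ≤ ε * Real.log (j : ℝ) := by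
    have q1 : 2 * C * (2 * a + 4) / ε ≤ Real.log (j : ℝ) := by simpa using h8
    rw [div_le_iff₀ hε] at q1
    linarith
  have hXe : X = Real.exp t := by rw [ht, Real.exp_log hX0]
  have hXj1 : Real.exp j ≤ X := by rw [hXe]; exact Real.exp_le_exp.2 hj1
  have hXj2 : X ≤ 3 * Real.exp j := by
    have q1 : X ≤ Real.exp (j + 1) := by rw [hXe]; exact Real.exp_le_exp.2 hj2.le
    rw [Real.exp_add] at q1
    have q2 : Real.exp 1 < 3 := by have := Real.exp_one_lt_d9; linarith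
    have q3 : Real.exp (j : ℝ) * Real.exp 1 ≤ Real.exp j * 3 := mul_le_mul_of_nonneg_left q2.le (Real.exp_pos _).le
    linarith
  obtain ⟨p1, p2⟩ := h4
  have p3 := p2 j hj1 (by linarith)
  rw [← hH0d] at p1 p3
  have hH00 : 0 < H0 := by rw [hH0d]; exact Real.rpow_pos_of_pos (by linarith) a
  obtain ⟨y, hy⟩ : ∃ y : ℕ, y = ⌊H0⌋₊ := ⟨_, rfl⟩
  have hy1 : (y : ℝ) ≤ H0 := by rw [hy]; exact Nat.floor_le hH00.le
  have hy2 : H0 < y + 1 := by rw [hy]; exact Nat.lt_floor_add_one _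
  have hyτ : t ^ (2 + τ) ≤ y := by linarith
  have hyj : (j : ℝ) ^ (2 + τ) ≤ y :=
    (Real.rpow_le_rpow (Nat.cast_nonneg _) hj1 (by linarith)).trans hyτ
  have hyA : y ≤ j ^ A := by
    have : (y : ℝ) ≤ ((j ^ A : ℕ) : ℝ) := by push_cast; linarith
    exact_mod_cast this
  have htτ : t ≤ t ^ (2 + τ) := by
    calc t = t ^ (1 : ℝ) := (Real.rpow_one _).symm
      _ ≤ t ^ (2 + τ) := Real.rpow_le_rpow_of_exponent_le (by linarith) (by linarith)
  have hyk : j ≤ y := by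
    have : (j : ℝ) ≤ y := by linarith
    exact_mod_cast this
  have hyN0 : 0 < y := by omega
  have hy0 : (0 : ℝ) < y := by exact_mod_cast hyN0
  obtain ⟨b1, b2, b3⟩ := h2 y hyk
  obtain ⟨r0, hr0⟩ : ∃ r0 : ℝ, r0 = (y : ℝ) / H0 := ⟨_, rfl⟩
  have hr00 : 0 < r0 := by rw [hr0]; positivity
  have hr01 : r0 ≤ 1 := by rw [hr0, div_le_one hH00]; exact hy1
  have hsM : sM a t = r0 * sm j y := by
    rw [sM_eq a t (by linarith) (by rw [← hH0d, ← hy]; exact hyN0), ← hH0d, ← hy, ← hj, hr0]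
  have hsP : sP a t = r0 * sp j y := by
    rw [sP_eq a t (by linarith) (by rw [← hH0d, ← hy]; exact hyN0), ← hH0d, ← hy, ← hj, hr0]
  -- the lengths
  obtain ⟨P, hP⟩ : ∃ P : ℝ, P = (j : ℝ) ^ a := ⟨_, rfl⟩
  have hP0 : 0 < P := by rw [hP]; positivity
  obtain ⟨η, hη⟩ : ∃ η : ℝ, η = 2 * a / j := ⟨_, rfl⟩
  have hη0 : 0 < η := by rw [hη]; positivity
  have hη1 : η ≤ 1 := by rw [hη, div_le_one hj0]; exact hja
  have hpw2 : ((j : ℝ) + 1) ^ a ≤ (1 + η) * P := by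
    rw [hη, hP]; exact pw2 a ha0 j hja (by omega)
  have hjP : (j : ℝ) ^ 2 ≤ P := by
    rw [hP]
    calc (j : ℝ) ^ 2 = (j : ℝ) ^ (2 : ℝ) := by norm_num
      _ ≤ (j : ℝ) ^ a := Real.rpow_le_rpow_of_exponent_le (by linarith) (by linarith)
  have range1 : ∀ s : ℝ, (j : ℝ) ≤ s → s ≤ j + 1 → P ≤ s ^ a ∧ s ^ a ≤ (1 + η) * P := by
    intro s q1 q2
    refine ⟨by rw [hP]; exact Real.rpow_le_rpow hj0.le q1 ha0.le, ?_⟩
    exact (Real.rpow_le_rpow (by linarith) q2 ha0.le).trans hpw2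
  obtain ⟨hP1, hP2⟩ := range1 t hj1 hj2.le
  rw [← hH0d] at hP1 hP2
  obtain ⟨h', hh'⟩ : ∃ h' : ℕ, h' = j + ⌈η * P⌉₊ + 2 := ⟨_, rfl⟩
  have hjh' : j ≤ h' := by omega
  have hh'R : (h' : ℝ) ≤ (2 * a + 4) * (P / j) := by
    have q1 : ((⌈η * P⌉₊ : ℕ) : ℝ) < η * P + 1 := Nat.ceil_lt_add_one (by positivity)
    have q2 : (h' : ℝ) ≤ j + (η * P + 1) + 2 := by rw [hh']; push_cast; linarith
    have q3 : (j : ℝ) ≤ P / j := by
      rw [le_div_iff₀ hj0, ← sq]; exact hjP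
    have q4 : η * P = 2 * a * (P / j) := by rw [hη]; ring
    rw [q4] at q2
    have q5 : (2 * a + 4) * (P / j) = 2 * a * (P / j) + 4 * (P / j) := by ring
    rw [q5]
    linarith
  obtain ⟨E, hE⟩ : ∃ E : ℝ, E = C * (h' / Real.log j) := ⟨_, rfl⟩
  have hE0 : 0 ≤ E := by
    rw [hE]
    exact mul_nonneg (by linarith) (div_nonneg (Nat.cast_nonneg _) (by linarith))
  -- the common part
  have common : ∀ m : ℕ, Real.exp j ≤ m → (m : ℝ) ≤ 2 * Real.exp j →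
      X / 3 ≤ m ∧ (m : ℝ) ≤ 3 * X ∧
      (1 - η) * (r0 * ((NM (model ρ) m y : ℝ) * j / y)) - ε ≤ Rr (model ρ) a m ∧
      Rr (model ρ) a m ≤ (1 + 1 / j) * ((1 + η) * (r0 * ((NM (model ρ) m y : ℝ) * j / y))) + ε := by
    intro m m1 m2
    have hm0 : (0 : ℝ) < m := (Real.exp_pos _).trans_le m1
    obtain ⟨L, hL⟩ : ∃ L : ℝ, L = Real.log (m : ℝ) := ⟨_, rfl⟩
    have hL1 : (j : ℝ) ≤ L := by rw [hL]; exact (Real.le_log_iff_exp_le hm0).2 m1
    have hL2 : L ≤ j + 1 := by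
      rw [hL, Real.log_le_iff_le_exp hm0, Real.exp_add]
      have q1 : 2 < Real.exp 1 := by have := Real.exp_one_gt_d9; linarith
      have q2 : Real.exp (j : ℝ) * 2 ≤ Real.exp j * Real.exp 1 := mul_le_mul_of_nonneg_left q1.le (Real.exp_pos _).le
      linarith
    obtain ⟨H, hH⟩ : ∃ H : ℝ, H = L ^ a := ⟨_, rfl⟩
    obtain ⟨hH1, hH2⟩ := range1 L hL1 hL2
    rw [← hH] at hH1 hH2
    have hH0 : 0 < H := hP0.trans_le hH1
    obtain ⟨y1, hy1d⟩ : ∃ y1 : ℕ, y1 = ⌊H⌋₊ := ⟨_, rfl⟩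
    have hy11 : (y1 : ℝ) ≤ H := by rw [hy1d]; exact Nat.floor_le hH0.le
    have hy12 : H < y1 + 1 := by rw [hy1d]; exact Nat.lt_floor_add_one _
    have hCC : CC (model ρ) (m : ℝ) ((m : ℝ) + H) = NM (model ρ) m y1 := by
      rw [CC_floor _ _ _ hm0.le (by linarith), Nat.floor_natCast]
      congr 1
      rw [add_comm, Nat.floor_add_natCast hH0.le, ← hy1d]
      omega
    have hRr : Rr (model ρ) a m = L / H * (NM (model ρ) m y1 : ℝ) := by
      unfold Rr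
      rw [← hL, ← hH, hCC]
    have hhP : η * P + 1 ≤ (h' : ℝ) := by
      have q1 : η * P ≤ ((⌈η * P⌉₊ : ℕ) : ℝ) := Nat.le_ceil _
      rw [hh']; push_cast
      linarith
    have hs := shift_len (model ρ) m y y1 h' E (by
      intro m' hmm
      rw [hE]
      exact h3 ρ hρ m' h' (m1.trans (by exact_mod_cast hmm)) hjh') (by
      have : (y : ℝ) < ((y1 + h' + 1 : ℕ) : ℝ) := by push_cast; linarith
      have : y < y1 + h' + 1 := by exact_mod_cast this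
      omega) (by
      have : (y1 : ℝ) < ((y + h' + 1 : ℕ) : ℝ) := by push_cast; linarith
      have : y1 < y + h' + 1 := by exact_mod_cast this
      omega)
    obtain ⟨s1, s2⟩ := hs
    obtain ⟨N, hN⟩ : ∃ N : ℝ, N = (NM (model ρ) m y : ℝ) := ⟨_, rfl⟩
    have hN0 : 0 ≤ N := by rw [hN]; exact Nat.cast_nonneg _
    rw [← hN] at s1 s2 ⊢
    obtain ⟨u, hu⟩ : ∃ u : ℝ, u = N * j / y := ⟨_, rfl⟩
    have hu0 : 0 ≤ u := by rw [hu]; positivity
    rw [← hu]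
    have hLH0 : 0 < L / H := by
      apply div_pos _ hH0
      linarith
    have hsmall : L / H * E ≤ ε := by
      have q1 : L / H ≤ 2 * j / P := by
        apply div_le_div₀ (by positivity) (by linarith) hP0 hH1
      have q2 : E ≤ C * ((2 * a + 4) * (P / j) / Real.log j) := by
        rw [hE]
        apply mul_le_mul_of_nonneg_left _ (by linarith)
        exact div_le_div_of_nonneg_right hh'R (by linarith)
      have q3 : L / H * E ≤ (2 * j / P) * (C * ((2 * a + 4) * (P / j) / Real.log j)) :=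
        mul_le_mul q1 q2 hE0 (by positivity)
      have q4 : (2 * j / P) * (C * ((2 * a + 4) * (P / j) / Real.log j)) = 2 * C * (2 * a + 4) / Real.log j := by
        field_simp
      rw [q4] at q3
      refine q3.trans ?_
      rw [div_le_iff₀ (by linarith)]
      exact hlogC
    have hLN : L / H * N = (L / j) * ((H0 / H) * (r0 * u)) := by
      rw [hr0, hu]; field_simp
    have hLj1 : 1 ≤ L / j := by rw [one_le_div hj0]; exact hL1
    have hLj2 : L / j ≤ 1 + 1 / j := by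
      rw [div_le_iff₀ hj0]
      have : (1 + 1 / (j : ℝ)) * j = j + 1 := by field_simp
      rw [this]; exact hL2
    have hHH1 : 1 - η ≤ H0 / H := by
      rw [le_div_iff₀ hH0]
      have q1 : (1 - η) * H ≤ (1 - η) * ((1 + η) * P) := mul_le_mul_of_nonneg_left hH2 (by linarith)
      have q2 : (1 - η) * ((1 + η) * P) = P - η ^ 2 * P := by ring
      have q3 : 0 ≤ η ^ 2 * P := by positivity
      linarith
    have hHH2 : H0 / H ≤ 1 + η := by
      rw [div_le_iff₀ hH0]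
      have q1 : (1 + η) * P ≤ (1 + η) * H := mul_le_mul_of_nonneg_left hH1 (by linarith)
      linarith
    have hru : 0 ≤ r0 * u := by positivity
    refine ⟨by linarith, by linarith, ?_, ?_⟩
    · rw [hRr]
      have q1 : L / H * (N - E) ≤ L / H * (NM (model ρ) m y1 : ℝ) := mul_le_mul_of_nonneg_left s1 hLH0.le
      have q2 : L / H * (N - E) = L / H * N - L / H * E := by ring
      rw [q2, hLN] at q1
      have q3 : (1 - η) * (r0 * u) ≤ (H0 / H) * (r0 * u) := mul_le_mul_of_nonneg_right hHH1 hru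
      have q4 : (H0 / H) * (r0 * u) ≤ (L / j) * ((H0 / H) * (r0 * u)) :=
        le_mul_of_one_le_left (by positivity) hLj1
      linarith
    · rw [hRr]
      have q1 : L / H * (NM (model ρ) m y1 : ℝ) ≤ L / H * (N + E) := mul_le_mul_of_nonneg_left s2 hLH0.le
      have q2 : L / H * (N + E) = L / H * N + L / H * E := by ring
      rw [q2, hLN] at q1
      have q3 : (H0 / H) * (r0 * u) ≤ (1 + η) * (r0 * u) := mul_le_mul_of_nonneg_right hHH2 hru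
      have q4 : (L / j) * ((H0 / H) * (r0 * u)) ≤ (1 + 1 / j) * ((1 + η) * (r0 * u)) :=
        mul_le_mul hLj2 q3 (by positivity) (by positivity)
      linarith
  obtain ⟨⟨m, m1, m2, m3⟩, ⟨m', m1', m2', m3'⟩⟩ := h1 y hyj hyA
  have hηC : 2 * η * (C1 + ε) + 1 / j * (C1 + ε) ≤ ε := by
    have q1 : 2 * η * (C1 + ε) + 1 / j * (C1 + ε) = (1 + 4 * a) * (C1 + ε) / j := by
      rw [hη]; ring
    rw [q1, div_le_iff₀ hj0]
    exact hjC
  have hjinv : 0 < 1 / (j : ℝ) := by positivity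
  constructor
  · obtain ⟨x1, x2, x3, x4⟩ := common m m1 m2
    refine ⟨m, x1, x2, ?_⟩
    obtain ⟨u, hu⟩ : ∃ u : ℝ, u = (NM (model ρ) m y : ℝ) * j / y := ⟨_, rfl⟩
    rw [← hu] at m3 x3
    have hu0 : 0 ≤ u := by rw [hu]; positivity
    rw [hsP]
    have hsp0 : 0 ≤ sp j y := b1.trans b2
    -- truncated
    obtain ⟨v, hv⟩ : ∃ v : ℝ, v = min (r0 * u) C1 := ⟨_, rfl⟩
    have hv1 : v ≤ r0 * u := by rw [hv]; exact min_le_left _ _
    have hv2 : v ≤ C1 := by rw [hv]; exact min_le_right _ _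
    have hv3 : r0 * sp j y - ε ≤ v := by
      rw [hv]
      apply le_min
      · have q1 : r0 * (sp j y - ε) ≤ r0 * u := mul_le_mul_of_nonneg_left m3 hr00.le
        have q2 : r0 * ε ≤ ε := mul_le_of_le_one_left hε.le hr01
        rw [mul_sub] at q1
        linarith
      · have q1 : r0 * sp j y ≤ C1 := (mul_le_of_le_one_left hsp0 hr01).trans b3
        linarith
    have q1 : (1 - η) * v ≤ (1 - η) * (r0 * u) := mul_le_mul_of_nonneg_left hv1 (by linarith)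
    have q2 : η * v ≤ η * C1 := mul_le_mul_of_nonneg_left hv2 hη0.le
    have q3 : η * C1 ≤ ε := by
      have z1 : 0 ≤ η * C1 := mul_nonneg hη0.le (by linarith)
      have z2 : 0 ≤ η * ε := mul_nonneg hη0.le hε.le
      have z3 : 0 ≤ 1 / (j : ℝ) * (C1 + ε) := mul_nonneg hjinv.le (by linarith)
      have z4 : 2 * η * (C1 + ε) = 2 * (η * C1) + 2 * (η * ε) := by ring
      linarith
    have q4 : (1 - η) * v = v - η * v := by ring
    linarith
  · obtain ⟨x1, x2, x3, x4⟩ := common m' m1' m2'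
    refine ⟨m', x1, x2, ?_⟩
    obtain ⟨u, hu⟩ : ∃ u : ℝ, u = (NM (model ρ) m' y : ℝ) * j / y := ⟨_, rfl⟩
    rw [← hu] at m3' x4
    have hu0 : 0 ≤ u := by rw [hu]; positivity
    rw [hsM]
    have q1 : r0 * u ≤ r0 * sm j y + ε := by
      have q1 : r0 * u ≤ r0 * (sm j y + ε) := mul_le_mul_of_nonneg_left m3' hr00.le
      have q2 : r0 * ε ≤ ε := mul_le_of_le_one_left hε.le hr01
      rw [mul_add] at q1
      linarith
    have q2 : r0 * u ≤ C1 + ε := by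
      have : r0 * sm j y ≤ C1 := (mul_le_of_le_one_left b1 hr01).trans (b2.trans b3)
      linarith
    have hru : 0 ≤ r0 * u := by positivity
    have q3 : (1 + 1 / (j : ℝ)) * ((1 + η) * (r0 * u)) ≤ r0 * u + (2 * η * (C1 + ε) + 1 / j * (C1 + ε)) := by
      have e1 : (1 + 1 / (j : ℝ)) * ((1 + η) * (r0 * u)) = r0 * u + (η * (1 + 1 / j)) * (r0 * u) + 1 / j * (r0 * u) := by ring
      rw [e1]
      have q4 : 1 / (j : ℝ) ≤ 1 := by rw [div_le_one hj0]; linarith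
      have q5 : (η * (1 + 1 / j)) * (r0 * u) ≤ (η * 2) * (C1 + ε) := by
        apply mul_le_mul _ q2 hru (by positivity)
        apply mul_le_mul_of_nonneg_left _ hη0.le
        linarith
      have q6 : 1 / (j : ℝ) * (r0 * u) ≤ 1 / j * (C1 + ε) := mul_le_mul_of_nonneg_left q2 hjinv.le
      linarith
    linarith

theorem main2 {Ω : Type*} [MeasurableSpace Ω] (μ : Measure Ω) [IsProbabilityMeasure μ] (a : ℕ → Ω → ℕ)
    (hm : ∀ p, Measurable (a p)) (hi : iIndepFun a μ)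
    (hu : ∀ p : ℕ, p.Prime → ∀ r < p, μ {ω | a p ω = r} = (p : ℝ≥0∞)⁻¹) :
    ∀ᵐ ω ∂μ, ∀ s : ℝ, 2 < s → ∀ ε : ℝ, 0 < ε →
      (∀ᶠ x : ℝ in atTop, sM s (Real.log x) - ε ≤ Rr (model fun p => a p ω) s x ∧
        Rr (model fun p => a p ω) s x ≤ sP s (Real.log x) + ε) ∧
      (∀ᶠ X : ℝ in atTop,
        (∃ x : ℝ, X / 3 ≤ x ∧ x ≤ 3 * X ∧ sP s (Real.log X) - ε ≤ Rr (model fun p => a p ω) s x) ∧
        (∃ x : ℝ, X / 3 ≤ x ∧ x ≤ 3 * X ∧ Rr (model fun p => a p ω) s x ≤ sM s (Real.log X) + ε)) := by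
  have h1 : ∀ᵐ ω ∂μ, ∀ n : ℕ, ∀ᶠ m : ℕ in atTop, ∀ y : ℕ, (jj m : ℝ) ^ (2 + 1 / ((n : ℝ) + 1)) ≤ y → y ≤ jj m ^ (n + 3) →
      ∀ k : ℕ, (k = jj m ∨ k = jj m + 1) →
      sm k y - 1 / ((n : ℝ) + 1) ≤ (NM (model (fun q => a q ω)) m y : ℝ) * Real.log m / y ∧
      (NM (model (fun q => a q ω)) m y : ℝ) * Real.log m / y ≤ sp k y + 1 / ((n : ℝ) + 1) := by
    rw [ae_all_iff]
    intro n
    exact ae_A μ a hm hi hu (n + 3) (by omega) (1 / ((n : ℝ) + 1)) (by positivity) (1 / ((n : ℝ) + 1)) (by positivity)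
  have h2 : ∀ᵐ ω ∂μ, ∀ n : ℕ, ∀ᶠ j : ℕ in atTop, ∀ y : ℕ, (j : ℝ) ^ (2 + 1 / ((n : ℝ) + 1)) ≤ y → y ≤ j ^ (n + 3) →
      (∃ m : ℕ, Real.exp j ≤ m ∧ (m : ℝ) ≤ 2 * Real.exp j ∧
        sp j y - 1 / ((n : ℝ) + 1) ≤ (NM (model (fun q => a q ω)) m y : ℝ) * j / y) ∧
      (∃ m : ℕ, Real.exp j ≤ m ∧ (m : ℝ) ≤ 2 * Real.exp j ∧
        (NM (model (fun q => a q ω)) m y : ℝ) * j / y ≤ sm j y + 1 / ((n : ℝ) + 1)) := by
    rw [ae_all_iff]
    intro n
    exact ae_B μ a hm hi hu (n + 3) (by omega) (1 / ((n : ℝ) + 1)) (by positivity) (1 / ((n : ℝ) + 1)) (by positivity)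
  filter_upwards [h1, h2, ae_lt μ a hm hu] with ω g1 g2 g3
  intro s hs ε hε
  obtain ⟨n1, hn1⟩ := exists_nat_gt (1 / (s - 2))
  obtain ⟨n2, hn2⟩ := exists_nat_gt (3 / ε)
  obtain ⟨n3, hn3⟩ := exists_nat_gt s
  obtain ⟨n, hn⟩ : ∃ n : ℕ, n = n1 + n2 + n3 := ⟨_, rfl⟩
  have hnR : (n : ℝ) = n1 + n2 + n3 := by rw [hn]; push_cast; ring
  have q1 : (0 : ℝ) ≤ n1 := Nat.cast_nonneg _
  have q2 : (0 : ℝ) ≤ n2 := Nat.cast_nonneg _
  have q3 : (0 : ℝ) ≤ n3 := Nat.cast_nonneg _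
  have k1 : 2 + 1 / ((n : ℝ) + 1) < s := by
    have h3 : 1 / ((n : ℝ) + 1) < s - 2 := by
      rw [div_lt_iff₀ (by linarith)] at hn1
      rw [div_lt_iff₀ (by linarith)]
      have h4 : (n1 : ℝ) * (s - 2) ≤ ((n : ℝ) + 1) * (s - 2) :=
        mul_le_mul_of_nonneg_right (by linarith) (by linarith)
      linarith
    linarith
  have k2 : 3 * (1 / ((n : ℝ) + 1)) ≤ ε := by
    rw [div_lt_iff₀ hε] at hn2
    rw [mul_one_div, div_le_iff₀ (by linarith)]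
    have h4 : (n2 : ℝ) * ε ≤ ((n : ℝ) + 1) * ε := mul_le_mul_of_nonneg_right (by linarith) hε.le
    linarith
  have k3 : s + 1 ≤ ((n + 3 : ℕ) : ℝ) := by push_cast; linarith
  have r1 := all_x (model fun p => a p ω) s (1 / ((n : ℝ) + 1)) k1 (by positivity) (n + 3) k3 (1 / ((n : ℝ) + 1))
    (by positivity) (g1 n)
  have r2 := some_x s (1 / ((n : ℝ) + 1)) k1 (by positivity) (n + 3) k3 (1 / ((n : ℝ) + 1))
    (by positivity) (fun p => a p ω) g3 (g2 n)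
  constructor
  · filter_upwards [r1] with x hx
    exact ⟨by linarith [hx.1], by linarith [hx.2]⟩
  · filter_upwards [r2] with X hX
    obtain ⟨⟨x1, u1, u2, u3⟩, ⟨x2, v1, v2, v3⟩⟩ := hX
    exact ⟨⟨x1, u1, u2, by linarith⟩, ⟨x2, v1, v2, by linarith⟩⟩

end Pool.Agent.V5helper42.RS
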